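import Pool.Agent.MP_f56020_al.s2.Aff

-- ======== part 0: formerly Pool.Agent.MP_f56020_al.s2.Core
section MrgPart0

namespace Pool.Agent.SQ2

open Pool.Agent.SQ Multiset

universe u

theorem sum_rot {A : Type*} [AddCancelCommMonoid A] (F : ℕ → A) {m : ℕ} (h : F m = F 0) :
    ∑ j ∈ Finset.range m, F (j + 1) = ∑ j ∈ Finset.range m, F j := by
  have h1 := Finset.sum_range_succ F m
  rw [Finset.sum_range_succ', h] at h1
  exact add_right_cancel h1

theorem bind_sum' {α β γ : Type*} (W : Multiset α) (s : Finset β) (g : α → β → Multiset γ) :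
    (W.bind fun u => ∑ j ∈ s, g u j) = ∑ j ∈ s, W.bind (g · j) := by
  classical
  induction s using Finset.induction_on with
  | empty => simp
  | insert a s ha ih => simp only [Finset.sum_insert ha, bind_add, ih]

theorem sum_bind' {α β γ : Type*} (s : Finset β) (f : β → α) (g : α → Multiset γ) :
    (∑ j ∈ s, ({f j} : Multiset α)).bind g = ∑ j ∈ s, g (f j) := by
  classical
  induction s using Finset.induction_on with
  | empty => simp
  | insert a s ha ih => simp only [Finset.sum_insert ha, add_bind, ih, singleton_bind]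

theorem bind_fib {α W : Type*} [Finite α] [Finite W] (P : α → Prop) (f : α → W) :
    ((al W).bind fun w => st fun g => P g ∧ f g = w) = st P := by
  classical
  have := Fintype.ofFinite W
  have h : al W = Finset.univ.val := (eq_st Finset.univ.nodup (by simp)).symm
  ext g
  rw [count_bind, h, count_st]
  change ∑ w : W, count g (st fun g => P g ∧ f g = w) = _
  simp only [count_st]
  by_cases hg : P g <;> simp [hg]

theorem card_bind_const {α β : Type*} (W : Multiset α) (g : α → Multiset β) {m : ℕ}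
    (h : ∀ u, card (g u) = m) : card (W.bind g) = m * card W := by
  induction W using Multiset.induction_on with
  | empty => simp
  | cons a s ih => rw [cons_bind, card_add, ih, h, card_cons]; ring

/-- The orbit of a point under a transitive permutation. -/
theorem orbit_st {W : Type*} [Finite W] {π : W → W} (hi : Function.Injective π) {p : W → Prop}
    (hp : ∀ u, p u → p (π u)) (ht : Tr π p) {u : W} (hu : p u) :
    ∃ N, π^[N + 1] u = u ∧ (∑ l ∈ Finset.range (N + 1), {π^[l] u} : Multiset W) = st p := by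
  have h0 := Function.minimalPeriod_pos_of_mem_periodicPts (hi.mem_periodicPts u)
  obtain ⟨N, hN⟩ : ∃ N, Function.minimalPeriod π u = N + 1 := ⟨_, (Nat.succ_pred_eq_of_pos h0).symm⟩
  refine ⟨N, hN ▸ Function.iterate_minimalPeriod, ?_⟩
  rw [sum_single]
  refine eq_st (Nodup.map_on (fun i h j h' e => ?_) (Finset.range _).nodup) fun v => ⟨?_, ?_⟩
  · exact (Function.iterate_eq_iterate_iff_of_lt_minimalPeriod (hN ▸ Finset.mem_range.1 h)
      (hN ▸ Finset.mem_range.1 h')).1 e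
  · intro hv
    obtain ⟨l, -, rfl⟩ := mem_map.1 hv
    clear hv
    induction l with
    | zero => exact hu
    | succ l ih =>
      rw [Function.iterate_succ_apply']
      exact hp _ ih
  · intro hv
    obtain ⟨l, rfl⟩ := ht u v hu hv
    refine mem_map.2 ⟨l % (N + 1), Finset.mem_range.2 (Nat.mod_lt _ N.succ_pos), ?_⟩
    rw [← hN, Function.iterate_mod_minimalPeriod_eq]

theorem wk_iter {W G : Type*} {π : W → W} {α : W → G} {A : W → Multiset (G × G)}
    (h : ∀ u, Wk (α u) (α (π u)) (A u)) (u : W) (N : ℕ) :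
    Wk (α u) (α (π^[N] u)) ((∑ l ∈ Finset.range N, {π^[l] u} : Multiset W).bind A) := by
  induction N with
  | zero => simpa using Wk.nil _
  | succ N ih =>
    rw [Finset.sum_range_succ, add_bind, singleton_bind, Function.iterate_succ_apply']
    exact ih.trans (h _)

variable {G : Type*} [Group G] [Finite G] {M K H : Subgroup G} {a b a' b' g x y : G}
  {τ f : ℕ → G} {m n i j : ℕ} {X Y : Multiset G} {A B : Multiset (G × G)}

theorem mem_cs : g ∈ cs M a b ↔ a * g * b⁻¹ ∈ M := mem_st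
theorem cs_congr (ha : a' * a⁻¹ ∈ M) (hb : b' * b⁻¹ ∈ M) : cs M a' b' = cs M a b :=
  st_congr fun g => by
    have e : a' * g * b'⁻¹ = (a' * a⁻¹) * (a * g * b⁻¹) * (b' * b⁻¹)⁻¹ := by group
    rw [e, M.mul_mem_cancel_right (M.inv_mem hb), M.mul_mem_cancel_left ha]
theorem cs_bot (a b : G) : cs ⊥ a b = {a⁻¹ * b} := by
  rw [single_eq_st]
  refine st_congr fun g => ?_
  rw [Subgroup.mem_bot, mul_inv_eq_one, eq_inv_mul_iff_mul_eq]
theorem cv_zero : cv M (0 : Multiset (G × G)) = 0 := zero_bind _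
theorem cl_zero : cl M (0 : Multiset (G × G)) = 0 := zero_bind _
theorem cv_add (A B : Multiset (G × G)) : cv M (A + B) = cv M A + cv M B := add_bind _ _ _
theorem cl_add (A B : Multiset (G × G)) : cl M (A + B) = cl M A + cl M B := add_bind _ _ _
theorem cv_one (a b : G) : cv M {(a, b)} = cs M 1 b := singleton_bind _ _
theorem cl_one (a b : G) : cl M {(a, b)} = cs M a b := singleton_bind _ _
theorem cv_bot (A : Multiset (G × G)) : cv ⊥ A = hd A := by
  simp only [cv, cs_bot, inv_one, one_mul, bind_singleton, hd]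
theorem cl_bot (A : Multiset (G × G)) : cl ⊥ A = lb A := by
  simp only [cl, cs_bot, bind_singleton, lb]
theorem cv_sgm (τ : ℕ → G) (i k : ℕ) :
    cv M (sgm τ i k) = ∑ j ∈ Finset.range k, cs M 1 (τ (i + j + 1)) := sum_bind' _ _ _
theorem cl_sgm' (τ : ℕ → G) (i k : ℕ) :
    cl M (sgm τ i k) = ∑ j ∈ Finset.range k, cs M (τ (i + j)) (τ (i + j + 1)) := sum_bind' _ _ _
theorem ou_add_nz (H : Subgroup G) : ou H + nz H = st (· ≠ 1) :=
  st_add (fun _ h h' => h h'.1) fun g => ⟨fun h => (em (g ∈ H)).elim (fun h' => Or.inr ⟨h', h⟩)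
    Or.inl, fun h => h.elim (fun h' e => h' (e ▸ H.one_mem)) fun h' => h'.2⟩

/-- The heads may be counted from `0`. -/
theorem Fr.of (h0 : τ m = τ 0) (h1 : ∑ j ∈ Finset.range m, cs M 1 (τ j) = X)
    (h2 : ∑ j ∈ Finset.range m, cs M (τ j) (τ (j + 1)) = Y) : Fr M τ m X Y := by
  refine ⟨h0, ?_, ?_⟩
  · rw [cv_sgm, ← h1, ← sum_rot (fun j => cs M 1 (τ j)) (by rw [h0])]
    simp only [zero_add]
  · rw [cl_sgm', ← h2]
    simp only [zero_add]
theorem Fr.vs' (h : Fr M τ m X Y) : ∑ j ∈ Finset.range m, cs M 1 (τ j) = X := by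
  rw [← h.vs, cv_sgm, ← sum_rot (fun j => cs M 1 (τ j)) (by rw [h.cy])]
  simp only [zero_add]
theorem Fr.ls' (h : Fr M τ m X Y) : ∑ j ∈ Finset.range m, cs M (τ j) (τ (j + 1)) = Y := by
  rw [← h.ls, cl_sgm']
  simp only [zero_add]
theorem Fr.congr (h : Fr M f m X Y) (hτ : ∀ j ≤ m, τ j * (f j)⁻¹ ∈ M) (h0 : τ m = τ 0) :
    Fr M τ m X Y := by
  refine Fr.of h0 (Eq.trans ?_ h.vs') (Eq.trans ?_ h.ls') <;>
    refine Finset.sum_congr rfl fun j hj => ?_ <;> have := Finset.mem_range.1 hj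
  · exact cs_congr (by simp) (hτ j this.le)
  · exact cs_congr (hτ j this.le) (hτ _ this)
theorem Fr.set (h : Fr M τ m X Y) (h0 : 0 < i) (hi : i < m) (hg : g * (τ i)⁻¹ ∈ M) :
    Fr M (Function.update τ i g) m X Y := by
  refine h.congr (fun j _ => ?_) ?_
  · by_cases e : j = i
    · subst e; simpa using hg
    · simp [Function.update_of_ne e]
  · rw [Function.update_of_ne hi.ne', Function.update_of_ne h0.ne, h.cy]
theorem Fr.set0 (h : Fr M τ m X Y) (hg : g * (τ 0)⁻¹ ∈ M) :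
    Fr M (fun j => if j = 0 ∨ j = m then g else τ j) m X Y := by
  refine h.congr (fun j _ => ?_) (by simp)
  split_ifs with e
  · rcases e with rfl | rfl
    · exact hg
    · rwa [h.cy]
  · simp
theorem Fr.mem (h : Fr M τ m X Y) (hm : 0 < m) (hj : j ≤ m) (hg : g * (τ j)⁻¹ ∈ M) : g ∈ X := by
  rw [← h.vs', Multiset.mem_sum]
  rcases hj.lt_or_eq with hj | rfl
  · exact ⟨j, Finset.mem_range.2 hj, mem_cs.2 (by rwa [one_mul])⟩
  · exact ⟨0, Finset.mem_range.2 hm, mem_cs.2 (by rwa [one_mul, ← h.cy])⟩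
theorem Fr.ne (h : Fr M τ m X Y) (hX : X.Nodup) (hi : i < m) (hj : j < m) (hne : i ≠ j) :
    τ i * (τ j)⁻¹ ∉ M := by
  intro hM
  have h1 : cs M 1 (τ i) + cs M 1 (τ j) ≤ X := by
    rw [← h.vs', ← Finset.sum_pair (f := fun j => cs M 1 (τ j)) hne]
    refine Finset.sum_le_sum_of_subset fun k hk => Finset.mem_range.2 ?_
    rcases Finset.mem_insert.1 hk with rfl | hk
    · exact hi
    · rwa [Finset.mem_singleton.1 hk]
  exact disjoint_left.1 (nodup_add.1 (nodup_of_le h1 hX)).2.2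
    (mem_cs.2 (by simp) : τ i ∈ cs M 1 (τ i)) (mem_cs.2 (by rwa [one_mul]))
theorem Fr.shift (h : Fr M τ m X Y) (_hm : 0 < m) (k : ℕ) :
    Fr M (fun j => τ ((k + j) % m)) m X Y := by
  refine Fr.of (by simp) (Eq.trans ?_ h.vs') (Eq.trans ?_ h.ls')
  · rw [sum_shift (fun i => cs M 1 (τ (i % m))) m (by simp) k]
    exact Finset.sum_congr rfl fun j hj => by rw [Nat.mod_eq_of_lt (Finset.mem_range.1 hj)]
  · refine (sum_shift (fun i => cs M (τ (i % m)) (τ ((i + 1) % m))) m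
      (fun i => by rw [add_right_comm]; simp) k).trans (Finset.sum_congr rfl fun j hj => ?_)
    have hj := Finset.mem_range.1 hj
    rw [Nat.mod_eq_of_lt hj]
    rcases (Nat.succ_le_of_lt hj).lt_or_eq with h1 | h1
    · rw [Nat.mod_eq_of_lt h1]
    · rw [show j + 1 = m from h1, Nat.mod_self, h.cy]
theorem Wk.fr (M : Subgroup G) (h : Wk x x A) :
    ∃ τ, τ 0 = x ∧ sgm τ 0 (card A) = A ∧ Fr M τ (card A) (cv M A) (cl M A) := by
  obtain ⟨τ, h0, h1, h2⟩ := h.exists_seq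
  exact ⟨τ, h0, h2, h1.trans h0.symm, by rw [h2], by rw [h2]⟩
theorem Fr.ofRS {Q : Type*} [Group Q] [Finite Q] {F : ℕ → Q} (h : RS F m) (φ : G →* Q)
    (hφ : Function.Surjective φ) :
    ∃ τ, Fr φ.ker τ m (ou φ.ker) (ou φ.ker) ∧ ∀ j, φ (τ j) = F j := by
  choose s hs using hφ
  refine ⟨fun j => s (F j), Fr.of (by rw [← h.per 0, zero_add]) ?_ ?_, fun j => hs _⟩
  · refine Eq.trans ?_ (sum_fib φ _ _ _ h.vs)
    refine Finset.sum_congr rfl fun j _ => st_congr fun g => ?_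
    rw [MonoidHom.mem_ker, one_mul, map_mul, map_inv, hs, mul_inv_eq_one]
  · refine Eq.trans ?_ (sum_fib φ _ _ _ h.ls)
    refine Finset.sum_congr rfl fun j _ => st_congr fun g => ?_
    rw [MonoidHom.mem_ker, map_mul, map_mul, map_inv, hs, hs, mul_inv_eq_one, ld,
      eq_inv_mul_iff_mul_eq]

section
variable {W : Type*} [Group W] {ψ : G → W}

omit [Finite G] in
theorem Quo.one (q : Quo M K ψ) : ψ 1 = 1 := ((q.ker 1).1 K.one_mem).2
omit [Finite G] in
theorem Quo.inv (q : Quo M K ψ) (ha : a ∈ M) : ψ a⁻¹ = (ψ a)⁻¹ := by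
  rw [eq_inv_iff_mul_eq_one, ← q.mul _ (M.inv_mem ha) _ ha, inv_mul_cancel, q.one]
omit [Finite G] in
theorem Quo.le (q : Quo M K ψ) : K ≤ M := fun g h => ((q.ker g).1 h).1
omit [Finite G] in
theorem Quo.sec (q : Quo M K ψ) : ∃ s : W → G, s 1 = 1 ∧ ∀ w, s w ∈ M ∧ ψ (s w) = w := by
  classical
  choose s hs using q.surj
  refine ⟨fun w => if w = 1 then 1 else s w, by simp, fun w => ?_⟩
  by_cases e : w = 1
  · simp [e, q.one]
  · simpa [e] using hs w
omit [Finite G] in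
theorem Quo.ofHom (ψ : M →* W) (h : Function.Surjective ψ) :
    ∃ ψ' : G → W, Quo M (ψ.ker.map M.subtype) ψ' ∧ ∀ g : M, ψ' g = ψ g := by
  classical
  refine ⟨fun g => if h : g ∈ M then ψ ⟨g, h⟩ else 1, ⟨fun a ha b hb => ?_, fun w => ?_,
    fun g => ⟨?_, ?_⟩⟩, fun g => by simp⟩
  · simp only [dif_pos ha, dif_pos hb, dif_pos (M.mul_mem ha hb), ← map_mul]
    rfl
  · obtain ⟨a, rfl⟩ := h w
    exact ⟨a, a.2, by simp⟩
  · rintro ⟨a, ha, rfl⟩
    exact ⟨a.2, by simpa using ha⟩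
  · rintro ⟨h1, h2⟩
    exact ⟨⟨g, h1⟩, by simpa [h1] using h2, rfl⟩
omit [Finite G] in
theorem Quo.card (q : Quo M K ψ) : Nat.card M = Nat.card K * Nat.card W := by
  let f : M →* W := MonoidHom.mk' (fun g => ψ g) fun a b => q.mul _ a.2 _ b.2
  have hf : Function.Surjective f := fun w => by
    obtain ⟨a, ha, e⟩ := q.surj w
    exact ⟨⟨a, ha⟩, e⟩
  have hk : f.ker = K.subgroupOf M := by
    ext g
    rw [MonoidHom.mem_ker, Subgroup.mem_subgroupOf, q.ker]
    exact ⟨fun h => ⟨g.2, h⟩, fun h => h.2⟩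
  rw [← f.ker.card_mul_index, Subgroup.index_ker, MonoidHom.range_eq_top.2 hf, Subgroup.card_top,
    hk, Nat.card_congr (Subgroup.subgroupOfEquivOfLe q.le).toEquiv]

theorem FibC.ne [Finite W] {c : ℕ → W → W} (hc : FibC c m) (j : ℕ) {w : W} (hw : w ≠ 1) :
    c j w ≠ 1 ∧ c j w ≠ w :=
  ⟨fun e => hw ((hc.orth j).1.1 (e.trans (hc.one j).symm)),
    fun e => hw ((hc.orth j).2.1 (by simp only [e, hc.one j, inv_mul_cancel]))⟩

theorem pr_bij {c : ℕ → W → W} (ho : ∀ j, Orth (c j)) (j : ℕ) : Function.Bijective (pr c j) := by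
  induction j with
  | zero => exact Function.bijective_id
  | succ j ih => exact (ho j).1.comp ih

theorem pr_one {c : ℕ → W → W} (j : ℕ) (h : ∀ i < j, c i 1 = 1) : pr c j 1 = 1 := by
  induction j with
  | zero => rfl
  | succ j ih => rw [pr, ih fun i hi => h i (by omega), h j (by omega)]

theorem fibsum [Finite W] (q : Quo M K ψ) (α β : W → G) (ha : ∀ u, α u * a⁻¹ ∈ M)
    (hb : ∀ u, β u * b⁻¹ ∈ M)
    (hθ : Function.Injective fun u => (ψ (α u * a⁻¹))⁻¹ * ψ (β u * b⁻¹)) :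
    ((al W).bind fun u => cs K (α u) (β u)) = cs M a b := by
  rw [cs, ← bind_fib (fun g => a * g * b⁻¹ ∈ M) (fun g => ψ (a * g * b⁻¹))]
  conv_rhs => rw [← map_al hθ, bind_map]
  refine bind_congr fun u _ => st_congr fun g => ?_
  have e : α u * g * (β u)⁻¹ = (α u * a⁻¹) * (a * g * b⁻¹) * (β u * b⁻¹)⁻¹ := by group
  rw [q.ker, e, M.mul_mem_cancel_right (M.inv_mem (hb u)), M.mul_mem_cancel_left (ha u)]
  refine and_congr_right fun hg => ?_
  rw [q.mul _ (M.mul_mem (ha u) hg) _ (M.inv_mem (hb u)), q.mul _ (ha u) _ hg, q.inv (hb u),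
    mul_inv_eq_one, eq_inv_mul_iff_mul_eq]

/-- One turn round the frame. -/
def lap (c : ℕ → W → W) (ρ : ℕ → W → G) (m : ℕ) (u : W) : Multiset (G × G) :=
  sgm (fun j => ρ j (pr c j u)) 0 m

omit [Group G] [Finite G] [Group W] in
theorem wk_lap (c : ℕ → W → W) {ρ : ℕ → W → G} (h3 : ρ m = ρ 0) (u : W) :
    Wk (ρ 0 u) (ρ 0 (pr c m u)) (lap c ρ m u) := by
  have := wk_sgm (fun j => ρ j (pr c j u)) 0 m (zero_add m)
  rwa [h3] at this

theorem lap_tot [Finite W] (q : Quo M K ψ) {c : ℕ → W → W} (ho : ∀ j, Orth (c j))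
    (h : Fr M τ m X Y) (ρ : ℕ → W → G)
    (h1 : ∀ j ≤ m, ∀ w, ρ j w * (τ j)⁻¹ ∈ M ∧ ψ (ρ j w * (τ j)⁻¹) = w) :
    cv K ((al W).bind (lap c ρ m)) = X ∧ cl K ((al W).bind (lap c ρ m)) = Y := by
  constructor
  · rw [cv, bind_assoc, ← h.vs, cv_sgm]
    refine (bind_congr fun u _ => cv_sgm (M := K) _ 0 m).trans ?_
    rw [bind_sum']
    refine Finset.sum_congr rfl fun j hj => ?_
    have hj : 0 + j + 1 ≤ m := by simpa using hj
    refine fibsum q _ _ (by simp) (fun u => (h1 _ hj _).1) ?_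
    simp only [(h1 _ hj _).2]
    exact (mul_right_injective _).comp (pr_bij ho _).1
  · rw [cl, bind_assoc, ← h.ls, cl_sgm']
    refine (bind_congr fun u _ => cl_sgm' (M := K) _ 0 m).trans ?_
    rw [bind_sum']
    refine Finset.sum_congr rfl fun j hj => ?_
    have hj : 0 + j + 1 ≤ m := by simpa using hj
    have hj' : 0 + j ≤ m := by omega
    refine fibsum q _ _ (fun u => (h1 _ hj' _).1) (fun u => (h1 _ hj _).1) ?_
    simp only [(h1 _ hj _).2, (h1 _ hj' _).2]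
    exact (ho (0 + j)).2.1.comp (pr_bij ho _).1

omit [Group G] [Finite G] in
theorem mem_lap [Finite W] {c : ℕ → W → W} (ho : ∀ j, Orth (c j)) (ρ : ℕ → W → G) (hj : j < m)
    (h : ∀ i < j, c i 1 = 1) {w : W} (hw : w ≠ 1) :
    (ρ j w, ρ (j + 1) (c j w)) ∈ (st (· ≠ 1)).bind (lap c ρ m) := by
  obtain ⟨u, rfl⟩ := (pr_bij ho j).2 w
  refine mem_bind.2 ⟨u, mem_st.2 fun e => hw (by rw [e, pr_one j h]), ?_⟩
  exact mem_sgm (fun j => ρ j (pr c j u)) hj

/-- Lifting a frame from `M` to `K`: a short closed walk and a long one. -/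
theorem liftW [Finite W] (q : Quo M K ψ) {c : ℕ → W → W} (hc : FibC c m) (_hm : 0 < m)
    (h : Fr M τ m X Y) (ρ : ℕ → W → G)
    (h1 : ∀ j ≤ m, ∀ w, ρ j w * (τ j)⁻¹ ∈ M ∧ ψ (ρ j w * (τ j)⁻¹) = w)
    (h2 : ∀ j ≤ m, ρ j 1 = τ j) (h3 : ρ m = ρ 0) :
    ∃ L, Cl L ∧ card L = m * (Nat.card W - 1) ∧ cv K (sgm τ 0 m + L) = X ∧
      cl K (sgm τ 0 m + L) = Y ∧ ∀ j < m, ∀ w, w ≠ 1 → (ρ j w, ρ (j + 1) (c j w)) ∈ L := by
  have e : sgm τ 0 m + (st (· ≠ 1)).bind (lap c ρ m) = (al W).bind (lap c ρ m) := by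
    rw [← one_add_nz, add_bind, singleton_bind]
    congr 1
    exact sgm_congr fun j hj => by
      rw [pr_one _ fun i _ => hc.one i, h2 _ (by omega)]
  have ht := lap_tot q hc.orth h ρ h1
  refine ⟨(st (· ≠ 1)).bind (lap c ρ m), ?_, ?_, e ▸ ht.1, e ▸ ht.2,
    fun j hj w hw => mem_lap hc.orth ρ hj (fun i _ => hc.one i) hw⟩
  · by_cases hW : ∃ u : W, u ≠ 1
    · obtain ⟨u, hu⟩ := hW
      obtain ⟨N, k1, k2⟩ := orbit_st (pr_bij hc.orth m).1 (fun v hv e => hv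
        ((pr_bij hc.orth m).1 (e.trans (pr_one _ fun i _ => hc.one i).symm))) hc.tr hu
      have := wk_iter (wk_lap c h3) u (N + 1)
      rw [k1, k2] at this
      exact ⟨_, this⟩
    · have : (st (· ≠ 1) : Multiset W) = 0 :=
        eq_zero_of_forall_notMem fun u hu => hW ⟨u, (mem_st (p := (· ≠ 1))).1 hu⟩
      rw [this, zero_bind]
      exact ⟨τ m, Wk.nil _⟩
  · rw [card_bind_const _ (lap c ρ m) fun u => card_sgm _ 0 m, ← card_ne (1 : W), Nat.add_sub_cancel]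

/-- Lifting a frame from `M` to `K`: one closed walk that starts with the representatives. -/
theorem oneW [Finite W] (q : Quo M K ψ) {c : ℕ → W → W} (hc : OneC c (n + 1))
    (h : Fr M τ (n + 1) X Y) (ρ : ℕ → W → G)
    (h1 : ∀ j ≤ n + 1, ∀ w, ρ j w * (τ j)⁻¹ ∈ M ∧ ψ (ρ j w * (τ j)⁻¹) = w)
    (h2 : ∀ j ≤ n + 1, ρ j 1 = τ j) (h3 : ρ (n + 1) = ρ 0) :
    ∃ R, Wk (τ n) (τ 0) R ∧ card R + n = (n + 1) * Nat.card W ∧ cv K (sgm τ 0 n + R) = X ∧
      cl K (sgm τ 0 n + R) = Y ∧ ∀ j < n, ∀ w, w ≠ 1 → (ρ j w, ρ (j + 1) w⁻¹) ∈ R := by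
  have p1 : ∀ j ≤ n, ∀ i < j, c i 1 = 1 := fun j hj i hi => by
    rw [hc.inv i (by omega), inv_one]
  have e : sgm τ 0 n + ({(τ n, ρ 0 (pr c (n + 1) 1))} + (st (· ≠ 1)).bind (lap c ρ (n + 1)))
      = (al W).bind (lap c ρ (n + 1)) := by
    rw [← one_add_nz, add_bind, singleton_bind, ← add_assoc, lap, sgm_succ, zero_add,
      pr_one _ (p1 n le_rfl), h2 n (by omega), h3]
    congr 2
    exact sgm_congr fun j hj => by
      rw [pr_one _ (p1 _ (by omega)), h2 _ (by omega)]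
  have ht := lap_tot q hc.orth h ρ h1
  refine ⟨_, ?_, ?_, e ▸ ht.1, e ▸ ht.2, fun j hj w hw => mem_add.2 (Or.inr ?_)⟩
  · obtain ⟨N, k1, k2⟩ := orbit_st (pr_bij hc.orth (n + 1)).1 (fun _ h => h) hc.tr
      (u := 1) trivial
    rw [Finset.sum_range_succ', ← al, ← one_add_nz, add_comm] at k2
    have := wk_iter (wk_lap c h3) (pr c (n + 1) 1) N
    simp only [← Function.iterate_succ_apply] at this
    rw [k1, add_left_cancel k2, h2 0 (by omega)] at this
    exact Wk.cons _ this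
  · have := congrArg card e
    rw [card_add, card_sgm, card_bind_const _ (lap c ρ (n + 1)) fun u => card_sgm _ 0 (n + 1),
      card_al] at this
    rw [add_comm, this]
  · rw [← hc.inv j (by omega)]
    exact mem_lap hc.orth ρ (by omega) (p1 j hj.le) hw

end

omit [Finite G] in
theorem quo_bot (M : Subgroup G) : ∃ ψ : G → M, Quo M ⊥ ψ ∧ ∀ g : M, ψ g = g := by
  obtain ⟨ψ, q, h⟩ := Quo.ofHom (MonoidHom.id M) Function.surjective_id
  rw [MonoidHom.ker_id, Subgroup.map_bot] at q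
  exact ⟨ψ, q, h⟩

theorem lift {c : ℕ → M → M} (hc : FibC c m) (hm : 0 < m) (h : Fr M τ m X Y) :
    ∃ L, Two X Y (sgm τ 0 m) L ∧
      ∀ j < m, ∀ w : M, w ≠ 1 → ((w : G) * τ j, (c j w : G) * τ (j + 1)) ∈ L := by
  obtain ⟨ψ, q, hψ⟩ := quo_bot M
  obtain ⟨L, h1, -, h2, h3, h4⟩ := liftW q hc hm h (fun j w => w * τ j)
    (fun j _ w => by simp [hψ]) (by simp) (by rw [h.cy])
  rw [cv_bot, hd_add] at h2
  rw [cl_bot, lb_add] at h3
  exact ⟨L, ⟨cl_sgm h.cy, h1, h2, h3⟩, h4⟩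

theorem one0 {c : ℕ → M → M} (hc : OneC c (n + 1)) (h : Fr M τ (n + 1) X Y) :
    ∃ R, Wk (τ n) (τ 0) R ∧ hd (sgm τ 0 n) + hd R = X ∧ lb (sgm τ 0 n) + lb R = Y ∧
      ∀ j < n, ∀ w ∈ M, w ≠ 1 → (w * τ j, w⁻¹ * τ (j + 1)) ∈ R := by
  obtain ⟨ψ, q, hψ⟩ := quo_bot M
  obtain ⟨R, h1, -, h2, h3, h4⟩ := oneW q hc h (fun j w => w * τ j)
    (fun j _ w => by simp [hψ]) (by simp) (by rw [h.cy])
  rw [cv_bot, hd_add] at h2
  rw [cl_bot, lb_add] at h3
  exact ⟨R, h1, h2, h3, fun j hj w hw hn =>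
    h4 j hj ⟨w, hw⟩ fun e => hn (congrArg Subtype.val e)⟩

end Pool.Agent.SQ2

end MrgPart0

-- ======== part 1: formerly Pool.Agent.MP_f56020_al.s2.Merge
section MrgPart1

namespace Pool.Agent.SQ2

open Pool.Agent.SQ Multiset

universe u

variable {G : Type*} [Group G] [Finite G] {H : Subgroup G} {η κ : G}

theorem Merge.nz_map (H : Subgroup G) : (st fun h : H => h ≠ 1).map H.subtype = nz H :=
  map_st H.subtype_injective fun b =>
    ⟨fun h => ⟨⟨b, h.1⟩, fun e => h.2 (congrArg Subtype.val e), rfl⟩, by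
      rintro ⟨a, ha, rfl⟩
      exact ⟨a.2, fun e => ha (Subtype.ext e)⟩⟩

theorem Merge.al_map (H : Subgroup G) : (al H).map H.subtype = st (· ∈ H) :=
  map_st H.subtype_injective fun b =>
    ⟨fun h => ⟨⟨b, h⟩, trivial, rfl⟩, by
      rintro ⟨a, -, rfl⟩
      exact a.2⟩

theorem Merge.one_nz (H : Subgroup G) : {1} + nz H = st (· ∈ H) := by
  rw [single_eq_st]
  refine st_add (fun a h h' => h'.2 h) fun a => ⟨fun h => ?_, ?_⟩
  · by_cases e : a = 1
    · exact Or.inl e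
    · exact Or.inr ⟨h, e⟩
  · rintro (rfl | h)
    · exact one_mem H
    · exact h.1

theorem Merge.mem_ou (H : Subgroup G) : st (· ∈ H) + ou H = al G :=
  st_add (fun _ h h' => h' h) fun a => by simp [em]

theorem Merge.nz_ou (H : Subgroup G) : nz H + ou H = st (· ≠ 1) := by
  rw [add_comm, ou_add_nz]

theorem Merge.mem_nz {a : G} : a ∈ nz H ↔ a ∈ H ∧ a ≠ 1 := mem_st

theorem Merge.nz_inv (H : Subgroup G) : (nz H).map (·⁻¹) = nz H :=
  map_st inv_injective fun b => ⟨fun h => ⟨b⁻¹, by simpa using h, inv_inv b⟩, by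
    rintro ⟨a, ha, rfl⟩
    simpa using ha⟩

theorem Merge.card_nz (H : Subgroup G) : card (nz H) + 1 = Nat.card H := by
  rw [← Merge.nz_map, card_map, card_ne]

theorem Merge.rg_pth (h : RG H) : ∃ x ∈ H, Pth ld x x (nz H) (nz H) := by
  obtain ⟨x, p⟩ := h
  exact ⟨x, x.2, (p.hom H.subtype).cast (Merge.nz_map H) (Merge.nz_map H)⟩

theorem Merge.ex_shift {μ x : G} (e : Ex H η μ) (hx : x ∈ H) :
    ∃ A, Wk x (x * μ) A ∧ hd A = ou H + {x * μ} ∧ lb A = ou H + {η} := by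
  obtain ⟨A, w, h1, h2⟩ := e
  have p := Pth.shift x w.toPth
  have hs : (ou H).map (x * ·) = ou H :=
    map_st (mul_right_injective x) fun b =>
      ⟨fun hb => ⟨x⁻¹ * b, by rwa [H.mul_mem_cancel_left (inv_mem hx)], by simp⟩, by
        rintro ⟨a, ha, rfl⟩
        rwa [H.mul_mem_cancel_left hx]⟩
  rw [mul_one, h1, h2, map_add, hs, map_singleton] at p
  exact Wk.ofPth p

omit [Finite G] in
theorem Merge.closed_zero {x : G} {V M : Multiset G} (p : Pth ld x x V M) (h : x ∉ V) : V = 0 := by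
  by_contra h0
  obtain ⟨b, V', M', -, rfl, -⟩ := p.last h0
  simp at h

theorem rg_walk (h : RG H) [Nontrivial H] :
    ∃ x ∈ H, ∃ A, Wk x x A ∧ hd A = nz H ∧ lb A = nz H := by
  obtain ⟨x, hx, p⟩ := Merge.rg_pth h
  exact ⟨x, hx, Wk.ofPth p⟩

theorem Merge.arc {C : Multiset (G × G)} (c : Cl C) (h1 : hd C = nz H) (h2 : lb C = nz H)
    (hη : η ∈ H) {x : G} (hx : (x, x * η) ∈ C) :
    x ∈ H ∧ ∃ A, Wk (x * η) x A ∧ hd A + {x * η} = nz H ∧ lb A + {η} = nz H := by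
  obtain ⟨A, w, rfl⟩ := c.cut hx
  rw [hd_add, hd_one, add_comm] at h1
  rw [lb_add, lb_one, inv_mul_cancel_left, add_comm] at h2
  refine ⟨?_, A, w, h1, h2⟩
  have : x * η ∈ nz H := by rw [← h1]; simp
  exact (H.mul_mem_cancel_right hη).1 (Merge.mem_nz.1 this).1

/-- The cycle of `H` opened at the step with label `η`. -/
theorem rg_arc (h : RG H) (hη : η ∈ H) (h1 : η ≠ 1) :
    ∃ x ∈ H, ∃ A, Wk (x * η) x A ∧ hd A + {x * η} = nz H ∧ lb A + {η} = nz H := by
  obtain ⟨z, -, p⟩ := Merge.rg_pth h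
  obtain ⟨C, w, e1, e2⟩ := Wk.ofPth p
  obtain ⟨x, hx⟩ := mem_lb (A := C) (g := η) (by rw [e2]; exact Merge.mem_nz.2 ⟨hη, h1⟩)
  exact ⟨x, Merge.arc ⟨z, w⟩ e1 e2 hη hx⟩

/-- The same, avoiding one value of `x` (use the reversed cycle). -/
theorem rg_arc' (h : RG H) (h3 : 3 < Nat.card H) (hη : η ∈ H) (h1 : η ≠ 1) (x0 : G) :
    ∃ x ∈ H, x ≠ x0 ∧ ∃ A, Wk (x * η) x A ∧ hd A + {x * η} = nz H ∧ lb A + {η} = nz H := by
  classical
  obtain ⟨z, -, p⟩ := Merge.rg_pth h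
  obtain ⟨C, w, e1, e2⟩ := Wk.ofPth p
  have c : Cl C := ⟨z, w⟩
  obtain ⟨x, hx⟩ := mem_lb (A := C) (g := η) (by rw [e2]; exact Merge.mem_nz.2 ⟨hη, h1⟩)
  obtain ⟨y, hy⟩ := mem_lb (A := C) (g := η⁻¹)
    (by rw [e2]; exact Merge.mem_nz.2 ⟨inv_mem hη, inv_ne_one.2 h1⟩)
  by_cases hx0 : x = x0
  · obtain ⟨hyH, A, wA, a1, a2⟩ := Merge.arc c e1 e2 (inv_mem hη) hy
    obtain ⟨V, q, hV⟩ := wA.toPth.rev
    obtain ⟨B, wB, b1, b2⟩ := Wk.ofPth q
    refine ⟨y * η⁻¹, mul_mem hyH (inv_mem hη), fun e => ?_, B, ?_, ?_, ?_⟩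
    · have hyx : y = x * η := by rw [hx0, ← e, inv_mul_cancel_right]
      rw [hyx, mul_inv_cancel_right] at hy
      have hne : x ≠ x * η := fun e' => h1 (left_eq_mul.1 e')
      obtain ⟨A1, A2, w1, w2, hC⟩ := c.cut2 hx hy fun e' => hne (congrArg Prod.fst e')
      have hn : (hd C).Nodup := e1 ▸ nodup_st _
      rw [hC] at hn e1
      simp only [hd_add, hd_one] at hn e1
      have n1 : hd A1 = 0 := Merge.closed_zero w1.toPth fun hm => by
        have := nodup_iff_count_le_one.1 hn (x * η)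
        have h' := one_le_count_iff_mem.2 hm
        simp only [count_add, count_singleton_self] at this
        omega
      have n2 : hd A2 = 0 := Merge.closed_zero w2.toPth fun hm => by
        have := nodup_iff_count_le_one.1 hn x
        have h' := one_le_count_iff_mem.2 hm
        simp only [count_add, count_singleton_self] at this
        omega
      have := Merge.card_nz H
      rw [← e1, n1, n2] at this
      simp at this
      omega
    · rwa [inv_mul_cancel_right]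
    · rw [inv_mul_cancel_right, b1, hV, a1]
    · rw [b2, ← Merge.nz_inv H, ← a2, Multiset.map_add, map_singleton, inv_inv]
  · obtain ⟨hxH, r⟩ := Merge.arc c e1 e2 hη hx
    exact ⟨x, hxH, hx0, r⟩

theorem sg_walk (h : SG H) :
    ∃ x ∈ H, ∃ y A, Wk x y A ∧ {x} + hd A = st (· ∈ H) ∧ lb A = nz H := by
  obtain ⟨x, y, V, p, hV⟩ := h
  obtain ⟨A, w, h1, h2⟩ := Wk.ofPth (p.hom H.subtype)
  refine ⟨x, x.2, y, A, w, ?_, h2.trans (Merge.nz_map H)⟩
  rw [h1, ← Merge.al_map, ← hV, map_add, map_singleton]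
  rfl

theorem rg_of {x : G} {A : Multiset (G × G)} (h : Wk x x A) (h1 : hd A = nz H + ou H)
    (h2 : lb A = nz H + ou H) : RG G :=
  ⟨x, h.toPth.cast (h1.trans (Merge.nz_ou H)) (h2.trans (Merge.nz_ou H))⟩

theorem sg_of {x y : G} {A : Multiset (G × G)} (h : Wk x y A)
    (h1 : {x} + hd A = st (· ∈ H) + ou H) (h2 : lb A = nz H + ou H) : SG G :=
  ⟨x, y, _, h.toPth.cast rfl (h2.trans (Merge.nz_ou H)), h1.trans (Merge.mem_ou H)⟩

theorem sg_of_one {y : G} {A : Multiset (G × G)} (h : Wk 1 y A) (h1 : hd A = nz H + ou H)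
    (h2 : lb A = nz H + ou H) : SG G :=
  sg_of h (by rw [h1, ← add_assoc, Merge.one_nz]) h2

theorem ex_RR (h : RG H) (hη : η ∈ H) (h1 : η ≠ 1) (e : Ex H η η) : RG G := by
  obtain ⟨x, hx, A, w, a1, a2⟩ := rg_arc h hη h1
  obtain ⟨B, w', b1, b2⟩ := Merge.ex_shift e hx
  refine rg_of (H := H) (w.trans w') ?_ ?_
  · rw [hd_add, b1, ← a1]; abel
  · rw [lb_add, b2, ← a2]; abel

theorem ex_SS (h : SG H) (hη : η ∈ H) (h1 : η ≠ 1) (e : Ex H η η) : SG G := by
  obtain ⟨x, -, y, A, w, a1, a2⟩ := sg_walk h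
  obtain ⟨a, ha⟩ := mem_lb (A := A) (g := η) (by rw [a2]; exact Merge.mem_nz.2 ⟨hη, h1⟩)
  obtain ⟨A1, A2, w1, w2, rfl⟩ := w.cut ha
  simp only [hd_add, lb_add, hd_one, lb_one, inv_mul_cancel_left] at a1 a2
  have haH : a ∈ H := by
    have : a * η ∈ st (· ∈ H) := by rw [← a1]; simp
    exact (H.mul_mem_cancel_right hη).1 (mem_st.1 this)
  obtain ⟨B, w', b1, b2⟩ := Merge.ex_shift e haH
  refine sg_of (H := H) ((w1.trans w').trans w2) ?_ ?_
  · rw [hd_add, hd_add, b1, ← a1]; abel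
  · rw [lb_add, lb_add, b2, ← a2]; abel

theorem Merge.fin {b : G} {V M : Multiset G} (q : Pth ld b κ V M) (hV : nz H = {b} + V)
    (hM : nz H = {κ⁻¹ * b} + M) (e : κ⁻¹ * b ∈ H → κ⁻¹ * b ≠ 1 → Ex H (κ⁻¹ * b) (κ * (κ⁻¹ * b))) :
    SG G := by
  have hm : κ⁻¹ * b ∈ nz H := by rw [hM]; simp
  obtain ⟨B, w, b1, b2⟩ := e (Merge.mem_nz.1 hm).1 (Merge.mem_nz.1 hm).2
  rw [mul_inv_cancel_left] at w b1
  obtain ⟨A, w', rfl, rfl⟩ := Wk.ofPth q
  refine sg_of_one (H := H) (w.trans w') ?_ ?_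
  · rw [hd_add, b1, hV]; abel
  · rw [lb_add, b2, hM]; abel

theorem ex_RS (h : RG H) (hκ : κ ∈ H) (h1 : κ ≠ 1)
    (e : ∀ η ∈ H, η ≠ 1 → Ex H η (κ * η)) : SG G := by
  obtain ⟨z, -, p⟩ := Merge.rg_pth h
  have hm : κ ∈ nz H := Merge.mem_nz.2 ⟨hκ, h1⟩
  obtain ⟨b, V, M, q, hV, hM⟩ := (p.rotate hm).first fun h0 => by simp [h0] at hm
  exact Merge.fin q hV hM (e _)

theorem ex_RS' (h : RG H) (h3 : 3 < Nat.card H) (hκ : κ ∈ H) (h1 : κ ≠ 1) (η0 : G)
    (e : ∀ η ∈ H, η ≠ 1 → η ≠ η0 → Ex H η (κ * η)) : SG G := by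
  classical
  obtain ⟨z, -, p⟩ := Merge.rg_pth h
  have hm : κ ∈ nz H := Merge.mem_nz.2 ⟨hκ, h1⟩
  have hc := Merge.card_nz H
  obtain ⟨b, V, M, q, hV, hM⟩ := (p.rotate hm).first fun h0 => by simp [h0] at hm
  by_cases hb : κ⁻¹ * b = η0
  · obtain ⟨a, V', M', q', rfl, rfl⟩ := q.last (by
      rintro rfl
      rw [hV] at hc
      simp at hc
      omega)
    have hab : a ≠ b := by
      rintro rfl
      have hn : (nz H).Nodup := nodup_st _
      rw [hV] at hn hc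
      have n1 : V' = 0 := Merge.closed_zero q' fun hm => by
        have := nodup_iff_count_le_one.1 hn a
        have h' := one_le_count_iff_mem.2 hm
        simp only [count_add, count_singleton_self] at this
        omega
      rw [n1] at hc
      simp at hc
      omega
    obtain ⟨W, r, hW⟩ := (Pth.cons κ q').rev
    refine Merge.fin (H := H) r ?_ ?_ fun k1 k2 => e _ k1 k2 fun e' => hab ?_
    · rw [add_comm _ W, hW, hV, add_assoc]
    · have : ({κ⁻¹ * a} : Multiset G) = ({ld a κ} : Multiset G).map (·⁻¹) := by simp [ld]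
      rw [this, ← Multiset.map_add, ← Merge.nz_inv H, hM]
      congr 1
      abel
    · exact mul_left_cancel (e'.trans hb.symm)
  · exact Merge.fin q hV hM fun k1 k2 => e _ k1 k2 hb

theorem rg_of_fr {τ : ℕ → G} {m : ℕ} (h : Fr ⊥ τ m (ou ⊥) (ou ⊥)) : RG G := by
  obtain ⟨x, w⟩ := cl_sgm h.cy
  have e : ou (⊥ : Subgroup G) = st (· ≠ 1) := st_congr fun a => by simp
  exact ⟨x, w.toPth.cast (((cv_bot _).symm.trans h.vs).trans e)
    (((cl_bot _).symm.trans h.ls).trans e)⟩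

theorem rg_trivial [Subsingleton G] : RG G := by
  have e : (0 : Multiset G) = st (· ≠ 1) :=
    eq_st nodup_zero fun a => by simp [Subsingleton.elim a 1]
  exact ⟨1, (Pth.nil 1).cast e e⟩

theorem ex_of_exc {Q : Type*} [Group Q] {φ : G →* Q} {μ : G} (e : Exc φ η μ) : Ex φ.ker η μ :=
  Wk.ofPth e

theorem Merge.equiv_ne {G' : Type*} [Group G'] [Finite G'] (e : G ≃* G') :
    (st fun g : G => g ≠ 1).map e.toMonoidHom = st (· ≠ 1) :=
  map_st e.injective fun b => ⟨fun h => ⟨e.symm b, by simpa using h, by simp⟩, by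
    rintro ⟨a, ha, rfl⟩
    simpa using ha⟩

theorem RG.of_equiv {G' : Type*} [Group G'] [Finite G'] (e : G ≃* G') (h : RG G) : RG G' := by
  obtain ⟨x, p⟩ := h
  exact ⟨_, (p.hom e.toMonoidHom).cast (Merge.equiv_ne e) (Merge.equiv_ne e)⟩

theorem SG.of_equiv {G' : Type*} [Group G'] [Finite G'] (e : G ≃* G') (h : SG G) : SG G' := by
  obtain ⟨x, y, V, p, hV⟩ := h
  refine ⟨_, _, _, (p.hom e.toMonoidHom).cast rfl (Merge.equiv_ne e), ?_⟩
  have : (al G).map e.toMonoidHom = al G' :=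
    map_st e.injective fun b => ⟨fun _ => ⟨e.symm b, trivial, by simp⟩, fun _ => trivial⟩
  rw [← this, ← hV, map_add, map_singleton]

theorem SC.sg {z : G} (h : SC G z) : SG G := by
  obtain ⟨V, p, hV⟩ := h
  exact ⟨1, z, V, p, hV⟩

end Pool.Agent.SQ2

end MrgPart1

-- marker of a merged file
example : 731051 + 546459 = 731051 + 546459 := rfl
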