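import Pool.Agent.MP_f56020_al.s2.Merge

namespace Pool.Agent.SQ2

open Pool.Agent.SQ Multiset

universe u

open Multiplicative

section next
variable {α : Type*} {op : α → α → α}

theorem fibs_seq {x y : α} {V M : Multiset α} (h : Pth op x y V M) :
    ∃ τ : ℕ → α, τ 0 = x ∧ τ (card V) = y ∧
      V = (Multiset.range (card V)).map (fun j => τ (j + 1)) ∧
      M = (Multiset.range (card V)).map (fun j => op (τ j) (τ (j + 1))) := by
  have hr : ∀ {β : Type _} (n : ℕ) (f : ℕ → β), (Multiset.range (n + 1)).map f =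
      {f 0} + (Multiset.range n).map fun j => f (j + 1) := by
    intro β n f
    induction n with
    | zero => simp
    | succ n ih =>
      rw [Multiset.range_succ, map_cons, ih, Multiset.range_succ, map_cons, ← singleton_add,
        ← singleton_add]
      abel
  induction h with
  | nil x => exact ⟨fun _ => x, rfl, rfl, by simp, by simp⟩
  | @cons x y z V M h ih =>
    obtain ⟨τ, h0, h1, h2, h3⟩ := ih
    have hc : card ({y} + V) = card V + 1 := by simp [add_comm]
    refine ⟨fun j => Nat.casesOn j x τ, rfl, by rw [hc]; exact h1, ?_, ?_⟩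
    · rw [hc, hr]
      simp only [h0]
      rw [← h2]
    · rw [hc, hr]
      simp only [h0]
      rw [← h3]
      rfl

/-- The successor map of a closed walk through all the elements with a property. -/
theorem fibs_next [Finite α] {x : α} {p : α → Prop} {M : Multiset α}
    (h : Pth op x x (st p) M) :
    ∃ θ : α → α, (∀ a, ¬ p a → θ a = a) ∧ (∀ a, p a → p (θ a)) ∧ Function.Injective θ ∧
      (st p).map (fun a => op a (θ a)) = M ∧ Tr θ p ∧ ∀ a, p a → θ^[card (st p)] a = a := by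
  classical
  obtain ⟨τ, h0, h1, h2, h3⟩ := fibs_seq h
  set N := card (st p) with hN
  have hnd : ((Multiset.range N).map fun j => τ (j + 1)).Nodup := h2 ▸ nodup_st p
  have hi1 : ∀ i < N, ∀ j < N, τ (i + 1) = τ (j + 1) → i = j := fun i hi j hj e =>
    inj_on_of_nodup_map hnd i (mem_range.2 hi) j (mem_range.2 hj) e
  have hp1 : ∀ a, p a ↔ ∃ j < N, τ (j + 1) = a := fun a => by
    rw [← mem_st (p := p), h2]
    simp
  have h0N : τ 0 = τ N := h0.trans h1.symm
  have hsh : ∀ i < N, ∃ i' < N, τ i = τ (i' + 1) ∧ (i = i' + 1 ∨ (i = 0 ∧ i' + 1 = N)) := by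
    intro i hi
    rcases i with _ | i
    · exact ⟨N - 1, by omega, by rw [h0N]; congr 1; omega, by omega⟩
    · exact ⟨i, by omega, rfl, by omega⟩
  have hi0 : ∀ i < N, ∀ j < N, τ i = τ j → i = j := by
    intro i hi j hj e
    obtain ⟨i', a1, a2, a3⟩ := hsh i hi
    obtain ⟨j', b1, b2, b3⟩ := hsh j hj
    have := hi1 i' a1 j' b1 (by rw [← a2, ← b2, e])
    omega
  have hp0 : ∀ a, p a ↔ ∃ j < N, τ j = a := by
    intro a
    rw [hp1]
    constructor
    · rintro ⟨j, hj, rfl⟩
      by_cases e : j + 1 = N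
      · exact ⟨0, by omega, by rw [e, h0N]⟩
      · exact ⟨j + 1, by omega, rfl⟩
    · rintro ⟨j, hj, rfl⟩
      obtain ⟨i', a1, a2, -⟩ := hsh j hj
      exact ⟨i', a1, a2.symm⟩
  let θ : α → α := fun a => if h : ∃ j < N, τ j = a then τ (h.choose + 1) else a
  have hθ : ∀ j < N, θ (τ j) = τ (j + 1) := by
    intro j hj
    have h : ∃ i < N, τ i = τ j := ⟨j, hj, rfl⟩
    simp only [θ, dif_pos h]
    rw [hi0 _ h.choose_spec.1 j hj h.choose_spec.2]
  have hθn : ∀ a, ¬ p a → θ a = a := fun a ha => dif_neg (by rwa [← hp0])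
  have hθp : ∀ a, p a → p (θ a) := by
    intro a ha
    obtain ⟨j, hj, rfl⟩ := (hp0 a).1 ha
    rw [hθ j hj]
    exact (hp1 _).2 ⟨j, hj, rfl⟩
  have hit : ∀ j < N, ∀ n, θ^[n] (τ j) = τ ((j + n) % N) := by
    intro j hj n
    induction n with
    | zero => simp [Nat.mod_eq_of_lt hj]
    | succ n ih =>
      have hlt : (j + n) % N < N := Nat.mod_lt _ (by omega)
      rw [Function.iterate_succ_apply', ih, hθ _ hlt, ← add_assoc, ← Nat.mod_add_mod (j + n) N 1]
      by_cases e : (j + n) % N + 1 = N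
      · rw [e, Nat.mod_self, h0N]
      · rw [Nat.mod_eq_of_lt (a := (j + n) % N + 1) (by omega)]
  refine ⟨θ, hθn, hθp, ?_, ?_, ?_, ?_⟩
  · intro a b e
    by_cases ha : p a <;> by_cases hb : p b
    · obtain ⟨i, hi, rfl⟩ := (hp0 a).1 ha
      obtain ⟨j, hj, rfl⟩ := (hp0 b).1 hb
      rw [hθ i hi, hθ j hj] at e
      rw [hi1 i hi j hj e]
    · exact absurd (by rw [← hθn b hb, ← e]; exact hθp a ha) hb
    · exact absurd (by rw [← hθn a ha, e]; exact hθp b hb) ha
    · rwa [hθn a ha, hθn b hb] at e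
  · have e : (Multiset.range N).map τ = st p :=
      eq_st (Nodup.map_on (fun i h j h' => hi0 i (mem_range.1 h) j (mem_range.1 h'))
        (nodup_range N)) fun a => by rw [hp0]; simp
    rw [← e, map_map, h3]
    exact map_congr rfl fun j hj => by simp [hθ j (mem_range.1 hj)]
  · intro u v hu hv
    obtain ⟨i, hi, rfl⟩ := (hp0 u).1 hu
    obtain ⟨j, hj, rfl⟩ := (hp0 v).1 hv
    refine ⟨j + N - i, ?_⟩
    rw [hit i hi, show i + (j + N - i) = j + N by omega, Nat.add_mod_right, Nat.mod_eq_of_lt hj]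
  · intro a ha
    obtain ⟨i, hi, rfl⟩ := (hp0 a).1 ha
    rw [hit i hi, Nat.add_mod_right, Nat.mod_eq_of_lt hi]

theorem fibs_pr_congr {c c' : ℕ → α → α} {m : ℕ} (h : ∀ j < m, c j = c' j) (w : α) :
    pr c m w = pr c' m w := by
  induction m with
  | zero => rfl
  | succ m ih => rw [pr, pr, ih fun j hj => h j (by omega), h m (by omega)]

end next

variable {W : Type*} [Group W] [Finite W] {m : ℕ}

theorem fibs_orth {c : W → W} (h1 : Function.Injective c)
    (h2 : Function.Injective fun w => w⁻¹ * c w) : Orth c :=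
  ⟨Finite.injective_iff_bijective.1 h1, Finite.injective_iff_bijective.1 h2⟩

theorem fibs_theta (h : RG W) : ∃ θ : W → W, Orth θ ∧ θ 1 = 1 ∧ Tr θ (· ≠ 1) ∧
    ∀ a, a ≠ 1 → θ^[card (st fun g : W => g ≠ 1)] a = a := by
  obtain ⟨x, h⟩ := h
  obtain ⟨θ, h1, -, h3, h4, h5, h6⟩ := fibs_next h
  have e1 : θ 1 = 1 := h1 1 (by simp)
  have hne : ∀ a : W, a ≠ 1 → a⁻¹ * θ a ≠ 1 := fun a ha => by
    have : ld a (θ a) ∈ st fun g : W => g ≠ 1 := h4 ▸ mem_map_of_mem _ (mem_st.2 ha)
    exact (mem_st (p := fun g : W => g ≠ 1)).1 this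
  refine ⟨θ, fibs_orth h3 fun a b e => ?_, e1, h5, h6⟩
  by_cases ha : a = 1 <;> by_cases hb : b = 1
  · rw [ha, hb]
  · exact absurd (by simpa [ha, e1] using e.symm) (hne b hb)
  · exact absurd (by simpa [hb, e1] using e) (hne a ha)
  · exact inj_on_of_nodup_map (f := fun a => ld a (θ a)) (h4 ▸ nodup_st _) a (mem_st.2 ha) b
      (mem_st.2 hb) e

theorem theta (h : RG W) : ∃ θ : W → W, Orth θ ∧ θ 1 = 1 ∧ Tr θ (· ≠ 1) := by
  obtain ⟨θ, h1, h2, h3, -⟩ := fibs_theta h
  exact ⟨θ, h1, h2, h3⟩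

theorem Fib.add_two (h : Fib W m) : Fib W (m + 2) := by
  obtain ⟨c, hc⟩ := h
  let e := Equiv.ofBijective _ (hc.orth 0).1
  have he : ∀ w, e w = c 0 w := fun _ => rfl
  have ho : Orth e.symm := fibs_orth e.symm.injective fun a b h => by
    obtain ⟨a, rfl⟩ := e.surjective a
    obtain ⟨b, rfl⟩ := e.surjective b
    simp only [Equiv.symm_apply_apply] at h
    have : a⁻¹ * c 0 a = b⁻¹ * c 0 b := by
      simpa [he] using congrArg (·⁻¹) h
    rw [(hc.orth 0).2.1 this]
  let c' : ℕ → W → W := fun j => if j < m then c j else if j = m then c 0 else e.symm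
  have hpr : pr c' (m + 2) = pr c m := by
    funext w
    rw [pr, pr, fibs_pr_congr (c' := c) fun j hj => if_pos hj]
    simp only [c', lt_irrefl, if_false, if_true, show ¬ m + 1 < m by omega,
      show ¬ m + 1 = m by omega]
    rw [← he, Equiv.symm_apply_apply]
  refine ⟨c', fun j => ?_, fun j => ?_, hpr ▸ hc.tr⟩
  · simp only [c']
    split_ifs
    exacts [hc.orth _, hc.orth _, ho]
  · simp only [c']
    split_ifs
    exacts [hc.one _, hc.one _, by rw [Equiv.symm_apply_eq, he, hc.one]]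

theorem fibs_add_even {k : ℕ} (h : Fib W m) : Fib W (m + 2 * k) := by
  induction k with
  | zero => exact h
  | succ k ih => exact ih.add_two

theorem fib_odd (h : RG W) (hm : Odd m) : Fib W m := by
  obtain ⟨k, rfl⟩ := hm
  obtain ⟨θ, h1, h2, h3⟩ := theta h
  have : Fib W 1 := ⟨fun _ => θ, fun _ => h1, fun _ => h2, h3⟩
  rw [add_comm]
  exact fibs_add_even this

theorem fib_even (h : RG W) (he : Even (Nat.card W)) (hm : 0 < m) : Fib W m := by
  rcases Nat.even_or_odd m with ⟨k, rfl⟩ | ho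
  · obtain ⟨θ, h1, h2, h3, h4⟩ := fibs_theta h
    have hN := card_ne (1 : W)
    have : Fib W 2 := by
      refine ⟨fun _ => θ, fun _ => h1, fun _ => h2, fun u v hu hv => ?_⟩
      obtain ⟨n, hn⟩ := h3 u v hu hv
      have e : pr (fun _ : ℕ => θ) 2 = θ^[2] := rfl
      rw [e]
      rcases Nat.even_or_odd n with ⟨l, rfl⟩ | ⟨l, rfl⟩
      · exact ⟨l, by rw [← Function.iterate_mul, two_mul, hn]⟩
      · obtain ⟨r, hr⟩ := he
        refine ⟨l + r, ?_⟩
        rw [← Function.iterate_mul,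
          show 2 * (l + r) = 2 * l + 1 + card (st fun g : W => g ≠ 1) by omega,
          Function.iterate_add_apply, h4 u hu, hn]
    rw [show k + k = 2 + 2 * (k - 1) by omega]
    exact fibs_add_even this
  · exact fib_odd h ho

omit [Finite W] in
theorem Fib.of_equiv {W' : Type*} [Group W'] (e : W ≃* W') (h : Fib W m) : Fib W' m := by
  obtain ⟨c, hc⟩ := h
  have hpr : ∀ n w, pr (fun j w => e (c j (e.symm w))) n (e w) = e (pr c n w) := by
    intro n w
    induction n with
    | zero => rfl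
    | succ n ih => rw [pr, pr, ih, e.symm_apply_apply]
  refine ⟨fun j w => e (c j (e.symm w)), fun j => ⟨?_, ?_⟩, fun j => ?_, fun u v hu hv => ?_⟩
  · exact e.bijective.comp ((hc.orth j).1.comp e.symm.bijective)
  · have := e.bijective.comp ((hc.orth j).2.comp e.symm.bijective)
    refine (congrArg Function.Bijective ?_).mp this
    funext w
    simp
  · simp [hc.one]
  · obtain ⟨u, rfl⟩ := e.surjective u
    obtain ⟨v, rfl⟩ := e.surjective v
    obtain ⟨n, hn⟩ := hc.tr u v (fun h => hu (by simp [h])) (fun h => hv (by simp [h]))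
    exact ⟨n, by rw [← hn]; exact (Function.Semiconj.iterate_right (fun w => (hpr m w).symm) n u).symm⟩

theorem fib_flex {p : ℕ} (hp : p.Prime) (h5 : 5 ≤ p) {l1 l3 : ZMod p} (h1 : l1 ≠ 0) (h1' : l1 ≠ 1)
    (h3 : l3 ≠ 0) (h3' : l3 ≠ 1) :
    ∃ c : ℕ → Multiplicative (ZMod p) → Multiplicative (ZMod p), FibC c 4 ∧
      (∀ w, c 1 w = ofAdd (l1 * toAdd w)) ∧ ∀ w, c 3 w = ofAdd (l3 * toAdd w) := by
  have : Fact p.Prime := ⟨hp⟩
  obtain ⟨g, hg⟩ := IsCyclic.exists_monoid_generator (α := (ZMod p)ˣ)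
  set d : ZMod p := (g : ZMod p) / (l1 * l3) with hd
  have hd0 : d ≠ 0 := div_ne_zero g.ne_zero (mul_ne_zero h1 h3)
  obtain ⟨l0, hl0⟩ : ∃ l0 : ZMod p, l0 ∉ ({0, 1, d} : Finset (ZMod p)) := by
    by_contra hc
    push Not at hc
    have h1 : (Finset.univ : Finset (ZMod p)).card ≤ ({0, 1, d} : Finset (ZMod p)).card :=
      Finset.card_le_card fun a _ => hc a
    have h2 : ({0, 1, d} : Finset (ZMod p)).card ≤ 3 := Finset.card_le_three
    rw [Finset.card_univ, ZMod.card] at h1
    omega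
  simp only [Finset.mem_insert, Finset.mem_singleton, not_or] at hl0
  obtain ⟨a0, a1, a2⟩ := hl0
  let l : ℕ → ZMod p := fun j => if j = 0 then l0 else if j = 1 then l1 else if j = 2 then d / l0
    else l3
  have hl : ∀ j, l j ≠ 0 ∧ l j ≠ 1 := by
    intro j
    simp only [l]
    split_ifs
    exacts [⟨a0, a1⟩, ⟨h1, h1'⟩,
      ⟨div_ne_zero hd0 a0, fun h => a2 ((div_eq_one_iff_eq a0).1 h).symm⟩, ⟨h3, h3'⟩]
  refine ⟨fun j w => ofAdd (l j * toAdd w), ⟨fun j => fibs_orth ?_ ?_, fun j => by simp, ?_⟩,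
    fun w => rfl, fun w => rfl⟩
  · intro a b e
    exact toAdd.injective (mul_left_cancel₀ (hl j).1 (ofAdd.injective e))
  · intro a b e
    have e' := congrArg toAdd e
    simp only [toAdd_mul, toAdd_inv, toAdd_ofAdd] at e'
    refine toAdd.injective (mul_left_cancel₀ (sub_ne_zero.2 (hl j).2) ?_)
    linear_combination e'
  · have hpr : ∀ w, pr (fun j (w : Multiplicative (ZMod p)) => ofAdd (l j * toAdd w)) 4 w =
        ofAdd ((g : ZMod p) * toAdd w) := by
      intro w
      have : l3 * (d / l0 * (l1 * (l0 * toAdd w))) = (g : ZMod p) * toAdd w := by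
        rw [hd]
        field_simp
      rw [← this]
      rfl
    have hit : ∀ n w, (pr (fun j (w : Multiplicative (ZMod p)) => ofAdd (l j * toAdd w)) 4)^[n] w =
        ofAdd ((g : ZMod p) ^ n * toAdd w) := by
      intro n w
      induction n with
      | zero => simp
      | succ n ih => rw [Function.iterate_succ_apply', ih, hpr, toAdd_ofAdd, pow_succ', mul_assoc]
    intro u v hu hv
    have hu' : toAdd u ≠ 0 := hu
    have hv' : toAdd v ≠ 0 := hv
    obtain ⟨n, hn⟩ := hg (Units.mk0 _ (div_ne_zero hv' hu'))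
    refine ⟨n, ?_⟩
    have := congrArg Units.val hn
    simp only [Units.val_pow_eq_pow_val, Units.val_mk0] at this
    rw [hit, this, div_mul_cancel₀ _ hu', ofAdd_toAdd]

theorem fib_zp {p : ℕ} (hp : p.Prime) (h5 : 5 ≤ p) (hm : Even m) (h4 : 4 ≤ m) :
    Fib (Multiplicative (ZMod p)) m := by
  have : Fact p.Prime := ⟨hp⟩
  have h0 : (2 : ZMod p) ≠ 0 := fun h => by
    have := Nat.le_of_dvd two_pos ((ZMod.natCast_eq_zero_iff 2 p).1 (by exact_mod_cast h))
    omega
  have h1 : (2 : ZMod p) ≠ 1 := fun h => one_ne_zero (α := ZMod p) (by linear_combination h)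
  obtain ⟨c, hc, -⟩ := fib_flex hp h5 h0 h1 h0 h1
  obtain ⟨k, rfl⟩ := hm
  rw [show k + k = 4 + 2 * (k - 2) by omega]
  exact fibs_add_even ⟨c, hc⟩

/-- Two columns given in a model of the group. -/
theorem fibs_model {D : Type*} {mul : D → D → D} {e : D} {φ : W → D}
    (hmul : ∀ a b, φ (a * b) = mul (φ a) (φ b)) (hb : Function.Bijective φ) (h1 : φ 1 = e)
    (p q : D → D) (N : ℕ)
    (hp : (∀ a b, p a = p b → a = b) ∧ (∀ a b l, mul a l = p a → mul b l = p b → a = b) ∧ p e = e)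
    (hq : (∀ a b, q a = q b → a = b) ∧ (∀ a b l, mul a l = q a → mul b l = q b → a = b) ∧ q e = e)
    (ht : ∀ u v, u ≠ e → v ≠ e → ∃ n < N, (fun d => q (p d))^[n] u = v) : Fib W 2 := by
  let E := Equiv.ofBijective φ hb
  have hE : ∀ d, φ (E.symm d) = d := E.apply_symm_apply
  have key : ∀ r : D → D, ((∀ a b, r a = r b → a = b) ∧
      (∀ a b l, mul a l = r a → mul b l = r b → a = b) ∧ r e = e) →
      Orth (fun w => E.symm (r (φ w))) ∧ E.symm (r (φ 1)) = 1 := by
    rintro r ⟨r1, r2, r3⟩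
    refine ⟨fibs_orth (fun a b h => hb.1 (r1 _ _ (E.symm.injective h))) fun a b h => ?_, ?_⟩
    · refine hb.1 (r2 _ _ (φ (a⁻¹ * E.symm (r (φ a)))) ?_ ?_)
      · rw [← hmul, mul_inv_cancel_left, hE]
      · rw [show a⁻¹ * E.symm (r (φ a)) = b⁻¹ * E.symm (r (φ b)) from h, ← hmul,
          mul_inv_cancel_left, hE]
    · exact hb.1 (by rw [hE, h1, r3])
  let c : ℕ → W → W := fun j w => E.symm ((if j = 0 then p else q) (φ w))
  refine ⟨c, fun j => ?_, fun j => ?_, fun u v hu hv => ?_⟩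
  · exact (key _ (by split_ifs; exacts [hp, hq])).1
  · exact (key _ (by split_ifs; exacts [hp, hq])).2
  · obtain ⟨n, -, hn⟩ := ht (φ u) (φ v) (fun h => hu (hb.1 (h.trans h1.symm)))
      (fun h => hv (hb.1 (h.trans h1.symm)))
    have hs : Function.Semiconj φ (pr c 2) fun d => q (p d) := fun w => by
      simp [pr, c, hE]
    exact ⟨n, hb.1 ((hs.iterate_right n u).trans hn)⟩

theorem fib9 : Fib (Multiplicative (ZMod 9)) 4 :=
  Fib.add_two (fibs_model (mul := (· + ·)) (e := 0) (φ := toAdd) (fun _ _ => rfl) toAdd.bijective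
    rfl (fun d : ZMod 9 => [0, 2, 1, 6, 8, 7, 3, 5, 4].getD d.val 0)
    (fun d : ZMod 9 => [0, 3, 5, 8, 1, 4, 7, 2, 6].getD d.val 0) 8
    (by decide +kernel) (by decide +kernel) (by decide +kernel))

theorem fib33 : Fib (Multiplicative (ZMod 3 × ZMod 3)) 4 :=
  Fib.add_two (fibs_model (mul := (· + ·)) (e := 0) (φ := toAdd) (fun _ _ => rfl) toAdd.bijective
    rfl (fun d : ZMod 3 × ZMod 3 => -d) (fun d : ZMod 3 × ZMod 3 => (-d.2, d.2 - d.1)) 8
    (by decide +kernel) (by decide +kernel) (by decide +kernel))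

theorem one_c [Group.IsSolvable W] (ho : Odd (Nat.card W)) {n : ℕ} (hn : Odd n) :
    ∃ c : ℕ → W → W, OneC c (n + 1) := by
  obtain ⟨θ, -, -, h3, h4, h5, -⟩ := fibs_next (harm W ho)
  have hl : Function.Injective fun a => a * θ a := fun a b e =>
    inj_on_of_nodup_map (f := fun a => a * θ a) (s := al W) (by rw [h4]; exact nodup_st _) a
      (mem_st.2 trivial) b (mem_st.2 trivial) e
  let c : ℕ → W → W := fun j w => if j = n then θ w⁻¹ else w⁻¹
  have hpr : ∀ k ≤ n, ∀ w, pr c k w = sg k w := by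
    intro k hk w
    induction k with
    | zero => exact (sg_zero w).symm
    | succ k ih => rw [pr, ih (by omega), sg_succ]; exact if_neg (by omega)
  have hθ : pr c (n + 1) = θ := by
    funext w
    rw [pr, hpr n le_rfl, sg_odd hn]
    simp [c]
  refine ⟨c, fun j => ?_, fun j hj w => if_neg (by omega), hθ ▸ h5⟩
  by_cases hj : j = n
  · simp only [c, if_pos hj]
    exact fibs_orth (h3.comp inv_injective) (hl.comp inv_injective)
  · simp only [c, if_neg hj]
    exact fibs_orth inv_injective ((sq_inj ho).comp inv_injective)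

/-- The quaternion group, given by its model. -/
theorem fib_q8_mod {φ : W → ZMod 4 × ZMod 2} (h : Mod ⊥ (mc 4 2 3 2) 0 φ) (hm : Even m)
    (h0 : 0 < m) : Fib W m := by
  have hc : ∀ d x : ZMod 4 × ZMod 2, mc 4 2 3 2 d x = x → d = 0 := by decide +kernel
  have hi : Function.Injective φ := fun a b e => by
    have h1 := h.map_mul (a * b⁻¹) b
    rw [inv_mul_cancel_right, e] at h1
    exact mul_inv_eq_one.1 (Subgroup.mem_bot.1 ((h.ker _).2 (hc _ _ h1.symm)))
  have : Fib W 2 := fibs_model h.map_mul ⟨hi, h.surj⟩ ((h.ker 1).1 (Subgroup.one_mem _))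
    (fun d => [(0, 0), (1, 0), (0, 1), (2, 1), (3, 0), (2, 0), (3, 1), (1, 1)].getD
      (2 * d.1.val + d.2.val) 0)
    (fun d => [(0, 0), (2, 1), (2, 0), (1, 0), (1, 1), (3, 0), (3, 1), (0, 1)].getD
      (2 * d.1.val + d.2.val) 0) 7
    (by decide +kernel) (by decide +kernel) (by decide +kernel)
  obtain ⟨k, rfl⟩ := hm
  rw [show k + k = 2 + 2 * (k - 1) by omega]
  exact fibs_add_even this

end Pool.Agent.SQ2
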