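import Mathlib.GroupTheory.SpecificGroups.ZGroup
import Pool.Agent.MP_f56020_al.s2.Merge
import Pool.Agent.MP_f56020_al.s2.Fibs

-- ======== part 0: formerly Pool.Agent.MP_f56020_al.s2.Trade
section MrgPart0

namespace Pool.Agent.SQ2

open Pool.Agent.SQ Multiset

universe u

variable {G : Type*} [Group G] [Finite G] {M H : Subgroup G} {X : Multiset G}
  {S L A0 : Multiset (G × G)} {τ : ℕ → G} {m j k : ℕ} {s q r η U V x : G}

omit [Finite G] in
theorem t8 (h : Two X X S L) (h1 : (s * q, s * η) ∈ S) (h2 : (s, s * r) ∈ L)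
    (h3 : (q, r) ∈ S + L) (hs : s ≠ 1) :
    ∃ A, Wk 1 η A ∧ hd A = X + {η} ∧ lb A = X + {η} := by
  obtain ⟨cS, cL, eh, el⟩ := h
  have l1 : (s * q)⁻¹ * (s * η) = q⁻¹ * η := by group
  have l2 : s⁻¹ * (s * r) = r := by group
  have l3 : (s * q)⁻¹ * (s * r) = q⁻¹ * r := by group
  have l4 : s⁻¹ * (s * η) = η := by group
  have l5 : (1 : G)⁻¹ * r = r := by group
  rcases mem_add.1 h3 with h3 | h3
  · obtain ⟨A1, A2, w1, w2, rfl⟩ := cS.cut2 h1 h3 fun e => hs (by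
      simpa using (Prod.mk.inj e).1)
    obtain ⟨A3, w3, rfl⟩ := cL.cut h2
    refine ⟨_, (((Wk.cons 1 w2).step w3).step w1).trans (Wk.edge q η), ?_, ?_⟩
    · rw [← eh]
      simp only [hd_add, hd_one]
      abel
    · rw [← el]
      simp only [lb_add, lb_one, l1, l2, l3, l4, l5]
      abel
  · obtain ⟨A1, A2, w1, w2, rfl⟩ := cL.cut2 h2 h3 fun e => hs (by
      simpa using (Prod.mk.inj e).2)
    obtain ⟨A3, w3, rfl⟩ := cS.cut h1
    refine ⟨_, (((Wk.cons 1 w2).step w3).step w1).trans (Wk.edge q η), ?_, ?_⟩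
    · rw [← eh]
      simp only [hd_add, hd_one]
      abel
    · rw [← el]
      simp only [lb_add, lb_one, l1, l2, l3, l4, l5]
      abel

omit [Finite G] in
theorem t3 (h : Two X X S L) (h1 : (U, V * η) ∈ S) (h2 : (V, U⁻¹ * (V * η)) ∈ L) :
    ∃ A, Wk 1 (U * V⁻¹ * U⁻¹ * V * η) A ∧ hd A = X + {U * V⁻¹ * U⁻¹ * V * η} ∧
      lb A = X + {η} := by
  obtain ⟨cS, cL, eh, el⟩ := h
  have l1 : (1 : G)⁻¹ * (U⁻¹ * (V * η)) = U⁻¹ * (V * η) := by group
  have l2 : V⁻¹ * (V * η) = η := by group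
  have l3 : U⁻¹ * (U * V⁻¹ * U⁻¹ * V * η) = V⁻¹ * (U⁻¹ * (V * η)) := by group
  obtain ⟨A1, w1, rfl⟩ := cS.cut h1
  obtain ⟨A2, w2, rfl⟩ := cL.cut h2
  refine ⟨_, ((Wk.cons 1 w2).step w1).trans (Wk.edge U _), ?_, ?_⟩
  · rw [← eh]
    simp only [hd_add, hd_one]
    abel
  · rw [← el]
    simp only [lb_add, lb_one, l1, l2, l3]
    abel

omit [Finite G] in
theorem t4e (h : Two X X S L) (h1 : (s, s * r) ∈ S) (h2 : (s * r * η⁻¹, s * q⁻¹ * r) ∈ L)
    (h3 : (q, r) ∈ S + L) (hq : q ≠ s) :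
    ∃ A, Wk 1 (q * η * r⁻¹ * q⁻¹ * r) A ∧ hd A = X + {q * η * r⁻¹ * q⁻¹ * r} ∧
      lb A = X + {η} := by
  obtain ⟨cS, cL, eh, el⟩ := h
  have l1 : (1 : G)⁻¹ * r = r := by group
  have l2 : s⁻¹ * (s * r) = r := by group
  have l3 : (s * r * η⁻¹)⁻¹ * (s * r) = η := by group
  have l4 : s⁻¹ * (s * q⁻¹ * r) = q⁻¹ * r := by group
  have l5 : q⁻¹ * (q * η * r⁻¹ * q⁻¹ * r) = η * r⁻¹ * q⁻¹ * r := by group
  have l6 : (s * r * η⁻¹)⁻¹ * (s * q⁻¹ * r) = η * r⁻¹ * q⁻¹ * r := by group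
  rcases mem_add.1 h3 with h3 | h3
  · obtain ⟨A1, A2, w1, w2, rfl⟩ := cS.cut2 h1 h3 fun e => hq (Prod.mk.inj e).1.symm
    obtain ⟨A3, w3, rfl⟩ := cL.cut h2
    refine ⟨_, (((Wk.cons 1 w2).step w3).step w1).trans (Wk.edge q _), ?_, ?_⟩
    · rw [← eh]
      simp only [hd_add, hd_one]
      abel
    · rw [← el]
      simp only [lb_add, lb_one, l1, l2, l3, l4, l5, l6]
      abel
  · obtain ⟨A1, A2, w1, w2, rfl⟩ := cL.cut2 h2 h3 fun e => hq (by
      have := (Prod.mk.inj e).2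
      rw [mul_eq_right, mul_inv_eq_one] at this
      exact this.symm)
    obtain ⟨A3, w3, rfl⟩ := cS.cut h1
    refine ⟨_, (((Wk.cons 1 w2).step w3).step w1).trans (Wk.edge q _), ?_, ?_⟩
    · rw [← eh]
      simp only [hd_add, hd_one]
      abel
    · rw [← el]
      simp only [lb_add, lb_one, l1, l2, l3, l4, l5, l6]
      abel

omit [Finite G] in
theorem t4v (h : Two X X S L) (h1 : (s * η * r⁻¹ * s⁻¹ * r * η⁻¹, s * η) ∈ S)
    (h2 : (s, s * r) ∈ L) (h3 : (x * η * r⁻¹, x * η * r⁻¹ * s * r) ∈ S + L)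
    (n1 : x * η * r⁻¹ ≠ s * η * r⁻¹ * s⁻¹ * r * η⁻¹) (n2 : x * η * r⁻¹ ≠ s)
    (h0 : Wk (x * η) x A0) :
    ∃ A, Wk 1 (s * η * r⁻¹ * s⁻¹ * r * η⁻¹) A ∧ hd A = hd A0 + {x * η} + X ∧
      lb A = lb A0 + {η} + X := by
  obtain ⟨cS, cL, eh, el⟩ := h
  have l1 : (1 : G)⁻¹ * (s * r) = s * r := by group
  have l2 : s⁻¹ * (s * r) = r := by group
  have l3 : s⁻¹ * (s * η) = η := by group
  have l4 : x⁻¹ * (x * η * r⁻¹ * s * r) = η * r⁻¹ * s * r := by group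
  have l5 : (x * η * r⁻¹)⁻¹ * (x * η) = r := by group
  have l6 : (s * η * r⁻¹ * s⁻¹ * r * η⁻¹)⁻¹ * (s * η) = η * r⁻¹ * s * r := by group
  have l7 : (x * η * r⁻¹)⁻¹ * (x * η * r⁻¹ * s * r) = s * r := by group
  rcases mem_add.1 h3 with h3 | h3
  · obtain ⟨A1, A2, w1, w2, rfl⟩ := cS.cut2 h1 h3 fun e => n1 (Prod.mk.inj e).1.symm
    obtain ⟨A3, w3, rfl⟩ := cL.cut h2
    refine ⟨_, (((Wk.cons 1 w3).step w1).step h0).step w2, ?_, ?_⟩
    · rw [← eh]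
      simp only [hd_add, hd_one]
      abel
    · rw [← el]
      simp only [lb_add, lb_one, l1, l2, l3, l4, l5, l6, l7]
      abel
  · obtain ⟨A1, A2, w1, w2, rfl⟩ := cL.cut2 h2 h3 fun e => n2 (Prod.mk.inj e).1.symm
    obtain ⟨A3, w3, rfl⟩ := cS.cut h1
    refine ⟨_, (((Wk.cons 1 w1).step h0).step w2).step w3, ?_, ?_⟩
    · rw [← eh]
      simp only [hd_add, hd_one]
      abel
    · rw [← el]
      simp only [lb_add, lb_one, l1, l2, l3, l4, l5, l6, l7]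
      abel

/-- The step `x → y` lies over place `j` of the lifted frame. -/
def On (c : ℕ → M → M) (τ : ℕ → G) (j : ℕ) (x y : G) : Prop :=
  ∃ w : M, x = w * τ j ∧ y = c j w * τ (j + 1)

/-- Prescribe a step by changing the representative of its head. -/
theorem addF {Y : Multiset G} (c : ℕ → M → M) (h : Fr M τ m X Y) (hk : k + 1 < m) {x y : G}
    (hx : x * (τ k)⁻¹ ∈ M) (hy : y * (τ (k + 1))⁻¹ ∈ M) :
    ∃ τ', Fr M τ' m X Y ∧ On c τ' k x y ∧ ∀ i, i ≠ k + 1 → τ' i = τ i := by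
  refine ⟨Function.update τ (k + 1) ((c k ⟨_, hx⟩ : G)⁻¹ * y), h.set (by omega) hk ?_,
    ⟨⟨_, hx⟩, ?_, ?_⟩, fun i hi => Function.update_of_ne hi _ _⟩
  · rw [mul_assoc]
    exact M.mul_mem (M.inv_mem (c k _).2) hy
  · rw [Function.update_of_ne (by omega)]
    simp
  · rw [Function.update_self]
    simp

/-- Prescribe a step by changing the representative of its tail. -/
theorem addB {Y : Multiset G} {c : ℕ → M → M} (hc : FibC c m) (h : Fr M τ m X Y) (h0 : 0 < k)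
    (hk : k < m) {x y : G} (hx : x * (τ k)⁻¹ ∈ M) (hy : y * (τ (k + 1))⁻¹ ∈ M) :
    ∃ τ', Fr M τ' m X Y ∧ On c τ' k x y ∧ ∀ i, i ≠ k → τ' i = τ i := by
  obtain ⟨w, hw⟩ := (hc.orth k).1.2 ⟨_, hy⟩
  refine ⟨Function.update τ k ((w : G)⁻¹ * x), h.set h0 hk ?_, ⟨w, ?_, ?_⟩,
    fun i hi => Function.update_of_ne hi _ _⟩
  · rw [mul_assoc]
    exact M.mul_mem (M.inv_mem w.2) hx
  · rw [Function.update_self]
    simp
  · rw [Function.update_of_ne (by omega), hw]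
    simp

/-- All the prescribed steps are there. -/
theorem lift_on {Y : Multiset G} {c : ℕ → M → M} (hc : FibC c m) (hm : 0 < m) (h : Fr M τ m X Y) :
    ∃ L, Two X Y (sgm τ 0 m) L ∧ ∀ j < m, ∀ x y, On c τ j x y →
      (x, y) ∈ sgm τ 0 m + L ∧ (x ≠ τ j ∨ y ≠ τ (j + 1) → (x, y) ∈ L) := by
  obtain ⟨L, h1, h2⟩ := lift hc hm h
  refine ⟨L, h1, ?_⟩
  rintro j hj x y ⟨w, rfl, rfl⟩
  by_cases hw : w = 1
  · subst hw
    rw [hc.one]
    simp only [OneMemClass.coe_one, one_mul, ne_eq, not_true_eq_false, or_self, IsEmpty.forall_iff,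
      and_true]
    exact mem_add.2 (Or.inl (mem_sgm τ hj))
  · exact ⟨mem_add.2 (Or.inr (h2 j hj w hw)), fun _ => h2 j hj w hw⟩

omit [Finite G] in
theorem trade_div {a b t : G} (ha : a * t⁻¹ ∈ M) (hb : b * t⁻¹ ∈ M) : a * b⁻¹ ∈ M := by
  have : a * b⁻¹ = a * t⁻¹ * (b * t⁻¹)⁻¹ := by group
  rw [this]
  exact M.mul_mem ha (M.inv_mem hb)

omit [Finite G] in
theorem trade_head {c : ℕ → M → M} {σ : ℕ → G} {a b t z : G} (h : On c σ j a b)
    (hb : b * t⁻¹ ∈ M) (hz : z * t⁻¹ ∈ M) : z * (σ (j + 1))⁻¹ ∈ M := by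
  obtain ⟨w, -, rfl⟩ := h
  have : z * (σ (j + 1))⁻¹ = z * ((c j w : G) * σ (j + 1))⁻¹ * c j w := by group
  rw [this]
  exact M.mul_mem (trade_div hz hb) (c j w).2

omit [Finite G] in
theorem trade_on {c : ℕ → M → M} {σ σ' : ℕ → G} {a b : G} (h : On c σ j a b)
    (h1 : σ' j = σ j) (h2 : σ' (j + 1) = σ (j + 1)) : On c σ' j a b := by
  rwa [On, h1, h2]

/-- Prescribe the first two representatives. -/
theorem trade_two {Y : Multiset G} (h : Fr M τ m X Y) (h2 : 1 < m) {a b : G}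
    (e0 : a * (τ 0)⁻¹ ∈ M) (e1 : b * (τ 1)⁻¹ ∈ M) :
    ∃ σ, Fr M σ m X Y ∧ σ 0 = a ∧ σ 1 = b ∧ σ m = a ∧ ∀ i, 1 < i → i < m → σ i = τ i := by
  have h0 := h.set0 e0
  refine ⟨_, h0.set (i := 1) (g := b) (by omega) h2 ?_, ?_, ?_, ?_, fun i h1 hi => ?_⟩
  · rwa [if_neg (by omega)]
  · rw [Function.update_of_ne (by omega), if_pos (Or.inl rfl)]
  · rw [Function.update_self]
  · rw [Function.update_of_ne (by omega), if_pos (Or.inr rfl)]
  · rw [Function.update_of_ne (by omega), if_neg (by omega)]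

/-- Three prescribed steps. -/
theorem trade_three {Y : Multiset G} (h : Fr M τ m X Y) (hF : Fib M m) (h4 : 4 ≤ m) (h2 : 2 ≤ k)
    (hk : k < m) {a b x y u v : G} (e0 : a * (τ 0)⁻¹ ∈ M) (e1 : b * (τ 1)⁻¹ ∈ M)
    (e1' : x * (τ 1)⁻¹ ∈ M) (e2 : y * (τ 2)⁻¹ ∈ M) (e3 : u * (τ k)⁻¹ ∈ M)
    (e4 : v * (τ (k + 1))⁻¹ ∈ M) (hx : x ≠ b) :
    ∃ S L, Two X Y S L ∧ (a, b) ∈ S ∧ (x, y) ∈ L ∧ (u, v) ∈ S + L := by
  obtain ⟨c, hc⟩ := hF
  obtain ⟨σ, f1, s0, s1, sm, si⟩ := trade_two h (by omega) e0 e1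
  obtain ⟨ρ, f2, o1, r1⟩ := addF (k := 1) (x := x) (y := y) c f1 (by omega)
    (s1 ▸ trade_div e1' e1) (by rwa [si _ (by omega) (by omega)])
  have hu : u * (ρ k)⁻¹ ∈ M := by
    by_cases hk2 : k = 2
    · subst hk2
      exact trade_head o1 e2 e3
    · rwa [r1 k hk2, si k (by omega) hk]
  have fin : ∀ π, Fr M π m X Y → On c π k u v → (∀ i ≤ 2, π i = ρ i) →
      ∃ S L, Two X Y S L ∧ (a, b) ∈ S ∧ (x, y) ∈ L ∧ (u, v) ∈ S + L := by
    intro π f3 o2 p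
    obtain ⟨L, t, hL⟩ := lift_on hc (by omega) f3
    have p0 : π 0 = a := by rw [p 0 (by omega), r1 0 (by omega), s0]
    have p1 : π 1 = b := by rw [p 1 (by omega), r1 1 (by omega), s1]
    refine ⟨_, L, t, ?_, (hL 1 (by omega) x y (trade_on o1 (p 1 (by omega)) (p 2 le_rfl))).2
      (Or.inl (p1 ▸ hx)), (hL k hk u v o2).1⟩
    rw [← p0, ← p1]
    exact mem_sgm π (by omega)
  by_cases hl : k + 1 < m
  · obtain ⟨π, f3, o2, p⟩ := addF (x := u) (y := v) c f2 hl hu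
      (by rwa [r1 _ (by omega), si _ (by omega) hl])
    exact fin π f3 o2 fun i hi => p i (by omega)
  · obtain rfl : m = k + 1 := by omega
    obtain ⟨π, f3, o2, p⟩ := addB (x := u) (y := v) hc f2 (by omega) hk hu
      (by rw [r1 _ (by omega), sm]; exact trade_div e4 (h.cy ▸ e0))
    exact fin π f3 o2 fun i hi => p i (by omega)

theorem trade_ne (h : Fr M τ m (ou H) (ou H)) {i : ℕ} (hi : i < m) (hk : k < m) (hne : i ≠ k)
    {a b : G} (ha : a * (τ i)⁻¹ ∈ M) (hb : b * (τ k)⁻¹ ∈ M) : b ≠ a := by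
  rintro rfl
  refine h.ne (nodup_st _) hi hk hne ?_
  have : τ i * (τ k)⁻¹ = (b * (τ i)⁻¹)⁻¹ * (b * (τ k)⁻¹) := by group
  rw [this]
  exact M.mul_mem (M.inv_mem ha) hb

theorem f8 (h : Fr M τ m (ou H) (ou H)) (hF : Fib M m) (h4 : 4 ≤ m) (h2 : 2 ≤ k) (hk : k < m)
    (e0 : s * q * (τ 0)⁻¹ ∈ M) (e1 : s * η * (τ 1)⁻¹ ∈ M) (e1' : s * (τ 1)⁻¹ ∈ M)
    (e2 : s * r * (τ 2)⁻¹ ∈ M) (e3 : q * (τ k)⁻¹ ∈ M) (e4 : r * (τ (k + 1))⁻¹ ∈ M)
    (hη : η ≠ 1) : Ex H η η := by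
  obtain ⟨S, L, t, a1, a2, a3⟩ := trade_three h hF h4 h2 hk e0 e1 e1' e2 e3 e4
    (by simpa using hη)
  refine t8 t a1 a2 a3 ?_
  rintro rfl
  exact mem_st.1 (h.mem (by omega) (by omega) e1') H.one_mem

theorem f3 (h : Fr M τ m (ou H) (ou H)) (hF : Fib M m) (hM : M ≠ ⊥) (h2 : 2 < m) (h0 : 0 < j)
    (hj : j < m) (e0 : U * (τ 0)⁻¹ ∈ M) (e1 : V * η * (τ 1)⁻¹ ∈ M) (e2 : V * (τ j)⁻¹ ∈ M)
    (e3 : U⁻¹ * (V * η) * (τ (j + 1))⁻¹ ∈ M) (hη : η ≠ 1) (hl : j + 1 = m → V * η ≠ U * U) :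
    Ex H η (U * V⁻¹ * U⁻¹ * V * η) := by
  obtain ⟨c, hc⟩ := hF
  obtain ⟨σ, f1, s0, s1, sm, si⟩ := trade_two h (by omega) e0 e1
  have fin : ∀ π, Fr M π m (ou H) (ou H) → On c π j V (U⁻¹ * (V * η)) → π 0 = σ 0 → π 1 = σ 1 →
      (V ≠ π j ∨ U⁻¹ * (V * η) ≠ π (j + 1)) → Ex H η (U * V⁻¹ * U⁻¹ * V * η) := by
    intro π f3 o p0 p1 hne
    obtain ⟨L, t, hL⟩ := lift_on hc (by omega) f3
    refine t3 t ?_ ((hL j hj _ _ o).2 hne)
    rw [← s0, ← s1, ← p0, ← p1]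
    exact mem_sgm π (by omega)
  by_cases h1 : j = 1
  · subst h1
    obtain ⟨π, f3, o, p⟩ := addF (k := 1) (x := V) (y := U⁻¹ * (V * η)) c f1 (by omega)
      (s1 ▸ trade_div e2 e1) (by rwa [si _ (by omega) (by omega)])
    refine fin π f3 o (p 0 (by omega)) (p 1 (by omega)) (Or.inl ?_)
    rw [p 1 (by omega), s1]
    simpa using hη
  by_cases hm : j + 1 = m
  · subst hm
    obtain ⟨π, f3, o, p⟩ := addB (x := V) (y := U⁻¹ * (V * η)) hc f1 h0 hj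
      (by rwa [si _ (by omega) hj]) (by rw [sm]; exact trade_div e3 (h.cy ▸ e0))
    refine fin π f3 o (p 0 (by omega)) (p 1 (by omega)) (Or.inr ?_)
    rw [p _ (by omega), sm, Ne, inv_mul_eq_iff_eq_mul]
    exact hl rfl
  obtain ⟨w, hw, hw1⟩ : ∃ w ∈ M, w ≠ 1 := by
    by_contra hcon
    push Not at hcon
    exact hM ((Subgroup.eq_bot_iff_forall _).2 hcon)
  have f2 := f1.set (i := j) (g := w⁻¹ * V) h0 hj (by
    rw [si _ (by omega) hj, mul_assoc]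
    exact M.mul_mem (M.inv_mem hw) e2)
  obtain ⟨π, f3, o, p⟩ := addF (k := j) (x := V) (y := U⁻¹ * (V * η)) c f2 (by omega)
    (by rw [Function.update_self]; simpa using hw)
    (by rwa [Function.update_of_ne (by omega), si _ (by omega) (by omega)])
  refine fin π f3 o ?_ ?_ (Or.inl ?_)
  · rw [p 0 (by omega), Function.update_of_ne (by omega)]
  · rw [p 1 (by omega), Function.update_of_ne (by omega)]
  · rw [p j (by omega), Function.update_self]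
    simpa using hw1

theorem f4e (h : Fr M τ m (ou H) (ou H)) (hF : Fib M m) (h4 : 4 ≤ m) (h2 : 2 ≤ k) (hk : k < m)
    (e0 : s * (τ 0)⁻¹ ∈ M) (e1 : s * r * (τ 1)⁻¹ ∈ M) (e1' : s * r * η⁻¹ * (τ 1)⁻¹ ∈ M)
    (e2 : s * q⁻¹ * r * (τ 2)⁻¹ ∈ M) (e3 : q * (τ k)⁻¹ ∈ M) (e4 : r * (τ (k + 1))⁻¹ ∈ M)
    (hη : η ≠ 1) : Ex H η (q * η * r⁻¹ * q⁻¹ * r) := by
  obtain ⟨S, L, t, a1, a2, a3⟩ := trade_three h hF h4 h2 hk e0 e1 e1' e2 e3 e4
    (by simpa using hη)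
  exact t4e t a1 a2 a3 (trade_ne h (by omega) hk (by omega) e0 e3)

theorem f4v (h : Fr M τ m (ou H) (ou H)) (hF : Fib M m) (h4 : 4 ≤ m) (h2 : 2 ≤ k) (hk : k < m)
    (e0 : s * η * r⁻¹ * s⁻¹ * r * η⁻¹ * (τ 0)⁻¹ ∈ M) (e1 : s * η * (τ 1)⁻¹ ∈ M)
    (e1' : s * (τ 1)⁻¹ ∈ M) (e2 : s * r * (τ 2)⁻¹ ∈ M) (e3 : x * η * r⁻¹ * (τ k)⁻¹ ∈ M)
    (e4 : x * η * r⁻¹ * s * r * (τ (k + 1))⁻¹ ∈ M) (hη : η ≠ 1) (h0 : Wk (x * η) x A0) :
    ∃ y A, Wk 1 y A ∧ hd A = hd A0 + {x * η} + ou H ∧ lb A = lb A0 + {η} + ou H := by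
  obtain ⟨S, L, t, a1, a2, a3⟩ := trade_three h hF h4 h2 hk e0 e1 e1' e2 e3 e4
    (by simpa using hη)
  exact ⟨_, t4v t a1 a2 a3 (trade_ne h (by omega) hk (by omega) e0 e3)
    (trade_ne h (by omega) hk (by omega) e1' e3) h0⟩

end Pool.Agent.SQ2

end MrgPart0

-- ======== part 1: formerly Pool.Agent.MP_f56020_al.s2.Lift2
section MrgPart1

namespace Pool.Agent.SQ2

open Pool.Agent.SQ Multiset

universe u

variable {G : Type u} [Group G] [Finite G] {K : Subgroup G} {X Y : Multiset G}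
  {A : Multiset (G × G)} {τ : ℕ → G} {n : ℕ} {a b c d : G}

/-- Continue a sequence along a walk. -/
theorem lift2_ext {V : Type*} (σ : ℕ → V) (k : ℕ) {y z : V} {B : Multiset (V × V)}
    (h : Wk y z B) (hy : σ k = y) :
    ∃ ρ : ℕ → V, (∀ i ≤ k, ρ i = σ i) ∧ ρ (k + card B) = z ∧
      sgm ρ 0 (k + card B) = sgm σ 0 k + B := by
  obtain ⟨f, h0, h1, h2⟩ := h.exists_seq
  have e : ∀ j, (if k + j ≤ k then σ (k + j) else f (k + j - k)) = f j := fun j => by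
    rcases Nat.eq_zero_or_pos j with rfl | hj
    · simp [hy, h0]
    · rw [if_neg (by omega), Nat.add_sub_cancel_left]
  refine ⟨fun i => if i ≤ k then σ i else f (i - k), fun i hi => if_pos hi, (e _).trans h1, ?_⟩
  rw [sgm_add, ← h2, card_sgm]
  congr 1
  · exact sgm_congr fun j hj => by simp [hj]
  · exact sgm_congr fun j _ => by simpa using e j

theorem oneLift [Group.IsSolvable K] (ho : Odd (Nat.card K)) (hn : Odd n)
    (h : Fr K τ (n + 1) X Y) :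
    ∃ R, Wk (τ n) (τ 0) R ∧ hd (sgm τ 0 n) + hd R = X ∧ lb (sgm τ 0 n) + lb R = Y ∧
      ∀ j < n, ∀ w ∈ K, w ≠ 1 → (w * τ j, w⁻¹ * τ (j + 1)) ∈ R := by
  obtain ⟨c, hc⟩ := one_c (W := K) ho hn
  exact one0 hc h

theorem oneCl [Group.IsSolvable K] (ho : Odd (Nat.card K)) (h : Cl ({(a, b)} + A))
    (hA : Odd (card A)) :
    ∃ R, Cl (A + R) ∧ hd (A + R) = cv K ({(a, b)} + A) ∧ lb (A + R) = cl K ({(a, b)} + A) := by
  obtain ⟨f, h0, h1, h2⟩ := h.cut'.exists_seq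
  obtain ⟨ρ, e1, e2, e3⟩ := lift2_ext f (card A) (Wk.edge a b) h1
  rw [card_singleton] at e2 e3
  have e0 : ρ 0 = b := (e1 0 (Nat.zero_le _)).trans h0
  have e4 : sgm ρ 0 (card A) = A := (sgm_congr fun j hj => by simpa using e1 j hj).trans h2
  obtain ⟨R, k1, k2, k3, -⟩ := oneLift ho hA
    (⟨e2.trans e0.symm, rfl, rfl⟩ : Fr K ρ (card A + 1) _ _)
  rw [e4, e3, h2, add_comm A] at k2 k3
  rw [e0, e1 _ le_rfl, h1] at k1
  exact ⟨R, ⟨b, h.cut'.trans k1⟩, by rw [hd_add, k2], by rw [lb_add, k3]⟩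

theorem lift2_cl [Group.IsSolvable K] (ho : Odd (Nat.card K)) {T : Multiset (G × G)}
    (h : Cl (A + T)) (hT : T ≠ 0) (he : Even (card (A + T))) :
    ∃ R, Cl (A + R) ∧ hd (A + R) = cv K (A + T) ∧ lb (A + R) = cl K (A + T) := by
  obtain ⟨⟨x, y⟩, hm⟩ := exists_mem_of_ne_zero hT
  obtain ⟨T', rfl⟩ := exists_cons_of_mem hm
  have e : A + (x, y) ::ₘ T' = {(x, y)} + (A + T') := by
    rw [← singleton_add]
    abel
  rw [e] at h he ⊢
  rw [card_add, card_singleton, add_comm] at he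
  obtain ⟨R, hR⟩ := oneCl ho h (Nat.not_even_iff_odd.1 (Nat.even_add_one.1 he))
  exact ⟨T' + R, by rwa [← add_assoc]⟩

theorem lift2W (hF : Fib K (card A)) (hK : K ≠ ⊥) (h : Cl A) (h1 : (a, b) ∈ A) (h2 : (c, d) ∈ A)
    (hne : (a, b) ≠ (c, d)) (hbc : b ≠ c) (hda : d ≠ a) :
    ∃ S L, Two (cv K A) (cl K A) S L ∧ (a, b) ∈ S ∧ (c, d) ∈ L := by
  obtain ⟨A1, A2, w1, w2, e⟩ := h.cut2 h1 h2 hne
  have p1 : 0 < card A1 := card_pos.2 fun h0 => hbc (h0 ▸ w1).eq_of_zero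
  have p2 : 0 < card A2 := card_pos.2 fun h0 => hda (h0 ▸ w2).eq_of_zero
  obtain ⟨f1, a1, b1, c1⟩ := lift2_ext (fun _ => a) 0 (Wk.edge a b) rfl
  rw [card_singleton, zero_add] at b1 c1
  obtain ⟨f2, a2, b2, c2⟩ := lift2_ext f1 1 w1 b1
  obtain ⟨f3, a3, b3, c3⟩ := lift2_ext f2 _ (Wk.edge c d) b2
  rw [card_singleton] at b3 c3
  obtain ⟨f4, a4, b4, c4⟩ := lift2_ext f3 _ w2 b3
  have hm : 1 + card A1 + 1 + card A2 = card A := by
    rw [e]
    simp only [card_add, card_singleton]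
    omega
  have t0 : f4 0 = a := by rw [a4 0 (by omega), a3 0 (by omega), a2 0 (by omega), a1 0 le_rfl]
  have t1 : f4 1 = b := by rw [a4 1 (by omega), a3 1 (by omega), a2 1 le_rfl, b1]
  have t2 : f4 (1 + card A1) = c := by rw [a4 _ (by omega), a3 _ le_rfl, b2]
  have t3 : f4 (1 + card A1 + 1) = d := by rw [a4 _ le_rfl, b3]
  have t4 : sgm f4 0 (card A) = A := by
    rw [← hm, c4, c3, c2, c1, sgm_zero, e]
    abel
  rw [hm] at b4
  have hf : Fr K f4 (card A) (cv K A) (cl K A) := ⟨b4.trans t0.symm, by rw [t4], by rw [t4]⟩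
  obtain ⟨⟨w, hw⟩, hw1⟩ := Subgroup.ne_bot_iff_exists_ne_one.1 hK
  obtain ⟨col, hcol⟩ := hF
  have hf' := hf.set (i := 1 + card A1) (g := w * c) (by omega) (by omega) (by simpa [t2] using hw)
  obtain ⟨ρ, hρ, hon, hag⟩ := addF (k := 1 + card A1) (x := c) (y := d) col hf' (by omega)
    (by simpa using hw) (by rw [Function.update_of_ne (by omega), t3]; simp)
  obtain ⟨L, hL, hL'⟩ := lift_on hcol (by omega) hρ
  refine ⟨_, L, hL, ?_, (hL' _ (by omega) c d hon).2 (Or.inl ?_)⟩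
  · have := mem_sgm ρ (m := card A) (j := 0) (by omega)
    rwa [zero_add, hag 0 (by omega), hag 1 (by omega), Function.update_of_ne (by omega),
      Function.update_of_ne (by omega), t0, t1] at this
  · rw [hag _ (by omega), Function.update_self]
    exact fun h0 => hw1 (Subtype.ext (by simpa using h0))

theorem lift2_sub [Group.IsSolvable K] (ho : Odd (Nat.card K)) {M : Subgroup G} (h : M ≤ K) :
    Group.IsSolvable M ∧ Odd (Nat.card M) :=
  ⟨Group.isSolvable_of_isSolvable_injective (Subgroup.inclusion_injective h),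
    ho.of_dvd_nat (Subgroup.card_dvd_of_le h)⟩

theorem lift2_step [Group.IsSolvable K] (ho : Odd (Nat.card K)) {W : Type*} [Group W] [Finite W]
    [Nontrivial W] (ψ : K →* W) (hψ : Function.Surjective ψ) {m : ℕ} (hF : Fib W m) (he : Even m)
    (h4 : 4 ≤ m) :
    ∃ u ∈ K, ∃ u' ∈ K, u ≠ 1 ∧ u' ≠ 1 ∧ ∀ (τ : ℕ → G) (X Y : Multiset G), Fr K τ m X Y →
      ∃ R B, Two X Y (sgm τ 0 3 + R) B ∧ (u * τ 0, u' * τ 1) ∈ B := by
  obtain ⟨ψ', q, -⟩ := Quo.ofHom ψ hψ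
  obtain ⟨s, s1, hs⟩ := q.sec
  obtain ⟨col, hcol⟩ := hF
  obtain ⟨w, hw⟩ := exists_ne (1 : W)
  have hne : ∀ v, v ≠ 1 → s v ≠ 1 := fun v hv h0 => hv (by rw [← (hs v).2, h0, q.one])
  obtain ⟨i1, i2⟩ := lift2_sub ho q.le
  refine ⟨s w, (hs _).1, s (col 0 w), (hs _).1, hne _ hw, hne _ (hcol.ne 0 hw).1,
    fun τ X Y h => ?_⟩
  obtain ⟨L, l1, l2, l3, l4, l5⟩ := liftW q hcol (by omega) h (fun j v => s v * τ j)
    (fun j _ v => by simpa using hs v) (fun j _ => by simp [s1]) (by simp [h.cy])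
  have e : sgm τ 0 m = sgm τ 0 3 + sgm τ (0 + 3) (m - 3) := by
    rw [← sgm_add, Nat.add_sub_cancel' (by omega)]
  obtain ⟨R, r1, r2, r3⟩ := lift2_cl i2 ((cl_sgm h.cy).cast e)
    (fun h0 => by have := card_sgm τ (0 + 3) (m - 3); rw [h0, card_zero] at this; omega)
    (by rwa [← e, card_sgm])
  obtain ⟨T, hT⟩ := exists_cons_of_mem (l5 0 (by omega) w hw)
  rw [← singleton_add] at hT
  have hL : Even (card L) := l2 ▸ he.mul_right _
  obtain ⟨R', k1, k2, k3⟩ := lift2_cl i2 (l1.cast hT)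
    (fun h0 => by rw [hT, h0] at hL; simp at hL) (hT ▸ hL)
  refine ⟨R, _, ⟨r1, k1, ?_, ?_⟩, by simp⟩
  · rw [r2, k2, ← e, ← hT, ← cv_add, l3]
  · rw [r3, k3, ← e, ← hT, ← cl_add, l4]

open Multiplicative in
theorem lift2_big {H : Type*} [Group H] [Finite H] [Group.IsSolvable H] (ho : Odd (Nat.card H))
    {π : H →* Multiplicative (ZMod 3)} (hπ : Function.Surjective π) (hH : π.ker ≤ commutator H)
    [Nontrivial π.ker] : ∃ q : ℕ, q.Prime ∧ 5 ≤ q ∧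
      ∃ ψ : π.ker →* Multiplicative (ZMod q), Function.Surjective ψ := by
  obtain ⟨q, hq, ψ, hψ⟩ := exists_zmod π.ker
  refine ⟨q, hq, ?_, ψ, hψ⟩
  have : Fact q.Prime := ⟨hq⟩
  obtain ⟨z, hz⟩ := hπ (ofAdd 1)
  let T : π.ker →* π.ker := (MulAut.conjNormal z⁻¹ : MulAut π.ker).toMonoidHom
  have hT : ∀ h, (T h : H) = z⁻¹ * h * z := fun h => by simp [T]
  have hz3 : z * z * z ∈ π.ker := by
    rw [MonoidHom.mem_ker, map_mul, map_mul, hz]; decide
  have hT3 : ∀ h, T (T (T h)) = (⟨_, hz3⟩ : π.ker)⁻¹ * h * ⟨_, hz3⟩ := fun h =>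
    Subtype.ext (by simp [hT, mul_assoc])
  have hz1 : π z⁻¹ ≠ 1 := by rw [map_inv, hz]; decide
  let A : π.ker → ZMod q := fun h => (ψ h).toAdd
  have A3 : ∀ h, A (T (T h)) = -A h - A (T h) := fun h => by
    have h1 := inv_triv π hH hz1 (ψ * ψ.comp T * ψ.comp (T.comp T)) (fun h => by
      change ψ (T h) * ψ (T (T h)) * ψ (T (T (T h))) = ψ h * ψ (T h) * ψ (T (T h))
      rw [hT3]; simp [mul_comm, mul_left_comm]) h
    have h2 : A h + A (T h) + A (T (T h)) = 0 := congrArg toAdd h1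
    linear_combination h2
  obtain ⟨p₀, hp₀⟩ : ∃ p₀, A p₀ = 1 := (hψ (ofAdd 1)).imp fun p hp => congrArg toAdd hp
  have hq2 : q ≠ 2 := by
    rintro rfl
    have h := Subgroup.card_dvd_of_surjective ψ hψ
    rw [show Nat.card (Multiplicative (ZMod 2)) = 2 by simp] at h
    exact (Nat.not_even_iff_odd.2 (odd_sub ho _)) (even_iff_two_dvd.2 h)
  have hq3 : q ≠ 3 := by
    rintro rfl
    have h3 : (3 : ZMod 3) = 0 := rfl
    have h1 := inv_triv π hH hz1 (ψ / ψ.comp T) fun h => toAdd.injective (by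
      change A (T h) - A (T (T h)) = A h - A (T h)
      rw [A3]
      linear_combination A (T h) * h3)
    have h2 := inv_triv π hH hz1 ψ (fun h => (div_eq_one.1 (h1 h)).symm) p₀
    have h4 : A p₀ = 0 := congrArg toAdd h2
    exact one_ne_zero (hp₀.symm.trans h4)
  have := hq.two_le
  have h4 : q ≠ 4 := fun h => absurd (h ▸ hq) (by norm_num)
  omega

theorem lift2_cases (H : Type*) [Group H] [Finite H] [Group.IsSolvable H] [Nontrivial H]
    (ho : Odd (Nat.card H)) :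
    (∃ p : ℕ, p.Prime ∧ 5 ≤ p ∧ ∃ φ : H →* Multiplicative (ZMod p), Function.Surjective φ) ∨
    (∃ φ : H →* Multiplicative (ZMod 9), Function.Surjective φ) ∨
    (∃ φ : H →* Multiplicative (ZMod 3 × ZMod 3), Function.Surjective φ) ∨
    ∃ φ : H →* Multiplicative (ZMod 3), Function.Surjective φ ∧ φ.ker ≤ commutator H := by
  have hs : Function.Surjective (Abelianization.of : H →* _) := QuotientGroup.mk_surjective
  have hA := nontrivial_ab H
  have h1 : 1 < Nat.card (Abelianization H) := Finite.one_lt_card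
  have hoA : Odd (Nat.card (Abelianization H)) :=
    ho.of_dvd_nat (Subgroup.card_dvd_of_surjective _ hs)
  by_cases h5 : ∃ p, p.Prime ∧ 5 ≤ p ∧ p ∣ Nat.card (Abelianization H)
  · obtain ⟨p, hp, h5, hd⟩ := h5
    obtain ⟨φ, hφ⟩ := exists_zmod_of_dvd _ hp hd
    exact Or.inl ⟨p, hp, h5, φ.comp Abelianization.of, hφ.comp hs⟩
  by_cases h9 : 9 ∣ Nat.card (Abelianization H)
  · rcases nine _ h9 with ⟨φ, hφ⟩ | ⟨φ, hφ⟩
    · exact Or.inr (Or.inl ⟨φ.comp Abelianization.of, hφ.comp hs⟩)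
    · exact Or.inr (Or.inr (Or.inl ⟨φ.comp Abelianization.of, hφ.comp hs⟩))
  have key : ∀ m, m ∣ Nat.card (Abelianization H) → m ≠ 1 → 3 ∣ m := by
    intro m hm hm1
    have hp := Nat.minFac_prime hm1
    have hd := (Nat.minFac_dvd m).trans hm
    have a2 : m.minFac ≠ 2 := fun e =>
      (Nat.not_even_iff_odd.2 hoA) (even_iff_two_dvd.2 (e ▸ hd))
    have a4 : m.minFac ≠ 4 := fun e => absurd (e ▸ hp) (by norm_num)
    have a5 : ¬ 5 ≤ m.minFac := fun e => h5 ⟨_, hp, e, hd⟩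
    have := hp.two_le
    exact (show m.minFac = 3 by omega) ▸ Nat.minFac_dvd m
  have h3 := key _ dvd_rfl h1.ne'
  have hc : Nat.card (Abelianization H) = 3 := by
    obtain ⟨m, hm⟩ := h3
    by_cases e : m = 1
    · rw [hm, e]
    · exact absurd (hm ▸ Nat.mul_dvd_mul_left 3 (key m (hm ▸ Dvd.intro_left 3 rfl) e)) h9
  obtain ⟨φ, hφ⟩ := exists_zmod_of_dvd _ Nat.prime_three h3
  have hi : Function.Injective φ :=
    ((Nat.bijective_iff_surjective_and_card φ).2 ⟨hφ, by rw [hc]; simp⟩).1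
  refine Or.inr (Or.inr (Or.inr ⟨φ.comp Abelianization.of, hφ.comp hs, fun g hg => ?_⟩))
  rw [← Abelianization.ker_of]
  exact hi ((MonoidHom.mem_ker.1 hg).trans (map_one φ).symm)

theorem twoL [Group.IsSolvable K] (ho : Odd (Nat.card K)) (h3 : 3 < Nat.card K) :
    ∃ u ∈ K, ∃ u' ∈ K, u ≠ 1 ∧ u' ≠ 1 ∧ ∀ (τ : ℕ → G) (X Y : Multiset G), Fr K τ 4 X Y →
      ∃ R B, Two X Y (sgm τ 0 3 + R) B ∧ (u * τ 0, u' * τ 1) ∈ B := by
  have : Nontrivial K := Finite.one_lt_card_iff_nontrivial.1 (by omega)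
  have e4 : Even 4 := by decide
  rcases lift2_cases K ho with ⟨p, hp, h5, φ, hφ⟩ | ⟨φ, hφ⟩ | ⟨φ, hφ⟩ | ⟨π, hπ, hk⟩
  · have : Fact p.Prime := ⟨hp⟩
    exact lift2_step ho φ hφ (fib_zp hp h5 e4 le_rfl) e4 le_rfl
  · have : Fact (1 < 9) := ⟨by norm_num⟩
    exact lift2_step ho φ hφ fib9 e4 le_rfl
  · exact lift2_step ho φ hφ fib33 e4 le_rfl
  obtain ⟨π', q, -⟩ := Quo.ofHom π hπ
  obtain ⟨s, s1, hs⟩ := q.sec
  have c3 : Nat.card (Multiplicative (ZMod 3)) = 3 := by simp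
  let e := π.ker.equivMapOfInjective K.subtype K.subtype_injective
  have : Nontrivial π.ker := Finite.one_lt_card_iff_nontrivial.1 (by
    have := q.card
    rw [c3, ← Nat.card_congr e.toEquiv] at this
    omega)
  obtain ⟨p, hp, h5, ψ, hψ⟩ := lift2_big ho hπ hk
  have : Fact p.Prime := ⟨hp⟩
  obtain ⟨i1, i2⟩ := lift2_sub ho q.le
  have e12 : Even 12 := by decide
  obtain ⟨u, hu, u', hu', n1, n2, H⟩ := lift2_step i2 (ψ.comp e.symm.toMonoidHom)
    (hψ.comp e.symm.surjective) (fib_zp hp h5 e12 (by norm_num)) e12 (by norm_num)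
  refine ⟨u, q.le hu, u', q.le hu', n1, n2, fun τ X Y h => ?_⟩
  obtain ⟨col, hcol⟩ := one_c (W := Multiplicative (ZMod 3)) (n := 3) (by rw [c3]; decide)
    (by decide)
  obtain ⟨R, r1, r2, r3, r4, -⟩ := oneW q hcol h (fun j v => s v * τ j)
    (fun j _ v => by simpa using hs v) (fun j _ => by simp [s1]) (by simp [h.cy])
  obtain ⟨ρ, a1, a2, a3⟩ := lift2_ext τ 3 r1 rfl
  rw [show 3 + card R = 12 by omega] at a2 a3
  obtain ⟨R', B, k1, k2⟩ := H ρ X Y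
    ⟨a2.trans (a1 0 (by omega)).symm, by rw [a3, r3], by rw [a3, r4]⟩
  rw [a1 0 (by omega), a1 1 (by omega)] at k2
  rw [sgm_congr (σ := τ) (i' := 0) fun j hj => by simpa using a1 j hj] at k1
  exact ⟨R', B, k1, k2⟩

end Pool.Agent.SQ2

end MrgPart1

-- ======== part 2: formerly Pool.Agent.MP_f56020_al.s2.Odd
section MrgPart2

namespace Pool.Agent.SQ2

open Pool.Agent.SQ Multiset Multiplicative

universe u

/-- The trade over the elementary abelian group of order nine. -/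
theorem odd_t6 {G : Type*} [Group G] {X : Multiset G} {s t a b e u v : G} {R : Multiset (G × G)}
    (hR : Wk v s R) (h4 : (t, t * b) ∈ R) (h1 : (s⁻¹ * t * e⁻¹ * b, a) ∈ R)
    (hne : t ≠ s⁻¹ * t * e⁻¹ * b) {S : Multiset (G × G)}
    (hS : S = {(s, s * a)} + {(s * a, u)} + {(u, t * s⁻¹ * t * e⁻¹ * b)} +
      {(t * s⁻¹ * t * e⁻¹ * b, t * e)} + {(t * e, t * e⁻¹ * b)} + {(t * e⁻¹ * b, s * b)} +
      {(s * b, v)})
    (hV : hd S + hd R = X) (hL : lb S + lb R = X) :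
    ∃ A, Wk 1 e A ∧ hd A = X + {e} ∧ lb A = X + {e} := by
  subst hS
  obtain ⟨A1, A2, k1, k2, rfl⟩ := hR.cut h4
  have l1 : (1 : G)⁻¹ * a = s⁻¹ * (s * a) := by group
  have l2 : s⁻¹ * (s * b) = t⁻¹ * (t * b) := by group
  have l3 : t⁻¹ * (t * e) = e := by group
  have l4 : (t * e⁻¹ * b)⁻¹ * (s * a) = (s⁻¹ * t * e⁻¹ * b)⁻¹ * a := by group
  have l5 : (t * s⁻¹ * t * e⁻¹ * b)⁻¹ * (t * b) = (t * e⁻¹ * b)⁻¹ * (s * b) := by group
  have l6 : (s⁻¹ * t * e⁻¹ * b)⁻¹ * e = (t * s⁻¹ * t * e⁻¹ * b)⁻¹ * (t * e) := by group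
  have p1 : Wk t (t * b) ({(t, t * e)} + {(t * e, t * e⁻¹ * b)} + {(t * e⁻¹ * b, s * a)} +
      {(s * a, u)} + {(u, t * s⁻¹ * t * e⁻¹ * b)} + {(t * s⁻¹ * t * e⁻¹ * b, t * b)}) :=
    (((((Wk.edge _ _).trans (Wk.edge _ _)).trans (Wk.edge _ _)).trans (Wk.edge _ _)).trans
      (Wk.edge _ _)).trans (Wk.edge _ _)
  have p2 : Wk s v ({(s, s * b)} + {(s * b, v)}) := (Wk.edge _ _).trans (Wk.edge _ _)
  rcases mem_add.1 h1 with h | h
  · rcases mem_add.1 h with h | h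
    · obtain ⟨B1, B2, j1, j2, rfl⟩ := k1.cut h
      refine ⟨_, ((((((Wk.edge 1 a).trans j2).trans p1).trans k2).trans p2).trans j1).trans
        (Wk.edge _ e), ?_, ?_⟩
      · rw [← hV]
        simp only [hd_add, hd_one]
        abel
      · rw [← hL]
        simp only [lb_add, lb_one]
        rw [l1, l2, l3, l4, l5, l6]
        abel
    · exact absurd (Prod.mk.inj (mem_singleton.1 h)).1.symm hne
  · obtain ⟨B1, B2, j1, j2, rfl⟩ := k2.cut h
    refine ⟨_, ((((((Wk.edge 1 a).trans j2).trans p2).trans k1).trans p1).trans j1).trans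
      (Wk.edge _ e), ?_, ?_⟩
    · rw [← hV]
      simp only [hd_add, hd_one]
      abel
    · rw [← hL]
      simp only [lb_add, lb_one]
      rw [l1, l2, l3, l4, l5, l6]
      abel

theorem odd_bot {G Q : Type*} [Group G] [Finite G] [Group Q] {φ : G →* Q} [Subsingleton φ.ker]
    (h : ∃ x, Pth ld x x (out φ) (out φ)) : RG G := by
  have e : out φ = st (· ≠ 1) := by
    rw [← nz_add φ, show (st fun h : φ.ker => h ≠ 1) = 0 from
      (eq_st nodup_zero fun a => by simp [Subsingleton.elim a 1]).symm]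
    simp
  rwa [e] at h

theorem odd_cyc {G : Type*} [Group G] [Finite G] {n : ℕ} [NeZero n]
    {φ : G →* Multiplicative (ZMod n)} (hφ : Function.Surjective φ) (hs : Sys φ)
    (ih : RG φ.ker) : RG G := by
  obtain ⟨hcyc, r₀, c₀, w₀, -, hexc⟩ := hs
  rcases subsingleton_or_nontrivial φ.ker with hH | hH
  · exact odd_bot hcyc
  obtain ⟨w, hw⟩ := hφ w₀
  obtain ⟨t, ht⟩ := hφ (ofAdd 1)
  have hp : ∀ x : Multiplicative (ZMod n), φ (t ^ x.toAdd.val) = x := fun x => by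
    rw [map_pow, ht, ← ofAdd_nsmul, nsmul_one, ZMod.natCast_zmod_val, ofAdd_toAdd]
  obtain ⟨η, hη⟩ := exists_ne (1 : φ.ker)
  have e := hexc _ _ w η (hp r₀) (hp c₀) hw η.2 (by simpa using hη)
  rw [pow_mul_comm, mul_inv_cancel_right, mul_inv_cancel, mul_one, inv_mul_cancel, one_mul] at e
  exact mergeRR ih hη e

/-- The arrangement used for the elementary abelian group of order nine. -/
def odd_f (i : ℕ) : ZMod 3 × ZMod 3 :=
  [(2, 0), (0, 2), (2, 2), (2, 1), (1, 0), (0, 1), (1, 1), (1, 2)].getD i (2, 0)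

theorem odd_33 {G : Type u} [Group G] [Finite G] [Group.IsSolvable G] (ho : Odd (Nat.card G))
    {φ : G →* Multiplicative (ZMod 3 × ZMod 3)} (hφ : Function.Surjective φ)
    (ih : RG φ.ker) : RG G := by
  rcases subsingleton_or_nontrivial φ.ker with hH | hH
  · exact odd_bot (sys33 ho φ hφ).1
  obtain ⟨f, hf, hf'⟩ := Fr.ofRS (rs_of odd_f 8 (by simp) (by decide) (by decide) (by decide)
    (by decide) (by decide)) φ hφ
  obtain ⟨s, hs⟩ := hφ (ofAdd (2, 0))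
  obtain ⟨t, ht⟩ := hφ (ofAdd (1, 0))
  obtain ⟨a, ha⟩ := hφ (ofAdd (1, 2))
  obtain ⟨b, hb⟩ := hφ (ofAdd (2, 1))
  obtain ⟨u, hu⟩ := hφ (ofAdd (2, 2))
  obtain ⟨e, he, he1, hw⟩ : ∃ e, φ e = 1 ∧ e ≠ 1 ∧ s⁻¹ * t * e⁻¹ * s⁻¹ ≠ 1 := by
    obtain ⟨η, hη⟩ := exists_ne (1 : φ.ker)
    have h0 : φ η = 1 := η.2
    have h1 : (η : G) ≠ 1 := by simpa using hη
    by_cases h : s⁻¹ * t * (η : G)⁻¹ * s⁻¹ = 1
    · refine ⟨η⁻¹, by rw [map_inv, h0, inv_one], inv_ne_one.2 h1, fun h' => h1 ?_⟩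
      have h2 : (η : G)⁻¹⁻¹ = (η : G)⁻¹ := mul_left_cancel (mul_right_cancel (h'.trans h.symm))
      refine sq_inj ho ?_
      rw [inv_inv] at h2
      change (η : G) * η = 1 * 1
      rw [one_mul]
      nth_rewrite 1 [h2]
      exact inv_mul_cancel _
    · exact ⟨η, h0, h1, h⟩
  let τ : ℕ → G := fun i => [s, s * a, u, t * s⁻¹ * t * e⁻¹ * b, t * e, t * e⁻¹ * b, s * b,
    s⁻¹ * t * e⁻¹ * s⁻¹ * a].getD i s
  have hτ : Fr φ.ker τ (7 + 1) (ou φ.ker) (ou φ.ker) := by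
    refine hf.congr (fun j hj => ?_) rfl
    rw [MonoidHom.mem_ker, map_mul, map_inv, hf', mul_inv_eq_one]
    interval_cases j <;> simp [τ, hs, ht, ha, hb, hu, he] <;> decide
  obtain ⟨R, hR, hV, hL, hm⟩ := oneLift (odd_sub ho φ.ker) (by decide) hτ
  have h4 := hm 4 (by omega) (t * e⁻¹ * t⁻¹) (by simp [MonoidHom.mem_ker, he])
    (by simpa using he1)
  have h1 := hm 6 (by omega) (s⁻¹ * t * e⁻¹ * s⁻¹)
    (by simp only [MonoidHom.mem_ker, map_mul, map_inv, hs, ht, he]; decide) hw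
  have e1 : t * e⁻¹ * t⁻¹ * τ 4 = t := by change _ * (t * e) = _; group
  have e2 : (t * e⁻¹ * t⁻¹)⁻¹ * τ (4 + 1) = t * b := by change _ * (t * e⁻¹ * b) = _; group
  have e3 : s⁻¹ * t * e⁻¹ * s⁻¹ * τ 6 = s⁻¹ * t * e⁻¹ * b := by change _ * (s * b) = _; group
  have e4 : (s⁻¹ * t * e⁻¹ * s⁻¹)⁻¹ * τ (6 + 1) = a := by
    change _ * (s⁻¹ * t * e⁻¹ * s⁻¹ * a) = _; group
  rw [e1, e2] at h4
  rw [e3, e4] at h1
  refine ex_RR ih he he1 (odd_t6 (s := s) (u := u) hR h4 h1 (fun h => ?_) ?_ hV hL)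
  · have := congrArg φ h
    simp only [map_mul, map_inv, hs, ht, hb, he] at this
    exact absurd this (by decide)
  · simp only [sgm, Finset.sum_range_succ, Finset.sum_range_zero, zero_add]
    rfl

theorem odd_three {G : Type*} [Group G] [Finite G] [Group.IsSolvable G] (ho : Odd (Nat.card G))
    {π : G →* Multiplicative (ZMod 3)} (hπ : Function.Surjective π) (hH : π.ker ≤ commutator G)
    (ih : RG π.ker) : RG G := by
  rcases subsingleton_or_nontrivial π.ker with hN | hN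
  · exact odd_bot (cyc3 ho π hπ)
  obtain ⟨q, hq, ψ, hψ⟩ := exists_zmod π.ker
  have : Fact q.Prime := ⟨hq⟩
  obtain ⟨z, hz⟩ := hπ (ofAdd 1)
  let T : π.ker →* π.ker := (MulAut.conjNormal z⁻¹ : MulAut π.ker).toMonoidHom
  have hT : ∀ h, (T h : G) = z⁻¹ * h * z := fun h => by simp [T]
  have hz3 : z * z * z ∈ π.ker := by
    rw [MonoidHom.mem_ker, map_mul, map_mul, hz]; decide
  have hT3 : ∀ h, T (T (T h)) = (⟨_, hz3⟩ : π.ker)⁻¹ * h * ⟨_, hz3⟩ := fun h =>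
    Subtype.ext (by simp [hT, mul_assoc])
  have hz1 : π z⁻¹ ≠ 1 := by rw [map_inv, hz]; decide
  let A : π.ker → ZMod q := fun h => (ψ h).toAdd
  have Ai : ∀ a, A a⁻¹ = -A a := fun a => by simp [A]
  have A3 : ∀ h, A (T (T h)) = -A h - A (T h) := fun h => by
    have h1 := inv_triv π hH hz1 (ψ * ψ.comp T * ψ.comp (T.comp T)) (fun h => by
      change ψ (T h) * ψ (T (T h)) * ψ (T (T (T h))) = ψ h * ψ (T h) * ψ (T (T h))
      rw [hT3]; simp [mul_comm, mul_left_comm]) h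
    have h2 : A h + A (T h) + A (T (T h)) = 0 := congrArg toAdd h1
    linear_combination h2
  obtain ⟨p, hp⟩ : ∃ p, A p = 1 := (hψ (ofAdd 1)).imp fun p hp => congrArg toAdd hp
  have hq2 : q ≠ 2 := by
    rintro rfl
    have h := Subgroup.card_dvd_of_surjective ψ hψ
    rw [show Nat.card (Multiplicative (ZMod 2)) = 2 by simp] at h
    exact (Nat.not_even_iff_odd.2 (odd_sub ho _)) (even_iff_two_dvd.2 h)
  have hq3 : q ≠ 3 := by
    rintro rfl
    have h3 : (3 : ZMod 3) = 0 := rfl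
    have h1 := inv_triv π hH hz1 (ψ / ψ.comp T) fun h => toAdd.injective (by
      change A (T h) - A (T (T h)) = A h - A (T h)
      rw [A3]
      linear_combination A (T h) * h3)
    have h2 := inv_triv π hH hz1 ψ (fun h => (div_eq_one.1 (h1 h)).symm) p
    have h4 : A p = 0 := congrArg toAdd h2
    exact one_ne_zero (hp.symm.trans h4)
  have h5 : 5 ≤ q := by
    have := hq.two_le
    have h4 : q ≠ 4 := fun h => absurd (h ▸ hq) (by norm_num)
    omega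
  have b0 : A (T p)⁻¹ = -A (T p) := Ai _
  have b1 : A (T (T p)⁻¹) = 1 + A (T p) := by rw [map_inv, Ai, A3, hp]; ring
  have a1 : ¬ (A p = 0 ∧ A (T p) = 0) := fun h => one_ne_zero (hp.symm.trans h.1)
  have a2 : ¬ (A (T p)⁻¹ = 0 ∧ A (T (T p)⁻¹) = 0) := by
    rw [b0, b1]
    exact fun h => one_ne_zero (by linear_combination h.1 + h.2)
  have a3 : ¬ (A (T p)⁻¹ - A p = 0 ∧ A (T (T p)⁻¹) - A (T p) = 0) := by
    rw [b0, b1]
    exact fun h => one_ne_zero (by linear_combination h.2)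
  have e := excB' ho h5 π hz ψ (ψ.comp T) p (T p)⁻¹ a1 a2 a3
  have e2 : (z * z)⁻¹ * ((p : G)⁻¹ * ((T p)⁻¹ : π.ker)) * z⁻¹ * p * (z * z * z) =
      z⁻¹ * ((T p)⁻¹ : π.ker) * z := by
    rw [Subgroup.coe_inv, hT]
    group
  rw [e2, ← hT] at e
  refine mergeRR ih (fun h => a1 ?_) e
  have h1 : (p : G) = 1 := by
    have h2 := congrArg Subtype.val h
    rw [hT, Subgroup.coe_inv, hT, Subgroup.coe_one] at h2
    have h3 : (p : G) = z * z * (z⁻¹ * (z⁻¹ * p * z)⁻¹ * z)⁻¹ * z⁻¹ * z⁻¹ := by group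
    rw [h3, h2]
    group
  have h2 : p = 1 := Subtype.ext h1
  rw [h2, map_one]
  simp [A]

theorem odd_aux (n : ℕ) : ∀ (G : Type u) [Group G] [Finite G] [Group.IsSolvable G],
    Nat.card G ≤ n → Odd (Nat.card G) → RG G := by
  induction n with
  | zero => intro G _ _ _ h; exact absurd (Nat.card_pos (α := G)) (by omega)
  | succ n ih =>
    intro G _ _ _ h ho
    rcases subsingleton_or_nontrivial G with hG | hG
    · exact rg_trivial
    have IH : ∀ {Q : Type} [Group Q] [Nontrivial Q] (φ : G →* Q), Function.Surjective φ →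
        RG φ.ker := fun φ hφ =>
      ih _ (by have := card_ker_lt φ hφ; omega) (odd_sub ho _)
    have hs : Function.Surjective (Abelianization.of : G →* _) := QuotientGroup.mk_surjective
    have hA := nontrivial_ab G
    have h1 : 1 < Nat.card (Abelianization G) := Finite.one_lt_card
    have hoA : Odd (Nat.card (Abelianization G)) :=
      ho.of_dvd_nat (Subgroup.card_dvd_of_surjective _ hs)
    by_cases h5 : ∃ p, p.Prime ∧ 5 ≤ p ∧ p ∣ Nat.card (Abelianization G)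
    · obtain ⟨p, hp, h5, hd⟩ := h5
      have : Fact p.Prime := ⟨hp⟩
      obtain ⟨φ, hφ⟩ := exists_zmod_of_dvd _ hp hd
      exact odd_cyc (φ := φ.comp Abelianization.of) (hφ.comp hs)
        (sys_prime ho hp h5 (φ.comp Abelianization.of) (hφ.comp hs)) (IH _ (hφ.comp hs))
    by_cases h9 : 9 ∣ Nat.card (Abelianization G)
    · have : Fact (1 < 9) := ⟨by norm_num⟩
      rcases nine _ h9 with ⟨φ, hφ⟩ | ⟨φ, hφ⟩
      · exact odd_cyc (φ := φ.comp Abelianization.of) (hφ.comp hs)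
          (sys9 ho (φ.comp Abelianization.of) (hφ.comp hs)) (IH _ (hφ.comp hs))
      · exact odd_33 ho (φ := φ.comp Abelianization.of) (hφ.comp hs) (IH _ (hφ.comp hs))
    have key : ∀ m, m ∣ Nat.card (Abelianization G) → m ≠ 1 → 3 ∣ m := by
      intro m hm hm1
      have hp := Nat.minFac_prime hm1
      have hd := (Nat.minFac_dvd m).trans hm
      have a2 : m.minFac ≠ 2 := fun e =>
        (Nat.not_even_iff_odd.2 hoA) (even_iff_two_dvd.2 (e ▸ hd))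
      have a4 : m.minFac ≠ 4 := fun e => absurd (e ▸ hp) (by norm_num)
      have a5 : ¬ 5 ≤ m.minFac := fun e => h5 ⟨_, hp, e, hd⟩
      have := hp.two_le
      exact (show m.minFac = 3 by omega) ▸ Nat.minFac_dvd m
    have h3 := key _ dvd_rfl h1.ne'
    have hc : Nat.card (Abelianization G) = 3 := by
      obtain ⟨m, hm⟩ := h3
      by_cases e : m = 1
      · rw [hm, e]
      · exact absurd (hm ▸ Nat.mul_dvd_mul_left 3 (key m (hm ▸ Dvd.intro_left 3 rfl) e)) h9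
    obtain ⟨φ, hφ⟩ := exists_zmod_of_dvd _ Nat.prime_three h3
    have hi : Function.Injective φ :=
      ((Nat.bijective_iff_surjective_and_card φ).2 ⟨hφ, by rw [hc]; simp⟩).1
    refine odd_three ho (π := φ.comp Abelianization.of) (hφ.comp hs) (fun g hg => ?_)
      (IH _ (hφ.comp hs))
    rw [← Abelianization.ker_of]
    exact hi ((MonoidHom.mem_ker.1 hg).trans (map_one φ).symm)

theorem rg_odd (G : Type u) [Group G] [Finite G] [Group.IsSolvable G] (ho : Odd (Nat.card G)) :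
    RG G := odd_aux _ G le_rfl ho

end Pool.Agent.SQ2

end MrgPart2

-- marker of a merged file
example : 731051 + 560059 = 731051 + 560059 := rfl
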