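import Pool.Agent.MP_f56020_al.s2.Aff

namespace Pool.Agent.SQ2

theorem dz_a4 : DZ (ca4 1 0) 0 (((0, 1), 0), 0) 10 :=
  ⟨by decide, by decide,
  D8.of (dc (dc (dc Nat.cast 2) 2) 3)
    [3, 5, 11, 7, 2, 9, 10, 4, 8, 1]
    [2, 3, 11, 10, 7, 1, 9, 4, 5, 8]
    9 5 1 3 (by decide +kernel),
  D4.of (dc (dc (dc Nat.cast 2) 2) 3)
    [3, 4, 9, 5, 11, 10, 2, 7, 1, 8]
    [1, 11, 8, 3, 2, 4, 5, 9, 10, 7]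
    7 4 8 11 7 (by decide +kernel),
  D4.of (dc (dc (dc Nat.cast 2) 2) 3)
    [3, 2, 4, 10, 9, 1, 11, 5, 7, 8]
    [5, 11, 9, 2, 10, 4, 3, 8, 1, 7]
    5 2 1 11 7 (by decide +kernel)⟩

theorem dz_s4 : DZ (cs4 1 0 0) 0 ((((0, 1), 0), 0), 0) 22 :=
  ⟨by decide, by decide,
  D8.of (dc (dc (dc (dc Nat.cast 2) 2) 3) 2)
    [2, 3, 17, 5, 9, 4, 13, 21, 22, 20, 16, 23, 6, 19, 1, 10, 14, 7, 11, 8, 15, 18]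
    [1, 10, 18, 8, 17, 9, 22, 5, 4, 14, 19, 23, 13, 6, 21, 16, 11, 2, 3, 7, 15, 20]
    14 3 1 10 (by decide +kernel),
  D4.of (dc (dc (dc (dc Nat.cast 2) 2) 3) 2)
    [14, 10, 19, 23, 22, 16, 6, 4, 9, 5, 20, 11, 21, 18, 17, 1, 2, 7, 13, 15, 8, 3]
    [8, 9, 2, 1, 18, 14, 10, 23, 16, 15, 21, 20, 3, 11, 22, 5, 17, 6, 4, 19, 13, 7]
    19 10 20 9 15 (by decide +kernel),
  D4.of (dc (dc (dc (dc Nat.cast 2) 2) 3) 2)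
    [18, 9, 6, 2, 14, 13, 21, 8, 17, 19, 23, 1, 10, 15, 3, 16, 11, 22, 20, 7, 5, 4]
    [15, 3, 8, 18, 5, 22, 7, 9, 10, 2, 16, 21, 17, 6, 11, 13, 19, 4, 23, 20, 1, 14]
    13 9 15 3 3 (by decide +kernel)⟩

theorem dz_f20 : DZ (mc 5 4 2 0) 0 (0, 2) 18 :=
  ⟨by decide, by decide,
  D8.of (dc Nat.cast 4)
    [8, 13, 12, 1, 4, 14, 17, 9, 16, 10, 19, 5, 15, 18, 6, 7, 11, 3]
    [5, 3, 9, 15, 10, 19, 16, 7, 14, 13, 18, 6, 11, 12, 1, 8, 4, 17]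
    16 13 11 3 (by decide +kernel),
  D4.of (dc Nat.cast 4)
    [4, 17, 14, 1, 16, 3, 10, 6, 5, 19, 13, 9, 7, 12, 18, 15, 11, 8]
    [13, 9, 15, 11, 7, 19, 4, 3, 18, 14, 8, 10, 17, 6, 5, 12, 1, 16]
    9 17 15 9 19 (by decide +kernel),
  D4.of (dc Nat.cast 4)
    [12, 15, 7, 14, 8, 4, 9, 3, 16, 5, 18, 10, 11, 6, 1, 19, 13, 17]
    [3, 4, 19, 6, 16, 5, 18, 13, 9, 17, 8, 1, 15, 7, 10, 14, 12, 11]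
    13 15 17 4 16 (by decide +kernel)⟩

theorem dz_f20b : DZ (mc 5 4 3 0) 0 (0, 2) 18 :=
  ⟨by decide, by decide,
  D8.of (dc Nat.cast 4)
    [19, 4, 1, 8, 16, 5, 11, 6, 13, 10, 12, 15, 17, 18, 14, 9, 3, 7]
    [5, 17, 19, 8, 9, 10, 11, 15, 13, 18, 3, 14, 1, 4, 7, 6, 12, 16]
    11 4 15 17 (by decide +kernel),
  D4.of (dc Nat.cast 4)
    [8, 17, 16, 11, 1, 9, 15, 3, 7, 14, 5, 12, 13, 6, 18, 4, 10, 19]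
    [9, 3, 15, 18, 16, 10, 4, 12, 7, 11, 19, 1, 5, 8, 14, 6, 13, 17]
    4 17 11 3 1 (by decide +kernel),
  D4.of (dc Nat.cast 4)
    [4, 16, 5, 6, 9, 3, 15, 11, 12, 7, 17, 10, 1, 19, 8, 18, 14, 13]
    [12, 9, 1, 19, 6, 16, 8, 13, 15, 18, 5, 11, 14, 17, 10, 4, 3, 7]
    10 16 4 9 7 (by decide +kernel)⟩

theorem dz_f42 : DZ (mc 7 6 3 0) 0 (0, 3) 40 :=
  ⟨by decide, by decide,
  D8.of (dc Nat.cast 6)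
    [32, 21, 26, 18, 20, 24, 34, 29, 23, 38, 16, 9, 28, 13, 30, 5, 15, 1, 25, 2, 27, 37, 4, 40,
    19, 6, 14, 10, 11, 12, 17, 22, 31, 35, 41, 7, 39, 33, 36, 8]
    [37, 41, 22, 2, 28, 10, 31, 24, 15, 32, 35, 25, 21, 11, 17, 40, 16, 36, 7, 13, 34, 33, 30,
    9, 29, 8, 20, 1, 19, 5, 23, 27, 4, 18, 38, 26, 6, 39, 14, 12]
    33 21 35 41 (by decide +kernel),
  D4.of (dc Nat.cast 6)
    [36, 32, 37, 29, 20, 4, 31, 9, 27, 8, 33, 17, 5, 22, 2, 13, 38, 15, 39, 41, 24, 16, 19, 18,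
    6, 7, 28, 26, 34, 40, 30, 23, 12, 11, 21, 1, 25, 10, 14, 35]
    [38, 29, 28, 27, 14, 21, 8, 24, 23, 13, 20, 6, 17, 10, 11, 37, 31, 18, 2, 7, 34, 15, 5, 30,
    1, 9, 4, 26, 12, 32, 35, 25, 41, 40, 22, 36, 39, 16, 33, 19]
    15 32 10 29 13 (by decide +kernel),
  D4.of (dc Nat.cast 6)
    [36, 32, 29, 9, 33, 21, 1, 5, 7, 15, 35, 26, 28, 22, 25, 4, 23, 10, 41, 8, 38, 17, 16, 40,
    18, 19, 30, 12, 37, 14, 31, 24, 11, 39, 2, 27, 13, 20, 6, 34]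
    [38, 21, 34, 18, 12, 22, 4, 20, 32, 26, 27, 2, 30, 15, 9, 37, 11, 19, 39, 36, 33, 5, 6, 8,
    1, 23, 24, 25, 7, 35, 17, 29, 10, 41, 13, 16, 31, 40, 28, 14]
    31 32 10 21 21 (by decide +kernel)⟩

theorem dz_f42b : DZ (mc 7 6 5 0) 0 (0, 3) 40 :=
  ⟨by decide, by decide,
  D8.of (dc Nat.cast 6)
    [24, 17, 4, 33, 27, 10, 28, 32, 31, 39, 20, 38, 2, 35, 37, 22, 6, 16, 23, 14, 18, 13, 41,
    30, 15, 19, 29, 1, 5, 26, 7, 40, 34, 12, 36, 25, 21, 8, 9, 11]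
    [35, 29, 41, 6, 19, 30, 28, 5, 20, 23, 36, 12, 21, 32, 33, 38, 10, 25, 15, 16, 37, 34, 13,
    27, 40, 22, 8, 4, 39, 11, 9, 18, 14, 24, 31, 26, 17, 1, 2, 7]
    25 17 19 29 (by decide +kernel),
  D4.of (dc Nat.cast 6)
    [12, 40, 41, 19, 16, 22, 5, 28, 37, 18, 10, 33, 27, 2, 30, 4, 11, 7, 39, 34, 20, 29, 38, 26,
    23, 31, 15, 35, 14, 13, 25, 8, 6, 17, 36, 24, 1, 21, 9, 32]
    [28, 1, 38, 27, 24, 13, 41, 9, 35, 34, 17, 6, 29, 22, 16, 25, 2, 8, 7, 40, 15, 21, 18, 33,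
    20, 32, 26, 39, 5, 36, 31, 4, 11, 37, 30, 19, 14, 12, 23, 10]
    6 40 26 1 5 (by decide +kernel),
  D4.of (dc Nat.cast 6)
    [36, 8, 39, 16, 21, 20, 13, 9, 27, 12, 11, 5, 1, 33, 41, 30, 28, 38, 6, 40, 29, 14, 35, 37,
    4, 17, 10, 19, 23, 15, 24, 25, 7, 32, 22, 34, 26, 2, 31, 18]
    [14, 19, 25, 29, 5, 35, 26, 24, 15, 41, 12, 2, 8, 38, 13, 40, 10, 28, 34, 37, 27, 39, 32,
    21, 7, 17, 9, 4, 16, 33, 1, 30, 31, 20, 6, 22, 36, 23, 11, 18]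
    21 8 34 19 35 (by decide +kernel)⟩

theorem dz_dic3 : DZ (mc 3 4 2 0) 0 (0, 2) 10 :=
  ⟨by decide, by decide,
  D8.of (dc Nat.cast 4)
    [5, 8, 1, 7, 4, 11, 10, 6, 3, 9]
    [11, 5, 10, 1, 7, 3, 8, 9, 6, 4]
    9 8 9 5 (by decide +kernel),
  D4.of (dc Nat.cast 4)
    [8, 9, 6, 10, 5, 11, 3, 4, 7, 1]
    [1, 5, 4, 11, 10, 8, 9, 3, 6, 7]
    8 9 11 5 7 (by decide +kernel),
  D4.of (dc Nat.cast 4)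
    [4, 3, 10, 6, 7, 9, 8, 5, 1, 11]
    [11, 7, 8, 1, 10, 3, 9, 4, 6, 5]
    4 3 1 7 5 (by decide +kernel)⟩

theorem dz_s3z3 : DZ (mc 3 6 2 0) 0 (0, 3) 16 :=
  ⟨by decide, by decide,
  D8.of (dc Nat.cast 6)
    [11, 13, 7, 4, 16, 17, 2, 15, 10, 6, 14, 1, 5, 9, 8, 12]
    [14, 6, 9, 12, 1, 15, 13, 7, 2, 8, 11, 4, 16, 5, 10, 17]
    8 13 10 6 (by decide +kernel),
  D4.of (dc Nat.cast 6)
    [6, 15, 1, 5, 17, 16, 12, 7, 2, 10, 4, 8, 9, 14, 11, 13]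
    [9, 16, 4, 6, 5, 2, 13, 7, 8, 12, 10, 1, 17, 15, 14, 11]
    11 15 15 16 8 (by decide +kernel),
  D4.of (dc Nat.cast 6)
    [12, 1, 10, 15, 2, 14, 5, 9, 8, 4, 6, 16, 17, 13, 7, 11]
    [7, 15, 11, 17, 12, 9, 16, 5, 14, 8, 10, 1, 2, 6, 4, 13]
    10 1 5 15 15 (by decide +kernel)⟩

theorem dz_d18 : DZ (mc 9 2 8 0) 0 (0, 1) 16 :=
  ⟨by decide, by decide,
  D8.of (dc Nat.cast 2)
    [11, 8, 14, 3, 6, 17, 15, 10, 9, 13, 5, 7, 12, 4, 16, 2]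
    [3, 6, 7, 15, 11, 2, 5, 17, 14, 8, 16, 13, 10, 12, 4, 9]
    3 8 3 6 (by decide +kernel),
  D4.of (dc Nat.cast 2)
    [8, 3, 4, 15, 12, 9, 17, 13, 7, 5, 16, 6, 11, 2, 14, 10]
    [13, 17, 11, 3, 15, 10, 4, 6, 2, 7, 8, 5, 9, 12, 14, 16]
    6 3 3 17 17 (by decide +kernel),
  D4.of (dc Nat.cast 2)
    [4, 11, 9, 3, 12, 5, 6, 14, 17, 7, 13, 16, 2, 15, 10, 8]
    [7, 2, 6, 9, 11, 17, 8, 3, 10, 12, 15, 4, 13, 5, 16, 14]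
    3 11 11 2 16 (by decide +kernel)⟩

theorem dz_d33 : DZ (d33) 0 ((0, 0), 1) 16 :=
  ⟨by decide, by decide,
  D8.of (dc (dc Nat.cast 3) 2)
    [16, 5, 3, 7, 2, 14, 6, 15, 4, 17, 13, 11, 8, 12, 9, 10]
    [7, 2, 14, 11, 12, 16, 9, 17, 13, 4, 8, 3, 10, 15, 5, 6]
    3 5 7 2 (by decide +kernel),
  D4.of (dc (dc Nat.cast 3) 2)
    [12, 6, 15, 11, 13, 17, 10, 16, 3, 8, 7, 14, 4, 2, 5, 9]
    [12, 9, 10, 16, 2, 7, 6, 11, 13, 5, 17, 8, 4, 3, 14, 15]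
    15 6 12 9 9 (by decide +kernel),
  D4.of (dc (dc Nat.cast 3) 2)
    [6, 12, 5, 7, 10, 8, 2, 16, 9, 14, 13, 4, 11, 3, 17, 15]
    [6, 11, 16, 3, 4, 12, 14, 17, 13, 5, 15, 7, 8, 10, 2, 9]
    9 12 6 11 11 (by decide +kernel)⟩

end Pool.Agent.SQ2
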