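import Pool.Agent.MP_f56020_al.s2.Aff

namespace Pool.Agent.SQ2

theorem do_a4 : DO (ca4 1 0) 0 11 :=
  ⟨by decide,
  D8.of (dc (dc (dc Nat.cast 2) 2) 3)
    [6, 8, 1, 5, 7, 2, 4, 10, 11, 3, 9]
    [2, 5, 7, 8, 10, 11, 9, 1, 4, 6, 3]
    2 8 1 5 (by decide +kernel),
  DS.of (dc (dc (dc Nat.cast 2) 2) 3)
    [8, 10, 1, 7, 5, 6, 4, 3, 2, 11, 9]
    [8, 11, 3, 9, 4, 7, 10, 2, 5, 6, 1]
    9 6 1 (by decide +kernel)⟩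

theorem do_a42 : DO (ca4 2 0) 0 23 :=
  ⟨by decide,
  D8.of (dc (dc (dc Nat.cast 2) 2) 3)
    [16, 7, 8, 19, 15, 1, 17, 13, 6, 14, 2, 9, 3, 11, 10, 23, 4, 22, 5, 20, 12, 21, 18]
    [15, 1, 14, 5, 16, 19, 11, 23, 20, 12, 7, 6, 8, 2, 13, 17, 21, 22, 18, 4, 9, 3, 10]
    4 7 15 1 (by decide +kernel),
  DS.of (dc (dc (dc Nat.cast 2) 2) 3)
    [15, 20, 10, 5, 22, 14, 2, 18, 7, 6, 13, 17, 8, 19, 16, 11, 4, 1, 3, 23, 21, 12, 9]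
    [15, 11, 23, 10, 17, 4, 12, 16, 13, 2, 19, 7, 18, 14, 3, 22, 5, 6, 8, 20, 1, 9, 21]
    9 6 1 (by decide +kernel)⟩

theorem do_sl23 : DO (ca4 2 1) 0 23 :=
  ⟨by decide,
  D8.of (dc (dc (dc Nat.cast 2) 2) 3)
    [8, 11, 15, 19, 9, 16, 4, 17, 22, 7, 14, 10, 13, 12, 2, 6, 5, 23, 20, 18, 1, 21, 3]
    [21, 16, 10, 20, 19, 12, 13, 17, 6, 22, 8, 15, 2, 14, 4, 23, 3, 9, 1, 7, 5, 18, 11]
    4 11 9 16 (by decide +kernel),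
  DS.of (dc (dc (dc Nat.cast 2) 2) 3)
    [19, 23, 8, 10, 15, 21, 17, 11, 9, 1, 14, 5, 16, 4, 18, 22, 2, 20, 13, 3, 7, 6, 12]
    [19, 7, 21, 23, 11, 18, 8, 3, 1, 22, 13, 9, 14, 12, 5, 4, 16, 15, 17, 20, 10, 2, 6]
    12 6 6 (by decide +kernel)⟩

theorem do_c4 : DO (ca4 4 2) 0 47 :=
  ⟨by decide,
  D8.of (dc (dc (dc Nat.cast 2) 2) 3)
    [46, 30, 41, 6, 39, 16, 47, 43, 4, 44, 36, 5, 32, 45, 12, 2, 25, 8, 28, 7, 18, 19, 17, 31,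
    38, 11, 35, 23, 40, 14, 29, 1, 13, 33, 22, 3, 26, 10, 9, 27, 21, 34, 20, 24, 15, 42, 37]
    [20, 47, 43, 21, 25, 34, 11, 15, 16, 28, 17, 6, 46, 9, 38, 26, 10, 32, 3, 14, 1, 4, 44, 22,
    42, 24, 36, 29, 7, 45, 35, 12, 41, 37, 23, 5, 8, 2, 30, 18, 13, 19, 40, 39, 33, 31, 27]
    5 30 16 47 (by decide +kernel),
  DS.of (dc (dc (dc Nat.cast 2) 2) 3)
    [1, 4, 3, 14, 9, 2, 32, 12, 22, 27, 42, 39, 19, 23, 29, 36, 40, 5, 13, 15, 41, 31, 8, 43,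
    37, 45, 18, 6, 46, 44, 16, 28, 17, 30, 35, 38, 11, 7, 34, 10, 26, 20, 33, 47, 25, 21, 24]
    [1, 6, 2, 41, 19, 35, 27, 16, 10, 47, 21, 33, 34, 7, 15, 22, 4, 13, 23, 8, 26, 20, 25, 38,
    9, 29, 3, 36, 40, 31, 32, 12, 37, 43, 5, 18, 42, 11, 30, 24, 28, 39, 46, 14, 44, 17, 45]
    24 12 12 (by decide +kernel)⟩

theorem do_s4 : DO (cs4 1 0 0) 0 23 :=
  ⟨by decide,
  D8.of (dc (dc (dc (dc Nat.cast 2) 2) 3) 2)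
    [21, 14, 12, 19, 16, 9, 7, 6, 18, 23, 15, 8, 11, 1, 17, 3, 22, 2, 20, 5, 13, 4, 10]
    [13, 4, 7, 21, 17, 2, 1, 12, 5, 8, 19, 3, 10, 14, 20, 23, 16, 6, 9, 22, 15, 18, 11]
    20 14 13 4 (by decide +kernel),
  DS.of (dc (dc (dc (dc Nat.cast 2) 2) 3) 2)
    [2, 16, 7, 15, 17, 21, 4, 11, 10, 22, 5, 6, 20, 23, 8, 1, 9, 3, 12, 19, 13, 14, 18]
    [2, 20, 15, 10, 4, 8, 23, 19, 1, 6, 13, 11, 14, 3, 21, 17, 22, 12, 9, 7, 18, 5, 16]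
    18 15 15 (by decide +kernel)⟩

theorem do_gl23 : DO (cs4 2 1 0) 0 47 :=
  ⟨by decide,
  D8.of (dc (dc (dc (dc Nat.cast 2) 2) 3) 2)
    [43, 33, 25, 37, 13, 11, 9, 38, 39, 30, 40, 5, 15, 22, 6, 10, 28, 2, 12, 7, 8, 14, 21, 35,
    16, 31, 1, 4, 29, 32, 19, 34, 44, 3, 46, 18, 17, 42, 23, 24, 36, 45, 41, 26, 20, 47, 27]
    [40, 14, 36, 24, 32, 2, 19, 1, 21, 22, 7, 20, 41, 8, 4, 42, 28, 46, 43, 5, 30, 13, 10, 37,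
    39, 18, 3, 25, 33, 47, 15, 34, 31, 23, 26, 35, 11, 29, 17, 12, 9, 16, 45, 6, 27, 38, 44]
    20 33 8 14 (by decide +kernel),
  DS.of (dc (dc (dc (dc Nat.cast 2) 2) 3) 2)
    [2, 16, 15, 38, 11, 29, 14, 7, 26, 17, 9, 6, 27, 21, 20, 43, 32, 39, 31, 47, 28, 23, 5, 37,
    33, 19, 13, 35, 25, 8, 30, 46, 44, 1, 18, 42, 34, 22, 41, 4, 45, 36, 10, 40, 12, 3, 24]
    [2, 44, 5, 25, 33, 30, 45, 11, 23, 21, 38, 3, 9, 18, 1, 29, 41, 31, 20, 14, 37, 13, 36, 46,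
    34, 32, 42, 8, 10, 47, 28, 40, 4, 35, 7, 24, 16, 6, 43, 19, 17, 15, 22, 12, 26, 39, 27]
    24 12 12 (by decide +kernel)⟩

theorem do_csu : DO (cs4 2 1 1) 0 47 :=
  ⟨by decide,
  D8.of (dc (dc (dc (dc Nat.cast 2) 2) 3) 2)
    [33, 20, 22, 7, 10, 26, 15, 17, 24, 39, 35, 3, 28, 14, 36, 1, 38, 30, 18, 47, 21, 42, 37,
    43, 9, 27, 12, 32, 29, 45, 13, 44, 34, 11, 46, 16, 40, 4, 23, 8, 25, 19, 2, 41, 31, 6, 5]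
    [7, 2, 9, 27, 46, 19, 4, 47, 15, 22, 32, 5, 34, 28, 13, 41, 10, 12, 29, 26, 3, 31, 18, 16,
    36, 33, 20, 39, 14, 38, 23, 44, 25, 43, 42, 24, 6, 37, 45, 17, 30, 11, 21, 40, 1, 35, 8]
    41 20 19 2 (by decide +kernel),
  DS.of (dc (dc (dc (dc Nat.cast 2) 2) 3) 2)
    [47, 6, 21, 23, 13, 43, 35, 22, 11, 38, 4, 39, 8, 40, 32, 25, 19, 16, 41, 42, 12, 34, 17,
    27, 7, 18, 44, 14, 29, 5, 3, 36, 37, 33, 10, 26, 45, 15, 9, 30, 46, 31, 20, 28, 1, 2, 24]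
    [47, 23, 39, 4, 10, 42, 38, 43, 7, 15, 44, 35, 19, 8, 16, 41, 30, 21, 25, 11, 6, 22, 13, 20,
    14, 37, 26, 12, 45, 24, 2, 33, 1, 34, 5, 46, 31, 36, 18, 3, 40, 9, 17, 32, 27, 29, 28]
    24 12 12 (by decide +kernel)⟩

theorem do_q24 : DO (mc 12 2 11 6) 0 23 :=
  ⟨by decide,
  D8.of (dc Nat.cast 2)
    [13, 16, 15, 8, 21, 23, 10, 7, 3, 11, 18, 20, 6, 17, 12, 2, 5, 9, 14, 22, 4, 19, 1]
    [9, 23, 19, 13, 22, 1, 21, 4, 16, 5, 2, 10, 11, 17, 14, 3, 20, 7, 8, 6, 15, 18, 12]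
    4 16 21 23 (by decide +kernel),
  DS.of (dc Nat.cast 2)
    [18, 17, 21, 19, 10, 2, 5, 6, 16, 23, 20, 15, 22, 4, 13, 1, 11, 3, 14, 7, 9, 8, 12]
    [18, 23, 20, 2, 21, 16, 3, 11, 10, 7, 15, 19, 5, 6, 9, 12, 14, 8, 1, 17, 22, 13, 4]
    12 1 1 (by decide +kernel)⟩

theorem do_q8z3 : DO (mc 12 2 7 6) 0 23 :=
  ⟨by decide,
  D8.of (dc Nat.cast 2)
    [2, 4, 7, 1, 8, 18, 16, 17, 21, 5, 14, 13, 6, 20, 11, 23, 22, 3, 9, 12, 19, 15, 10]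
    [2, 3, 6, 21, 10, 22, 1, 4, 8, 11, 23, 19, 14, 15, 12, 13, 5, 18, 17, 7, 20, 9, 16]
    16 4 22 3 (by decide +kernel),
  DS.of (dc Nat.cast 2)
    [16, 3, 6, 8, 20, 23, 22, 18, 13, 17, 4, 14, 5, 10, 19, 2, 1, 7, 15, 9, 11, 21, 12]
    [16, 11, 17, 2, 12, 3, 13, 20, 19, 4, 1, 10, 15, 7, 9, 21, 23, 18, 8, 6, 14, 22, 5]
    12 1 1 (by decide +kernel)⟩

end Pool.Agent.SQ2
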