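import Pool.Agent.MP_f56020_al.s2.Z3T
import Pool.Agent.MP_f56020_al.s2.Odd
import Pool.Agent.MP_f56020_al.s2.Data2
import Pool.Agent.MP_f56020_al.s2.Data1

-- ======== part 0: formerly Pool.Agent.MP_f56020_al.s2.Q8
section MrgPart0

namespace Pool.Agent.SQ2

open Pool.Agent.SQ Multiset

universe u

variable {G : Type u} [Group G] [Finite G] [Group.IsSolvable G] {O : Subgroup G}

theorem q8_24 (hG : Nat.card G = 24) {o a b : G} (o1 : o ≠ 1) (o3 : o ^ 3 = 1)
    (ao : a * o * a⁻¹ = o) (a4 : a ^ 4 = 1) (a2 : a ^ 2 ≠ 1) (ba : b * a * b⁻¹ = a ^ 3)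
    (b2 : b ^ 2 = a ^ 2) (bo : b * o * b⁻¹ = o ∨ b * o * b⁻¹ = o ^ 2) : RG G ∧ SG G := by
  have c : Commute o a := (mul_inv_eq_iff_eq_mul.1 ao).symm
  have p : ∀ n : ℕ, (o * a) ^ n = o ^ (n % 3) * a ^ (n % 4) := fun n => by
    rw [c.mul_pow, ← pow_eq_pow_mod n o3, ← pow_eq_pow_mod n a4]
  have h1 : orderOf (o * a) = 12 := by
    have : Fact (Nat.Prime 3) := ⟨by norm_num⟩
    have : Fact (Nat.Prime 2) := ⟨by norm_num⟩
    have e1 : orderOf o = 3 := orderOf_eq_prime o3 o1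
    have e2 : orderOf a = 2 ^ (1 + 1) := orderOf_eq_prime_pow (by simpa using a2) a4
    rw [c.orderOf_mul_eq_mul_orderOf_of_coprime (by rw [e1, e2]; norm_num), e1, e2]
    rfl
  have h2 : b ∉ Subgroup.zpowers (o * a) := by
    rintro ⟨k, hk⟩
    have h3 : Commute b a := hk ▸ (c.mul_left (Commute.refl a)).zpow_left k
    rw [h3.eq, mul_inv_cancel_right] at ba
    refine a2 (mul_left_cancel (a := a) ?_)
    rw [mul_one, ← pow_succ', ← ba]
  have h3 : b * (o * a) * b⁻¹ = b * o * b⁻¹ * a ^ 3 := by rw [← ba]; group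
  have h4 : Odd (Nat.card (⊥ : Subgroup G)) := by simp
  rcases bo with bo | bo
  · obtain ⟨φ, hφ⟩ := mc_mod (n := 12) (r := 7) (c := 6) (o * a) b h1 h2 hG
      (by rw [h3, bo, p]; simp [show (7 : ZMod 12).val = 7 from rfl])
      (by rw [b2, p]; simp [show (6 : ZMod 12).val = 6 from rfl])
    exact topO hφ h4 rg_trivial do_q8z3
  · obtain ⟨φ, hφ⟩ := mc_mod (n := 12) (r := 11) (c := 6) (o * a) b h1 h2 hG
      (by rw [h3, bo, p]; simp [show (11 : ZMod 12).val = 11 from rfl])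
      (by rw [b2, p]; simp [show (6 : ZMod 12).val = 6 from rfl])
    exact topO hφ h4 rg_trivial do_q24

variable {φ : G → ZMod 4 × ZMod 2} {σ : ZMod 4 × ZMod 2 → G}

omit [Finite G] [Group.IsSolvable G] in
theorem q8_mul (h : Spl O (mc 4 2 3 2) 0 φ σ) (x y z : ZMod 4 × ZMod 2)
    (e : mc 4 2 3 2 x y = z) : σ z = σ x * σ y := e ▸ h.mul x y

theorem q8_three (h : Spl O (mc 4 2 3 2) 0 φ σ) (h3 : Nat.card O = 3) : RG G ∧ SG G := by
  have : Fact (Nat.Prime 3) := ⟨by norm_num⟩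
  have hG : Nat.card G = 24 := by
    rw [← O.index_mul_card, h.mod.index, h3]
    simp
  have : Nontrivial O := Finite.one_lt_card_iff_nontrivial.1 (by omega)
  obtain ⟨⟨o, ho⟩, o1⟩ := exists_ne (1 : O)
  have o1' : o ≠ 1 := fun e => o1 (Subtype.ext e)
  have o3 : o ^ 3 = 1 := by
    have := pow_card_eq_one' (x := (⟨o, ho⟩ : O))
    rw [h3] at this
    exact congrArg Subtype.val this
  have cj : ∀ g : G, g * o * g⁻¹ = o ∨ g * o * g⁻¹ = o ^ 2 := by
    intro g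
    obtain ⟨k, hk⟩ := mem_powers_of_prime_card h3 o1
      (g' := ⟨g * o * g⁻¹, h.mod.normal.conj_mem o ho g⟩)
    have hk' : o ^ (k % 3) = g * o * g⁻¹ := by
      rw [← pow_eq_pow_mod k o3]; exact congrArg Subtype.val hk
    have : k % 3 = 0 ∨ k % 3 = 1 ∨ k % 3 = 2 := by omega
    rcases this with e | e | e <;> rw [e] at hk'
    · exact absurd (by simpa using hk'.symm) o1'
    · exact Or.inl (by simpa using hk'.symm)
    · exact Or.inr hk'.symm
  have key : ∀ x y x3 : ZMod 4 × ZMod 2, mc 4 2 3 2 x x = (2, 0) → mc 4 2 3 2 y y = (2, 0) →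
      mc 4 2 3 2 x (2, 0) = x3 → mc 4 2 3 2 y x = mc 4 2 3 2 x3 y →
      σ x * o * (σ x)⁻¹ = o → RG G ∧ SG G := by
    intro x y x3 e1 e2 e3 e4 hx
    have a2 : σ x ^ 2 = σ (2, 0) := by rw [q8_mul h _ _ _ e1, pow_two]
    refine q8_24 hG o1' o3 hx ?_ ?_ ?_ ?_ (cj (σ y))
    · rw [show 4 = 2 + 2 from rfl, pow_add, a2, ← q8_mul h _ _ 0 (by decide), h.one]
    · rw [a2]
      intro e
      have := h.sec (2, 0)
      rw [e, h.mod.one] at this
      exact absurd this (by decide)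
    · rw [pow_succ', a2, ← q8_mul h _ _ _ e3, ← h.mul, e4, h.mul, mul_inv_cancel_right]
    · rw [a2, q8_mul h _ _ _ e2, pow_two]
  rcases cj (σ (1, 0)) with e1 | e1
  · exact key (1, 0) (0, 1) (3, 0) (by decide) (by decide) (by decide) (by decide) e1
  rcases cj (σ (0, 1)) with e2 | e2
  · exact key (0, 1) (1, 0) (2, 1) (by decide) (by decide) (by decide) (by decide) e2
  refine key (1, 1) (1, 0) (3, 1) (by decide) (by decide) (by decide) (by decide) ?_
  have : σ (1, 1) * o * (σ (1, 1))⁻¹ = (σ (1, 0) * o * (σ (1, 0))⁻¹) ^ 2 := by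
    rw [q8_mul h (1, 0) (0, 1) _ (by decide), conj_pow, ← e2]; group
  rw [this, e1, ← pow_mul, pow_eq_pow_mod _ o3, pow_one]

omit [Group.IsSolvable G] in
theorem q8_c3 (h : Mod O (mc 4 2 3 2) 0 φ) (hR : RG O) {l lab : List (ZMod 4 × ZMod 2)}
    {a b x y : G} (el : [φ a, φ b, φ y] = l) (hc : CyD (mc 4 2 3 2) l lab) (e : φ x = φ b)
    (hx : x ≠ b) :
    ∃ S L, Two (st fun g => φ g ∈ l) (st fun g => φ g ∈ lab) S L ∧ (a, b) ∈ S ∧ (x, y) ∈ L := by
  subst el
  obtain ⟨τ, f, hτ⟩ := h.cyc hc (by simp)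
  obtain ⟨c, hc⟩ := fib_odd (m := 3) hR (by decide)
  obtain ⟨ρ, f1, s0, s1, -, si⟩ := trade_two (a := a) (b := b) f (by simp)
    (h.mem_iff.2 (hτ 0).symm) (h.mem_iff.2 (hτ 1).symm)
  obtain ⟨π, f2, o, p⟩ := addF (k := 1) (x := x) (y := y) c f1 (by simp)
    (s1 ▸ h.mem_iff.2 e) (by rw [si 2 (by simp) (by simp)]; exact h.mem_iff.2 (hτ 2).symm)
  obtain ⟨L, t, hL⟩ := lift_on hc (by simp) f2
  refine ⟨_, L, t, ?_, (hL 1 (by simp) x y o).2 (Or.inl (by rwa [p 1 (by simp), s1]))⟩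
  rw [← s0, ← s1, ← p 0 (by simp), ← p 1 (by simp)]
  exact mem_sgm π (by simp)

omit [Group.IsSolvable G] in
theorem q8_c4 (h : Mod O (mc 4 2 3 2) 0 φ) {u v : G} (hU : ∀ (τ : ℕ → G) (X Y : Multiset G),
    Fr O τ 4 X Y → ∃ R B, Two X Y (sgm τ 0 3 + R) B ∧ (u * τ 0, v * τ 1) ∈ B)
    {l lab : List (ZMod 4 × ZMod 2)} {a b x y : G} (el : [φ a, φ b, φ x, φ y] = l)
    (hc : CyD (mc 4 2 3 2) l lab) :
    ∃ A B, Two (st fun g => φ g ∈ l) (st fun g => φ g ∈ lab) A B ∧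
      (u * a, v * b) ∈ B ∧ (b, x) ∈ A ∧ (x, y) ∈ A := by
  subst el
  obtain ⟨τ, f, hτ⟩ := h.cyc hc (by simp)
  obtain ⟨R, B, t, m⟩ := hU (fun j => [a, b, x, y].getD j a) _ _ (f.congr (fun j hj => by
    rw [h.mem_iff, hτ]
    change j ≤ 4 at hj
    interval_cases j <;> simp) rfl)
  exact ⟨_, B, t, m, mem_add.2 (Or.inl (mem_sgm _ (j := 1) (by simp))),
    mem_add.2 (Or.inl (mem_sgm _ (j := 2) (by simp)))⟩

omit [Group.IsSolvable G] in
theorem q8_ou (h : Mod O (mc 4 2 3 2) 0 φ) {l l' : List (ZMod 4 × ZMod 2)}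
    (h1 : ∀ d, (d ∈ l → d ∉ l') ∧ (d ≠ 0 ↔ d ∈ l ∨ d ∈ l')) :
    (st fun g => φ g ∈ l) + (st fun g => φ g ∈ l') = ou O :=
  st_add (fun g => (h1 _).1) fun g => by rw [h.ker]; exact (h1 _).2

omit [Finite G] [Group.IsSolvable G] in
theorem q8_inv (h : Mod O (mc 4 2 3 2) 0 φ) (g : G) :
    φ g⁻¹ = mc 4 2 3 2 (φ g) (mc 4 2 3 2 (φ g) (φ g)) := h.inv (by
  generalize φ g = d
  revert d
  decide)

theorem q8_rg (h : Spl O (mc 4 2 3 2) 0 φ σ) (ho : Odd (Nat.card O)) (hR : RG O)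
    (h3 : 3 < Nat.card O) : RG G := by
  obtain ⟨u, hu, v, hv, -, v1, hU⟩ := twoL ho h3
  have pu := (h.mod.ker u).1 hu
  have pv := (h.mod.ker v).1 hv
  have e1 : [φ (σ (2, 0)), φ (σ (1, 0) * v), φ (σ (0, 1) * v)] = [(2, 0), (1, 0), (0, 1)] := by
    simp only [h.mod.map_mul, h.sec, pv]
    decide
  have e2 : [φ (u⁻¹ * σ (1, 1)), φ (v⁻¹ * (σ (3, 1) * v)), φ (σ (2, 1)), φ (σ (3, 0) * v)] =
      [(1, 1), (3, 1), (2, 1), (3, 0)] := by
    simp only [h.mod.map_mul, q8_inv h.mod, h.sec, pu, pv]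
    decide
  obtain ⟨S, L, ⟨cS, cL, a1, a2⟩, m1, m2⟩ := q8_c3 h.mod hR (lab := [(3, 0), (3, 1), (0, 1)])
    (x := σ (1, 0)) e1 (by unfold CyD; decide)
    (by simp only [h.mod.map_mul, h.sec, pv]; decide) (by simpa using v1)
  obtain ⟨A, B, ⟨cA, cB, b1, b2⟩, m3, -, m4⟩ := q8_c4 h.mod hU
    (lab := [(2, 0), (1, 0), (1, 1), (2, 1)]) e2 (by unfold CyD; decide)
  rw [mul_inv_cancel_left, mul_inv_cancel_left] at m3
  obtain ⟨A1, w1, rfl⟩ := cS.cut m1
  obtain ⟨A2, w2, rfl⟩ := cL.cut m2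
  obtain ⟨A3, w3, rfl⟩ := cB.cut m3
  obtain ⟨A4, w4, rfl⟩ := cA.cut m4
  have l : ∀ x y z, mc 4 2 3 2 x z = y → (σ x)⁻¹ * (σ y * v) = σ z * v := fun x y z e => by
    rw [q8_mul h _ _ _ e]
    group
  refine ex_RR hR hv v1 ⟨_, ((((Wk.cons 1 w4).step w2).step w1).step w3).trans (Wk.edge _ v),
    ?_, ?_⟩
  · rw [← q8_ou h.mod (l := [(2, 0), (1, 0), (0, 1)]) (l' := [(1, 1), (3, 1), (2, 1), (3, 0)])
      (by decide), ← a1, ← b1]
    simp only [hd_add, hd_one]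
    abel
  · rw [← q8_ou h.mod (l := [(3, 0), (3, 1), (0, 1)]) (l' := [(2, 0), (1, 0), (1, 1), (2, 1)])
      (by decide), ← a2, ← b2]
    have l0 : (σ (1, 1))⁻¹ * v = σ (3, 1) * v := by
      rw [← l (1, 1) 0 (3, 1) (by decide), h.one, one_mul]
    simp only [lb_add, lb_one, inv_one, one_mul, inv_mul_cancel_left, l0,
      l (2, 0) (1, 0) (3, 0) (by decide), l (1, 0) (0, 1) (3, 1) (by decide),
      l (1, 1) (3, 1) (2, 0) (by decide), l (2, 1) (3, 0) (1, 1) (by decide),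
      l (2, 1) (0, 1) (2, 0) (by decide), l (2, 0) (3, 1) (1, 1) (by decide)]
    abel

theorem q8_sg (h : Spl O (mc 4 2 3 2) 0 φ σ) (ho : Odd (Nat.card O)) (hR : RG O)
    (h3 : 3 < Nat.card O) : SG G := by
  obtain ⟨u, hu, w, hw, -, w1, hU⟩ := twoL ho h3
  obtain ⟨Z, pZ⟩ := h.mod.surj (1, 1)
  obtain ⟨Y, pY⟩ := h.mod.surj (3, 0)
  obtain ⟨T, pT⟩ := h.mod.surj (1, 0)
  obtain ⟨x, hx, x1, A0, w0, c1, c2⟩ := rg_arc' hR h3 (h.mod.normal.conj_mem' w hw Z)
    (by simpa [mul_assoc, inv_mul_eq_iff_eq_mul] using w1) (Y * Z⁻¹ * w⁻¹ * Y * Z⁻¹ * Y * Y)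
  have pu := (h.mod.ker u).1 hu
  have pw := (h.mod.ker w).1 hw
  have px := (h.mod.ker x).1 hx
  have e1 : [φ (Y * Z⁻¹ * Y * Z⁻¹ * w⁻¹ * Z * x⁻¹ * w * Z * Y⁻¹ * x * Y⁻¹), φ (Y * Z⁻¹ * Y),
      φ (w * Z * Y⁻¹ * x * Y⁻¹ * T)] = [(2, 0), (3, 1), (2, 1)] := by
    simp only [h.mod.map_mul, q8_inv h.mod, pZ, pY, pT, pw, px]
    decide
  have e2 : [φ (u⁻¹ * (w * Z * Y⁻¹ * x)), φ Z, φ Y, φ T] = [(0, 1), (1, 1), (3, 0), (1, 0)] := by
    simp only [h.mod.map_mul, q8_inv h.mod, pZ, pY, pT, pu, pw, px]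
    decide
  obtain ⟨S, L, ⟨cS, cL, a1, a2⟩, m1, m2⟩ := q8_c3 h.mod hR (lab := [(1, 1), (1, 0), (2, 1)])
    (x := w * Z * Y⁻¹ * x * Y⁻¹) e1 (by unfold CyD; decide)
    (by simp only [h.mod.map_mul, q8_inv h.mod, pZ, pY, pw, px]; decide)
    (fun e => x1 (by rw [mul_assoc _ Y Z⁻¹, mul_assoc _ (Y * Z⁻¹) Y, ← e]; group))
  obtain ⟨A, B, ⟨cA, cB, b1, b2⟩, m3, m4, m5⟩ := q8_c4 h.mod hU
    (lab := [(3, 0), (0, 1), (2, 0), (3, 1)]) e2 (by unfold CyD; decide)
  rw [mul_inv_cancel_left] at m3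
  obtain ⟨A1, w1, rfl⟩ := cS.cut m1
  obtain ⟨A2, w2, rfl⟩ := cL.cut m2
  obtain ⟨A3, w3, rfl⟩ := cB.cut m3
  obtain ⟨A4, A5, w4, w5, rfl⟩ := cA.cut2 m4 m5 fun e => by
    rw [(Prod.mk.inj e).1, pY] at pZ
    exact absurd pZ (by decide)
  refine sg_of_one (H := O)
    ((((((Wk.cons 1 w5).step w3).step w2).step w0).step w4).step w1) ?_ ?_
  · rw [← q8_ou h.mod (l := [(2, 0), (3, 1), (2, 1)]) (l' := [(0, 1), (1, 1), (3, 0), (1, 0)])
      (by decide), ← a1, ← b1, ← c1]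
    simp only [hd_add, hd_one]
    abel
  · rw [← q8_ou h.mod (l := [(1, 1), (1, 0), (2, 1)]) (l' := [(3, 0), (0, 1), (2, 0), (3, 1)])
      (by decide), ← a2, ← b2, ← c2]
    have l1 : (w * Z * Y⁻¹ * x * Y⁻¹)⁻¹ * (w * Z * Y⁻¹ * x * Y⁻¹ * T) = 1⁻¹ * T := by group
    have l2 : Z⁻¹ * (w * Z) = Z⁻¹ * w * Z := by group
    have l3 : (w * Z * Y⁻¹ * x)⁻¹ * (w * Z * Y⁻¹ * x * Y⁻¹ * T) = Y⁻¹ * T := by group
    have l4 : (w * Z * Y⁻¹ * x)⁻¹ * (w * Z) = x⁻¹ * Y := by group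
    have l5 : Y⁻¹ * (Y * Z⁻¹ * Y) = Z⁻¹ * Y := by group
    have l6 : (Y * Z⁻¹ * Y * Z⁻¹ * w⁻¹ * Z * x⁻¹ * w * Z * Y⁻¹ * x * Y⁻¹)⁻¹ * (Y * Z⁻¹ * Y) =
        (w * Z * Y⁻¹ * x * Y⁻¹)⁻¹ * (x * (Z⁻¹ * w * Z)) := by group
    simp only [lb_add, lb_one, l1, l2, l3, l4, l5, l6]
    abel

theorem top_q8 {φ : G → ZMod 4 × ZMod 2} {σ : ZMod 4 × ZMod 2 → G}
    (h : Spl O (mc 4 2 3 2) 0 φ σ) (ho : Odd (Nat.card O)) (hR : RG O) (hO : O ≠ ⊥) :
    RG G ∧ SG G := by
  have h1 : Nat.card O ≠ 1 := fun e => hO (Subgroup.card_eq_one.1 e)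
  by_cases h3 : Nat.card O = 3
  · exact q8_three h h3
  have h4 : 3 < Nat.card O := by
    obtain ⟨k, hk⟩ := ho
    omega
  exact ⟨q8_rg h ho hR h4, q8_sg h ho hR h4⟩

end Pool.Agent.SQ2

end MrgPart0

-- ======== part 1: formerly Pool.Agent.MP_f56020_al.s2.E3
section MrgPart1

namespace Pool.Agent.SQ2

open Pool.Agent.SQ Multiset

universe u

theorem e3_idx2 {G : Type*} [Group G] [Finite G] (L : Subgroup G) [L.Normal]
    (h : ∀ g, g ^ 4 ∈ L) : ∃ k, L.index = 2 ^ k := by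
  have : Fact (Nat.Prime 2) := ⟨Nat.prime_two⟩
  refine IsPGroup.iff_card.1 fun x : G ⧸ L => ⟨2, ?_⟩
  obtain ⟨g, rfl⟩ := QuotientGroup.mk_surjective x
  rw [← QuotientGroup.mk_pow, QuotientGroup.eq_one_iff]
  exact h g

theorem e3_odd {G : Type*} [Group G] [Finite G] (M L : Subgroup G) [M.Normal] {n : ℕ}
    (hn : Odd n) (h : ∀ g ∈ L, g ^ n ∈ M) : Odd (M.relIndex L) := by
  have : Fact (Nat.Prime 2) := ⟨Nat.prime_two⟩
  rw [← Nat.not_even_iff_odd, even_iff_two_dvd]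
  intro h2
  obtain ⟨x, hx⟩ := exists_prime_orderOf_dvd_card' (G := L ⧸ M.subgroupOf L) 2 h2
  have h3 : x ^ n = 1 := by
    obtain ⟨g, rfl⟩ := QuotientGroup.mk_surjective x
    rw [← QuotientGroup.mk_pow, QuotientGroup.eq_one_iff]
    exact h g g.2
  rw [← orderOf_dvd_iff_pow_eq_one, hx] at h3
  exact Nat.not_even_iff_odd.2 hn (even_iff_two_dvd.2 h3)

/-- A generator of the units of a finite field. -/
theorem e3_gen (F : Type) [Field F] [Finite F] : ∃ (γ : F) (m : ℕ), Nat.card F = m + 1 ∧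
    γ ≠ 0 ∧ γ ^ m = 1 ∧ (∀ x, x ≠ 0 → ∃ j < m, γ ^ j = x) ∧
    (∑ j ∈ Finset.range m, {γ ^ j} : Multiset F) = st (· ≠ 0) := by
  classical
  obtain ⟨g, hg⟩ := IsCyclic.exists_ofOrder_eq_natCard (α := Fˣ)
  rw [Nat.card_units] at hg
  have hc : Nat.card F = orderOf g + 1 := by
    have := Nat.card_pos (α := F)
    omega
  have h1 : (∑ j ∈ Finset.range (orderOf g), {(g : F) ^ j} : Multiset F) = st (· ≠ 0) := by
    refine seq_eq_st _ _ (fun i hi j hj e => ?_) (fun i _ => pow_ne_zero _ g.ne_zero) ?_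
    · exact pow_injOn_Iio_orderOf (x := g) hi hj (Units.ext (by simpa using e))
    · have := card_ne (0 : F)
      omega
  refine ⟨g, orderOf g, hc, g.ne_zero, by
    rw [← Units.val_pow_eq_pow_val, pow_orderOf_eq_one, Units.val_one], fun x hx => ?_, h1⟩
  have h2 : x ∈ st (· ≠ (0 : F)) := mem_st.2 hx
  rw [← h1, sum_single] at h2
  simpa using h2

variable {G : Type u} [Group G] [Finite G] [Group.IsSolvable G]

theorem top_e3 (ih : IH G) (hn : ¬ NN G) {F : Type} [Field F] [Finite F] {p : ℕ} [CharP F p]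
    (h2 : p ≠ 2) (β b : G → F) (hβ : ∀ g h, β (g * h) = β g * β h) (h12 : ∀ g, β g ^ 12 = 1)
    (hb : ∀ g h, b (g * h) = b g + β g * b h) (hs : ∀ y, ∃ g, β g = 1 ∧ b g = y)
    (hm : ∃ g, β g = -1) (hγ : ∃ γ, γ ≠ 0 ∧ ∀ g, β g ≠ γ) (h5 : 5 ≤ p ∨ ∃ g, β g ^ 2 ≠ 1) :
    RG G ∧ SG G := by
  classical
  have hp : p.Prime := CharP.char_is_prime F p
  have hpo : Odd p := hp.odd_of_ne_two h2
  have two : (2 : F) ≠ 0 := fun h => h2 ((Nat.prime_dvd_prime_iff_eq hp Nat.prime_two).1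
    ((CharP.cast_eq_zero_iff F p 2).1 (by simpa using h)))
  have neg1 : (-1 : F) ≠ 1 := fun h => two (by linear_combination -h)
  have β0 : ∀ g, β g ≠ 0 := fun g h => by simpa [h] using h12 g
  have β1 : β 1 = 1 := mul_left_cancel₀ (β0 1) (by rw [← hβ, mul_one, mul_one])
  have b1 : b 1 = 0 := by simpa [β1] using hb 1 1
  have βi : ∀ g, β g⁻¹ = (β g)⁻¹ := fun g =>
    eq_inv_of_mul_eq_one_left (by rw [← hβ, inv_mul_cancel, β1])
  have bi : ∀ g, b g⁻¹ = -((β g)⁻¹ * b g) := fun g => by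
    have := hb g⁻¹ g
    rw [inv_mul_cancel, b1, βi] at this
    linear_combination -this
  have βp : ∀ g n, β (g ^ n) = β g ^ n := fun g n => by
    induction n with
    | zero => simp [β1]
    | succ n ih => rw [pow_succ, hβ, ih, pow_succ]
  have bp : ∀ g, β g = 1 → ∀ n : ℕ, b (g ^ n) = n * b g := fun g hg n => by
    induction n with
    | zero => simp [b1]
    | succ n ih => rw [pow_succ, hb, ih, βp, hg]; push_cast; ring
  let H : Subgroup G :=
    { carrier := {g | b g = 0}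
      mul_mem' := fun {x y} hx hy => by
        simp only [Set.mem_ofPred_eq] at hx hy ⊢
        rw [hb, hx, hy, mul_zero, add_zero]
      one_mem' := b1
      inv_mem' := fun {x} hx => by
        simp only [Set.mem_ofPred_eq] at hx ⊢
        rw [bi, hx, mul_zero, neg_zero] }
  let M : Subgroup G :=
    { carrier := {g | β g = 1 ∧ b g = 0}
      mul_mem' := fun {x y} hx hy => by
        simp only [Set.mem_ofPred_eq] at hx hy ⊢
        rw [hb, hβ, hx.1, hx.2, hy.1, hy.2]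
        simp
      one_mem' := ⟨β1, b1⟩
      inv_mem' := fun {x} hx => by
        simp only [Set.mem_ofPred_eq] at hx ⊢
        rw [bi, βi, hx.1, hx.2]
        simp }
  let L : Subgroup G :=
    { carrier := {g | β g ^ 3 = 1}
      mul_mem' := fun {x y} hx hy => by
        simp only [Set.mem_ofPred_eq] at hx hy ⊢
        rw [hβ, mul_pow, hx, hy, mul_one]
      one_mem' := by simp [β1]
      inv_mem' := fun {x} hx => by
        simp only [Set.mem_ofPred_eq] at hx ⊢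
        rw [βi, inv_pow, hx, inv_one] }
  have mH : ∀ g, g ∈ H ↔ b g = 0 := fun _ => Iff.rfl
  have mM : ∀ g, g ∈ M ↔ β g = 1 ∧ b g = 0 := fun _ => Iff.rfl
  have mL : ∀ g, g ∈ L ↔ β g ^ 3 = 1 := fun _ => Iff.rfl
  have βc : ∀ x g, β (g * x * g⁻¹) = β x := fun x g => by
    rw [hβ, hβ, βi]
    field_simp [β0 g]
  have nM : M.Normal := ⟨fun x hx g => by
    rw [mM] at hx ⊢
    refine ⟨by rw [βc, hx.1], ?_⟩
    rw [hb, hb, hβ, bi, hx.1, hx.2]
    field_simp [β0 g]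
    ring⟩
  have nL : L.Normal := ⟨fun x hx g => by rwa [mL, βc]⟩
  clear_value H M L
  have hMH : M ≤ H := fun g hg => (mH g).2 ((mM g).1 hg).2
  have hML : M ≤ L := fun g hg => (mL g).2 (by rw [((mM g).1 hg).1, one_pow])
  have pM : ∀ g, β g = 1 → g ^ p ∈ M := fun g hg => (mM _).2
    ⟨by rw [βp, hg, one_pow], by rw [bp g hg, CharP.cast_eq_zero, zero_mul]⟩
  obtain ⟨k, hk⟩ := e3_idx2 L fun g => (mL _).2 (by rw [βp, ← pow_mul, h12])
  have ho := e3_odd M L (n := 3 * p) ((by decide : Odd 3).mul hpo) fun g hg => by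
    rw [pow_mul]
    exact pM _ (by rw [βp, (mL g).1 hg])
  have hi : M.index = 2 ^ k * M.relIndex L := by
    rw [← Subgroup.relIndex_mul_index hML, hk, mul_comm]
  have hNC : NC M := g3 hn hk hML hi ho
  have adj : ∀ g y, ∃ h, β h = β g ∧ b h = y := fun g y => by
    obtain ⟨d, h1, h3⟩ := hs (y - b g)
    exact ⟨d * g, by rw [hβ, h1, one_mul], by rw [hb, h1, h3]; ring⟩
  obtain ⟨g0, hg0⟩ := hm
  obtain ⟨h0, e0, e0'⟩ := adj g0 0
  rw [hg0] at e0
  have hlt : M < H := lt_of_le_of_ne hMH fun e =>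
    neg1 (e0.symm.trans ((mM h0).1 (e ▸ (mH h0).2 e0')).1)
  have hH : H ≠ ⊤ := fun e => by
    obtain ⟨d, -, hd⟩ := hs 1
    exact one_ne_zero (hd.symm.trans ((mH d).1 (e ▸ Subgroup.mem_top d)))
  have hR : RG H := rg_ih ih hlt hH hNC
  have hS : SG H := by
    refine sg_ih ih hH (NC.mono hMH hNC) (fun hc => hn ?_) fun h8 => hn ?_
    · have hC : H ≤ Subgroup.centralizer (M : Set G) := fun x hx y hy =>
        congrArg Subtype.val (hc ⟨y, hMH hy⟩ ⟨x, hx⟩)
      refine nn_central' hk hML hi ho fun x hx g _ => ?_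
      obtain ⟨d, h1, h3⟩ := hs (b g / 2)
      have h4 : d * h0 * d⁻¹ * h0⁻¹ ∈ Subgroup.centralizer (M : Set G) :=
        mul_mem ((inferInstance : (Subgroup.centralizer (M : Set G)).Normal).conj_mem _
          (hC ((mH _).2 e0')) d) (inv_mem (hC ((mH _).2 e0')))
      have h6 : (d * h0 * d⁻¹ * h0⁻¹)⁻¹ * g ∈ H := by
        simp only [mH, hb, hβ, βi, bi, h1, h3, e0, e0']
        field_simp
        ring
      have h7 := mul_mem h4 (hC h6)
      rw [mul_inv_cancel_left] at h7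
      exact h7 x hx
    · have c1 : Nat.card M * M.relIndex H = 8 := by
        rw [← h8, ← Subgroup.card_mul_index (M.subgroupOf H),
          Nat.card_congr (Subgroup.subgroupOfEquivOfLe hMH).toEquiv]
        rfl
      have c2 : M.relIndex H ≠ 1 := fun e => hlt.not_ge (Subgroup.relIndex_eq_one.1 e)
      obtain ⟨c, hc⟩ := hNC.four_dvd
      have c3 : c * M.relIndex H = 2 := by
        rw [hc, mul_assoc] at c1
        omega
      have c4 : M.relIndex H = 2 :=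
        ((Nat.dvd_prime Nat.prime_two).1 (Dvd.intro_left _ c3)).resolve_left c2
      have c5 : Nat.card M = 4 := by
        rw [c4] at c1
        omega
      have c6 : ∀ g, β g ^ 2 = 1 := fun g => by
        obtain ⟨h, h1, h3⟩ := adj g 0
        have := Subgroup.pow_relIndex_mem M ((mH h).2 h3)
        rw [c4, mM, βp, h1] at this
        exact this.1
      have h5' : 5 ≤ p := h5.resolve_right fun ⟨g, hg⟩ => hg (c6 g)
      refine nn_central' hk hML hi ho fun x hx g hg => central_four c5 hp h5' (pM g ?_) x hx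
      have := (mL g).1 hg
      rwa [pow_succ, c6, one_mul] at this
  obtain ⟨γ, m, hc, γ0, γm, γs, γt⟩ := e3_gen F
  have hγ1 : ∀ g, β g ≠ γ := fun g e => by
    obtain ⟨γ', h1, h3⟩ := hγ
    obtain ⟨j, -, rfl⟩ := γs γ' h1
    exact h3 (g ^ j) (by rw [βp, e])
  have hγ2 : ∀ g, 1 - β g * γ ≠ 0 := fun g e => hγ1 g⁻¹ (by
    rw [βi]
    exact inv_eq_of_mul_eq_one_right (by linear_combination -e))
  obtain ⟨a, ha⟩ : ∃ a : G → F, ∀ g, a g = -b g / β g := ⟨_, fun _ => rfl⟩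
  have am : ∀ g h, a (g * h) = (a g - b h) / β h := fun g h => by
    rw [ha, ha, hb, hβ]
    field_simp [β0 g, β0 h]
    ring
  have aH : ∀ g h, g * h⁻¹ ∈ H ↔ a g = a h := fun g h => by
    rw [mH, hb, bi, ha, ha, div_eq_div_iff (β0 g) (β0 h)]
    have := β0 h
    constructor
    · intro e
      field_simp at e
      linear_combination -e
    · intro e
      field_simp
      linear_combination -e
  have sec : ∀ g y, ∃ h, β h = β g ∧ a h = y := fun g y => by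
    obtain ⟨h, h1, h3⟩ := adj g (-(y * β g))
    exact ⟨h, h1, by rw [ha, h1, h3, neg_neg, mul_div_cancel_right₀ _ (β0 g)]⟩
  choose σ hσ1 hσ using sec 1
  have hF : Fr H (fun j => σ (γ ^ j)) m (ou H) (ou H) := by
    refine Fr.of (by simp only [γm, pow_zero]) ?_ ?_
    · have := sum_fib a _ _ _ γt
      refine (Finset.sum_congr rfl fun j _ => st_congr fun g => ?_).trans
        (this.trans (st_congr fun g => ?_))
      · rw [one_mul, aH, hσ]
      · simp [ha, mH, β0 g]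
    · have := sum_fib (fun g => b g / (1 - β g * γ)) _ _ _ γt
      refine (Finset.sum_congr rfl fun j _ => st_congr fun g => ?_).trans
        (this.trans (st_congr fun g => ?_))
      · rw [aH, am, hσ, hσ, div_eq_iff (β0 g), div_eq_iff (hγ2 g), pow_succ]
        constructor <;> intro e <;> linear_combination -e
      · simp [mH, hγ2 g]
  have hme : Even m := by
    have := Fintype.ofFinite F
    have h3 := FiniteField.odd_card_of_char_ne_two (F := F) (by rwa [ringChar.eq F p])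
    rw [← Nat.card_eq_fintype_card, hc] at h3
    rw [Nat.even_iff]
    omega
  obtain ⟨j, hj, ej⟩ := γs (γ + 1) fun e => hγ1 g0 (by rw [hg0]; linear_combination -e)
  have j2 : 2 ≤ j := by
    by_contra hl
    have : j = 0 ∨ j = 1 := by omega
    rcases this with rfl | rfl
    · exact γ0 (by linear_combination -ej)
    · exact one_ne_zero (by linear_combination -ej : (1 : F) = 0)
  have m4 : 4 ≤ m := by
    obtain ⟨l, hl⟩ := hme
    omega
  obtain ⟨η, hη, hη1⟩ := (M.bot_or_exists_ne_one).resolve_left hNC.ne_bot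
  obtain ⟨q, q1, q2⟩ := adj g0 (γ + 1)
  obtain ⟨r, r1, r2⟩ := adj g0 (γ * (γ + 1))
  rw [hg0] at q1 r1
  have hE : Ex H η η := by
    refine f8 (s := σ γ) (q := q) (r := r) hF
      (fib_ih ih hH (NC.mono hMH hNC) hme (by omega)) m4 j2 hj ?_ ?_ ?_ ?_ ?_ ?_ hη1 <;> rw [aH]
    · rw [am, hσ, hσ, q1, q2]
      field_simp
      ring
    · rw [am, hσ, hσ, ((mM η).1 hη).1, ((mM η).1 hη).2]
      simp
    · rw [hσ, hσ, pow_one]
    · rw [am, hσ, hσ, r1, r2]
      field_simp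
      ring
    · rw [hσ, ha, q1, q2, ej]
      field_simp
    · rw [hσ, ha, r1, r2, pow_succ, ej]
      field_simp
  exact ⟨ex_RR hR (hMH hη) hη1 hE, ex_SS hS (hMH hη) hη1 hE⟩

end Pool.Agent.SQ2

end MrgPart1

-- ======== part 2: formerly Pool.Agent.MP_f56020_al.s2.A4
section MrgPart2

namespace Pool.Agent.SQ2

open Pool.Agent.SQ Multiset

universe u

namespace A4

theorem four_pow (k : ℕ) : ∃ m, 4 ^ k = 3 * m + 1 := by
  induction k with
  | zero => exact ⟨0, rfl⟩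
  | succ k ih =>
    obtain ⟨m, hm⟩ := ih
    exact ⟨4 * m + 1, by rw [pow_succ, hm]; ring⟩

variable {E : Type*} [Group E] {z : E} {k : ℕ}

theorem pow_mem (hz : z ^ 2 ^ k = 1) {u : E} (hu : u ∈ Subgroup.zpowers z) : u ^ 4 ^ k = 1 := by
  obtain ⟨i, rfl⟩ := Subgroup.mem_zpowers_iff.1 hu
  have : (4 : ℕ) ^ k = 2 ^ k * 2 ^ k := by rw [← mul_pow]; rfl
  rw [this, pow_mul, ← zpow_natCast (z ^ i), ← zpow_mul, mul_comm, zpow_mul, zpow_natCast, hz,
    one_zpow, one_pow]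

theorem cube (hz : z ^ 2 ^ k = 1) {a : ℤ} (h : z ^ (a ^ 3) = z) : z ^ a = z := by
  have h1 : (orderOf z : ℤ) ∣ (a - 1) * (a ^ 2 + a + 1) := by
    rw [orderOf_dvd_iff_zpow_eq_one, show (a - 1) * (a ^ 2 + a + 1) = a ^ 3 - 1 by ring,
      zpow_sub, h, zpow_one, mul_inv_cancel]
  have h2 : (orderOf z : ℤ) ∣ 2 ^ k := by exact_mod_cast orderOf_dvd_of_pow_eq_one hz
  have h3 : IsCoprime ((2 : ℤ) ^ k) (a ^ 2 + a + 1) := by
    apply IsCoprime.pow_left
    obtain ⟨b, hb⟩ := Int.even_mul_succ_self a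
    exact ⟨-b, 1, by linear_combination hb⟩
  have h4 := (h3.of_isCoprime_of_dvd_left h2).dvd_of_dvd_mul_right h1
  rw [orderOf_dvd_iff_zpow_eq_one, zpow_sub, zpow_one, mul_inv_eq_one] at h4
  exact h4

theorem conj_zpow' {g : E} {a : ℤ} (h : g * z * g⁻¹ = z ^ a) (b : ℤ) :
    g * z ^ b * g⁻¹ = z ^ (a * b) := by
  rw [← conj_zpow, h, ← zpow_mul]

theorem comm3 (hz : z ^ 2 ^ k = 1) {a : ℤ} {p q r : E} (hp : p * z * p⁻¹ = z ^ a)
    (hq : q * z * q⁻¹ = z ^ a) (hr : r * z * r⁻¹ = z ^ a)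
    (h : p * q * r ∈ Subgroup.zpowers z) : Commute z p := by
  obtain ⟨i, hi⟩ := Subgroup.mem_zpowers_iff.1 h
  have h1 : p * q * r * z * (p * q * r)⁻¹ = z := by
    rw [← hi]; group
  have h2 : p * q * r * z * (p * q * r)⁻¹ = z ^ (a ^ 3) := by
    calc p * q * r * z * (p * q * r)⁻¹ = p * (q * (r * z * r⁻¹) * q⁻¹) * p⁻¹ := by group
      _ = z ^ (a ^ 3) := by
        rw [hr, conj_zpow' hq, conj_zpow' hp]
        congr 1; ring
  have h3 := cube hz (h2.symm.trans h1)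
  rw [h3] at hp
  exact (mul_inv_eq_iff_eq_mul.1 hp).symm

theorem comm_of_mem {g u : E} (h : Commute z g) (hu : u ∈ Subgroup.zpowers z) : Commute u g := by
  obtain ⟨i, rfl⟩ := Subgroup.mem_zpowers_iff.1 hu
  exact h.zpow_left i

/-- An additive invariant passes to the extension. -/
theorem xm_add {D A : Type*} [AddCommMonoid A] {mul : D → D → D} {e : D} {α : D → D} {c : D}
    {n : ℕ} (f : D → A) (hm : ∀ a b, f (mul a b) = f a + f b) (he : f e = 0)
    (hα : ∀ d, f (α d) = f d) (hc : f c = 0) (a b : D × ZMod n) :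
    f (xm mul e α c n a b).1 = f a.1 + f b.1 := by
  have hi : ∀ (j : ℕ) d, f (α^[j] d) = f d := by
    intro j
    induction j with
    | zero => intro d; rfl
    | succ j ih => intro d; rw [Function.iterate_succ_apply, ih, hα]
  simp only [xm, hm, hi]
  split_ifs <;> simp [he, hc]

theorem ca4_add {N : ℕ} {c u : ZMod N} (h : u * c = 0)
    (a b : ((ZMod N × ZMod 2) × ZMod 2) × ZMod 3) :
    u * (ca4 N c a b).1.1.1 = u * a.1.1.1 + u * b.1.1.1 := by
  refine xm_add (fun d : (ZMod N × ZMod 2) × ZMod 2 => u * d.1.1) (fun a b => ?_) (by simp)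
    (fun d => ?_) (by simp) a b
  · refine xm_add (fun d : ZMod N × ZMod 2 => u * d.1) (fun a b => ?_) (by simp)
      (fun d => ?_) h a b
    · exact xm_add (fun d : ZMod N => u * d) (fun a b => mul_add _ _ _) (by simp)
        (fun _ => rfl) h a b
    · dsimp only
      split_ifs <;> simp [mul_add, h]
  · dsimp only
    split_ifs <;> simp [mul_add, h]

end A4

theorem norm_a4 {E : Type*} [Group E] [Finite E] {z : E} [(Subgroup.zpowers z).Normal] {k : ℕ}
    (hz : z ^ 2 ^ k = 1) {x t : E} (h1 : x * x ∈ Subgroup.zpowers z)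
    (h2 : t ^ 3 ∈ Subgroup.zpowers z)
    (h3 : x * (t * x * t⁻¹) * x⁻¹ * (t * x * t⁻¹)⁻¹ ∈ Subgroup.zpowers z)
    (h4 : x * (t * x * t⁻¹) * (t * (t * x * t⁻¹) * t⁻¹) ∈ Subgroup.zpowers z) :
    ∃ x' y' t' s : E, x' * x⁻¹ ∈ Subgroup.zpowers z ∧ t' * t⁻¹ ∈ Subgroup.zpowers z ∧
      s ∈ Subgroup.zpowers z ∧ s * s = 1 ∧ t' ^ 3 = 1 ∧ x' * x' = s ∧ y' * y' = s ∧
      y' * x' = x' * y' * s ∧ t' * x' * t'⁻¹ = y' ∧ t' * y' * t'⁻¹ = x' * y' * s ∧
      Commute z x' ∧ Commute z y' ∧ Commute z t' := by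
  have hN : (Subgroup.zpowers z).Normal := inferInstance
  obtain ⟨m, hm⟩ := A4.four_pow k
  obtain ⟨T, hT3, hTt⟩ : ∃ T : E, T ^ 3 = 1 ∧ T * t⁻¹ ∈ Subgroup.zpowers z := by
    refine ⟨t ^ 4 ^ k, ?_, ?_⟩
    · rw [← pow_mul, mul_comm, pow_mul]
      exact A4.pow_mem hz h2
    · rw [hm, pow_succ, mul_inv_cancel_right, pow_mul]
      exact Subgroup.pow_mem _ h2 m
  have hq : (T : E ⧸ Subgroup.zpowers z) = t := by
    have := (QuotientGroup.eq_one_iff _).2 hTt
    rw [QuotientGroup.mk_mul, QuotientGroup.mk_inv, mul_inv_eq_one] at this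
    exact this
  have h3' : x * (T * x * T⁻¹) * x⁻¹ * (T * x * T⁻¹)⁻¹ ∈ Subgroup.zpowers z := by
    rw [← QuotientGroup.eq_one_iff] at h3 ⊢
    simpa only [QuotientGroup.mk_mul, QuotientGroup.mk_inv, hq] using h3
  have h4' : x * (T * x * T⁻¹) * (T * (T * x * T⁻¹) * T⁻¹) ∈ Subgroup.zpowers z := by
    rw [← QuotientGroup.eq_one_iff] at h4 ⊢
    simpa only [QuotientGroup.mk_mul, QuotientGroup.mk_inv, hq] using h4
  have cT : Commute z T := by
    obtain ⟨a, ha⟩ := Subgroup.mem_zpowers_iff.1 (hN.conj_mem z (Subgroup.mem_zpowers z) T)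
    refine A4.comm3 hz ha.symm ha.symm ha.symm ?_
    rw [← pow_three', hT3]
    exact Subgroup.one_mem _
  have cx : Commute z x := by
    obtain ⟨a, ha⟩ := Subgroup.mem_zpowers_iff.1 (hN.conj_mem z (Subgroup.mem_zpowers z) x)
    have key : ∀ g : E, g * z * g⁻¹ = z ^ a → T * g * T⁻¹ * z * (T * g * T⁻¹)⁻¹ = z ^ a := by
      intro g hg
      have e1 : T⁻¹ * z * T = z := by rw [mul_assoc, cT.eq, inv_mul_cancel_left]
      calc T * g * T⁻¹ * z * (T * g * T⁻¹)⁻¹ = T * (g * (T⁻¹ * z * T) * g⁻¹) * T⁻¹ := by group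
        _ = z ^ a := by rw [e1, hg, ← (cT.zpow_left a).eq, mul_inv_cancel_right]
    exact A4.comm3 hz ha.symm (key _ ha.symm) (key _ (key _ ha.symm)) h4'
  -- correct `x` by a central element
  obtain ⟨X, hXx, hXu⟩ : ∃ X : E, X * x⁻¹ ∈ Subgroup.zpowers z ∧
      X * (T * X * T⁻¹) * (T * (T * X * T⁻¹) * T⁻¹) = 1 := by
    set u := x * (T * x * T⁻¹) * (T * (T * x * T⁻¹) * T⁻¹) with hu
    have hc : u ^ m ∈ Subgroup.zpowers z := Subgroup.pow_mem _ h4' m
    have hu1 : u ^ m * u ^ m * u ^ m * u = 1 := by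
      have := A4.pow_mem hz h4'
      rw [hm] at this
      rw [← this]; group
    generalize u ^ m = c at hc hu1
    have c1 := (A4.comm_of_mem cx hc).eq
    have c2 := (A4.comm_of_mem cT hc).eq
    have c3 := (A4.comm_of_mem cT hc).inv_right.eq
    refine ⟨c * x, by simpa using hc, ?_⟩
    have e1 : ∀ g : E, T * (c * g) * T⁻¹ = c * (T * g * T⁻¹) := fun g => by
      rw [← mul_assoc, ← c2]; group
    have cy : c * (T * x * T⁻¹) = T * x * T⁻¹ * c := by
      rw [← e1, c1, mul_assoc (T * x), ← c3]; group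
    rw [e1, e1, ← hu1, hu]
    calc c * x * (c * (T * x * T⁻¹)) * (c * (T * (T * x * T⁻¹) * T⁻¹))
        = c * (x * c) * (T * x * T⁻¹ * c) * (T * (T * x * T⁻¹) * T⁻¹) := by group
      _ = c * (c * x) * (c * (T * x * T⁻¹)) * (T * (T * x * T⁻¹) * T⁻¹) := by rw [← c1, ← cy]
      _ = c * c * (x * c) * (T * x * T⁻¹) * (T * (T * x * T⁻¹) * T⁻¹) := by group
      _ = _ := by rw [← c1]; group
  have hqx : (X : E ⧸ Subgroup.zpowers z) = x := by
    have := (QuotientGroup.eq_one_iff _).2 hXx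
    rw [QuotientGroup.mk_mul, QuotientGroup.mk_inv, mul_inv_eq_one] at this
    exact this
  have cX : Commute z X := by
    have := ((A4.comm_of_mem (Commute.refl z) hXx).symm).mul_right cx
    simpa using this
  have hs : X * X ∈ Subgroup.zpowers z := by
    rw [← QuotientGroup.eq_one_iff] at h1 ⊢
    simpa only [QuotientGroup.mk_mul, hqx] using h1
  have hd : X * (T * X * T⁻¹) * X⁻¹ * (T * X * T⁻¹)⁻¹ ∈ Subgroup.zpowers z := by
    rw [← QuotientGroup.eq_one_iff] at h3' ⊢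
    simpa only [QuotientGroup.mk_mul, QuotientGroup.mk_inv, hqx] using h3'
  have cY : Commute z (T * X * T⁻¹) := (cT.mul_right cX).mul_right cT.inv_right
  have sq : ∀ g : E, g * g = X * X → T * g * T⁻¹ * (T * g * T⁻¹) = X * X := fun g hg => by
    calc T * g * T⁻¹ * (T * g * T⁻¹) = T * (g * g) * T⁻¹ := by group
      _ = X * X := by rw [hg, ← (A4.comm_of_mem cT hs).eq, mul_inv_cancel_right]
  have hY := sq X rfl
  have hW := sq _ hY
  generalize hYd : T * X * T⁻¹ = Y at *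
  generalize hWd : T * Y * T⁻¹ = W at *
  generalize hsd : X * X = s at *
  generalize hdd : X * Y * X⁻¹ * Y⁻¹ = d at *
  have dX := (A4.comm_of_mem cX hd).eq
  have dY := (A4.comm_of_mem cY hd).eq
  have sX := (A4.comm_of_mem cX hs).eq
  have sY := (A4.comm_of_mem cY hs).eq
  have e1 : X * Y = d * (Y * X) := by rw [← hdd]; group
  have e2 : d * d = 1 := by
    have : s * Y = d * d * (Y * s) := by
      calc s * Y = X * (X * Y) := by rw [← hsd]; group
        _ = (X * d) * (Y * X) := by rw [e1]; group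
        _ = d * (X * Y) * X := by rw [← dX]; group
        _ = d * d * (Y * s) := by rw [e1, ← hsd]; group
    rw [sY] at this
    exact (mul_eq_right.1 this.symm)
  have e3 : W = (X * Y)⁻¹ := eq_inv_of_mul_eq_one_right hXu
  have e4 : d * (s * s) * s = 1 := by
    have : X * Y * (X * Y) = d * (s * s) := by
      calc X * Y * (X * Y) = d * (Y * (X * X) * Y) := by
            conv_lhs => rw [show X * Y * (X * Y) = (X * Y) * X * Y by group, e1]
            group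
        _ = d * (s * s) := by rw [hsd, ← sY, mul_assoc s, hY]
    rw [← this, ← hW, e3]; group
  have e5 : s * s = 1 := by
    have h6 : (s * s) ^ 3 = 1 := by
      have e : s ^ 3 = d⁻¹ := by
        rw [eq_inv_iff_mul_eq_one, ← (A4.comm_of_mem (A4.comm_of_mem (Commute.refl z) hs).symm
          hd).pow_right 3 |>.eq, ← e4]
        simp only [pow_succ, pow_zero, one_mul, mul_assoc]
      calc (s * s) ^ 3 = s ^ 3 * s ^ 3 := by simp only [pow_succ, pow_zero, one_mul, mul_assoc]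
        _ = 1 := by rw [e, ← mul_inv_rev, e2, inv_one]
    have h7 := A4.pow_mem hz (Subgroup.mul_mem _ hs hs)
    rw [hm, pow_succ, pow_mul, h6, one_pow, one_mul] at h7
    exact h7
  have e6 : d = s := by
    rw [e5, mul_one] at e4
    calc d = d * s * s := by rw [mul_assoc, e5, mul_one]
      _ = s := by rw [e4, one_mul]
  have e7 : Y * X = X * Y * s := by
    rw [e1, e6, mul_assoc s, mul_assoc Y, ← sX, ← mul_assoc Y, ← sY]
    calc Y * X = s * s * (Y * X) := by rw [e5, one_mul]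
      _ = _ := by group
  refine ⟨X, Y, T, s, hXx, hTt, hs, e5, hT3, hsd, hY, e7, hYd, ?_, cX, cY, cT⟩
  rw [hWd, e3, ← e7, inv_eq_iff_mul_eq_one]
  calc X * Y * (Y * X) = X * (Y * Y) * X := by group
    _ = 1 := by rw [hY, ← sX, mul_assoc, hsd, e5]

/-- The map from the model. -/
theorem ca4_hom {E : Type*} [Group E] {N : ℕ} [NeZero N] {c : ZMod N} {z x y t : E}
    (hz : z ^ N = 1) (hc : c + c = 0) (h1 : t ^ 3 = 1) (h2 : x * x = z ^ c.val)
    (h3 : y * y = z ^ c.val) (h4 : y * x = x * y * z ^ c.val) (h5 : t * x * t⁻¹ = y)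
    (h6 : t * y * t⁻¹ = x * y * z ^ c.val) (c1 : Commute z x) (c2 : Commute z y)
    (c3 : Commute z t) (a b : ((ZMod N × ZMod 2) × ZMod 2) × ZMod 3) :
    z ^ (ca4 N c a b).1.1.1.val * x ^ (ca4 N c a b).1.1.2.val * y ^ (ca4 N c a b).1.2.val *
        t ^ (ca4 N c a b).2.val =
      z ^ a.1.1.1.val * x ^ a.1.1.2.val * y ^ a.1.2.val * t ^ a.2.val *
        (z ^ b.1.1.1.val * x ^ b.1.1.2.val * y ^ b.1.2.val * t ^ b.2.val) := by
  have z2 : ∀ i : ZMod 2, i = 0 ∨ i = 1 := by decide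
  have v1 : (1 : ZMod 2).val = 1 := rfl
  have v0 : (0 : ZMod 2).val = 0 := rfl
  have o2 : (1 : ZMod 2) ≠ 0 := by decide
  have t2 : (1 : ZMod 2) + 1 = 0 := by decide
  have m1 : ∀ p q : ZMod N, z ^ (p + q).val = z ^ p.val * z ^ q.val := fun p q => by
    rw [ZMod.val_add, ← pow_eq_pow_mod _ hz, pow_add]
  have hss : z ^ c.val * z ^ c.val = 1 := by rw [← m1, hc, ZMod.val_zero, pow_zero]
  have sx : ∀ n : ℕ, x * z ^ n = z ^ n * x := fun n => (c1.pow_left n).eq.symm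
  have sy : ∀ n : ℕ, y * z ^ n = z ^ n * y := fun n => (c2.pow_left n).eq.symm
  have stt : ∀ n : ℕ, t * z ^ n = z ^ n * t := fun n => (c3.pow_left n).eq.symm
  have m2 := xm_hom (mul := (· + ·)) (e := 0) (fun p : ZMod N => z ^ p.val) m1 (by simp)
    (α := id) (c := c) (k := 2) x (fun d => by simp only [id]; rw [sx, mul_inv_cancel_right])
    (by rw [pow_two, h2])
  have m3 := xm_hom (mul := xm (· + ·) 0 id c 2) (e := 0)
    (fun p : ZMod N × ZMod 2 => z ^ p.1.val * x ^ p.2.val) m2 (by simp)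
    (α := fun d => (if d.2 = 0 then d.1 else d.1 + c, d.2)) (c := (c, 0)) (k := 2) y
    (fun d => by
      obtain ⟨p, i⟩ := d
      rcases z2 i with rfl | rfl
      · simp only [if_true, v0, pow_zero, mul_one]
        rw [sy, mul_inv_cancel_right]
      · simp only [o2, if_false, v1, pow_one, m1]
        calc y * (z ^ p.val * x) * y⁻¹ = z ^ p.val * (y * x) * y⁻¹ := by
              rw [← mul_assoc y, sy]; group
          _ = z ^ p.val * (x * z ^ c.val) := by rw [h4, mul_assoc x, sy]; group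
          _ = _ := by rw [sx]; group)
    (by simp only [v0, pow_zero, mul_one]; rw [pow_two, h3])
  exact xm_hom (mul := xm (xm (· + ·) 0 id c 2) 0
      (fun d => (if d.2 = 0 then d.1 else d.1 + c, d.2)) (c, 0) 2) (e := 0)
    (fun p : (ZMod N × ZMod 2) × ZMod 2 => z ^ p.1.1.val * x ^ p.1.2.val * y ^ p.2.val) m3
    (by simp)
    (α := fun d => ((if d.2 = 0 then d.1.1 else d.1.1 + c, d.2), d.1.2 + d.2)) (c := 0) (k := 3) t
    (fun d => by
      obtain ⟨⟨p, i⟩, j⟩ := d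
      rcases z2 i with rfl | rfl <;> rcases z2 j with rfl | rfl
      · simp only [if_true, v0, pow_zero, mul_one, add_zero]
        rw [stt, mul_inv_cancel_right]
      · simp only [o2, if_false, v0, v1, pow_zero, pow_one, mul_one, zero_add, m1]
        calc t * (z ^ p.val * y) * t⁻¹ = z ^ p.val * (t * y * t⁻¹) := by
              rw [← mul_assoc t, stt]; group
          _ = z ^ p.val * ((x * z ^ c.val) * y) := by rw [h6, mul_assoc x, sy]; group
          _ = _ := by rw [sx]; group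
      · simp only [if_true, v0, v1, pow_zero, pow_one, mul_one, add_zero]
        rw [← h5, ← mul_assoc t, stt]; group
      · simp only [o2, if_false, v0, v1, t2, pow_zero, pow_one, mul_one, m1]
        calc t * (z ^ p.val * x * y) * t⁻¹ = z ^ p.val * ((t * x * t⁻¹) * (t * y * t⁻¹)) := by
              rw [mul_assoc (z ^ p.val), ← mul_assoc t, stt]; group
          _ = z ^ p.val * ((y * x) * (y * z ^ c.val)) := by rw [h5, h6]; group
          _ = z ^ p.val * (x * (y * y) * (z ^ c.val * z ^ c.val)) := by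
              rw [h4, mul_assoc (x * y), ← mul_assoc (z ^ c.val), ← sy]; group
          _ = _ := by rw [hss, h3, mul_one, sx]; group)
    (by simpa using h1) a b

/-- The model of the quotient by `O`. -/
theorem A4.model {G : Type u} [Group G] [Finite G] (M : Subgroup G) [M.Normal] {x t : G}
    (h1 : x * x ∈ M) (h2 : t ^ 3 ∈ M) (h3 : x * (t * x * t⁻¹) * x⁻¹ * (t * x * t⁻¹)⁻¹ ∈ M)
    (h4 : x * (t * x * t⁻¹) * (t * (t * x * t⁻¹) * t⁻¹) ∈ M) (hi : M.index = 12)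
    (hg : ∀ S : Subgroup G, M ≤ S → x ∈ S → t ∈ S → S = ⊤) (O : Subgroup G) [O.Normal]
    (hO : O ≤ M) {z : G} (hz : z ∈ M) {k : ℕ} (hk : z ^ 2 ^ k ∈ O)
    (hM : ∀ m ∈ M, ∃ i : ℕ, m * (z ^ i)⁻¹ ∈ O) :
    ∃ (N : ℕ) (c : ZMod N) (φ : G → ((ZMod N × ZMod 2) × ZMod 2) × ZMod 3),
      N ∣ 2 ^ k ∧ c + c = 0 ∧ Mod O (ca4 N c) 0 φ := by
  let π := QuotientGroup.mk' O
  have hπ : Function.Surjective π := QuotientGroup.mk'_surjective O
  have hker : ∀ g, π g = 1 ↔ g ∈ O := fun g => QuotientGroup.eq_one_iff g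
  have hZ : ∀ g, π g ∈ Subgroup.zpowers (π z) ↔ g ∈ M := fun g => by
    constructor
    · intro h
      obtain ⟨i, hi⟩ := Subgroup.mem_zpowers_iff.1 h
      have : g * (z ^ i)⁻¹ ∈ O := by
        rw [← hker, map_mul, map_inv, map_zpow, hi, mul_inv_cancel]
      simpa using M.mul_mem (hO this) (M.zpow_mem hz i)
    · intro h
      obtain ⟨i, hi⟩ := hM g h
      rw [← hker, map_mul, map_inv, map_pow, mul_inv_eq_one] at hi
      rw [hi]
      exact Subgroup.pow_mem _ (Subgroup.mem_zpowers _) i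
  have hcom : (Subgroup.zpowers (π z)).comap π = M := Subgroup.ext hZ
  have : (Subgroup.zpowers (π z)).Normal := by
    constructor
    intro n hn g
    obtain ⟨n, rfl⟩ := hπ n
    obtain ⟨g, rfl⟩ := hπ g
    rw [← map_inv, ← map_mul, ← map_mul, hZ]
    exact Subgroup.Normal.conj_mem inferInstance n ((hZ n).1 hn) g
  have hζ : π z ^ 2 ^ k = 1 := by rw [← map_pow, hker]; exact hk
  obtain ⟨X, Y, T, s, a1, a2, a3, a4, a5, a6, a7, a8, a9, a10, a11, a12, a13⟩ :=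
    norm_a4 (x := π x) (t := π t) hζ (by simpa using (hZ _).2 h1) (by simpa using (hZ _).2 h2)
      (by simpa using (hZ _).2 h3) (by simpa using (hZ _).2 h4)
  generalize π z = ζ at *
  have : NeZero (orderOf ζ) := ⟨(orderOf_pos ζ).ne'⟩
  obtain ⟨n, hn⟩ := (mem_powers_iff_mem_zpowers.2 a3 : s ∈ Submonoid.powers ζ)
  simp only at hn
  have hs : s = ζ ^ (n : ZMod (orderOf ζ)).val := by
    rw [ZMod.val_natCast, pow_mod_orderOf, hn]
  have hc : (n : ZMod (orderOf ζ)) + n = 0 := by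
    rw [← Nat.cast_add, ZMod.natCast_eq_zero_iff, orderOf_dvd_iff_pow_eq_one, pow_add, hn, a4]
  generalize (n : ZMod (orderOf ζ)) = c at hs hc
  subst hs
  let σ : ((ZMod (orderOf ζ) × ZMod 2) × ZMod 2) × ZMod 3 → G ⧸ O := fun d =>
    ζ ^ d.1.1.1.val * X ^ d.1.1.2.val * Y ^ d.1.2.val * T ^ d.2.val
  have hm : ∀ a b, σ (ca4 _ c a b) = σ a * σ b :=
    ca4_hom (pow_orderOf_eq_one ζ) hc a5 a6 a7 a8 a9 a10 a11 a12 a13
  have h0 : σ 0 = 1 := by simp [σ]
  have hsur : Function.Surjective σ := by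
    let R : Submonoid (G ⧸ O) :=
      { carrier := Set.range σ
        one_mem' := ⟨0, h0⟩
        mul_mem' := by
          rintro _ _ ⟨a, rfl⟩ ⟨b, rfl⟩
          exact ⟨_, hm a b⟩ }
    let S : Subgroup (G ⧸ O) :=
      { R with
        inv_mem' := fun {g} hg => by
          have e : g⁻¹ = g ^ (orderOf g - 1) := by
            rw [inv_eq_iff_mul_eq_one, ← pow_succ', Nat.sub_add_cancel (orderOf_pos g),
              pow_orderOf_eq_one]
          rw [e]
          exact R.pow_mem hg _ }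
    have hS : ∀ g, g ∈ S ↔ g ∈ Set.range σ := fun g => Iff.rfl
    have hζS : Subgroup.zpowers ζ ≤ S := by
      rw [Subgroup.zpowers_le, hS]
      refine ⟨((((1 : ℕ), 0), 0), 0), ?_⟩
      simp only [σ, ZMod.val_natCast, pow_mod_orderOf]
      simp
    have hX : X ∈ S := ⟨(((0, 1), 0), 0), by
      simp only [σ]; rw [show (1 : ZMod 2).val = 1 from rfl]; simp⟩
    have hT : T ∈ S := ⟨(((0, 0), 0), 1), by
      simp only [σ]; rw [show (1 : ZMod 3).val = 1 from rfl]; simp⟩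
    have htop := hg (S.comap π) (fun g h => hζS ((hZ g).2 h))
      (by simpa using S.mul_mem (S.inv_mem (hζS a1)) hX)
      (by simpa using S.mul_mem (S.inv_mem (hζS a2)) hT)
    intro g
    obtain ⟨g, rfl⟩ := hπ g
    have : g ∈ S.comap π := htop ▸ Subgroup.mem_top g
    exact this
  have hcard : Nat.card (((ZMod (orderOf ζ) × ZMod 2) × ZMod 2) × ZMod 3) = Nat.card (G ⧸ O) := by
    rw [← (Subgroup.zpowers ζ).card_mul_index, Nat.card_zpowers,
      ← Subgroup.index_comap_of_surjective _ hπ, hcom, hi]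
    simp only [Nat.card_prod, Nat.card_zmod]
    ring
  obtain ⟨φ, hφ, -⟩ := Mod.ofSec π hπ σ
    ((Nat.bijective_iff_surjective_and_card σ).2 ⟨hsur, hcard⟩) hm h0
  rw [QuotientGroup.ker_mk'] at hφ
  exact ⟨_, c, φ, orderOf_dvd_of_pow_eq_one hζ, hc, hφ⟩

theorem A4.dvd {G : Type u} [Group G] {O : Subgroup G} {N : ℕ} {c : ZMod N}
    {φ : G → ((ZMod N × ZMod 2) × ZMod 2) × ZMod 3} (h : Mod O (ca4 N c) 0 φ)
    (h6 : (commutator G).index ∣ 6) (u : ℕ) (hu : (u : ZMod N) * c = 0) : N ∣ 6 * u := by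
  let ψ : G →* Multiplicative (ZMod N) := MonoidHom.mk'
    (fun g => Multiplicative.ofAdd ((u : ZMod N) * (φ g).1.1.1)) fun a b => by
      rw [h.map_mul, A4.ca4_add hu, ofAdd_add]
  obtain ⟨g, hg⟩ := h.surj (((1, 0), 0), 0)
  obtain ⟨j, hj⟩ := h6
  have h1 : g ^ 6 ∈ commutator G := by
    rw [hj, pow_mul]
    exact Subgroup.pow_mem _ ((commutator G).pow_index_mem g) j
  have h2 := Abelianization.commutator_subset_ker ψ h1
  rw [MonoidHom.mem_ker, map_pow] at h2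
  have h3 : ψ g = Multiplicative.ofAdd (u : ZMod N) := by
    simp [ψ, hg]
  rw [h3, ← ofAdd_nsmul, ofAdd_eq_one, nsmul_eq_mul] at h2
  rw [← ZMod.natCast_eq_zero_iff]
  exact_mod_cast h2

theorem a4_case {G : Type u} [Group G] [Finite G] [Group.IsSolvable G] (ih : IH G)
    (M : Subgroup G) [M.Normal] {x t : G} (h1 : x * x ∈ M) (h2 : t ^ 3 ∈ M)
    (h3 : x * (t * x * t⁻¹) * x⁻¹ * (t * x * t⁻¹)⁻¹ ∈ M)
    (h4 : x * (t * x * t⁻¹) * (t * (t * x * t⁻¹) * t⁻¹) ∈ M) (hi : M.index = 12)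
    (hg : ∀ S : Subgroup G, M ≤ S → x ∈ S → t ∈ S → S = ⊤) (h6 : (commutator G).index ∣ 6) :
    RG G ∧ SG G := by
  have triv : ∃ φ, Mod M (ca4 1 0) 0 φ := by
    obtain ⟨N, c, φ, hN, -, hφ⟩ := A4.model M h1 h2 h3 h4 hi hg M le_rfl M.one_mem (k := 0)
      (by simp) (fun m hm => ⟨0, by simpa using hm⟩)
    obtain rfl : N = 1 := by simpa using hN
    obtain rfl : c = 0 := Subsingleton.elim _ _
    exact ⟨φ, hφ⟩
  rcases tri M with ho | hcy | hnc
  · obtain ⟨φ, hφ⟩ := triv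
    exact topO hφ ho (rg_odd M ho) do_a4
  · obtain ⟨O, hO, hle, ho, z, hz, k, hk, hM⟩ := cy_normal hcy
    obtain ⟨N, c, φ, hN, hc, hφ⟩ := A4.model M h1 h2 h3 h4 hi hg O hle hz hk hM
    have hR := rg_odd O ho
    have d12 := A4.dvd hφ h6 2 (by rw [Nat.cast_ofNat, two_mul, hc])
    have c3 : Nat.Coprime N 3 := Nat.Coprime.coprime_dvd_left hN
      (Nat.Coprime.pow_left k (by decide))
    have d4 : N ∣ 4 := c3.dvd_of_dvd_mul_left (by simpa using d12)
    have hle4 := Nat.le_of_dvd (by decide) d4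
    interval_cases N
    · simp at d4
    · obtain rfl : c = 0 := Subsingleton.elim _ _
      exact topO hφ ho hR do_a4
    · obtain rfl | rfl : c = 0 ∨ c = 1 := by
        clear hφ; revert c; decide
      · exact topO hφ ho hR do_a42
      · exact topO hφ ho hR do_sl23
    · simp at d4
    · obtain rfl | rfl : c = 0 ∨ c = 2 := by
        clear hφ; revert c; decide
      · exact absurd (A4.dvd hφ h6 1 (by simp)) (by decide)
      · exact topO hφ ho hR do_c4
  · obtain ⟨φ, hφ⟩ := triv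
    exact topZ ih hφ hnc dz_a4

end Pool.Agent.SQ2

end MrgPart2

-- marker of a merged file
example : 731051 + 95525 = 731051 + 95525 := rfl
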