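import Pool.Agent.MP_f56020_al.s2.Z3T
import Pool.Agent.MP_f56020_al.s2.Odd

-- ======== part 0: formerly Pool.Agent.MP_f56020_al.s2.Df1
section MrgPart0

namespace Pool.Agent.SQ2

open Pool.Agent.SQ Multiset

universe u

/-- The level of the vertices of the frame. -/
def dfVl (q : ℕ) : ℤ :=
  if q = 0 ∨ q = 1 ∨ q = 2 ∨ q = 5 ∨ q = 7 ∨ q = 11 then 1 else 0

/-- The exponent of the vertices of the frame. -/
def dfVx (T : ℤ) (q : ℕ) (t : ℤ) : ℤ :=
  match q with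
  | 0 => 5 + 4 * t
  | 1 => 2 - 4 * t
  | 2 => 4 * T + 5 + 4 * t
  | 3 => 4 * T + 6 + 4 * t
  | 4 => -3 - 4 * t
  | 5 => 4 * T + 2 - 4 * t
  | 6 => 3 - 4 * t
  | 7 => -1 - 4 * t
  | 8 => 4 * T + 3 - 4 * t
  | 9 => 1 + 4 * t
  | 10 => 4 * T + 2 - 4 * t
  | _ => 4 * T - 1 - 4 * t

/-- The level of the labels of the frame. -/
def dfLl (T : ℤ) (q : ℕ) (t : ℤ) : ℤ :=
  match q with
  | 0 => 0
  | 1 => 0
  | 2 => 1
  | 3 => 0
  | 4 => 1
  | 5 => 1
  | 6 => 1
  | 7 => if t + 1 = T then 1 else 0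
  | 8 => 0
  | 9 => 0
  | 10 => 1
  | _ => if t + 1 = T then 0 else 1

/-- The exponent of the labels of the frame. -/
def dfLx (T δ γ : ℤ) (q : ℕ) (t : ℤ) : ℤ :=
  match q with
  | 0 => -3 - 8 * t
  | 1 => 4 * T + 3 + 8 * t
  | 2 => 11 + 8 * t + δ + γ
  | 3 => -9 - 8 * t - 4 * T
  | 4 => 4 * T - 1 - 8 * t + δ
  | 5 => 4 * T + 5 - 8 * t + γ
  | 6 => 2 - 8 * t + δ
  | 7 => if t + 1 = T then 6 + δ + γ else 10 + 8 * t
  | 8 => -2 - 4 * T + 8 * t
  | 9 => 4 * T + 1 - 8 * t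
  | 10 => 1 - 8 * t
  | _ => if t + 1 = T then 2 else -2 - 8 * t + δ + γ

theorem dfV_inj {T : ℤ} {q q' : ℕ} {t t' : ℤ} (hq : q < 12) (hq' : q' < 12) (h0 : 0 ≤ t)
    (h1 : t < T) (h0' : 0 ≤ t') (h1' : t' < T) (hl : dfVl q = dfVl q')
    (h4 : (4 : ℤ) ∣ dfVx T q t - dfVx T q' t')
    (hb : dfVx T q t - dfVx T q' t' = 0 ∨ 8 * T ≤ dfVx T q t - dfVx T q' t' ∨
      dfVx T q t - dfVx T q' t' ≤ -(8 * T)) : q = q' ∧ t = t' := by
  interval_cases q <;> interval_cases q' <;>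
    first
    | exact absurd hl (by decide)
    | (simp only [dfVx] at h4 hb; omega)

theorem dfL_inj {T δ γ : ℤ} {q q' : ℕ} {t t' : ℤ} (hT : (2 : ℤ) ∣ T) (hδ : (8 : ℤ) ∣ δ)
    (hγ : (8 : ℤ) ∣ γ) (hq : q < 12) (hq' : q' < 12) (h0 : 0 ≤ t)
    (h1 : t < T) (h0' : 0 ≤ t') (h1' : t' < T) (hl : dfLl T q t = dfLl T q' t')
    (h4 : (8 : ℤ) ∣ dfLx T δ γ q t - dfLx T δ γ q' t')
    (hb : dfLx T δ γ q t - dfLx T δ γ q' t' = 0 ∨ 8 * T ≤ dfLx T δ γ q t - dfLx T δ γ q' t' ∨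
      dfLx T δ γ q t - dfLx T δ γ q' t' ≤ -(8 * T)) : q = q' ∧ t = t' := by
  interval_cases q <;> interval_cases q' <;> simp only [dfLx, dfLl] at hl h4 hb <;> omega

theorem dfV_nd (T : ℤ) {q : ℕ} (hq : q < 12) (t : ℤ) : ¬ (4 : ℤ) ∣ dfVx T q t := by
  interval_cases q <;> simp only [dfVx] <;> omega

theorem dfL_nd {T δ γ : ℤ} (hδ : (8 : ℤ) ∣ δ) (hγ : (8 : ℤ) ∣ γ) {q : ℕ} (hq : q < 12) (t : ℤ) :
    ¬ (4 : ℤ) ∣ dfLx T δ γ q t := by
  interval_cases q <;> simp only [dfLx] <;> omega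

theorem dfVl_01 (q : ℕ) : dfVl q = 0 ∨ dfVl q = 1 := by
  unfold dfVl
  split_ifs <;> simp

theorem dfLl_01 (T : ℤ) {q : ℕ} (hq : q < 12) (t : ℤ) : dfLl T q t = 0 ∨ dfLl T q t = 1 := by
  generalize hx : dfLl T q t = x
  interval_cases q <;> simp only [dfLl] at hx <;> omega

/-- The block of a place. -/
def dfq (T j : ℕ) : ℕ := if j < 8 * T then j % 8 else 8 + (j - 8 * T) % 4

/-- The parameter of a place. -/
def dft (T j : ℕ) : ℕ := if j < 8 * T then j / 8 else (j - 8 * T) / 4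

theorem dfq_lt (T j : ℕ) : dfq T j < 12 := by
  unfold dfq
  split_ifs <;> omega

theorem dft_lt {T j : ℕ} (h : j < 12 * T) : dft T j < T := by
  unfold dft
  split_ifs <;> omega

theorem dfqt_inj {T i j : ℕ} (h1 : dfq T i = dfq T j) (h2 : dft T i = dft T j) : i = j := by
  unfold dfq at h1
  unfold dft at h2
  split_ifs at h1 h2 <;> omega

theorem df_next {T j : ℕ} (h : j < 12 * T) :
    (dfq T j ≠ 7 ∧ dfq T j ≠ 11 ∧ dfq T ((j + 1) % (12 * T)) = dfq T j + 1 ∧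
      dft T ((j + 1) % (12 * T)) = dft T j) ∨
    (dfq T j = 7 ∧ dft T j + 1 ≠ T ∧ dfq T ((j + 1) % (12 * T)) = 0 ∧
      dft T ((j + 1) % (12 * T)) = dft T j + 1) ∨
    (dfq T j = 7 ∧ dft T j + 1 = T ∧ dfq T ((j + 1) % (12 * T)) = 8 ∧
      dft T ((j + 1) % (12 * T)) = 0) ∨
    (dfq T j = 11 ∧ dft T j + 1 ≠ T ∧ dfq T ((j + 1) % (12 * T)) = 8 ∧
      dft T ((j + 1) % (12 * T)) = dft T j + 1) ∨
    (dfq T j = 11 ∧ dft T j + 1 = T ∧ dfq T ((j + 1) % (12 * T)) = 0 ∧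
      dft T ((j + 1) % (12 * T)) = 0) := by
  rcases Nat.lt_or_ge (j + 1) (12 * T) with h1 | h1
  · rw [Nat.mod_eq_of_lt h1]
    unfold dfq dft
    split_ifs <;> omega
  · have e : j + 1 = 12 * T := by omega
    rw [e, Nat.mod_self]
    unfold dfq dft
    split_ifs <;> omega

section model
variable {n : ℕ} {r c : ZMod n}

/-- The element `t ^ l a ^ x` of the model. -/
def dfE (r : ZMod n) (l x : ℤ) : ZMod n × ZMod 2 :=
  if l = 1 then (r * (x : ZMod n), 1) else ((x : ZMod n), 0)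

theorem dfE0 (x : ℤ) : dfE r 0 x = ((x : ZMod n), 0) := if_neg (by decide)

theorem dfE1 (x : ℤ) : dfE r 1 x = (r * (x : ZMod n), 1) := if_pos rfl

theorem mc00 (x y : ZMod n) : mc n 2 r c (x, 0) (y, 0) = (x + y, 0) := by
  simp [mc, xm]

theorem mc10 (x y : ZMod n) : mc n 2 r c (x, 1) (y, 0) = (x + r * y, 1) := by
  have h : (1 : ZMod 2).val = 1 := rfl
  simp [mc, xm, h]

theorem mc01 (x y : ZMod n) : mc n 2 r c (x, 0) (y, 1) = (x + y, 1) := by
  have h : (1 : ZMod 2).val = 1 := rfl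
  simp [mc, xm, h]

theorem mc11 (x y : ZMod n) : mc n 2 r c (x, 1) (y, 1) = (x + r * y + c, 0) := by
  have h : (1 : ZMod 2).val = 1 := rfl
  have h2 : (1 : ZMod 2) + 1 = 0 := rfl
  simp [mc, xm, h, h2]

theorem dfE00 {x y z : ℤ} (h : (x : ZMod n) + y = z) :
    mc n 2 r c (dfE r 0 x) (dfE r 0 y) = dfE r 0 z := by
  rw [dfE0, dfE0, dfE0, mc00, h]

theorem dfE10 {x y z : ℤ} (h : (x : ZMod n) + y = z) :
    mc n 2 r c (dfE r 1 x) (dfE r 0 y) = dfE r 1 z := by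
  rw [dfE1, dfE0, dfE1, mc10, ← h, mul_add]

theorem dfE01 (hr : r * r = 1) {x y z : ℤ} (h : r * (x : ZMod n) + y = z) :
    mc n 2 r c (dfE r 0 x) (dfE r 1 y) = dfE r 1 z := by
  rw [dfE1, dfE0, dfE1, mc01, ← h, mul_add, ← mul_assoc, hr, one_mul]

theorem dfE11 (hr : r * r = 1) {x y z : ℤ} (h : r * (x : ZMod n) + y + c = z) :
    mc n 2 r c (dfE r 1 x) (dfE r 1 y) = dfE r 0 z := by
  rw [dfE1, dfE1, dfE0, mc11, ← h, ← mul_assoc, hr, one_mul]

theorem dfE_inj (hr : r * r = 1) {l l' x x' : ℤ} (hl : l = 0 ∨ l = 1) (hl' : l' = 0 ∨ l' = 1)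
    (h : dfE r l x = dfE r l' x') : l = l' ∧ (x : ZMod n) = x' := by
  have h01 : (0 : ZMod 2) ≠ 1 := by decide
  rcases hl with rfl | rfl <;> rcases hl' with rfl | rfl
  · rw [dfE0, dfE0] at h
    exact ⟨rfl, (Prod.mk.inj h).1⟩
  · rw [dfE0, dfE1] at h
    exact absurd (Prod.mk.inj h).2 h01
  · rw [dfE0, dfE1] at h
    exact absurd (Prod.mk.inj h).2.symm h01
  · rw [dfE1, dfE1] at h
    refine ⟨rfl, ?_⟩
    have := congrArg (r * ·) (Prod.mk.inj h).1
    simpa only [← mul_assoc, hr, one_mul] using this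

theorem df_step {T δ γ : ℤ} (hr : r = -1 + (δ : ZMod n)) (hc : c = (γ : ZMod n))
    (h8 : 8 * (T : ZMod n) = 0) (hδ : 2 * (δ : ZMod n) = 0) (hδ2 : (δ : ZMod n) * δ = 0)
    (hγ : 2 * (γ : ZMod n) = 0) {q q' : ℕ} {t t' : ℤ} (hq : q < 12)
    (h : (q ≠ 7 ∧ q ≠ 11 ∧ q' = q + 1 ∧ t' = t) ∨ (q = 7 ∧ t + 1 ≠ T ∧ q' = 0 ∧ t' = t + 1) ∨
      (q = 7 ∧ t + 1 = T ∧ q' = 8 ∧ t' = 0) ∨ (q = 11 ∧ t + 1 ≠ T ∧ q' = 8 ∧ t' = t + 1) ∨
      (q = 11 ∧ t + 1 = T ∧ q' = 0 ∧ t' = 0)) :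
    mc n 2 r c (dfE r (dfVl q) (dfVx T q t)) (dfE r (dfLl T q t) (dfLx T δ γ q t)) =
      dfE r (dfVl q') (dfVx T q' t') := by
  have hrr : r * r = 1 := by rw [hr]; linear_combination hδ2 - hδ
  rcases h with ⟨h7, h11, rfl, rfl⟩ | ⟨rfl, ht, rfl, rfl⟩ | ⟨rfl, ht, rfl, rfl⟩ |
    ⟨rfl, ht, rfl, rfl⟩ | ⟨rfl, ht, rfl, rfl⟩
  · interval_cases q
    · exact dfE10 (by simp only [dfVx, dfLx]; push_cast; ring)
    · exact dfE10 (by simp only [dfVx, dfLx]; push_cast; ring)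
    · refine dfE11 hrr ?_
      simp only [dfVx, dfLx]
      rw [hr, hc]
      push_cast
      linear_combination (2 * (T : ZMod n) + 3 + 2 * t') * hδ + hγ - h8
    · exact dfE00 (by simp only [dfVx, dfLx]; push_cast; ring)
    · refine dfE01 hrr ?_
      simp only [dfVx, dfLx]
      rw [hr]
      push_cast
      linear_combination (-1 - 2 * (t' : ZMod n)) * hδ
    · refine dfE11 hrr ?_
      simp only [dfVx, dfLx]
      rw [hr, hc]
      push_cast
      linear_combination (2 * (T : ZMod n) + 1 - 2 * t') * hδ + hγ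
    · refine dfE01 hrr ?_
      simp only [dfVx, dfLx]
      rw [hr]
      push_cast
      linear_combination (2 - 2 * (t' : ZMod n)) * hδ
    · exact absurd rfl h7
    · exact dfE00 (by simp only [dfVx, dfLx]; push_cast; ring)
    · exact dfE00 (by simp only [dfVx, dfLx]; push_cast; ring)
    · refine dfE01 hrr ?_
      simp only [dfVx, dfLx]
      rw [hr]
      push_cast
      linear_combination (2 * (T : ZMod n) + 1 - 2 * t') * hδ - h8
    · exact absurd rfl h11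
  · simp only [dfLl, dfLx, if_neg ht]
    exact dfE10 (by simp only [dfVx]; push_cast; ring)
  · simp only [dfLl, dfLx, if_pos ht]
    refine dfE11 hrr ?_
    simp only [dfVx]
    rw [hr, hc, ← ht]
    push_cast
    linear_combination (-2 * (t : ZMod n)) * hδ + hγ
  · simp only [dfLl, dfLx, if_neg ht]
    refine dfE11 hrr ?_
    simp only [dfVx]
    rw [hr, hc]
    push_cast
    linear_combination (2 * (T : ZMod n) - 2 * t) * hδ + hγ - h8
  · simp only [dfLl, dfLx, if_pos ht]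
    refine dfE10 ?_
    simp only [dfVx]
    rw [← ht]
    push_cast
    ring

end model

theorem df_list {D : Type*} [Fintype D] [DecidableEq D] (p : D → Bool) (m : ℕ) (v : ℕ → D)
    (hi : ∀ i < m, ∀ j < m, v i = v j → i = j) (hp : ∀ i < m, p (v i) = false)
    (hc : (Finset.univ.filter fun d => p d = false).card ≤ m) :
    ((List.range m).map v).Nodup ∧ ∀ d, d ∈ (List.range m).map v ↔ p d = false := by
  have hn : ((List.range m).map v).Nodup :=
    List.Nodup.map_on (fun i h j h' => hi i (by simpa using h) j (by simpa using h'))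
      List.nodup_range
  refine ⟨hn, fun d => ?_⟩
  have e : ((List.range m).map v).toFinset = Finset.univ.filter fun d => p d = false := by
    refine Finset.eq_of_subset_of_card_le (fun a ha => ?_) ?_
    · obtain ⟨i, h, rfl⟩ := List.mem_map.1 (List.mem_toFinset.1 ha)
      exact Finset.mem_filter.2 ⟨Finset.mem_univ _, hp i (by simpa using h)⟩
    · rw [List.toFinset_card_of_nodup hn]
      simpa using hc
  rw [← List.mem_toFinset, e]
  simp

end Pool.Agent.SQ2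

end MrgPart0

-- ======== part 1: formerly Pool.Agent.MP_f56020_al.s2.Df
section MrgPart1

namespace Pool.Agent.SQ2

open Pool.Agent.SQ Multiset

universe u

section model
variable {n : ℕ} [NeZero n] {r c : ZMod n}

/-- The test for the subgroup of the elements with exponent divisible by four. -/
def dfB (h4 : 4 ∣ n) (d : ZMod n × ZMod 2) : Bool :=
  decide (ZMod.castHom h4 (ZMod 4) d.1 = 0)

omit [NeZero n] in
theorem dfB_iff (h4 : 4 ∣ n) (d : ZMod n × ZMod 2) :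
    dfB h4 d = true ↔ ZMod.castHom h4 (ZMod 4) d.1 = 0 := by
  simp only [dfB, decide_eq_true_eq]

omit [NeZero n] in
theorem dfB_int (h4 : 4 ∣ n) (x : ℤ) (l : ZMod 2) :
    dfB h4 ((x : ZMod n), l) = true ↔ (4 : ℤ) ∣ x := by
  rw [dfB_iff, map_intCast]
  exact ZMod.intCast_zmod_eq_zero_iff_dvd x 4

omit [NeZero n] in
theorem dfB_E (h4 : 4 ∣ n) (hr : r * r = 1) {l x : ℤ} (hl : l = 0 ∨ l = 1) (hx : ¬ (4 : ℤ) ∣ x) :
    dfB h4 (dfE r l x) = false := by
  rw [← Bool.not_eq_true]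
  rcases hl with rfl | rfl
  · rw [dfE0, dfB_int]
    exact hx
  · rw [dfE1, dfB_iff, map_mul, map_intCast]
    intro h
    apply hx
    have h1 := congrArg (ZMod.castHom h4 (ZMod 4)) hr
    rw [map_mul, map_one] at h1
    refine (ZMod.intCast_zmod_eq_zero_iff_dvd x 4).1 ?_
    linear_combination (ZMod.castHom h4 (ZMod 4) r) * h - (x : ZMod 4) * h1

omit [NeZero n] in
theorem dfB_mul (h4 : 4 ∣ n) (hc : ZMod.castHom h4 (ZMod 4) c = 0) (x y : ZMod n × ZMod 2)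
    (hx : dfB h4 x = true) (hy : dfB h4 y = true) : dfB h4 (mc n 2 r c x y) = true := by
  obtain ⟨x, i⟩ := x
  obtain ⟨y, j⟩ := y
  rw [dfB_iff] at hx hy ⊢
  dsimp only at hx hy
  have h2 : ∀ i : ZMod 2, i = 0 ∨ i = 1 := by decide
  rcases h2 i with rfl | rfl <;> rcases h2 j with rfl | rfl
  · rw [mc00, RingHom.map_add, hx, hy, add_zero]
  · rw [mc01, RingHom.map_add, hx, hy, add_zero]
  · rw [mc10, RingHom.map_add, map_mul, hx, hy, mul_zero, add_zero]
  · rw [mc11, RingHom.map_add, RingHom.map_add, map_mul, hx, hy, hc, mul_zero, add_zero, add_zero]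

omit [NeZero n] in
theorem df_small_inj {N : ℕ} (hN : 4 * N ≤ n) :
    Function.Injective fun p : Fin N × ZMod 2 => ((((4 * p.1.val : ℕ) : ℤ) : ZMod n), p.2) := by
  rintro ⟨i, a⟩ ⟨j, b⟩ h
  obtain ⟨h1, h2⟩ := Prod.mk.inj h
  dsimp only at h1 h2
  rw [Int.cast_natCast, Int.cast_natCast, ZMod.natCast_eq_natCast_iff'] at h1
  have hi := i.2
  have hj := j.2
  rw [Nat.mod_eq_of_lt (by omega), Nat.mod_eq_of_lt (by omega)] at h1
  exact Prod.ext (Fin.ext (by dsimp only; omega)) h2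

theorem dfB_card {T : ℕ} (hn : n = 8 * T) (h4 : 4 ∣ n) :
    (Finset.univ.filter fun d => dfB h4 d = false).card ≤ 12 * T := by
  have h1 := Finset.card_filter_add_card_filter_not (s := Finset.univ)
    (fun d : ZMod n × ZMod 2 => dfB h4 d = false)
  have h2 : (Finset.univ : Finset (Fin (2 * T) × ZMod 2)).card ≤
      (Finset.univ.filter fun d => ¬ dfB h4 d = false).card := by
    refine Finset.card_le_card_of_injOn _ (fun p _ => ?_)
      (df_small_inj (n := n) (N := 2 * T) (by omega)).injOn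
    refine Finset.mem_coe.2 (Finset.mem_filter.2 ⟨Finset.mem_univ _, ?_⟩)
    rw [Bool.not_eq_false, dfB_int]
    exact ⟨p.1.val, by push_cast; ring⟩
  simp only [Finset.card_univ, Fintype.card_prod, Fintype.card_fin, ZMod.card] at h1 h2
  omega

omit [NeZero n] in
theorem df_cong {T : ℕ} (hn : n = 8 * T) {x y : ℤ} (h : (x : ZMod n) = y) :
    (8 : ℤ) ∣ x - y ∧ (x - y = 0 ∨ 8 * (T : ℤ) ≤ x - y ∨ x - y ≤ -(8 * (T : ℤ))) := by
  have h1 : ((n : ℕ) : ℤ) ∣ x - y := (ZMod.intCast_eq_intCast_iff_dvd_sub y x n).1 h.symm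
  rw [hn] at h1
  push_cast at h1
  refine ⟨(Dvd.intro _ rfl).trans h1, ?_⟩
  by_contra hcon
  push Not at hcon
  exact hcon.1 (Int.eq_zero_of_abs_lt_dvd h1 (abs_lt.2 ⟨hcon.2.2, hcon.2.1⟩))

/-- The vertices of the frame. -/
def dfv (r : ZMod n) (T j : ℕ) : ZMod n × ZMod 2 :=
  dfE r (dfVl (dfq T j)) (dfVx T (dfq T j) (dft T j))

/-- The labels of the frame. -/
def dfl (r : ZMod n) (T : ℕ) (δ γ : ℤ) (j : ℕ) : ZMod n × ZMod 2 :=
  dfE r (dfLl T (dfq T j) (dft T j)) (dfLx T δ γ (dfq T j) (dft T j))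

theorem df_frD {T : ℕ} {δ γ : ℤ} (hn : n = 8 * T) (h4 : 4 ∣ n) (hT : 2 ∣ T)
    (hr : r = -1 + (δ : ZMod n)) (hc : c = (γ : ZMod n)) (hδ : 2 * (δ : ZMod n) = 0)
    (hδ2 : (δ : ZMod n) * δ = 0) (hγ : 2 * (γ : ZMod n) = 0) (hδ8 : (8 : ℤ) ∣ δ)
    (hγ8 : (8 : ℤ) ∣ γ) :
    FrD (mc n 2 r c) (dfB h4) ((List.range (12 * T)).map (dfv r T))
      ((List.range (12 * T)).map (dfl r T δ γ)) := by
  have hrr : r * r = 1 := by rw [hr]; linear_combination hδ2 - hδ
  have h8 : 8 * ((T : ℤ) : ZMod n) = 0 := by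
    have : ((8 * T : ℕ) : ZMod n) = 0 := by rw [← hn]; exact ZMod.natCast_self n
    push_cast at this ⊢
    exact this
  have hT' : (2 : ℤ) ∣ (T : ℤ) := by exact_mod_cast hT
  obtain ⟨a1, a2⟩ := df_list (dfB h4) (12 * T) (dfv r T) (fun i hi j hj h => by
      unfold dfv at h
      obtain ⟨e1, e2⟩ := dfE_inj hrr (dfVl_01 _) (dfVl_01 _) h
      obtain ⟨e3, e4⟩ := df_cong hn e2
      have ti := dft_lt hi
      have tj := dft_lt hj
      obtain ⟨e5, e6⟩ := dfV_inj (dfq_lt T i) (dfq_lt T j) (by omega) (by omega) (by omega)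
        (by omega) e1 ((by decide : (4 : ℤ) ∣ 8).trans e3) e4
      exact dfqt_inj e5 (by omega))
    (fun i _ => by
      unfold dfv
      exact dfB_E h4 hrr (dfVl_01 _) (dfV_nd _ (dfq_lt T i) _)) (dfB_card hn h4)
  obtain ⟨b1, b2⟩ := df_list (dfB h4) (12 * T) (dfl r T δ γ) (fun i hi j hj h => by
      unfold dfl at h
      obtain ⟨e1, e2⟩ := dfE_inj hrr (dfLl_01 _ (dfq_lt T i) _) (dfLl_01 _ (dfq_lt T j) _) h
      obtain ⟨e3, e4⟩ := df_cong hn e2
      have ti := dft_lt hi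
      have tj := dft_lt hj
      obtain ⟨e5, e6⟩ := dfL_inj hT' hδ8 hγ8 (dfq_lt T i) (dfq_lt T j) (by omega) (by omega)
        (by omega) (by omega) e1 e3 e4
      exact dfqt_inj e5 (by omega))
    (fun i _ => by
      unfold dfl
      exact dfB_E h4 hrr (dfLl_01 _ (dfq_lt T i) _) (dfL_nd hδ8 hγ8 (dfq_lt T i) _))
    (dfB_card hn h4)
  refine ⟨⟨a1, b1, by simp, ?_⟩, fun d => ⟨a2 d, b2 d⟩⟩
  refine List.ext_getElem (by simp) fun j h1 h2 => ?_
  have hj : j < 12 * T := by simpa using h2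
  rw [List.getElem_zipWith, List.getElem_rotate]
  simp only [List.getElem_map, List.getElem_range, List.length_map, List.length_range]
  unfold dfv dfl
  refine df_step hr hc h8 hδ hδ2 hγ (dfq_lt T j) ?_
  have := df_next hj
  generalize (j + 1) % (12 * T) = i at this ⊢
  clear a1 a2 b1 b2 h1 h2
  rcases this with h | h | h | h | h
  · exact Or.inl (by omega)
  · exact Or.inr (Or.inl (by omega))
  · exact Or.inr (Or.inr (Or.inl (by omega)))
  · exact Or.inr (Or.inr (Or.inr (Or.inl (by omega))))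
  · exact Or.inr (Or.inr (Or.inr (Or.inr (by omega))))

end model

section trade
variable {G : Type*} [Group G] [Finite G] {H : Subgroup G}

theorem df_trade {p x1 y1 x2 y2 x3 y3 η : G} {A1 A2 A3 A4 : Multiset (G × G)}
    (h1 : Wk p x1 A1) (h2 : Wk y1 x2 A2) (h3 : Wk y2 x3 A3) (h4 : Wk y3 p A4)
    (hv : hd (A1 + {(x1, y1)} + A2 + {(x2, y2)} + A3 + {(x3, y3)} + A4) = ou H)
    (hl : lb (A1 + {(x1, y1)} + A2 + {(x2, y2)} + A3 + {(x3, y3)} + A4) = ou H)
    (e1 : 1⁻¹ * y2 = x3⁻¹ * y3) (e2 : x3⁻¹ * y1 = η) (e3 : x2⁻¹ * y3 = x1⁻¹ * y1)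
    (e4 : x1⁻¹ * η = x2⁻¹ * y2) : Ex H η η := by
  refine ⟨_, ((((Wk.cons 1 h3).step h2).step (h4.trans h1)).trans (Wk.edge x1 η)), ?_, ?_⟩
  · rw [← hv]
    simp only [hd_add, hd_one]
    abel
  · rw [← hl]
    simp only [lb_add, lb_one]
    rw [e1, e2, e3, e4]
    abel

end trade

variable {G : Type u} [Group G] [Finite G] [Group.IsSolvable G] {O : Subgroup G}

theorem df_ex {n S : ℕ} [NeZero n] {δ γ : ℤ} {r c : ZMod n} (hS : 0 < S) (hn : n = 8 * (4 * S))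
    (h4 : 4 ∣ n) (hr : r = -1 + (δ : ZMod n)) (hc : c = (γ : ZMod n)) (hδ : 2 * (δ : ZMod n) = 0)
    (hδ2 : (δ : ZMod n) * δ = 0) (hγ : 2 * (γ : ZMod n) = 0) (hδ8 : (8 : ℤ) ∣ δ)
    (hγ8 : (8 : ℤ) ∣ γ) {φ : G → ZMod n × ZMod 2} {σ : ZMod n × ZMod 2 → G}
    (h : Spl O (mc n 2 r c) 0 φ σ) (ho : Odd (Nat.card O)) {H : Subgroup G}
    (hH : ∀ g, g ∈ H ↔ dfB h4 (φ g) = true) :
    Ex H (σ (((12 * S : ℤ) : ZMod n), 0)) (σ (((12 * S : ℤ) : ZMod n), 0)) := by
  obtain ⟨S, rfl⟩ : ∃ S', S = S' + 1 := ⟨S - 1, by omega⟩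
  set T := 4 * (S + 1) with hT
  obtain ⟨f, hf, hφ⟩ := h.mod.fr hH (df_frD hn h4 ⟨2 * (S + 1), by omega⟩ hr hc hδ hδ2 hγ hδ8 hγ8)
    (by
      intro e
      have := congrArg List.length e
      simp only [List.length_map, List.length_range, List.length_nil] at this
      omega)
  simp only [List.length_map, List.length_range] at hf hφ
  have hm : 0 < 12 * T := by omega
  set τ : ℕ → G := fun j => σ (dfv r T (j % (12 * T))) with hτ
  have hfr : Fr O τ (12 * T) (ou H) (ou H) := by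
    refine hf.congr (fun j _ => ?_) ?_
    · rw [h.mod.mem_iff, hφ, hτ]
      dsimp only
      rw [h.sec, List.getD_eq_getElem _ _ (by simpa using Nat.mod_lt j hm)]
      simp
    · simp only [hτ, Nat.mod_self, Nat.zero_mod]
  have e12 : 12 * T = (48 * S + 47) + 1 := by omega
  rw [e12] at hfr
  obtain ⟨R, w, hv, hl, -⟩ := oneLift ho (n := 48 * S + 47) ⟨24 * S + 23, by omega⟩ hfr
  let a : ℤ → G := fun x => σ ((x : ZMod n), 0)
  have key : ∀ (j q t : ℕ) (x : ℤ), j < 12 * T → dfq T j = q → dft T j = t → dfVl q = 0 →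
      dfVx T q t = x → τ j = a x := by
    intro j q t x hj e1 e2 e3 e4
    simp only [hτ, Nat.mod_eq_of_lt hj, dfv, e1, e2, e3, e4, dfE0, a]
  have hTz : (T : ℤ) = 4 * (S + 1) := by rw [hT]; push_cast; ring
  have p1 : τ (24 * S + 19) = a (28 * S + 30) :=
    key _ 3 (3 * S + 2) _ (by omega) (by unfold dfq; split_ifs <;> omega)
      (by unfold dft; split_ifs <;> omega) (by decide) (by simp only [dfVx]; omega)
  have p2 : τ (24 * S + 19 + 1) = a (-12 * S - 11) :=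
    key _ 4 (3 * S + 2) _ (by omega) (by unfold dfq; split_ifs <;> omega)
      (by unfold dft; split_ifs <;> omega) (by decide) (by simp only [dfVx]; omega)
  have p3 : τ (32 * S + 32) = a (16 * S + 19) :=
    key _ 8 0 _ (by omega) (by unfold dfq; split_ifs <;> omega)
      (by unfold dft; split_ifs <;> omega) (by decide) (by simp only [dfVx]; omega)
  have p4 : τ (32 * S + 32 + 1) = a 1 :=
    key _ 9 0 _ (by omega) (by unfold dfq; split_ifs <;> omega)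
      (by unfold dft; split_ifs <;> omega) (by decide) (by simp only [dfVx]; omega)
  have p5 : τ (40 * S + 41) = a (8 * S + 9) :=
    key _ 9 (2 * S + 2) _ (by omega) (by unfold dfq; split_ifs <;> omega)
      (by unfold dft; split_ifs <;> omega) (by decide) (by simp only [dfVx]; omega)
  have p6 : τ (40 * S + 41 + 1) = a (8 * S + 10) :=
    key _ 10 (2 * S + 2) _ (by omega) (by unfold dfq; split_ifs <;> omega)
      (by unfold dft; split_ifs <;> omega) (by decide) (by simp only [dfVx]; omega)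
  have amul : ∀ x y : ℤ, (a x)⁻¹ * a y = σ ((y : ZMod n) - x, 0) := by
    intro x y
    rw [inv_mul_eq_iff_eq_mul]
    simp only [a]
    rw [← h.mul, mc00, add_sub_cancel]
  have h32 : 32 * ((S : ZMod n) + 1) = 0 := by
    have : ((8 * T : ℕ) : ZMod n) = 0 := by rw [← hn]; exact ZMod.natCast_self n
    rw [hT] at this
    push_cast at this
    linear_combination this
  have a0 : (1 : G) = a 0 := by
    simp only [a, Int.cast_zero]
    exact h.one.symm
  have dec : sgm τ 0 (48 * S + 47) + R =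
      sgm τ 0 (24 * S + 19) + {(τ (24 * S + 19), τ (24 * S + 19 + 1))} +
        sgm τ (24 * S + 19 + 1) (8 * S + 12) + {(τ (32 * S + 32), τ (32 * S + 32 + 1))} +
        sgm τ (32 * S + 32 + 1) (8 * S + 8) + {(τ (40 * S + 41), τ (40 * S + 41 + 1))} +
        (sgm τ (40 * S + 41 + 1) (8 * S + 5) + R) := by
    rw [sgm_cut τ 0 (24 * S + 19) (24 * S + 27) (j := 24 * S + 19) (by omega) (by omega),
      sgm_cut τ (24 * S + 19 + 1) (8 * S + 12) (16 * S + 14) (n := 24 * S + 27)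
        (j := 32 * S + 32) (by omega) (by omega),
      sgm_cut τ (32 * S + 32 + 1) (8 * S + 8) (8 * S + 5) (n := 16 * S + 14)
        (j := 40 * S + 41) (by omega) (by omega)]
    abel
  rw [← hd_add, dec] at hv
  rw [← lb_add, dec] at hl
  refine df_trade (wk_sgm τ 0 _ (by omega)) (wk_sgm τ _ _ (by omega)) (wk_sgm τ _ _ (by omega))
    ((wk_sgm τ _ _ (by omega)).trans w) hv hl ?_ ?_ ?_ ?_
  · rw [p4, p5, p6, a0, amul, amul]
    congr 2
    push_cast
    ring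
  · rw [p5, p2, amul]
    congr 2
    push_cast
    linear_combination -h32
  · rw [p3, p6, p1, p2, amul, amul]
    congr 2
    push_cast
    linear_combination h32
  · rw [p1, p3, p4, amul, amul]
    congr 2
    push_cast
    ring

theorem top_df (ih : IH G) {n k : ℕ} [NeZero n] (hn : n = 2 ^ (k + 1)) (hk : 4 ≤ k)
    {r c : ZMod n} (hrc : (r = -1 ∧ (c = 0 ∨ c = 2 ^ k)) ∨ (r = -1 + 2 ^ k ∧ c = 0))
    {φ : G → ZMod n × ZMod 2} {σ : ZMod n × ZMod 2 → G} (h : Spl O (mc n 2 r c) 0 φ σ)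
    (ho : Odd (Nat.card O)) : RG G ∧ SG G := by
  obtain ⟨m, rfl⟩ : ∃ m, k = m + 4 := ⟨k - 4, by omega⟩
  have hS : 0 < 2 ^ m := by positivity
  have hn' : n = 8 * (4 * 2 ^ m) := by rw [hn]; ring
  have h4 : 4 ∣ n := ⟨8 * 2 ^ m, by omega⟩
  have h0 : (2 : ZMod n) ^ (m + 4 + 1) = 0 := by
    have : ((2 ^ (m + 4 + 1) : ℕ) : ZMod n) = 0 := by rw [← hn]; exact ZMod.natCast_self n
    exact_mod_cast this
  obtain ⟨δ, γ, hr, hc, hδ, hδ2, hγ, hδ8, hγ8⟩ : ∃ δ γ : ℤ, r = -1 + (δ : ZMod n) ∧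
      c = (γ : ZMod n) ∧ 2 * (δ : ZMod n) = 0 ∧ (δ : ZMod n) * δ = 0 ∧ 2 * (γ : ZMod n) = 0 ∧
      (8 : ℤ) ∣ δ ∧ (8 : ℤ) ∣ γ := by
    have d8 : (8 : ℤ) ∣ 2 ^ (m + 4) := ⟨2 ^ (m + 1), by ring⟩
    rcases hrc with ⟨rfl, rfl | rfl⟩ | ⟨rfl, rfl⟩
    · exact ⟨0, 0, by simp, by simp, by simp, by simp, by simp, by simp, by simp⟩
    · exact ⟨0, 2 ^ (m + 4), by simp, by simp, by simp, by simp,
        by push_cast; linear_combination h0, by simp, d8⟩
    · exact ⟨2 ^ (m + 4), 0, by simp, by simp, by push_cast; linear_combination h0,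
        by push_cast; linear_combination 2 ^ (m + 3) * h0, by simp, d8, by simp⟩
  have hc4 : ZMod.castHom h4 (ZMod 4) c = 0 := by
    rw [hc, map_intCast]
    exact (ZMod.intCast_zmod_eq_zero_iff_dvd γ 4).2 ((by decide : (4 : ℤ) ∣ 8).trans hγ8)
  have hB0 : dfB h4 0 = true := by rw [dfB_iff]; simp
  obtain ⟨H, -, hH⟩ := h.mod.sub (dfB h4) hB0 (dfB_mul h4 hc4)
  have ex := df_ex hS hn' h4 hr hc hδ hδ2 hγ hδ8 hγ8 h ho hH
  have hσ : Function.Injective σ := Function.LeftInverse.injective h.sec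
  have hmem : ∀ d, σ d ∈ H ↔ dfB h4 d = true := fun d => by rw [hH, h.sec]
  have hnz : ∀ x : ℤ, 0 < x → x < 8 * ((4 * 2 ^ m : ℕ) : ℤ) → (x : ZMod n) ≠ 0 := by
    intro x h1 h2 e
    have := (df_cong hn' (x := x) (y := 0) (by simpa using e)).2
    omega
  have hη : σ (((12 * (2 ^ m : ℕ) : ℤ) : ZMod n), 0) ∈ H := by
    rw [hmem, dfB_int]
    exact ⟨3 * (2 ^ m : ℕ), by ring⟩
  have hη1 : σ (((12 * (2 ^ m : ℕ) : ℤ) : ZMod n), 0) ≠ 1 := by
    intro e
    rw [← h.one] at e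
    exact hnz _ (by omega) (by omega) (Prod.mk.inj (hσ e)).1
  have htop : H ≠ ⊤ := by
    intro e
    have : σ (((1 : ℤ) : ZMod n), 0) ∈ H := by rw [e]; trivial
    rw [hmem, dfB_int] at this
    omega
  have m4 : dfB h4 (((4 : ℤ) : ZMod n), 0) = true := (dfB_int h4 _ _).2 dvd_rfl
  have m1 : dfB h4 (((0 : ℤ) : ZMod n), 1) = true := (dfB_int h4 _ _).2 (dvd_zero _)
  have hnc : σ (((4 : ℤ) : ZMod n), 0) * σ (((0 : ℤ) : ZMod n), 1) ≠
      σ (((0 : ℤ) : ZMod n), 1) * σ (((4 : ℤ) : ZMod n), 0) := by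
    rw [← h.mul, ← h.mul, mc01, mc10]
    intro e
    have e1 := (Prod.mk.inj (hσ e)).1
    refine hnz 8 (by omega) (by omega) ?_
    rw [hr] at e1
    push_cast at e1 ⊢
    linear_combination e1 + 2 * hδ
  have hcm : ¬ Cm H := fun hcm => hnc (congrArg Subtype.val
    (hcm ⟨_, (hmem _).2 m4⟩ ⟨_, (hmem _).2 m1⟩))
  have h16 : 16 ≤ Nat.card H := by
    let g : Fin 8 × ZMod 2 → H := fun p =>
      ⟨σ ((((4 * p.1.val : ℕ) : ℤ) : ZMod n), p.2), by
        rw [hmem, dfB_int]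
        exact ⟨p.1.val, by push_cast; ring⟩⟩
    have hg : Function.Injective g := fun p q e =>
      df_small_inj (n := n) (N := 8) (by omega) (hσ (congrArg Subtype.val e))
    simpa using Nat.card_le_card_of_injective g hg
  have hpow : ∀ (x : ZMod n) (j : ℕ), σ (x, 0) ^ j = σ ((j : ZMod n) * x, 0) := by
    intro x j
    induction j with
    | zero =>
      rw [pow_zero, Nat.cast_zero, zero_mul]
      exact h.one.symm
    | succ j ihj =>
      rw [pow_succ, ihj, ← h.mul, mc00]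
      congr 2
      push_cast
      ring
  have hp2 : ∀ d, σ d ^ 2 ^ (m + 4 + 1 + 1) = 1 := by
    rintro ⟨x, i⟩
    have hz : ∀ y : ZMod n, σ (y, 0) ^ 2 ^ (m + 4 + 1) = 1 := by
      intro y
      rw [hpow, ← hn, ZMod.natCast_self, zero_mul]
      exact h.one
    have h2 : ∀ i : ZMod 2, i = 0 ∨ i = 1 := by decide
    rw [pow_succ' 2 (m + 4 + 1), pow_mul, pow_two, ← h.mul]
    rcases h2 i with rfl | rfl
    · rw [mc00, hz]
    · rw [mc11, hz]
  have hNC : NC H := by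
    obtain ⟨P, -, hP⟩ : ∃ P : Subgroup G, True ∧ ∀ g, g ∈ P ↔ ∃ d, dfB h4 d = true ∧ σ d = g := by
      let M : Submonoid G :=
        { carrier := {g | ∃ d, dfB h4 d = true ∧ σ d = g}
          mul_mem' := by
            rintro _ _ ⟨d, h1, rfl⟩ ⟨d', h2, rfl⟩
            exact ⟨_, dfB_mul h4 hc4 d d' h1 h2, h.mul d d'⟩
          one_mem' := ⟨0, hB0, h.one⟩ }
      refine ⟨{ M with inv_mem' := fun {g} hg => ?_ }, trivial, fun g => Iff.rfl⟩
      have hg' : g ∈ M := hg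
      have e : g⁻¹ = g ^ (2 ^ (m + 4 + 1 + 1) - 1) := by
        obtain ⟨d, -, rfl⟩ := hg
        rw [inv_eq_iff_mul_eq_one, ← pow_succ', Nat.sub_add_cancel Nat.one_le_two_pow, hp2]
      rw [e]
      exact M.pow_mem hg' _
    have hle : P ≤ H := by
      intro g hg
      obtain ⟨d, h1, rfl⟩ := (hP g).1 hg
      exact (hmem d).2 h1
    refine NC.mono hle ⟨⊤, fun g => ⟨m + 4 + 1 + 1, ?_⟩, fun hcy => hnc ?_⟩
    · obtain ⟨d, -, e⟩ := (hP _).1 g.1.2
      ext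
      simp only [SubgroupClass.coe_pow, OneMemClass.coe_one]
      rw [← e, hp2]
    · have := hcy.isMulCommutative.is_comm.comm ⟨⟨_, (hP _).2 ⟨_, m4, rfl⟩⟩, trivial⟩
        ⟨⟨_, (hP _).2 ⟨_, m1, rfl⟩⟩, trivial⟩
      exact congrArg (fun g : (⊤ : Subgroup P) => ((g : P) : G)) this
  have hG := ih H (card_lt htop) hNC
  exact ⟨ex_RR (hG.1 fun e => by have := e.1; omega) hη hη1 ex,
    ex_SS (hG.2 hcm (by omega)) hη hη1 ex⟩

end Pool.Agent.SQ2

end MrgPart1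

-- marker of a merged file
example : 731051 + 365630 = 731051 + 365630 := rfl
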