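import Mathlib.Data.Int.ConditionallyCompleteOrder
import Mathlib.Data.Int.Star
import Mathlib.GroupTheory.SpecificGroups.KleinFour
import Mathlib.GroupTheory.Schreier
import Mathlib.GroupTheory.Nilpotent
import Mathlib.GroupTheory.SchurZassenhaus
import Mathlib.RingTheory.SimpleRing.Principal
import Mathlib.RingTheory.Henselian
import Mathlib.RingTheory.RegularLocalRing.Defs
import Pool.Agent.MP_f56020_al.Main

-- ======== part 0: formerly Pool.Agent.MP_f56020_al.s2.Defs
section MrgPart0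

namespace Pool.Agent.SQ2

open Pool.Agent.SQ Multiset

universe u

/-- `Wk x y A`: a walk from `x` to `y` whose steps are the pairs collected in `A`. -/
inductive Wk {G : Type*} : G → G → Multiset (G × G) → Prop
  | nil (x : G) : Wk x x 0
  | cons (x : G) {y z : G} {A : Multiset (G × G)} : Wk y z A → Wk x z ({(x, y)} + A)

/-- A closed walk. -/
def Cl {G : Type*} (A : Multiset (G × G)) : Prop := ∃ x, Wk x x A

/-- The heads of the steps. -/
def hd {G : Type*} (A : Multiset (G × G)) : Multiset G := A.map Prod.snd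

/-- The labels of the steps. -/
def lb {G : Type*} [Group G] (A : Multiset (G × G)) : Multiset G := A.map fun e => e.1⁻¹ * e.2

/-- The steps `i, …, i + k - 1` of a sequence. -/
def sgm {G : Type*} (τ : ℕ → G) (i k : ℕ) : Multiset (G × G) :=
  ∑ j ∈ Finset.range k, {(τ (i + j), τ (i + j + 1))}

section walks
variable {G : Type*} {x y z a b c d : G} {A B : Multiset (G × G)}

@[simp] theorem hd_zero : hd (0 : Multiset (G × G)) = 0 := rfl
@[simp] theorem hd_add (A B : Multiset (G × G)) : hd (A + B) = hd A + hd B := map_add _ _ _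
@[simp] theorem hd_one (a b : G) : hd ({(a, b)} : Multiset (G × G)) = {b} := rfl
@[simp] theorem lb_zero [Group G] : lb (0 : Multiset (G × G)) = 0 := rfl
@[simp] theorem lb_add [Group G] (A B : Multiset (G × G)) : lb (A + B) = lb A + lb B :=
  map_add _ _ _
@[simp] theorem lb_one [Group G] (a b : G) : lb ({(a, b)} : Multiset (G × G)) = {a⁻¹ * b} := rfl

theorem Wk.cast (h : Wk x y A) (e : A = B) : Wk x y B := e ▸ h

theorem Wk.edge (x y : G) : Wk x y {(x, y)} := (Wk.cons x (Wk.nil y)).cast (by simp)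

theorem Wk.trans (h : Wk x y A) (h' : Wk y z B) : Wk x z (A + B) := by
  induction h with
  | nil x => simpa using h'
  | cons x _ ih => exact (Wk.cons x (ih h')).cast (by abel)

/-- Go along `A`, make one step, go along `B`. -/
theorem Wk.step (h : Wk x a A) (h' : Wk b y B) : Wk x y (A + {(a, b)} + B) :=
  (h.trans (Wk.edge a b)).trans h'

theorem Wk.eq_of_zero (h : Wk x y 0) : x = y := by
  generalize e : (0 : Multiset (G × G)) = A at h
  cases h with
  | nil => rfl
  | cons x h => simp at e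

theorem Wk.cut (h : Wk x y A) (hm : (a, b) ∈ A) :
    ∃ A1 A2, Wk x a A1 ∧ Wk b y A2 ∧ A = A1 + {(a, b)} + A2 := by
  induction h with
  | nil x => simp at hm
  | @cons x y z A h ih =>
    rcases mem_add.1 hm with hm | hm
    · obtain ⟨rfl, rfl⟩ := Prod.mk.inj (mem_singleton.1 hm)
      exact ⟨0, A, Wk.nil _, h, by simp⟩
    · obtain ⟨A1, A2, h1, h2, rfl⟩ := ih hm
      exact ⟨_, A2, Wk.cons x h1, h2, by abel⟩

theorem Wk.close (h : Wk b a A) : Cl ({(a, b)} + A) := ⟨a, Wk.cons a h⟩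

theorem Cl.cast (h : Cl A) (e : A = B) : Cl B := e ▸ h

/-- Remove one step from a closed walk. -/
theorem Cl.cut (h : Cl A) (hm : (a, b) ∈ A) : ∃ A', Wk b a A' ∧ A = {(a, b)} + A' := by
  obtain ⟨x, h⟩ := h
  obtain ⟨A1, A2, h1, h2, rfl⟩ := h.cut hm
  exact ⟨_, h2.trans h1, by abel⟩

theorem Cl.cut' (h : Cl ({(a, b)} + A)) : Wk b a A := by
  obtain ⟨A', h1, h2⟩ := h.cut (a := a) (b := b) (by simp)
  rwa [add_left_cancel h2]

/-- Remove two steps from a closed walk. -/
theorem Cl.cut2 (h : Cl A) (h1 : (a, b) ∈ A) (h2 : (c, d) ∈ A) (hne : (a, b) ≠ (c, d)) :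
    ∃ A1 A2, Wk b c A1 ∧ Wk d a A2 ∧ A = {(a, b)} + {(c, d)} + A1 + A2 := by
  obtain ⟨A', k1, rfl⟩ := h.cut h1
  obtain ⟨A1, A2, k2, k3, rfl⟩ := k1.cut
    ((mem_add.1 h2).resolve_left fun e => hne (mem_singleton.1 e).symm)
  exact ⟨A1, A2, k2, k3, by abel⟩

theorem Wk.map {G' : Type*} (f : G → G') (h : Wk x y A) :
    Wk (f x) (f y) (A.map (Prod.map f f)) := by
  induction h with
  | nil x => simpa using Wk.nil _
  | cons x _ ih => exact (Wk.cons (f x) ih).cast (by simp)

theorem sgm_zero (τ : ℕ → G) (i : ℕ) : sgm τ i 0 = 0 := by simp [sgm]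

theorem sgm_succ (τ : ℕ → G) (i k : ℕ) :
    sgm τ i (k + 1) = sgm τ i k + {(τ (i + k), τ (i + k + 1))} := Finset.sum_range_succ _ _

theorem sgm_add (τ : ℕ → G) (i k l : ℕ) : sgm τ i (k + l) = sgm τ i k + sgm τ (i + k) l := by
  rw [sgm, Finset.sum_range_add]
  simp only [sgm, add_assoc]

theorem sgm_cut (τ : ℕ → G) (i k l : ℕ) {n j : ℕ} (hn : n = k + 1 + l) (hj : j = i + k) :
    sgm τ i n = sgm τ i k + {(τ j, τ (j + 1))} + sgm τ (j + 1) l := by
  subst hn hj
  rw [sgm_add, sgm_succ, add_assoc i k 1]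

theorem wk_sgm (τ : ℕ → G) (i k : ℕ) {j : ℕ} (h : i + k = j) : Wk (τ i) (τ j) (sgm τ i k) := by
  subst h
  induction k with
  | zero => exact (Wk.nil _).cast (sgm_zero τ i).symm
  | succ k ih => exact (ih.trans (Wk.edge _ _)).cast (sgm_succ τ i k).symm

theorem mem_sgm (τ : ℕ → G) {m j : ℕ} (h : j < m) : (τ j, τ (j + 1)) ∈ sgm τ 0 m := by
  rw [sgm_cut τ 0 j (m - j - 1) (j := j) (by omega) (by omega)]
  simp

theorem card_sgm (τ : ℕ → G) (i k : ℕ) : card (sgm τ i k) = k := by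
  induction k with
  | zero => simp [sgm_zero]
  | succ k ih => simp [sgm_succ, ih]

theorem sgm_congr {τ σ : ℕ → G} {i i' k : ℕ} (h : ∀ j ≤ k, τ (i + j) = σ (i' + j)) :
    sgm τ i k = sgm σ i' k :=
  Finset.sum_congr rfl fun j hj => by
    have := Finset.mem_range.1 hj
    rw [h j this.le, add_assoc, add_assoc, h (j + 1) this]

theorem cl_sgm {τ : ℕ → G} {m : ℕ} (h : τ m = τ 0) : Cl (sgm τ 0 m) :=
  ⟨τ 0, by simpa [h] using wk_sgm τ 0 m (zero_add m)⟩

/-- Every walk is the walk of a sequence. -/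
theorem Wk.exists_seq (h : Wk x y A) :
    ∃ τ : ℕ → G, τ 0 = x ∧ τ (card A) = y ∧ sgm τ 0 (card A) = A := by
  induction h with
  | nil x => exact ⟨fun _ => x, rfl, rfl, by simp [sgm_zero]⟩
  | @cons x y z A h ih =>
    obtain ⟨τ, h0, h1, h2⟩ := ih
    have hc : card ({(x, y)} + A) = card A + 1 := by simp [add_comm]
    refine ⟨fun j => Nat.casesOn j x τ, rfl, by rw [hc]; exact h1, ?_⟩
    rw [hc, sgm_cut _ 0 0 (card A) (j := 0) (by omega) rfl, sgm_zero, zero_add]
    congr 1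
    · simp [h0]
    · exact (sgm_congr fun j _ => by simp [add_comm 1 j]).trans h2

/-- Three steps of a closed walk, in this cyclic order. -/
def Cut3 (S : Multiset (G × G)) (a b c d e f : G) : Prop :=
  ∃ A1 A2 A3, Wk b c A1 ∧ Wk d e A2 ∧ Wk f a A3 ∧
    S = {(a, b)} + {(c, d)} + {(e, f)} + A1 + A2 + A3

/-- Four steps of a closed walk, in this cyclic order. -/
def Cut4 (S : Multiset (G × G)) (a b c d e f g h : G) : Prop :=
  ∃ A1 A2 A3 A4, Wk b c A1 ∧ Wk d e A2 ∧ Wk f g A3 ∧ Wk h a A4 ∧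
    S = {(a, b)} + {(c, d)} + {(e, f)} + {(g, h)} + A1 + A2 + A3 + A4

theorem cut3_sgm {τ : ℕ → G} {m i j k : ℕ} (h0 : τ m = τ 0) (h1 : i < j) (h2 : j < k)
    (h3 : k < m) :
    Cut3 (sgm τ 0 m) (τ i) (τ (i + 1)) (τ j) (τ (j + 1)) (τ k) (τ (k + 1)) := by
  refine ⟨_, _, _, wk_sgm τ (i + 1) (j - i - 1) (by omega),
    wk_sgm τ (j + 1) (k - j - 1) (by omega),
    (wk_sgm τ (k + 1) (m - k - 1) (j := m) (by omega)).trans
      (h0 ▸ wk_sgm τ 0 i (j := i) (by omega)), ?_⟩
  rw [sgm_cut τ 0 i (m - i - 1) (j := i) (by omega) (by omega),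
    sgm_cut τ (i + 1) (j - i - 1) (m - j - 1) (n := m - i - 1) (j := j) (by omega) (by omega),
    sgm_cut τ (j + 1) (k - j - 1) (m - k - 1) (n := m - j - 1) (j := k) (by omega) (by omega)]
  abel

theorem cut4_sgm {τ : ℕ → G} {m i j k l : ℕ} (h0 : τ m = τ 0) (h1 : i < j) (h2 : j < k)
    (h3 : k < l) (h4 : l < m) :
    Cut4 (sgm τ 0 m) (τ i) (τ (i + 1)) (τ j) (τ (j + 1)) (τ k) (τ (k + 1)) (τ l) (τ (l + 1)) := by
  refine ⟨_, _, _, _, wk_sgm τ (i + 1) (j - i - 1) (by omega),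
    wk_sgm τ (j + 1) (k - j - 1) (by omega), wk_sgm τ (k + 1) (l - k - 1) (by omega),
    (wk_sgm τ (l + 1) (m - l - 1) (j := m) (by omega)).trans
      (h0 ▸ wk_sgm τ 0 i (j := i) (by omega)), ?_⟩
  rw [sgm_cut τ 0 i (m - i - 1) (j := i) (by omega) (by omega),
    sgm_cut τ (i + 1) (j - i - 1) (m - j - 1) (n := m - i - 1) (j := j) (by omega) (by omega),
    sgm_cut τ (j + 1) (k - j - 1) (m - k - 1) (n := m - j - 1) (j := k) (by omega) (by omega),
    sgm_cut τ (k + 1) (l - k - 1) (m - l - 1) (n := m - k - 1) (j := l) (by omega) (by omega)]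
  abel

variable [Group G]

theorem Wk.toPth (h : Wk x y A) : Pth ld x y (hd A) (lb A) := by
  induction h with
  | nil x => exact Pth.nil x
  | cons x _ ih => exact (Pth.cons x ih).cast (by rw [hd_add]; rfl) (by rw [lb_add]; rfl)

theorem Wk.ofPth {V M : Multiset G} (h : Pth ld x y V M) :
    ∃ A, Wk x y A ∧ hd A = V ∧ lb A = M := by
  induction h with
  | nil x => exact ⟨0, Wk.nil x, rfl, rfl⟩
  | cons x _ ih =>
    obtain ⟨A, h1, rfl, rfl⟩ := ih
    exact ⟨_, Wk.cons x h1, by rw [hd_add]; rfl, by rw [lb_add]; rfl⟩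

theorem mem_lb {g : G} (h : g ∈ lb A) : ∃ x, (x, x * g) ∈ A := by
  obtain ⟨⟨a, b⟩, h1, rfl⟩ := mem_map.1 h
  exact ⟨a, by simpa using h1⟩

end walks

section frames
variable {G : Type*} [Group G] [Finite G]

/-- The elements outside a subgroup. -/
noncomputable def ou (H : Subgroup G) : Multiset G := st (· ∉ H)

/-- The elements of a subgroup other than the identity. -/
noncomputable def nz (H : Subgroup G) : Multiset G := st fun g => g ∈ H ∧ g ≠ 1

/-- A walk from `1` to `μ` through all the elements outside `H`, with labels these and `η`. -/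
def Ex (H : Subgroup G) (η μ : G) : Prop :=
  ∃ A, Wk 1 μ A ∧ hd A = ou H + {μ} ∧ lb A = ou H + {η}

/-- Two closed walks with given heads and labels in total. -/
def Two (X Y : Multiset G) (S L : Multiset (G × G)) : Prop :=
  Cl S ∧ Cl L ∧ hd S + hd L = X ∧ lb S + lb L = Y

/-- The set `a⁻¹ M b`. -/
noncomputable def cs (M : Subgroup G) (a b : G) : Multiset G := st fun g => a * g * b⁻¹ ∈ M

/-- All the elements of the cosets `M b` of the heads. -/
noncomputable def cv (M : Subgroup G) (A : Multiset (G × G)) : Multiset G :=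
  A.bind fun e => cs M 1 e.2

/-- All the labels of the steps from `M a` to `M b`. -/
noncomputable def cl (M : Subgroup G) (A : Multiset (G × G)) : Multiset G :=
  A.bind fun e => cs M e.1 e.2

/-- A frame: a closed sequence of `m` representatives of right cosets of `M`; the cosets cover
`X` and the sets of labels cover `Y`. -/
structure Fr (M : Subgroup G) (τ : ℕ → G) (m : ℕ) (X Y : Multiset G) : Prop where
  cy : τ m = τ 0
  vs : cv M (sgm τ 0 m) = X
  ls : cl M (sgm τ 0 m) = Y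

/-- `ψ` induces an isomorphism from `M / K` onto `W`. -/
structure Quo {W : Type*} [Group W] (M K : Subgroup G) (ψ : G → W) : Prop where
  mul : ∀ a ∈ M, ∀ b ∈ M, ψ (a * b) = ψ a * ψ b
  surj : ∀ w, ∃ a ∈ M, ψ a = w
  ker : ∀ g, g ∈ K ↔ g ∈ M ∧ ψ g = 1

end frames

section fibres
variable {W : Type*}

/-- The composite of the first `n` columns. -/
def pr (c : ℕ → W → W) : ℕ → W → W
  | 0, w => w
  | n + 1, w => c n (pr c n w)

/-- `π` moves every element of `p` to every other one. -/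
def Tr (π : W → W) (p : W → Prop) : Prop := ∀ u v, p u → p v → ∃ n, π^[n] u = v

variable [Group W]

/-- An orthomorphism. -/
def Orth (c : W → W) : Prop := Function.Bijective c ∧ Function.Bijective fun w => w⁻¹ * c w

/-- Columns fixing the identity whose composite is one cycle on the other elements. -/
structure FibC (c : ℕ → W → W) (m : ℕ) : Prop where
  orth : ∀ j, Orth (c j)
  one : ∀ j, c j 1 = 1
  tr : Tr (pr c m) (· ≠ 1)

/-- Columns whose composite is one cycle; all but the last are the inversion. -/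
structure OneC (c : ℕ → W → W) (m : ℕ) : Prop where
  orth : ∀ j, Orth (c j)
  inv : ∀ j, j + 1 < m → ∀ w, c j w = w⁻¹
  tr : Tr (pr c m) fun _ => True

/-- The group has columns of the first kind. -/
def Fib (W : Type*) [Group W] (m : ℕ) : Prop := ∃ c : ℕ → W → W, FibC c m

end fibres

section models
variable {G : Type*} [Group G] {D : Type*}

/-- `φ` identifies `G / M` with the type `D` with the multiplication `mul` and the unit `e`. -/
structure Mod (M : Subgroup G) (mul : D → D → D) (e : D) (φ : G → D) : Prop where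
  map_mul : ∀ a b, φ (a * b) = mul (φ a) (φ b)
  surj : Function.Surjective φ
  ker : ∀ g, g ∈ M ↔ φ g = e

/-- A model with a multiplicative section. -/
structure Spl (M : Subgroup G) (mul : D → D → D) (e : D) (φ : G → D) (σ : D → G) : Prop where
  mod : Mod M mul e φ
  mul : ∀ a b, σ (mul a b) = σ a * σ b
  sec : ∀ d, φ (σ d) = d

/-- A closed list `l` with list of labels `lab`, both without repetition. -/
def CyD (mul : D → D → D) (l lab : List D) : Prop :=
  l.Nodup ∧ lab.Nodup ∧ lab.length = l.length ∧ List.zipWith mul l lab = l.rotate 1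

/-- A closed list through the elements outside `B`, with labels the elements outside `B`. -/
def FrD (mul : D → D → D) (B : D → Bool) (l lab : List D) : Prop :=
  CyD mul l lab ∧ ∀ d, (d ∈ l ↔ B d = false) ∧ (d ∈ lab ↔ B d = false)

/-- Data for the trade with three outer steps that keeps the inner label. -/
def D8 (mul : D → D → D) (e : D) (B : D → Bool) (m : ℕ) : Prop :=
  ∃ (l lab : List D) (k : ℕ) (s q r : D), FrD mul B l lab ∧ l.length = m ∧ 4 ≤ m ∧ 2 ≤ k ∧ k < m ∧
    l.getD 0 e = mul s q ∧ l.getD 1 e = s ∧ l.getD 2 e = mul s r ∧ l.getD k e = q ∧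
    l.getD ((k + 1) % m) e = r

/-- Data for the trade with two outer steps: `u → v η` at place `0`, `v → w` at place `j`,
`u w = v η`. -/
def D3 (mul : D → D → D) (e : D) (B : D → Bool) (m : ℕ) (u v η : D) : Prop :=
  ∃ (l lab : List D) (j : ℕ), FrD mul B l lab ∧ l.length = m ∧ 0 < j ∧ j + 1 < m ∧
    l.getD 0 e = u ∧ l.getD 1 e = mul v η ∧ l.getD j e = v ∧
    mul u (l.getD (j + 1) e) = mul v η

/-- The same, the second step being possibly the last one. -/
def D3w (mul : D → D → D) (e : D) (B : D → Bool) (m : ℕ) (u v η : D) : Prop :=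
  ∃ (l lab : List D) (j : ℕ), FrD mul B l lab ∧ l.length = m ∧ 2 < m ∧ 0 < j ∧ j < m ∧
    l.getD 0 e = u ∧ l.getD 1 e = mul v η ∧ l.getD j e = v ∧
    mul u (l.getD ((j + 1) % m) e) = mul v η

/-- Every element is `u ^ i v ^ j`. -/
def Gen2 (mul : D → D → D) (e u v : D) (N : ℕ) : Prop :=
  ∀ d, ∃ i < N, ∃ j < N, d = mul ((mul u)^[i] e) ((mul v)^[j] e)

/-- Data for the trade that opens the inner cycle at a step starting over `x`; `s'`, `r'` are
the inverses of `s`, `r`. -/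
def D4 (mul : D → D → D) (e : D) (B : D → Bool) (m : ℕ) (x : D) : Prop :=
  ∃ (l lab : List D) (k : ℕ) (s s' r r' : D), FrD mul B l lab ∧ l.length = m ∧ 4 ≤ m ∧ 2 ≤ k ∧
    k < m ∧ mul s s' = e ∧ mul r r' = e ∧ l.getD 0 e = mul (mul (mul s r') s') r ∧
    l.getD 1 e = s ∧ l.getD 2 e = mul s r ∧ l.getD k e = mul x r' ∧
    l.getD ((k + 1) % m) e = mul (mul (mul x r') s) r

/-- Data for a sequencing from `e` to an involution `z` that is a square or a commutator. -/
def DS (mul : D → D → D) (e : D) : Prop :=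
  ∃ (l lab : List D) (z a b : D), (e :: l).Nodup ∧ (e :: lab).Nodup ∧ (∀ d, d ∈ e :: l) ∧
    (∀ d, d ∈ e :: lab) ∧ List.zipWith mul (e :: l) lab = l ∧ l.getLast? = some z ∧
    mul z z = e ∧ (mul a a = z ∨ mul z (mul b a) = mul a b)

/-- All the data for a top group over a subgroup `{e, z}` of order two. -/
def DZ [DecidableEq D] (mul : D → D → D) (e z : D) (m : ℕ) : Prop :=
  z ≠ e ∧ mul z z = e ∧ D8 mul e (fun d => d = e ∨ d = z) m ∧
    D4 mul e (fun d => d = e ∨ d = z) m e ∧ D4 mul e (fun d => d = e ∨ d = z) m z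

/-- All the data for a top group over a kernel of odd order. -/
def DO [DecidableEq D] (mul : D → D → D) (e : D) (m : ℕ) : Prop :=
  Odd m ∧ D8 mul e (fun d => d = e) m ∧ DS mul e

section check
variable [Fintype D] [DecidableEq D] {mul : D → D → D} {e : D} {B : D → Bool} {m : ℕ}

/-- The test for `FrD`. -/
def cF (mul : D → D → D) (B : D → Bool) (l lab : List D) : Bool :=
  decide ((l.Nodup ∧ lab.Nodup ∧ lab.length = l.length ∧ List.zipWith mul l lab = l.rotate 1) ∧
    ∀ d, (d ∈ l ↔ B d = false) ∧ (d ∈ lab ↔ B d = false))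

theorem FrD.of {l lab : List D} (h : cF mul B l lab = true) : FrD mul B l lab := by
  unfold cF at h
  unfold FrD CyD
  exact of_decide_eq_true h

theorem D8.of (f : ℕ → D) (l lab : List ℕ) (k s q r : ℕ)
    (h : (cF mul B (l.map f) (lab.map f) && decide ((l.map f).length = m ∧ 4 ≤ m ∧ 2 ≤ k ∧ k < m ∧
      (l.map f).getD 0 e = mul (f s) (f q) ∧ (l.map f).getD 1 e = f s ∧
      (l.map f).getD 2 e = mul (f s) (f r) ∧ (l.map f).getD k e = f q ∧
      (l.map f).getD ((k + 1) % m) e = f r)) = true) : D8 mul e B m :=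
  ⟨_, _, k, f s, f q, f r, FrD.of (Bool.and_eq_true_iff.1 h).1,
    of_decide_eq_true (Bool.and_eq_true_iff.1 h).2⟩

theorem D3.of {u v η : D} (f : ℕ → D) (l lab : List ℕ) (j : ℕ)
    (h : (cF mul B (l.map f) (lab.map f) && decide ((l.map f).length = m ∧ 0 < j ∧ j + 1 < m ∧
      (l.map f).getD 0 e = u ∧ (l.map f).getD 1 e = mul v η ∧ (l.map f).getD j e = v ∧
      mul u ((l.map f).getD (j + 1) e) = mul v η)) = true) : D3 mul e B m u v η :=
  ⟨_, _, j, FrD.of (Bool.and_eq_true_iff.1 h).1, of_decide_eq_true (Bool.and_eq_true_iff.1 h).2⟩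

theorem D3w.of {u v η : D} (f : ℕ → D) (l lab : List ℕ) (j : ℕ)
    (h : (cF mul B (l.map f) (lab.map f) && decide ((l.map f).length = m ∧ 2 < m ∧ 0 < j ∧ j < m ∧
      (l.map f).getD 0 e = u ∧ (l.map f).getD 1 e = mul v η ∧ (l.map f).getD j e = v ∧
      mul u ((l.map f).getD ((j + 1) % m) e) = mul v η)) = true) : D3w mul e B m u v η :=
  ⟨_, _, j, FrD.of (Bool.and_eq_true_iff.1 h).1, of_decide_eq_true (Bool.and_eq_true_iff.1 h).2⟩

theorem D4.of {x : D} (f : ℕ → D) (l lab : List ℕ) (k s s' r r' : ℕ)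
    (h : (cF mul B (l.map f) (lab.map f) && decide ((l.map f).length = m ∧ 4 ≤ m ∧ 2 ≤ k ∧
      k < m ∧ mul (f s) (f s') = e ∧ mul (f r) (f r') = e ∧
      (l.map f).getD 0 e = mul (mul (mul (f s) (f r')) (f s')) (f r) ∧
      (l.map f).getD 1 e = f s ∧ (l.map f).getD 2 e = mul (f s) (f r) ∧
      (l.map f).getD k e = mul x (f r') ∧
      (l.map f).getD ((k + 1) % m) e = mul (mul (mul x (f r')) (f s)) (f r))) = true) :
    D4 mul e B m x :=
  ⟨_, _, k, f s, f s', f r, f r', FrD.of (Bool.and_eq_true_iff.1 h).1,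
    of_decide_eq_true (Bool.and_eq_true_iff.1 h).2⟩

theorem DS.of (f : ℕ → D) (l lab : List ℕ) (z a b : ℕ)
    (h : decide ((e :: l.map f).Nodup ∧ (e :: lab.map f).Nodup ∧ (∀ d, d ∈ e :: l.map f) ∧
      (∀ d, d ∈ e :: lab.map f) ∧ List.zipWith mul (e :: l.map f) (lab.map f) = l.map f ∧
      (l.map f).getLast? = some (f z) ∧ mul (f z) (f z) = e ∧ (mul (f a) (f a) = f z ∨
        mul (f z) (mul (f b) (f a)) = mul (f a) (f b))) = true) : DS mul e :=
  ⟨_, _, f z, f a, f b, of_decide_eq_true h⟩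

/-- Decoding of a number as a pair, the second entry being the last digit in base `k`. -/
def dc (f : ℕ → D) (k : ℕ) (i : ℕ) : D × ZMod k := (f (i / k), ((i % k : ℕ) : ZMod k))

end check

/-- Extension of a model by an element `t` with `t d t⁻¹ = α d` and `t ^ k = c`. -/
def xm (mul : D → D → D) (e : D) (α : D → D) (c : D) (k : ℕ) (a b : D × ZMod k) : D × ZMod k :=
  (mul (mul a.1 (α^[a.2.val] b.1)) (if k ≤ a.2.val + b.2.val then c else e), a.2 + b.2)

/-- `⟨a, t⟩` with `a ^ n = 1`, `t a t⁻¹ = a ^ r`, `t ^ k = a ^ c`; `(i, j)` is `a ^ i t ^ j`. -/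
def mc (n k : ℕ) (r c : ZMod n) : ZMod n × ZMod k → ZMod n × ZMod k → ZMod n × ZMod k :=
  xm (· + ·) 0 (r * ·) c k

/-- `(((c, a), b), k)` is `z ^ c x ^ a y ^ b t ^ k`; `z` is central of order `N`,
`x ^ 2 = y ^ 2 = z ^ s`, `y x = x y z ^ s`, `t x t⁻¹ = y`, `t y t⁻¹ = x y z ^ s`, `t ^ 3 = 1`. -/
def ca4 (N : ℕ) (s : ZMod N) : ((ZMod N × ZMod 2) × ZMod 2) × ZMod 3 →
    ((ZMod N × ZMod 2) × ZMod 2) × ZMod 3 → ((ZMod N × ZMod 2) × ZMod 2) × ZMod 3 :=
  xm (xm (xm (· + ·) 0 id s 2) 0 (fun d => (if d.2 = 0 then d.1 else d.1 + s, d.2)) (s, 0) 2) 0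
    (fun d => ((if d.2 = 0 then d.1.1 else d.1.1 + s, d.2), d.1.2 + d.2)) 0 3

/-- The previous model extended by `w` with `w x w⁻¹ = x⁻¹`, `w y w⁻¹ = x y`, `w t w⁻¹ = t⁻¹`,
`w ^ 2 = z ^ δ`. -/
def cs4 (N : ℕ) (s δ : ZMod N) : (((ZMod N × ZMod 2) × ZMod 2) × ZMod 3) × ZMod 2 →
    (((ZMod N × ZMod 2) × ZMod 2) × ZMod 3) × ZMod 2 →
      (((ZMod N × ZMod 2) × ZMod 2) × ZMod 3) × ZMod 2 :=
  xm (ca4 N s) 0
    (fun d => (((if d.1.1.2 = 1 ∧ d.1.2 = 0 then d.1.1.1 + s else d.1.1.1, d.1.1.2 + d.1.2),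
      d.1.2), -d.2)) (((δ, 0), 0), 0) 2

/-- The generalized dihedral group of order `18`. -/
def d33 : (ZMod 3 × ZMod 3) × ZMod 2 → (ZMod 3 × ZMod 3) × ZMod 2 → (ZMod 3 × ZMod 3) × ZMod 2 :=
  xm (· + ·) 0 (fun d => -d) 0 2

end models

/-- The pairs `(r, c)` of the non-cyclic groups `mc n 2 r c` of order `2 n`, `n = 2 ^ (k + 1)`. -/
def McT (n k : ℕ) (r c : ZMod n) : Prop :=
  (r = 1 ∧ c = 0) ∨ (2 ≤ k ∧ r = 1 + 2 ^ k ∧ c = 0) ∨ (1 ≤ k ∧ r = -1 ∧ (c = 0 ∨ c = 2 ^ k)) ∨
    (2 ≤ k ∧ r = -1 + 2 ^ k ∧ c = 0)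

section classes
variable (G : Type*) [Group G]

/-- Some `2`-subgroup is not cyclic. -/
def NC : Prop := ∃ P : Subgroup G, IsPGroup 2 P ∧ ¬ IsCyclic P

/-- Even order and cyclic `2`-subgroups. -/
def Cy : Prop := Even (Nat.card G) ∧ ¬ NC G

/-- There is a normal subgroup of odd order whose index is a power of two. -/
def NN : Prop := ∃ O : Subgroup G, O.Normal ∧ Odd (Nat.card O) ∧ ∃ k, O.index = 2 ^ k

/-- Order eight and only one involution. -/
def Q8x : Prop := Nat.card G = 8 ∧ ∃ z : G, ∀ g : G, g * g = 1 → g = 1 ∨ g = z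

variable [Finite G]

/-- A sequencing from the identity to `z`. -/
def SC (z : G) : Prop := ∃ V, Pth ld 1 z V (st (· ≠ 1)) ∧ {1} + V = al G

/-- The statement proved by induction. -/
def Good : Prop := NC G → (¬ Q8x G → RG G) ∧ (¬ Cm G → Nat.card G ≠ 8 → SG G)

end classes

/-- The induction hypothesis. -/
def IH (G : Type u) [Group G] : Prop :=
  ∀ (H : Type u) [Group H] [Finite H] [Group.IsSolvable H], Nat.card H < Nat.card G → Good H

end Pool.Agent.SQ2

end MrgPart0

-- ======== part 1: formerly Pool.Agent.MP_f56020_al.s2.Gt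
section MrgPart1

namespace Pool.Agent.SQ2

open Pool.Agent.SQ Multiset

universe u

variable {G : Type*} [Group G] [Finite G] {M H L K : Subgroup G}

theorem gt_not_two {n : ℕ} (h : Odd n) : ¬ 2 ∣ n := fun h2 =>
  (Nat.not_even_iff_odd.2 h) (even_iff_two_dvd.2 h2)

theorem gt_odd {n : ℕ} (h : ¬ 2 ∣ n) : Odd n :=
  Nat.not_even_iff_odd.1 fun h2 => h (even_iff_two_dvd.1 h2)

/-- A `2`-subgroup of odd index is not cyclic when some `2`-subgroup is not cyclic. -/
theorem gt_sylow {P : Subgroup G} (hP : IsPGroup 2 P) (hi : ¬ 2 ∣ P.index) (h : NC G) :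
    ¬ IsCyclic P := by
  intro hc
  obtain ⟨Q, hQ, hn⟩ := h
  obtain ⟨R, hR⟩ := hQ.exists_le_sylow
  have e : R ≃* P := Sylow.equiv R (hP.toSylow hi)
  have : IsCyclic R := e.isCyclic.2 hc
  exact hn (Subgroup.isCyclic_of_le hR)

omit [Finite G] in
theorem gt_inj {A : Type*} [Group A] (f : A →* G) (hf : Function.Injective f) (h : NC A) :
    NC G := by
  obtain ⟨P, hP, hn⟩ := h
  exact ⟨P.map f, hP.map f, fun hc => hn ((P.equivMapOfInjective f hf).isCyclic.2 hc)⟩

theorem NC.of_inj {A : Type*} [Group A] (f : A →* G) (hf : Function.Injective f) (h : NC A) :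
    NC G := gt_inj f hf h

theorem NC.mono (h : M ≤ H) (hM : NC M) : NC H :=
  NC.of_inj (Subgroup.inclusion h) (Subgroup.inclusion_injective h) hM

theorem NC.top (hM : NC M) : NC G := NC.of_inj M.subtype M.subtype_injective hM

theorem NC.four_dvd (h : NC G) : 4 ∣ Nat.card G := by
  obtain ⟨P, hP, hn⟩ := h
  obtain ⟨n, hn'⟩ := hP.exists_card_eq
  refine dvd_trans ?_ P.card_subgroup_dvd_card
  rw [hn']
  match n, hn' with
  | 0, hn' =>
    have : Subsingleton P := (Nat.card_eq_one_iff_unique.1 (by simpa using hn')).1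
    exact absurd isCyclic_of_subsingleton hn
  | 1, hn' => exact absurd (isCyclic_of_prime_card (p := 2) (by simpa using hn')) hn
  | n + 2, _ => exact ⟨2 ^ n, by ring⟩

theorem NC.ne_bot (h : NC M) : M ≠ ⊥ := by
  rintro rfl
  have := h.four_dvd
  rw [Subgroup.card_bot] at this
  omega

/-- A subgroup of odd index contains a `2`-subgroup of odd index. -/
theorem gt_exists (ho : Odd M.index) :
    ∃ Q : Subgroup M, IsPGroup 2 Q ∧ ¬ 2 ∣ (Q.map M.subtype).index := by
  obtain ⟨Q⟩ : Nonempty (Sylow 2 M) := inferInstance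
  refine ⟨Q, Q.2, ?_⟩
  rw [Subgroup.index_map_subtype]
  exact gt_not_two ((gt_odd Q.not_dvd_index).mul ho)

theorem nc_of_odd_index (h : NC G) (ho : Odd M.index) : NC M := by
  obtain ⟨Q, hQ, hi⟩ := gt_exists ho
  exact ⟨Q, hQ, fun hc => gt_sylow (hQ.map _) hi h
    ((Q.equivMapOfInjective _ M.subtype_injective).isCyclic.1 hc)⟩

theorem nc_of_odd_relIndex (h : NC L) (hM : M ≤ L) (ho : Odd (M.relIndex L)) : NC M :=
  NC.of_inj (Subgroup.subgroupOfEquivOfLe hM).toMonoidHom
    (Subgroup.subgroupOfEquivOfLe hM).injective (nc_of_odd_index h ho)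

omit [Finite G] in
theorem gt_pair {a b : G} (h1 : a * a = 1) (h2 : b * b = 1)
    (h3 : a * b = b * a) (h4 : a ≠ 1) (h5 : b ≠ 1) (h6 : a ≠ b) : NC G := by
  have c : Commute a b := h3
  let P : Subgroup G := Subgroup.closure {a, b}
  have hcomm : ∀ x ∈ P, ∀ y ∈ P, Commute x y := by
    intro x hx y hy
    induction hx, hy using Subgroup.closure_induction₂ with
    | mem x y hx hy =>
      rcases hx with rfl | rfl <;> rcases hy with rfl | rfl
      exacts [Commute.refl _, c, c.symm, Commute.refl _]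
    | one_left => exact Commute.one_left _
    | one_right => exact Commute.one_right _
    | mul_left _ _ _ _ _ _ k1 k2 => exact k1.mul_left k2
    | mul_right _ _ _ _ _ _ k1 k2 => exact k1.mul_right k2
    | inv_left _ _ _ _ k => exact k.inv_left
    | inv_right _ _ _ _ k => exact k.inv_right
  have hsq : ∀ x ∈ P, x ^ 2 = 1 := by
    intro x hx
    induction hx using Subgroup.closure_induction with
    | mem x hx =>
      rcases hx with rfl | rfl
      exacts [by rw [sq, h1], by rw [sq, h2]]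
    | one => exact one_pow 2
    | mul x y hx hy k1 k2 => rw [(hcomm x hx y hy).mul_pow, k1, k2, one_mul]
    | inv x _ k => rw [inv_pow, k, inv_one]
  refine ⟨P, fun g => ⟨1, Subtype.ext (by simpa using hsq g g.2)⟩, fun ⟨g, hg⟩ => ?_⟩
  have key : ∀ x : P, x = 1 ∨ x = g := by
    intro x
    obtain ⟨n, rfl⟩ := hg x
    have g2 : g ^ (2 : ℤ) = 1 := Subtype.ext (by simpa [zpow_ofNat] using hsq g g.2)
    rcases Int.even_or_odd' n with ⟨k, rfl | rfl⟩
    · left
      simp only [zpow_mul, g2, one_zpow]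
    · right
      simp only [zpow_add, zpow_mul, g2, one_zpow, one_mul, zpow_one]
  have ka := key ⟨a, Subgroup.subset_closure (by simp)⟩
  have kb := key ⟨b, Subgroup.subset_closure (by simp)⟩
  rcases ka with ka | ka
  · exact h4 (congrArg Subtype.val ka)
  rcases kb with kb | kb
  · exact h5 (congrArg Subtype.val kb)
  exact h6 (congrArg Subtype.val (ka.trans kb.symm))

theorem nc_of_pair {a b : G} (ha : a ∈ M) (hb : b ∈ M) (h1 : a * a = 1) (h2 : b * b = 1)
    (h3 : a * b = b * a) (h4 : a ≠ 1) (h5 : b ≠ 1) (h6 : a ≠ b) : NC M :=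
  gt_pair (a := (⟨a, ha⟩ : M)) (b := ⟨b, hb⟩) (Subtype.ext h1) (Subtype.ext h2) (Subtype.ext h3)
    (fun e => h4 (congrArg Subtype.val e)) (fun e => h5 (congrArg Subtype.val e))
    (fun e => h6 (congrArg Subtype.val e))

theorem tri (G : Type*) [Group G] [Finite G] : Odd (Nat.card G) ∨ Cy G ∨ NC G := by
  by_cases h : NC G
  · exact Or.inr (Or.inr h)
  · rcases Nat.even_or_odd (Nat.card G) with h' | h'
    · exact Or.inr (Or.inl ⟨h', h⟩)
    · exact Or.inl h'

theorem nn_of_odd (h : Odd (Nat.card G)) : NN G :=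
  ⟨⊤, inferInstance, by rwa [Subgroup.card_top], 0, by simp⟩

/-- Burnside's theorem. -/
theorem gt_burnside (P : Sylow 2 G)
    (hP : Subgroup.normalizer (P : Set G) ≤ Subgroup.centralizer (P : Set G)) : NN G := by
  obtain ⟨k, hk⟩ := P.2.exists_card_eq
  exact ⟨(MonoidHom.transferSylow P hP).ker, inferInstance,
    gt_odd (MonoidHom.not_dvd_card_ker_transferSylow P hP), k,
    (MonoidHom.ker_transferSylow_isComplement' P hP).symm.index_eq_card.trans hk⟩

theorem nn_of_cy (h : Cy G) : NN G := by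
  obtain ⟨P⟩ : Nonempty (Sylow 2 G) := inferInstance
  have hc : IsCyclic P := by
    by_contra hn
    exact h.2 ⟨P, P.2, hn⟩
  exact gt_burnside P (hc.normalizer_le_centralizer ((Nat.minFac_eq_two_iff _).2 h.1.two_dvd))

theorem nn_of_two {k : ℕ} (h : Nat.card G = 2 ^ k) : NN G :=
  ⟨⊥, inferInstance, by simp, k, by rwa [Subgroup.index_bot]⟩

theorem nn_central (ho : Odd M.index) (hc : ∀ m ∈ M, ∀ g, m * g = g * m) : NN G := by
  obtain ⟨Q, hQ, hi⟩ := gt_exists ho
  refine gt_burnside ((hQ.map M.subtype).toSylow hi) fun g _ m hm => ?_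
  obtain ⟨q, -, rfl⟩ : m ∈ Q.map M.subtype := hm
  exact hc q q.2 g

theorem nn_of_cm (h : Cm G) : NN G :=
  nn_central (M := ⊤) (by simp) fun m _ g => h m g

/-- The elements of odd order. -/
theorem NN.char (h : NN G) : ∃ O : Subgroup G, O.Characteristic ∧ Odd (Nat.card O) ∧
    (∃ k, O.index = 2 ^ k) ∧ ∀ g, g ∈ O ↔ Odd (orderOf g) := by
  obtain ⟨O, hN, ho, k, hk⟩ := h
  have key : ∀ g, g ∈ O ↔ Odd (orderOf g) := by
    intro g
    refine ⟨fun hg => ho.of_dvd_nat (O.orderOf_dvd_natCard hg), fun hg => ?_⟩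
    rw [← QuotientGroup.eq_one_iff, ← orderOf_eq_one_iff]
    have h1 : orderOf (g : G ⧸ O) ∣ orderOf g := orderOf_map_dvd (QuotientGroup.mk' O) g
    have h2 : orderOf (g : G ⧸ O) ∣ 2 ^ k := hk ▸ orderOf_dvd_natCard _
    exact Nat.eq_one_of_dvd_coprimes ((Nat.coprime_two_right.2 hg).pow_right k) h1 h2
  refine ⟨O, Subgroup.characteristic_iff_le_comap.2 fun ϕ g hg => ?_, ho, ⟨k, hk⟩, key⟩
  rw [Subgroup.mem_comap, key]
  rw [key] at hg
  simpa using hg

theorem nn_up [L.Normal] {k : ℕ} (hL : L.index = 2 ^ k) (h : NN L) : NN G := by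
  obtain ⟨O, hO, ho, ⟨j, hj⟩, -⟩ := h.char
  refine ⟨O.map L.subtype, inferInstance, by rwa [Subgroup.card_subtype], j + k, ?_⟩
  rw [Subgroup.index_map_subtype, hj, hL, pow_add]

theorem nc_of_not_nn (h : ¬ NN G) : NC G := by
  rcases tri G with h1 | h1 | h1
  exacts [absurd (nn_of_odd h1) h, absurd (nn_of_cy h1) h, h1]

omit [Finite G] in
theorem gt_rel {k o : ℕ} (hL : L.index = 2 ^ k) (hM : M ≤ L) (hi : M.index = 2 ^ k * o) :
    M.relIndex L = o := by
  have := Subgroup.relIndex_mul_index hM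
  rw [hL, hi, mul_comm] at this
  exact Nat.eq_of_mul_eq_mul_left (by positivity) this

theorem g3 (h : ¬ NN G) [L.Normal] {k o : ℕ} (hL : L.index = 2 ^ k) (hM : M ≤ L)
    (hi : M.index = 2 ^ k * o) (ho : Odd o) : NC M :=
  nc_of_odd_relIndex (nc_of_not_nn fun h' => h (nn_up hL h')) hM (gt_rel hL hM hi ▸ ho)

theorem nn_central' [L.Normal] {k o : ℕ} (hL : L.index = 2 ^ k) (hM : M ≤ L)
    (hi : M.index = 2 ^ k * o) (ho : Odd o) (hc : ∀ m ∈ M, ∀ g ∈ L, m * g = g * m) : NN G :=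
  nn_up hL (nn_central (M := M.subgroupOf L) (gt_rel hL hM hi ▸ ho :  Odd (M.relIndex L))
    fun m hm g => Subtype.ext (hc m hm g g.2))

/-- Counting the fixed points of an automorphism whose order divides a prime. -/
theorem gt_fix {A : Type*} [Group A] [Finite A] (φ : MulAut A) {p : ℕ} (hp : p.Prime)
    (h : φ ^ p = 1) :
    Nat.card A ≡ Nat.card (φ.toMonoidHom.eqLocus (MonoidHom.id A)) [MOD p] := by
  have := Fact.mk hp
  have hG : IsPGroup p (Subgroup.zpowers φ) := by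
    rintro ⟨g, n, rfl⟩
    refine ⟨1, Subtype.ext ?_⟩
    simp only [pow_one, SubmonoidClass.coe_pow, OneMemClass.coe_one]
    rw [← zpow_natCast, ← zpow_mul, mul_comm, zpow_mul, zpow_natCast, h, one_zpow]
  refine (hG.card_modEq_card_fixedPoints A).trans (congrArg (· % p) ?_)
  refine Nat.card_congr (Equiv.subtypeEquivRight fun a => ?_)
  rw [MulAction.mem_fixedPoints]
  constructor
  · intro h1
    exact h1 ⟨φ, Subgroup.mem_zpowers φ⟩
  · rintro h1 ⟨g, hg⟩
    have h2 : φ ∈ MulAction.stabilizer (MulAut A) a := h1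
    exact (Subgroup.zpowers_le.2 h2) hg

/-- If all the elements are fixed, the element centralises the normal subgroup. -/
theorem gt_cent [K.Normal] {g : G}
    (h : Nat.card ((MulAut.conjNormal g : MulAut K).toMonoidHom.eqLocus (MonoidHom.id K)) =
      Nat.card K) : ∀ k ∈ K, k * g = g * k := by
  intro k hk
  have h1 := Subgroup.eq_top_of_card_eq _ h
  have h2 : (⟨k, hk⟩ : K) ∈
      (MulAut.conjNormal g : MulAut K).toMonoidHom.eqLocus (MonoidHom.id K) := by
    rw [h1]; trivial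
  have h3 : g * k * g⁻¹ = k := congrArg Subtype.val h2
  rw [← mul_inv_eq_iff_eq_mul.1 h3]

theorem nn_q8 [K.Normal] {p : ℕ} (hp : p.Prime) (h5 : 5 ≤ p) (hK : K.index = p) (h : Q8x K) :
    NN G := by
  have := Fact.mk hp
  obtain ⟨h8, z, hz⟩ := h
  have hG : Nat.card G = 8 * p := by rw [← K.card_mul_index, h8, hK]
  obtain ⟨g, hg⟩ := exists_prime_orderOf_dvd_card' (G := G) p (hG ▸ dvd_mul_left p 8)
  have h1 := gt_fix (MulAut.conjNormal g : MulAut K) hp
    (by rw [← map_pow, ← hg, pow_orderOf_eq_one, map_one])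
  set F := (MulAut.conjNormal g : MulAut K).toMonoidHom.eqLocus (MonoidHom.id K) with hF
  obtain ⟨t, ht⟩ := exists_prime_orderOf_dvd_card' (G := K) 2 (h8 ▸ by norm_num)
  have ht1 : t ≠ 1 := by
    rintro rfl
    simp at ht
  have ht2 : t * t = 1 := by rw [← sq, ← ht, pow_orderOf_eq_one]
  have htF : t ∈ F := by
    have k1 := (hz t ht2).resolve_left ht1
    have k2 := (hz (MulAut.conjNormal g t) (by rw [← map_mul, ht2, map_one])).resolve_left
      (by simpa using ht1)
    exact k2.trans k1.symm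
  have h2 : 2 ∣ Nat.card F := ht ▸ F.orderOf_dvd_natCard htF
  have h3 : Nat.card F ∣ 8 := h8 ▸ F.card_subgroup_dvd_card
  have h4 : Nat.card F = 8 := by
    rw [h8] at h1
    have h6 : Nat.card F ≤ 8 := Nat.le_of_dvd (by norm_num) h3
    have h7 : p ∣ 8 - Nat.card F := (Nat.modEq_iff_dvd' h6).1 h1.symm
    generalize Nat.card F = n at *
    by_contra h9
    have h10 : p ≤ 8 - n := Nat.le_of_dvd (by omega) h7
    have h11 : n = 2 := by
      interval_cases n <;> omega
    subst h11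
    have h12 : p ≤ 6 := h10
    interval_cases p
    · omega
    · norm_num at hp
  have hc := gt_cent (K := K) (g := g) (h4.trans h8.symm)
  have hC : Subgroup.centralizer {g} = ⊤ := by
    have k1 : K ≤ Subgroup.centralizer {g} := fun k hk => by
      rw [Subgroup.mem_centralizer_singleton_iff]
      exact hc k hk
    have k2 : p ∣ Nat.card (Subgroup.centralizer {g}) := by
      rw [← hg]
      exact Subgroup.orderOf_dvd_natCard _ (Subgroup.mem_centralizer_singleton_iff.2 rfl)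
    rcases (Nat.dvd_prime hp).1 (hK ▸ Subgroup.index_dvd_of_le k1) with k3 | k3
    · exact Subgroup.index_eq_one.1 k3
    · have k4 := (Subgroup.centralizer {g}).card_mul_index
      rw [k3, hG] at k4
      rw [Nat.eq_of_mul_eq_mul_right hp.pos k4] at k2
      have k5 := (Nat.prime_dvd_prime_iff_eq hp Nat.prime_two).1
        (hp.dvd_of_dvd_pow (show p ∣ 2 ^ 3 from k2))
      omega
  have hZ : ∀ x, Commute x g := fun x =>
    Subgroup.mem_centralizer_singleton_iff.1 (hC ▸ Subgroup.mem_top x)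
  have hO : Nat.card (Subgroup.zpowers g) = p := by rw [Nat.card_zpowers, hg]
  refine ⟨Subgroup.zpowers g, ⟨?_⟩, hO ▸ hp.odd_of_ne_two (by omega), 3, ?_⟩
  · rintro _ ⟨n, rfl⟩ x
    refine ⟨n, ?_⟩
    simp only
    rw [((hZ x).zpow_right n).eq, mul_inv_cancel_right]
  · have k4 := (Subgroup.zpowers g).card_mul_index
    rw [hO, hG, mul_comm] at k4
    exact Nat.eq_of_mul_eq_mul_right hp.pos k4

theorem central_four [K.Normal] (h4 : Nat.card K = 4) {p : ℕ} (hp : p.Prime) (h5 : 5 ≤ p) {g : G}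
    (hg : g ^ p ∈ K) : ∀ k ∈ K, k * g = g * k := by
  have hc : IsMulCommutative K :=
    IsPGroup.isMulCommutative_of_card_eq_prime_sq (p := 2) (by rw [h4]; norm_num)
  have h1 := gt_fix (MulAut.conjNormal g : MulAut K) hp (by
    rw [← map_pow]
    ext k
    have : g ^ p * k = k * g ^ p := congrArg Subtype.val (hc.is_comm.comm ⟨g ^ p, hg⟩ k)
    rw [MulAut.conjNormal_apply, this, mul_inv_cancel_right]
    rfl)
  refine gt_cent (Nat.ModEq.eq_of_lt_of_lt h1.symm ?_ (by omega))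
  exact lt_of_le_of_lt (Subgroup.card_le_card_group _) (by omega)

theorem card_lt (h : H ≠ ⊤) : Nat.card H < Nat.card G :=
  lt_of_le_of_ne (Subgroup.card_le_card_group _) fun h2 => h (Subgroup.eq_top_of_card_eq _ h2)

theorem not_q8_of_lt (h : M < H) (hM : NC M) : ¬ Q8x H := by
  rintro ⟨h8, z, hz⟩
  have h1 : Nat.card M < 8 := by
    rw [← h8, ← Nat.card_congr (Subgroup.subgroupOfEquivOfLe h.le).toEquiv]
    exact card_lt fun e => h.not_ge (Subgroup.subgroupOf_eq_top.1 e)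
  have h4 : Nat.card M = 4 := by
    have := hM.four_dvd
    have : 0 < Nat.card M := Nat.card_pos
    omega
  have hn : ¬ IsCyclic M := fun hc => by
    obtain ⟨P, -, hP⟩ := hM
    exact hP inferInstance
  have key : ∀ m : M, Subgroup.inclusion h.le m = 1 ∨ Subgroup.inclusion h.le m = z := by
    intro m
    refine hz _ ?_
    rw [← map_mul, ← sq]
    have k1 : orderOf m ∣ 2 ^ 2 := by
      have := orderOf_dvd_natCard m
      rwa [h4] at this
    obtain ⟨j, hj, k2⟩ := (Nat.dvd_prime_pow Nat.prime_two).1 k1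
    have k3 : j ≠ 2 := by
      rintro rfl
      exact hn (isCyclic_of_orderOf_eq_card m (by rw [k2, h4]; norm_num))
    have k4 : orderOf m ∣ 2 := by
      rw [k2]
      have : j ≤ 1 := by omega
      simpa using Nat.pow_dvd_pow 2 this
    rw [orderOf_dvd_iff_pow_eq_one.1 k4, map_one]
  have := Fintype.ofFinite M
  obtain ⟨a, b, c, k1, k2, k3⟩ := Fintype.two_lt_card_iff.1
    (show 2 < Fintype.card M by rw [← Nat.card_eq_fintype_card]; omega)
  have hi := Subgroup.inclusion_injective h.le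
  rcases key a with ka | ka <;> rcases key b with kb | kb <;> rcases key c with kc | kc <;>
    first
    | exact k1 (hi (ka.trans kb.symm))
    | exact k2 (hi (ka.trans kc.symm))
    | exact k3 (hi (kb.trans kc.symm))

/-- A complement of the normal subgroup of odd order. -/
theorem gt_split {O : Subgroup G} [O.Normal] (ho : Odd (Nat.card O)) {k : ℕ}
    (hk : O.index = 2 ^ k) :
    ∃ P : Subgroup G, IsPGroup 2 P ∧ O.IsComplement' P ∧ (NC G → ¬ IsCyclic P) := by
  obtain ⟨P, hP⟩ := Subgroup.exists_right_complement'_of_coprime (N := O)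
    (hk ▸ (Nat.coprime_two_right.2 ho).pow_right k)
  have h1 : IsPGroup 2 P := IsPGroup.of_card (hP.symm.index_eq_card.symm.trans hk)
  exact ⟨P, h1, hP, gt_sylow h1 (hP.index_eq_card ▸ gt_not_two ho)⟩

theorem cy_normal [M.Normal] (h : Cy M) :
    ∃ O : Subgroup G, O.Normal ∧ O ≤ M ∧ Odd (Nat.card O) ∧ ∃ z ∈ M, ∃ k : ℕ, z ^ 2 ^ k ∈ O ∧
      ∀ m ∈ M, ∃ i : ℕ, m * (z ^ i)⁻¹ ∈ O := by
  obtain ⟨O, hO, ho, ⟨j, hj⟩, -⟩ := (nn_of_cy h).char
  obtain ⟨P, hP, hc, -⟩ := gt_split ho hj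
  have hcy : IsCyclic P := by
    by_contra hn
    exact h.2 ⟨P, hP, hn⟩
  obtain ⟨z, hz⟩ := IsCyclic.exists_monoid_generator (α := P)
  obtain ⟨k, hk⟩ := hP z
  refine ⟨O.map M.subtype, inferInstance, Subgroup.map_subtype_le O,
    by rwa [Subgroup.card_subtype], ((z : M) : G), (z : M).2, k, ?_, fun m hm => ?_⟩
  · have : ((z : M) : G) ^ 2 ^ k = 1 := by
      have := congrArg (fun x : P => ((x : M) : G)) hk
      simpa using this
    rw [this]
    exact one_mem _
  · obtain ⟨⟨o, q⟩, e⟩ := hc.2 ⟨m, hm⟩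
    obtain ⟨i, hi⟩ := hz ⟨q, q.2⟩
    refine ⟨i, o, o.2, ?_⟩
    have e1 : ((o : M) : G) * ((q : M) : G) = m := congrArg Subtype.val e
    have e2 : ((z : M) : G) ^ i = ((q : M) : G) := by
      have := congrArg (fun x : P => ((x : M) : G)) hi
      simpa using this
    rw [e2, ← e1, mul_inv_cancel_right]
    rfl

theorem nc_lift [M.Normal] (r c : G) (hg : ∀ g, ∃ i j : ℕ, g * (r ^ i * c ^ j)⁻¹ ∈ M)
    (h : ¬ Cm G) : ∃ k ∈ M, ∃ l ∈ M, k * r * (l * c) ≠ l * c * (k * r) := by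
  by_contra hn
  push Not at hn
  have h1 : Commute r c := by
    have := hn 1 M.one_mem 1 M.one_mem
    rwa [one_mul, one_mul] at this
  have h2 : ∀ k ∈ M, Commute k c := fun k hk => by
    have := hn k hk 1 M.one_mem
    rw [one_mul, mul_assoc, h1.eq, ← mul_assoc, ← mul_assoc] at this
    exact mul_right_cancel this
  have h3 : ∀ l ∈ M, Commute l r := fun l hl => by
    have := hn 1 M.one_mem l hl
    rw [one_mul, mul_assoc, ← h1.eq, ← mul_assoc, ← mul_assoc] at this
    exact (mul_right_cancel this).symm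
  have h4 : ∀ k ∈ M, ∀ l ∈ M, Commute k l := fun k hk l hl => by
    have := hn k hk l hl
    rw [mul_assoc, mul_assoc, ← mul_assoc r, ← (h3 l hl).eq, ← mul_assoc c, ← (h2 k hk).eq,
      mul_assoc k c r, ← h1.eq, mul_assoc, ← mul_assoc, ← mul_assoc l k] at this
    exact mul_right_cancel this
  refine h fun a b => ?_
  obtain ⟨i, j, ha⟩ := hg a
  obtain ⟨i', j', hb⟩ := hg b
  rw [← inv_mul_cancel_right a (r ^ i * c ^ j), ← inv_mul_cancel_right b (r ^ i' * c ^ j')]
  refine Commute.mul_left (Commute.mul_right (h4 _ ha _ hb) ?_) (Commute.mul_right ?_ ?_)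
  · exact ((h3 _ ha).pow_right _).mul_right ((h2 _ ha).pow_right _)
  · exact (((h3 _ hb).pow_right _).mul_right ((h2 _ hb).pow_right _)).symm
  · exact (((Commute.refl r).pow_pow _ _).mul_right (h1.pow_pow _ _)).mul_left
      ((h1.symm.pow_pow _ _).mul_right ((Commute.refl c).pow_pow _ _))

/-- A complement of the normal subgroup of odd order. -/
theorem NN.split (h : NN G) : ∃ O P : Subgroup G, O.Normal ∧ Odd (Nat.card O) ∧
    IsPGroup 2 P ∧ O.IsComplement' P ∧ (NC G → ¬ IsCyclic P) := by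
  obtain ⟨O, hN, ho, k, hk⟩ := h
  obtain ⟨P, hP⟩ := gt_split ho hk
  exact ⟨O, P, hN, ho, hP⟩

/-- A finite abelian group is cyclic or maps onto the square of a group of prime order. -/
theorem gt_ab (A : Type*) [CommGroup A] [Finite A] : IsCyclic A ∨ ∃ p : ℕ, p.Prime ∧
    ∃ φ : A →* Multiplicative (ZMod p × ZMod p), Function.Surjective φ := by
  classical
  obtain ⟨ι, _, n, hn, ⟨e⟩⟩ := CommGroup.equiv_prod_multiplicative_zmod_of_finite A
  by_cases hco : _root_.Pairwise (Function.onFun Nat.Coprime n)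
  · left
    have e1 : Multiplicative (ZMod (∏ i, n i)) ≃* ((i : ι) → Multiplicative (ZMod (n i))) :=
      (AddEquiv.toMultiplicative (ZMod.prodEquivPi n hco).toAddEquiv).trans
        (MulEquiv.piMultiplicative _)
    exact (e.trans e1.symm).isCyclic.2 inferInstance
  · right
    simp only [_root_.Pairwise, Function.onFun, not_forall] at hco
    obtain ⟨i, j, hij, hc⟩ := hco
    obtain ⟨p, hp, hi, hj⟩ := Nat.Prime.not_coprime_iff_dvd.1 hc
    let c : ∀ (i : ι), p ∣ n i → (A →* Multiplicative (ZMod p)) := fun i hi =>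
      (AddMonoidHom.toMultiplicative (ZMod.castHom hi (ZMod p)).toAddMonoidHom).comp
        ((Pi.evalMonoidHom _ i).comp e.toMonoidHom)
    have hc : ∀ i hi a, c i hi a =
        Multiplicative.ofAdd (ZMod.castHom hi (ZMod p) (e a i).toAdd) := fun _ _ _ => rfl
    refine ⟨p, hp, (MulEquiv.prodMultiplicative (ZMod p) (ZMod p)).symm.toMonoidHom.comp
      ((c i hi).prod (c j hj)),
      (MulEquiv.prodMultiplicative (ZMod p) (ZMod p)).symm.surjective.comp
        (f := (c i hi).prod (c j hj)) fun x => ?_⟩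
    obtain ⟨y, hy⟩ := ZMod.castHom_surjective hi x.1.toAdd
    obtain ⟨y', hy'⟩ := ZMod.castHom_surjective hj x.2.toAdd
    refine ⟨e.symm (Pi.mulSingle i (Multiplicative.ofAdd y) *
      Pi.mulSingle j (Multiplicative.ofAdd y')), Prod.ext ?_ ?_⟩
    · simp [hc, hy, Pi.mulSingle_eq_of_ne hij]
    · simp [hc, hy', Pi.mulSingle_eq_of_ne (Ne.symm hij)]

theorem gt_cyc {A : Type*} [Group A] (h : IsCyclic A) {d : ℕ} (hd : d ∣ Nat.card A) :
    ∃ φ : A →* Multiplicative (ZMod d), Function.Surjective φ := by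
  refine ⟨(AddMonoidHom.toMultiplicative (ZMod.castHom hd (ZMod d)).toAddMonoidHom).comp
    (zmodCyclicMulEquiv h).symm.toMonoidHom, ?_⟩
  refine Function.Surjective.comp (g := fun x => Multiplicative.ofAdd (ZMod.castHom hd (ZMod d)
    (Multiplicative.toAdd x))) ?_ (zmodCyclicMulEquiv h).symm.surjective
  exact Multiplicative.ofAdd.surjective.comp
    ((ZMod.castHom_surjective hd).comp Multiplicative.toAdd.surjective)

theorem gt_twelve {n : ℕ} (h8 : ¬ 8 ∣ n) (h9 : ¬ 9 ∣ n)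
    (h5 : ∀ p : ℕ, p.Prime → 5 ≤ p → ¬ p ∣ n) : n ∣ 12 := by
  refine (Nat.dvd_iff_prime_pow_dvd_dvd _ _).2 fun p k hp hk => ?_
  rcases Nat.eq_zero_or_pos k with rfl | h0
  · simp
  have h1 : p < 5 := by
    by_contra h
    exact h5 p hp (by omega) ((dvd_pow_self p h0.ne').trans hk)
  have h2 := hp.two_le
  interval_cases p
  · have : k ≤ 2 := by
      by_contra h
      exact h8 ((Nat.pow_dvd_pow 2 (show 3 ≤ k by omega)).trans hk)
    exact (Nat.pow_dvd_pow 2 this).trans (by norm_num)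
  · have : k ≤ 1 := by
      by_contra h
      exact h9 ((Nat.pow_dvd_pow 3 (show 2 ≤ k by omega)).trans hk)
    exact (Nat.pow_dvd_pow 3 this).trans (by norm_num)
  · norm_num at hp

/-- The quotients of a finite abelian group. -/
theorem ab_cases (A : Type*) [CommGroup A] [Finite A] [Nontrivial A] :
    (∃ φ : A →* Multiplicative (ZMod 2 × ZMod 2), Function.Surjective φ) ∨
    (∃ φ : A →* Multiplicative (ZMod 8), Function.Surjective φ) ∨
    (∃ p : ℕ, p.Prime ∧ 5 ≤ p ∧ ∃ φ : A →* Multiplicative (ZMod p), Function.Surjective φ) ∨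
    (∃ φ : A →* Multiplicative (ZMod 9), Function.Surjective φ) ∨
    (∃ φ : A →* Multiplicative (ZMod 3 × ZMod 3), Function.Surjective φ) ∨
    (∃ φ : A →* Multiplicative (ZMod 12), Function.Surjective φ) ∨
    ∃ n : ℕ, (n = 2 ∨ n = 3 ∨ n = 4 ∨ n = 6) ∧
      ∃ φ : A →* Multiplicative (ZMod n), Function.Bijective φ := by
  by_cases h5 : ∃ p : ℕ, p.Prime ∧ 5 ≤ p ∧ p ∣ Nat.card A
  · obtain ⟨p, hp, h5, hd⟩ := h5
    exact Or.inr (Or.inr (Or.inl ⟨p, hp, h5, exists_zmod_of_dvd A hp hd⟩))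
  push Not at h5
  rcases gt_ab A with hc | ⟨p, hp, φ, hφ⟩
  · by_cases h8 : 8 ∣ Nat.card A
    · exact Or.inr (Or.inl (gt_cyc hc h8))
    by_cases h9 : 9 ∣ Nat.card A
    · exact Or.inr (Or.inr (Or.inr (Or.inl (gt_cyc hc h9))))
    by_cases h12 : 12 ∣ Nat.card A
    · exact Or.inr (Or.inr (Or.inr (Or.inr (Or.inr (Or.inl (gt_cyc hc h12))))))
    refine Or.inr (Or.inr (Or.inr (Or.inr (Or.inr (Or.inr ⟨Nat.card A, ?_,
      (zmodCyclicMulEquiv hc).symm.toMonoidHom, (zmodCyclicMulEquiv hc).symm.bijective⟩)))))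
    have h1 := gt_twelve h8 h9 h5
    have h2 : 1 < Nat.card A := Finite.one_lt_card
    have h3 := Nat.le_of_dvd (by norm_num) h1
    generalize Nat.card A = n at *
    interval_cases n <;> omega
  · have h1 : p ∣ Nat.card A := by
      refine dvd_trans ?_ (Subgroup.card_dvd_of_surjective φ hφ)
      rw [Nat.card_congr Multiplicative.toAdd, Nat.card_prod, Nat.card_zmod]
      exact dvd_mul_left p p
    have h2 : p < 5 := by
      by_contra h
      exact h5 p hp (by omega) h1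
    have h3 := hp.two_le
    interval_cases p
    · exact Or.inl ⟨φ, hφ⟩
    · exact Or.inr (Or.inr (Or.inr (Or.inr (Or.inl ⟨φ, hφ⟩))))
    · norm_num at hp

end Pool.Agent.SQ2

end MrgPart1

-- ======== part 2: formerly Pool.Agent.MP_f56020_al.s2.TwoG1
section MrgPart2

namespace Pool.Agent.SQ2

open Subgroup

namespace TwoG

variable {P : Type*} [Group P]

/-- Two distinct commuting involutions. -/
def VV (a b : P) : Prop := a * a = 1 ∧ b * b = 1 ∧ a * b = b * a ∧ a ≠ 1 ∧ b ≠ 1 ∧ a ≠ b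

theorem odd_zpow (hP : IsPGroup 2 P) (a : P) {m : ℤ} (hm : Odd m) : a ∈ zpowers (a ^ m) := by
  have : Fact (Nat.Prime 2) := ⟨Nat.prime_two⟩
  obtain ⟨k, hk⟩ := IsPGroup.iff_orderOf.1 hP a
  rw [mem_zpowers_zpow_iff, hk, ← Int.isCoprime_iff_gcd_eq_one]
  push_cast
  exact (Int.isCoprime_two_right.2 hm).pow_right

theorem invol (hP : IsPGroup 2 P) {a : P} (ha : a ≠ 1) :
    ∃ z ∈ zpowers a, z ≠ 1 ∧ z * z = 1 := by
  obtain ⟨k, hk⟩ := hP a
  induction k generalizing a with
  | zero => exact absurd (by simpa using hk) ha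
  | succ k ih =>
    by_cases h : a * a = 1
    · exact ⟨a, mem_zpowers a, ha, h⟩
    · obtain ⟨z, hz, h1⟩ := ih h (by rw [← sq, ← pow_mul, ← pow_succ']; exact hk)
      exact ⟨z, zpowers_le.2 (mul_mem (mem_zpowers a) (mem_zpowers a)) hz, h1⟩

theorem conj_zpow' {g h : P} {r : ℤ} (hr : h⁻¹ * g * h = g ^ r) (j : ℤ) :
    h⁻¹ * g ^ j * h = g ^ (r * j) := by
  have := conj_zpow (i := j) (a := h⁻¹) (b := g)
  rw [inv_inv] at this
  rw [← this, hr, zpow_mul]

theorem odd_act (hP : IsPGroup 2 P) {a : P} (ha : (zpowers a).Normal) (x : P) :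
    ∃ r : ℤ, Odd r ∧ x⁻¹ * a * x = a ^ r := by
  obtain ⟨r, hr⟩ := mem_zpowers_iff.1 (ha.conj_mem' a (mem_zpowers a) x)
  rcases Int.even_or_odd r with h | h
  · obtain ⟨s, hs⟩ := mem_zpowers_iff.1 (ha.conj_mem' a (mem_zpowers a) x⁻¹)
    have h1 := conj_zpow' hs.symm r
    rw [hr] at h1
    have h2 : a ^ (s * r - 1) = 1 := by
      rw [zpow_sub, ← h1]; group
    have h3 := odd_zpow hP a (m := s * r - 1) ((h.mul_left s).sub_odd odd_one)
    rw [h2, zpowers_one_eq_bot, mem_bot] at h3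
    exact ⟨1, odd_one, by simp [h3]⟩
  · exact ⟨r, h, hr.symm⟩

theorem pairV (hP : IsPGroup 2 P) {g h z : P} {r c : ℤ} (hr : h⁻¹ * g * h = g ^ r)
    (h4 : r % 4 = 1) (hc : h * h = g ^ (2 * c)) (hh : h ∉ zpowers g) (hz : z ∈ zpowers g)
    (h1 : z ≠ 1) (h2 : z * z = 1) : ∃ j : ℤ, VV z (h * g ^ j) ∧ h * g ^ j ∉ zpowers g := by
  obtain ⟨q, rfl⟩ : ∃ q, r = 4 * q + 1 := ⟨r / 4, by omega⟩
  obtain ⟨u, hu⟩ := mem_zpowers_iff.1 (odd_zpow hP g (m := 2 * q + 1) ⟨q, rfl⟩)
  have hn : h * g ^ (-(c * u)) ∉ zpowers g := fun hm =>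
    hh ((mul_mem_cancel_right (zpow_mem (mem_zpowers g) _)).1 hm)
  refine ⟨-(c * u), ⟨h2, ?_, ?_, h1, fun e => hn (e ▸ one_mem _), fun e => hn (e ▸ hz)⟩, hn⟩
  · have e : h * g ^ (-(c * u)) * (h * g ^ (-(c * u))) =
        h * h * (h⁻¹ * g ^ (-(c * u)) * h) * g ^ (-(c * u)) := by group
    rw [e, conj_zpow' hr, hc, ← zpow_add, ← zpow_add]
    have e2 : 2 * c + (4 * q + 1) * -(c * u) + -(c * u) = 2 * c + (2 * q + 1) * u * -(2 * c) := by
      ring
    rw [e2, zpow_add, zpow_mul g ((2 * q + 1) * u), zpow_mul g (2 * q + 1), hu, ← zpow_add]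
    simp
  · obtain ⟨m, rfl⟩ := mem_zpowers_iff.1 hz
    have e := conj_zpow' hr m
    have e2 : g ^ ((4 * q + 1) * m) = g ^ m := by
      have : (4 * q + 1) * m = (m + m) * (2 * q) + m := by ring
      rw [this, zpow_add, zpow_mul, zpow_add, h2, one_zpow, one_mul]
    rw [e2] at e
    have e3 : g ^ m * h = h * g ^ m := by
      conv_rhs => rw [← e]
      group
    rw [← mul_assoc, e3, mul_assoc, mul_assoc, ← zpow_add, ← zpow_add, add_comm]

theorem gen3 (hs : ∀ x : P, x * x = 1) {a b c : P} (h : closure {a, b, c} = ⊤) :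
    ∃ σ : (ZMod 2 × ZMod 2) × ZMod 2 → P, Function.Surjective σ ∧
      (∀ x y, σ (x + y) = σ x * σ y) ∧ (c = 1 → ∀ x, σ x = σ (x.1, 0)) := by
  have hi : ∀ x : P, x⁻¹ = x := fun x => inv_eq_of_mul_eq_one_right (hs x)
  have hc : ∀ x y : P, x * y = y * x := fun x y => by
    rw [← hi (x * y), mul_inv_rev, hi, hi]
  let _ : CommGroup P := { (inferInstance : Group P) with mul_comm := hc }
  have hv : ∀ (x : P) (i j : ZMod 2), x ^ (i + j).val = x ^ i.val * x ^ j.val := fun x i j => by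
    rw [ZMod.val_add, ← pow_eq_pow_mod _ (by rw [sq, hs]), pow_add]
  have hm : ∀ x y : (ZMod 2 × ZMod 2) × ZMod 2,
      a ^ (x + y).1.1.val * b ^ (x + y).1.2.val * c ^ (x + y).2.val =
        a ^ x.1.1.val * b ^ x.1.2.val * c ^ x.2.val *
          (a ^ y.1.1.val * b ^ y.1.2.val * c ^ y.2.val) := fun x y => by
    simp only [Prod.fst_add, Prod.snd_add, hv]
    ac_rfl
  refine ⟨fun x => a ^ x.1.1.val * b ^ x.1.2.val * c ^ x.2.val, fun x => ?_, hm, ?_⟩
  · have hx : x ∈ closure ({a, b, c} : Set P) := h ▸ mem_top x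
    induction hx using closure_induction with
    | mem x hx =>
      rcases hx with rfl | rfl | rfl
      · exact ⟨((1, 0), 0), by simp [ZMod.val_one]⟩
      · exact ⟨((0, 1), 0), by simp [ZMod.val_one]⟩
      · exact ⟨((0, 0), 1), by simp [ZMod.val_one]⟩
    | one => exact ⟨0, by simp⟩
    | mul x y _ _ hx hy =>
      obtain ⟨u, rfl⟩ := hx
      obtain ⟨v, rfl⟩ := hy
      exact ⟨u + v, hm u v⟩
    | inv x _ hx => rwa [hi]
  · rintro rfl x
    simp

variable [Finite P]

theorem cen (hP : IsPGroup 2 P) (N : Subgroup P) [N.Normal] (hN : N ≠ ⊥) :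
    ∃ b ∈ N, b ≠ 1 ∧ b * b = 1 ∧ ∀ x, x * b = b * x := by
  have : Fact (Nat.Prime 2) := ⟨Nat.prime_two⟩
  have hd : 2 ∣ Nat.card N := by
    refine (hP.to_subgroup N).card_eq_or_dvd.resolve_left fun h => hN ?_
    exact card_eq_one.1 h
  obtain ⟨b, hb, h1⟩ :=
    (hP.of_equiv ConjAct.toConjAct).exists_fixed_point_of_prime_dvd_card_of_fixed_point N hd
      (a := 1) (fun g => smul_one g)
  have hc : (b : P) ∈ center P := by
    rw [mem_center_iff]
    intro x
    have h : x * b * x⁻¹ = b := congrArg Subtype.val (hb (ConjAct.toConjAct x))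
    conv_rhs => rw [← h]
    group
  obtain ⟨z, hz, h2, h3⟩ := invol hP (a := (b : P)) fun h => h1 (Subtype.ext h.symm)
  exact ⟨z, zpowers_le.2 b.2 hz, h2, h3, mem_center_iff.1 (zpowers_le.2 hc hz)⟩

theorem maxsub (hP : IsPGroup 2 P) {H : Subgroup P} (hH : H ≠ ⊤) :
    ∃ M : Subgroup P, H ≤ M ∧ M.index = 2 := by
  have : Fact (Nat.Prime 2) := ⟨Nat.prime_two⟩
  have := hP.isNilpotent
  obtain ⟨M, hM, hle⟩ := (eq_top_or_exists_le_coatom H).resolve_left hH
  have : M.Normal :=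
    NormalizerCondition.normal_of_coatom M Group.normalizerCondition_of_isNilpotent hM
  refine ⟨M, hle, ?_⟩
  obtain ⟨x, hx⟩ : ∃ x, x ∉ M := by
    by_contra h
    push Not at h
    exact hM.1 ((eq_top_iff' M).2 h)
  obtain ⟨b, -, h1, h2⟩ := invol (hP.to_quotient M) (a := QuotientGroup.mk' M x)
    (by simpa using hx)
  obtain ⟨b, rfl⟩ := QuotientGroup.mk'_surjective M b
  have hb : b ∉ M := by simpa using h1
  have ht : (zpowers (QuotientGroup.mk' M b)).comap (QuotientGroup.mk' M) = ⊤ := by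
    refine hM.2 _ (lt_of_le_of_ne (fun y hy => ?_) fun e => hb ?_)
    · have : QuotientGroup.mk' M y = 1 := by simpa using hy
      rw [mem_comap, this]; exact one_mem _
    · rw [e]; exact mem_zpowers _
  refine index_eq_two_iff_exists_notMem_and.2 ⟨b, hb, fun y => ?_⟩
  obtain ⟨m, hm⟩ := mem_zpowers_iff.1 (mem_comap.1 (ht ▸ mem_top y))
  have h3 : ∀ k : ℤ, QuotientGroup.mk' M b ^ (2 * k) = 1 := fun k => by
    rw [zpow_mul, zpow_two, h2, one_zpow]
  rcases Int.even_or_odd' m with ⟨k, rfl | rfl⟩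
  · right
    rw [h3] at hm
    simpa using hm.symm
  · left
    rw [zpow_add, h3, one_mul, zpow_one] at hm
    rw [← QuotientGroup.eq_one_iff, QuotientGroup.mk_mul]
    simp only [QuotientGroup.mk'_apply] at hm h2
    rw [← hm, h2]

theorem onto (hP : IsPGroup 2 P) {a b : P} (h : ∀ g, closure {a, b, g} ≠ ⊤) :
    ∃ φ : P →* Multiplicative (ZMod 2 × ZMod 2), Function.Surjective φ ∧ φ a = 1 ∧ φ b = 1 := by
  classical
  have ex : ∀ M : Subgroup P, M.index = 2 → ∃ g, g ∉ M := fun M hM =>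
    let ⟨g, hg, _⟩ := index_eq_two_iff_exists_notMem_and.1 hM; ⟨g, hg⟩
  obtain ⟨M, hM, iM⟩ := maxsub hP (h 1)
  obtain ⟨g, hg⟩ := ex M iM
  obtain ⟨L, hL, iL⟩ := maxsub hP (h g)
  obtain ⟨k, hk⟩ := ex L iL
  have ch : ∀ M : Subgroup P, M.index = 2 → ∀ x y, (if x * y ∈ M then 0 else 1 : ZMod 2) =
      (if x ∈ M then 0 else 1) + if y ∈ M then 0 else 1 := fun M hM x y => by
    by_cases hx : x ∈ M <;> by_cases hy : y ∈ M <;>
      simp [mul_mem_iff_of_index_two hM, hx, hy]
    rfl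
  let φ : P →* Multiplicative (ZMod 2 × ZMod 2) := MonoidHom.mk'
    (fun x => Multiplicative.ofAdd (if x ∈ M then 0 else 1, if x ∈ L then 0 else 1))
    fun x y => by rw [← ofAdd_add, Prod.mk_add_mk, ch M iM, ch L iL]
  have hφ : ∀ x, φ x = Multiplicative.ofAdd (if x ∈ M then 0 else 1, if x ∈ L then 0 else 1) :=
    fun _ => rfl
  have hgL : g ∈ L := hL (subset_closure (by simp))
  have e1 : φ g = Multiplicative.ofAdd (1, 0) := by rw [hφ, if_neg hg, if_pos hgL]
  have e2 : ∃ k, φ k = Multiplicative.ofAdd (0, 1) := by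
    by_cases hkM : k ∈ M
    · exact ⟨k, by rw [hφ, if_neg hk, if_pos hkM]⟩
    · exact ⟨g * k, by rw [map_mul, e1, hφ, if_neg hk, if_neg hkM]; rfl⟩
  obtain ⟨l, e2⟩ := e2
  refine ⟨φ, fun y => ?_, ?_, ?_⟩
  · have : ∀ y : Multiplicative (ZMod 2 × ZMod 2), y = 1 ∨ y = Multiplicative.ofAdd (1, 0) ∨
        y = Multiplicative.ofAdd (0, 1) ∨
        y = Multiplicative.ofAdd (1, 0) * Multiplicative.ofAdd (0, 1) := by decide
    rcases this y with rfl | rfl | rfl | rfl
    · exact ⟨1, map_one _⟩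
    · exact ⟨g, e1⟩
    · exact ⟨l, e2⟩
    · exact ⟨g * l, by rw [map_mul, e1, e2]⟩
  · rw [hφ, if_pos (hM (subset_closure (by simp))), if_pos (hL (subset_closure (by simp)))]; rfl
  · rw [hφ, if_pos (hM (subset_closure (by simp))), if_pos (hL (subset_closure (by simp)))]; rfl

variable (P) in
/-- The subgroup generated by the squares. -/
def Sq : Subgroup P := closure (Set.range fun x : P => x * x)

omit [Finite P] in
theorem sq_mem (x : P) : x * x ∈ Sq P := subset_closure ⟨x, rfl⟩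

omit [Finite P] in
theorem sq_le {M : Subgroup P} (h : ∀ x, x * x ∈ M) : Sq P ≤ M :=
  (closure_le M).2 (by rintro _ ⟨x, rfl⟩; exact h x)

instance : (Sq P).Normal := ⟨fun n hn g => by
  have h : Sq P ≤ (Sq P).comap (MulAut.conj g).toMonoidHom := sq_le fun x => by
    rw [mem_comap, map_mul]; exact sq_mem _
  exact h hn⟩

omit [Finite P] in
theorem sq_act (hP : IsPGroup 2 P) {a : P} (ha : (zpowers a).Normal) {b : P} (hb : b ∈ Sq P) :
    ∃ r : ℤ, r % 4 = 1 ∧ b⁻¹ * a * b = a ^ r := by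
  have h0 : ∀ x : P, ∃ r : ℤ, r % 4 = 1 ∧ (x * x)⁻¹ * a * (x * x) = a ^ r := fun x => by
    obtain ⟨r, ⟨k, rfl⟩, hr⟩ := odd_act hP ha x
    refine ⟨(2 * k + 1) * (2 * k + 1), ?_, ?_⟩
    · have : (2 * k + 1) * (2 * k + 1) = 4 * (k * k + k) + 1 := by ring
      omega
    · rw [← conj_zpow' hr, ← hr]; group
  induction hb using closure_induction'' with
  | mem x hx => obtain ⟨x, rfl⟩ := hx; exact h0 x
  | inv_mem x hx => obtain ⟨x, rfl⟩ := hx; simpa using h0 x⁻¹
  | one => exact ⟨1, by norm_num, by simp⟩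
  | mul x y _ _ hx hy =>
    obtain ⟨r, h1, h2⟩ := hx
    obtain ⟨s, h3, h4⟩ := hy
    refine ⟨s * r, by rw [Int.mul_emod, h1, h3]; norm_num, ?_⟩
    rw [← conj_zpow' h4, ← h2]; group

theorem sq_cyc (hP : IsPGroup 2 P) (hV : ∀ a ∈ Sq P, ∀ b ∈ Sq P, ¬ VV a b) :
    ∃ s, zpowers s = Sq P := by
  have : Nonempty {a : P // a ∈ Sq P ∧ (zpowers a).Normal} :=
    ⟨⟨1, one_mem _, by rw [zpowers_one_eq_bot]; infer_instance⟩⟩
  obtain ⟨⟨a, haS, haN⟩, hmax⟩ := Finite.exists_max
    fun a : {a : P // a ∈ Sq P ∧ (zpowers a).Normal} => Nat.card (zpowers a.1)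
  refine ⟨a, le_antisymm (zpowers_le.2 haS) ?_⟩
  by_contra hne
  have : ((Sq P).map (QuotientGroup.mk' (zpowers a))).Normal :=
    Normal.map inferInstance _ (QuotientGroup.mk'_surjective _)
  obtain ⟨_, ⟨b, hb, rfl⟩, h1, h2, h3⟩ := cen (hP.to_quotient (zpowers a))
    ((Sq P).map (QuotientGroup.mk' (zpowers a))) fun h => hne (by
      rwa [Subgroup.map_eq_bot_iff, QuotientGroup.ker_mk'] at h)
  have hb1 : b ∉ zpowers a := by simpa using h1
  have hb2 : b * b ∈ zpowers a := by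
    rw [← QuotientGroup.eq_one_iff, QuotientGroup.mk_mul]; exact h2
  have hb3 : ∀ x, x * b * x⁻¹ * b⁻¹ ∈ zpowers a := fun x => by
    rw [← QuotientGroup.eq_one_iff]
    have := h3 (QuotientGroup.mk' _ x)
    simp only [QuotientGroup.mk'_apply] at this
    simp only [QuotientGroup.mk_mul, QuotientGroup.mk_inv, this]
    group
  by_cases hab : a ∈ zpowers b
  · have hle : zpowers a ≤ zpowers b := zpowers_le.2 hab
    have hN : (zpowers b).Normal := ⟨fun n hn x => by
      obtain ⟨m, rfl⟩ := mem_zpowers_iff.1 hn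
      rw [← conj_zpow]
      refine zpow_mem ?_ m
      simpa using mul_mem (hle (hb3 x)) (mem_zpowers b)⟩
    have := eq_of_le_of_card_ge hle (hmax ⟨b, hb, hN⟩)
    exact hb1 (this ▸ mem_zpowers b)
  · obtain ⟨c, hc⟩ := mem_zpowers_iff.1 hb2
    rcases Int.even_or_odd' c with ⟨k, rfl | rfl⟩
    · obtain ⟨z, hz, z1, z2⟩ := invol hP (a := a) fun h => hab (h ▸ one_mem _)
      obtain ⟨r, r1, r2⟩ := sq_act hP haN hb
      obtain ⟨j, hj, -⟩ := pairV hP r2 r1 hc.symm hb1 hz z1 z2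
      exact hV z (zpowers_le.2 haS hz) _ (mul_mem hb (zpow_mem haS j)) hj
    · have := odd_zpow hP a (m := 2 * k + 1) ⟨k, rfl⟩
      rw [hc] at this
      exact hab (zpowers_le.2 (mul_mem (mem_zpowers b) (mem_zpowers b)) this)

omit [Finite P] in
theorem sq_gen (hP : IsPGroup 2 P) {s : P} (hs : zpowers s = Sq P) :
    ∃ g, zpowers (g * g) = Sq P := by
  by_cases h : ∀ x : P, x * x ∈ zpowers (s * s)
  · exact ⟨s, le_antisymm (zpowers_le.2 (sq_mem s)) (sq_le h)⟩
  · push Not at h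
    obtain ⟨x, hx⟩ := h
    obtain ⟨m, hm⟩ := mem_zpowers_iff.1 (hs ▸ sq_mem x : x * x ∈ zpowers s)
    refine ⟨x, le_antisymm (zpowers_le.2 (sq_mem x)) ?_⟩
    rcases Int.even_or_odd' m with ⟨k, rfl | rfl⟩
    · exact absurd (mem_zpowers_iff.2 ⟨k, by rw [← hm, zpow_mul, zpow_two]⟩) hx
    · rw [← hs, ← hm]
      exact zpowers_le.2 (odd_zpow hP s ⟨k, rfl⟩)

theorem main (hP : IsPGroup 2 P) (hn : ¬ IsCyclic P) :
    (∃ φ : P →* Multiplicative (ZMod 2 × ZMod 2), Function.Surjective φ ∧ ∃ a b, φ a = 1 ∧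
      φ b = 1 ∧ a * a = 1 ∧ b * b = 1 ∧ a * b = b * a ∧ a ≠ 1 ∧ b ≠ 1 ∧ a ≠ b) ∨
    (∃ σ : (ZMod 2 × ZMod 2) × ZMod 2 → P, Function.Bijective σ ∧ ∀ x y, σ (x + y) = σ x * σ y) ∨
    ∃ a : P, (Subgroup.zpowers a).index = 2 := by
  have : Fact (Nat.Prime 2) := ⟨Nat.prime_two⟩
  by_contra hcon
  rw [not_or, not_or] at hcon
  obtain ⟨h1, h2, h3⟩ := hcon
  have h3' : ∀ a : P, (zpowers a).index ≠ 2 := fun a h => h3 ⟨a, h⟩
  have hz : ∀ a : P, zpowers a ≠ ⊤ := fun a h => hn (isCyclic_iff_exists_zpowers_eq_top.2 ⟨a, h⟩)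
  have h4 : ∀ a : P, 4 ≤ (zpowers a).index := fun a => by
    obtain ⟨n, e⟩ := hP.index (zpowers a)
    match n with
    | 0 => exact absurd (index_eq_one.1 e) (hz a)
    | 1 => exact absurd e (h3' a)
    | n + 2 => rw [e, pow_add]; have := Nat.two_pow_pos n; omega
  have hg : ∀ a b : P, VV a b → ∃ g, closure {a, b, g} = ⊤ := fun a b h => by
    by_contra h'
    obtain ⟨φ, p1, p2, p3⟩ := onto hP (a := a) (b := b) fun g e => h' ⟨g, e⟩
    exact h1 ⟨φ, p1, a, b, p2, p3, h⟩
  have hM : ∀ M : Subgroup P, M.index = 2 → ∀ a b c : P, a ∈ M → b ∈ M → c ∈ M →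
      closure {a, b, c} ≠ ⊤ := fun M iM a b c ha hb hc e => by
    have : closure {a, b, c} ≤ M := (closure_le M).2 (by
      rintro x (rfl | rfl | rfl) <;> assumption)
    rw [e, top_le_iff] at this
    rw [this, index_top] at iM
    omega
  obtain ⟨s, hs⟩ := sq_cyc hP fun a ha b hb h => by
    obtain ⟨g, e⟩ := hg a b h
    obtain ⟨M, hle, iM⟩ := maxsub hP (hz g)
    have hS := sq_le (mul_self_mem_of_index_two iM)
    exact hM M iM a b g (hS ha) (hS hb) (hle (mem_zpowers g)) e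
  obtain ⟨g, hS⟩ := sq_gen hP hs
  have out : ∀ a : P, ∃ b, b ∉ zpowers a := fun a => by
    by_contra h
    push Not at h
    exact hz a ((eq_top_iff' _).2 h)
  by_cases hg1 : g * g = 1
  · have hsq : ∀ x : P, x * x = 1 := fun x => by
      have := sq_mem x
      rwa [← hS, hg1, zpowers_one_eq_bot, mem_bot] at this
    have hi : ∀ x : P, x⁻¹ = x := fun x => inv_eq_of_mul_eq_one_right (hsq x)
    obtain ⟨a, ha⟩ := out 1
    obtain ⟨b, hb⟩ := out a
    have ha1 : a ≠ 1 := fun e => ha (by rw [e]; exact one_mem _)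
    obtain ⟨c, e⟩ := hg a b ⟨hsq a, hsq b, by rw [← hi (a * b), mul_inv_rev, hi, hi], ha1,
      fun e => hb (e ▸ one_mem _), fun e => hb (e ▸ mem_zpowers a)⟩
    obtain ⟨σ, s1, s2, -⟩ := gen3 hsq e
    refine h2 ⟨σ, s1.bijective_of_nat_card_le ?_, s2⟩
    have e1 := (zpowers a).index_mul_card
    rw [Nat.card_zpowers, orderOf_eq_prime (p := 2) (by rw [sq, hsq]) ha1] at e1
    have := h4 a
    simp only [Nat.card_prod, Nat.card_zmod]
    omega
  · have hle : Sq P ≤ zpowers g :=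
      hS ▸ zpowers_le.2 (mul_mem (mem_zpowers g) (mem_zpowers g))
    have hN : (zpowers g).Normal := ⟨fun n hn x => by
      have : x * n * x⁻¹ = x * n * (x * n) * (n⁻¹ * (x⁻¹ * x⁻¹)) := by group
      rw [this]
      exact mul_mem (hle (sq_mem _)) (mul_mem (inv_mem hn) (hle (sq_mem _)))⟩
    obtain ⟨z, hz0, z1, z2⟩ := invol hP hg1
    rw [hS] at hz0
    obtain ⟨h, hh, r, r1, r2⟩ : ∃ h, h ∉ zpowers g ∧ ∃ r : ℤ, r % 4 = 1 ∧ h⁻¹ * g * h = g ^ r := by
      obtain ⟨x, hx⟩ := out g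
      obtain ⟨y, y1, y2⟩ : ∃ y, y * x ∉ zpowers g ∧ y ∉ zpowers g := by
        by_contra h
        refine h3' g (index_eq_two_iff_exists_notMem_and.2 ⟨x, hx, fun y => ?_⟩)
        by_contra h'
        exact h ⟨y, not_or.1 h'⟩
      obtain ⟨r, ⟨k, rfl⟩, r2⟩ := odd_act hP hN x
      obtain ⟨s, ⟨l, rfl⟩, s2⟩ := odd_act hP hN y
      rcases Int.even_or_odd' k with ⟨k, rfl | rfl⟩
      · exact ⟨x, hx, _, by omega, r2⟩
      rcases Int.even_or_odd' l with ⟨l, rfl | rfl⟩
      · exact ⟨y, y2, _, by omega, s2⟩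
      refine ⟨y * x, y1, (2 * (2 * k + 1) + 1) * (2 * (2 * l + 1) + 1), ?_, ?_⟩
      · have : (2 * (2 * k + 1) + 1) * (2 * (2 * l + 1) + 1) =
          4 * (4 * (k * l) + 3 * k + 3 * l + 2) + 1 := by ring
        omega
      · rw [← conj_zpow' r2, ← s2]; group
    obtain ⟨c, hc⟩ := mem_zpowers_iff.1 (hS ▸ sq_mem h : h * h ∈ zpowers (g * g))
    obtain ⟨j, hj, -⟩ := pairV hP r2 r1 (c := c) (by rw [← hc, zpow_mul, zpow_two]) hh
      (hle hz0) z1 z2
    obtain ⟨w, e⟩ := hg _ _ hj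
    have e' : closure {QuotientGroup.mk' (Sq P) (h * g ^ j), QuotientGroup.mk' (Sq P) w, 1} = ⊤ := by
      have := congrArg (map (QuotientGroup.mk' (Sq P))) e
      rw [MonoidHom.map_closure, map_top_of_surjective _ (QuotientGroup.mk'_surjective _)] at this
      rw [← this]
      congr 1
      have e1 : QuotientGroup.mk' (Sq P) z = 1 := by simpa using hz0
      simp only [Set.image_insert_eq, Set.image_singleton, e1]
      ext x
      simp only [Set.mem_insert_iff, Set.mem_singleton_iff]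
      tauto
    obtain ⟨σ, s1, -, s3⟩ := gen3 (fun x => by
      obtain ⟨x, rfl⟩ := QuotientGroup.mk'_surjective (Sq P) x
      rw [← map_mul]
      exact (QuotientGroup.eq_one_iff _).2 (sq_mem x)) e'
    have c4 : (Sq P).index ≤ 4 := by
      have := Nat.card_le_card_of_surjective (fun x : ZMod 2 × ZMod 2 => σ (x, 0)) fun y => by
        obtain ⟨x, rfl⟩ := s1 y
        exact ⟨x.1, (s3 rfl x).symm⟩
      simpa [Nat.card_prod, Nat.card_zmod, index] using this
    have e1 := relIndex_mul_index hle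
    have e2 : (Sq P).relIndex (zpowers g) ≠ 1 := fun e => by
      have h0 := relIndex_eq_one.1 e (mem_zpowers g)
      rw [← hS] at h0
      obtain ⟨m, hm⟩ := mem_zpowers_iff.1 h0
      have h5 : g ^ (2 * m - 1) = 1 := by
        rw [zpow_sub, zpow_mul, zpow_two, hm]; simp
      have h6 := odd_zpow hP g (m := 2 * m - 1) ⟨m - 1, by ring⟩
      rw [h5, zpowers_one_eq_bot, mem_bot] at h6
      exact hg1 (by simp [h6])
    have e3 : (Sq P).index ≠ 0 := index_ne_zero_of_finite
    have e4 := h4 g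
    rcases hr : (Sq P).relIndex (zpowers g) with _ | _ | n
    · rw [hr] at e1; omega
    · exact e2 hr
    · rw [hr] at e1; nlinarith

end TwoG

end Pool.Agent.SQ2

end MrgPart2

-- ======== part 3: formerly Pool.Agent.MP_f56020_al.s2.Aff
section MrgPart3

namespace Pool.Agent.SQ2

theorem aff_mem {G : Type*} [Group G] {n : ℕ} [NeZero n]
    (χ : G →* Multiplicative (ZMod n)) (hk : χ.ker = commutator G) (t : G)
    (ht : χ t = Multiplicative.ofAdd 1) (g : G) :
    g * (t ^ (χ g).toAdd.val)⁻¹ ∈ commutator G := by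
  rw [← hk, MonoidHom.mem_ker, map_mul, map_inv, map_pow, ht, ← ofAdd_nsmul, nsmul_one,
    ZMod.natCast_zmod_val, ofAdd_toAdd, mul_inv_cancel]

/-- An invariant homomorphism on the commutator subgroup is trivial when the abelianization is
cyclic. -/
theorem inv_triv' {G A : Type*} [Group G] [CommGroup A] {n : ℕ} [NeZero n]
    (χ : G →* Multiplicative (ZMod n)) (hk : χ.ker = commutator G) (t : G)
    (ht : χ t = Multiplicative.ofAdd 1) (ψ : commutator G →* A)
    (hψ : ∀ h, ψ (MulAut.conjNormal t h) = ψ h) (h : commutator G) : ψ h = 1 := by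
  have hp : ∀ (i : ℕ) (h : commutator G), ψ (MulAut.conjNormal (t ^ i) h) = ψ h := by
    intro i
    induction i with
    | zero => intro h; simp
    | succ i ih => intro h; rw [pow_succ, map_mul, MulAut.mul_apply, ih, hψ]
  let K : Subgroup G := ψ.ker.map (commutator G).subtype
  have hK : ∀ k : commutator G, (k : G) ∈ K ↔ ψ k = 1 := fun k =>
    Subgroup.mem_map_iff_mem (commutator G).subtype_injective
  refine (hK h).1 ?_
  have hle : commutator G ≤ K := by
    rw [commutator_def, Subgroup.commutator_le]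
    intro a _ b _
    let d : commutator G := ⟨_, aff_mem χ hk t ht a⟩
    let e : commutator G := ⟨_, aff_mem χ hk t ht b⟩
    have h1 : a * b * a⁻¹ * b⁻¹ = ((d * MulAut.conjNormal (t ^ (χ a).toAdd.val) e *
        MulAut.conjNormal (t ^ (χ b).toAdd.val) d⁻¹ * e⁻¹ : commutator G) : G) := by
      simp only [d, e, Subgroup.coe_mul, MulAut.conjNormal_apply, Subgroup.coe_inv]
      generalize (χ a).toAdd.val = i
      generalize (χ b).toAdd.val = j
      group
    rw [commutatorElement_def, h1, hK, map_mul, map_mul, map_mul, hp, hp, map_inv, map_inv]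
    simp
  exact hle h.2

open Polynomial in
/-- A simple quotient of the abelianization of a finite group with an automorphism. -/
theorem aff_field {D : Type*} [Group D] [Finite D] (θ : D ≃* D) {p : ℕ} (hp : p.Prime)
    (hd : p ∣ Nat.card (Abelianization D)) :
    ∃ (F : Type) (_ : Field F) (_ : Finite F) (_ : CharP F p) (β : F) (ψ : D → F),
      (∀ a b, ψ (a * b) = ψ a + ψ b) ∧ (∀ a, ψ (θ a) = β * ψ a) ∧ Function.Surjective ψ ∧
      ∀ S : Subring F, β ∈ S → S = ⊤ := by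
  have : Fact p.Prime := ⟨hp⟩
  let V := Additive (Abelianization D)
  let T : V →ₗ[ℤ] V := (MonoidHom.toAdditive (Abelianization.map θ.toMonoidHom)).toIntLinearMap
  let W := Module.AEval' T
  let o : V ≃ₗ[ℤ] W := Module.AEval'.of T
  have fW : Finite W := Finite.of_equiv V o.toEquiv
  let m : W →ₗ[ℤ[X]] W := (p : ℤ[X]) • LinearMap.id
  have hm : LinearMap.range m ≠ ⊤ := by
    intro h
    have h1 : Function.Injective m :=
      Finite.injective_iff_surjective.2 (LinearMap.range_eq_top.1 h)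
    obtain ⟨x, hx⟩ := exists_prime_orderOf_dvd_card' p hd
    have h2 : m (o (Additive.ofMul x)) = m 0 := by
      have h3 : p • (Additive.ofMul x : V) = 0 := by
        rw [← hx]; exact congrArg Additive.ofMul (pow_orderOf_eq_one x)
      change (p : ℤ[X]) • o (Additive.ofMul x) = m 0
      rw [Nat.cast_smul_eq_nsmul, ← map_nsmul, h3, map_zero, map_zero]
    have h4 : (Additive.ofMul x : V) = 0 := o.injective ((h1 h2).trans (map_zero o).symm)
    have h5 : x = 1 := h4
    rw [h5, orderOf_one] at hx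
    exact hp.one_lt.ne hx
  have : Module.Finite ℤ[X] W := Module.Finite.of_finite
  obtain ⟨N, hN, hle⟩ := (eq_top_or_exists_le_coatom (LinearMap.range m)).resolve_left hm
  obtain ⟨I, hI, ⟨e⟩⟩ := isSimpleModule_iff_quot_maximal.1 (isSimpleModule_iff_isCoatom.2 hN)
  let f : W →ₗ[ℤ[X]] ℤ[X] ⧸ I := e.toLinearMap ∘ₗ N.mkQ
  have hf : Function.Surjective f := e.surjective.comp N.mkQ_surjective
  let _ : Field (ℤ[X] ⧸ I) := Ideal.Quotient.field I
  have hs : ∀ (q : ℤ[X]) (y : ℤ[X] ⧸ I), q • y = Ideal.Quotient.mk I q * y := fun q y => by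
    obtain ⟨y, rfl⟩ := Ideal.Quotient.mk_surjective y
    rfl
  refine ⟨ℤ[X] ⧸ I, inferInstance, Finite.of_surjective f hf, ?_, Ideal.Quotient.mk I X,
    fun d => f (o (Additive.ofMul (Abelianization.of d))), fun a b => ?_, fun a => ?_, ?_, ?_⟩
  · refine (CharP.charP_iff_prime_eq_zero hp).2 ?_
    obtain ⟨w, hw⟩ := hf 1
    have h1 : f (m w) = 0 := by
      change e (N.mkQ (m w)) = 0
      rw [Submodule.mkQ_apply, (Submodule.Quotient.mk_eq_zero N).2 (hle ⟨w, rfl⟩), map_zero]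
    change f ((p : ℤ[X]) • w) = 0 at h1
    rwa [map_smul, hw, hs, mul_one, map_natCast] at h1
  · beta_reduce
    rw [map_mul, ofMul_mul, map_add, map_add]
  · beta_reduce
    rw [← hs, ← map_smul]
    exact congrArg f (Module.AEval'.X_smul_of T (Additive.ofMul (Abelianization.of a))).symm
  · intro y
    obtain ⟨w, rfl⟩ := hf y
    obtain ⟨v, rfl⟩ := o.surjective w
    obtain ⟨d, hd⟩ := QuotientGroup.mk_surjective (Additive.toMul v)
    exact ⟨d, congrArg (fun x => f (o (Additive.ofMul x))) hd⟩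
  · intro S hS
    refine eq_top_iff.2 fun y _ => ?_
    obtain ⟨q, rfl⟩ := Ideal.Quotient.mk_surjective y
    induction q using Polynomial.induction_on' with
    | add a b ha hb => rw [map_add]; exact S.add_mem (ha trivial) (hb trivial)
    | monomial k a =>
      rw [← C_mul_X_pow_eq_monomial, map_mul, map_pow, eq_intCast C a, map_intCast]
      exact S.mul_mem (intCast_mem S a) (S.pow_mem hS k)

theorem aff {G : Type*} [Group G] [Finite G] {n : ℕ} [NeZero n]
    (χ : G →* Multiplicative (ZMod n)) (hk : χ.ker = commutator G) (t : G)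
    (ht : χ t = Multiplicative.ofAdd 1) {p : ℕ} (hp : p.Prime)
    (hd : p ∣ Nat.card (Abelianization (commutator G))) :
    ∃ (F : Type) (_ : Field F) (_ : Finite F) (_ : CharP F p) (β : F) (b : G → F),
      β ≠ 1 ∧ β ^ n = 1 ∧ (∀ g h, b (g * h) = b g + β ^ (χ g).toAdd.val * b h) ∧
      (∀ y, ∃ d, χ d = 1 ∧ b d = y) ∧ ∀ S : Subring F, β ∈ S → S = ⊤ := by
  obtain ⟨F, iF, fF, cF, β, ψ, h1, h2, h3, h4⟩ :=
    aff_field (MulAut.conjNormal t : MulAut (commutator G)) hp hd
  let φ : commutator G →* Multiplicative F :=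
    MonoidHom.mk' (fun d => Multiplicative.ofAdd (ψ d)) fun a b => by rw [h1, ofAdd_add]
  have hφ : ∀ d, (φ d).toAdd = ψ d := fun _ => rfl
  have hp : ∀ (i : ℕ) (d : commutator G), ψ (MulAut.conjNormal (t ^ i) d) = β ^ i * ψ d := by
    intro i
    induction i with
    | zero => intro d; simp
    | succ i ih => intro d; rw [pow_succ, map_mul, MulAut.mul_apply, ih, h2, pow_succ, mul_assoc]
  obtain ⟨d₁, hd₁⟩ := h3 1
  have hβ : β ≠ 1 := by
    rintro rfl
    have h := inv_triv' χ hk t ht φ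
      (fun d => congrArg Multiplicative.ofAdd ((h2 d).trans (one_mul _))) d₁
    exact one_ne_zero (hd₁.symm.trans (congrArg Multiplicative.toAdd h))
  have hn : t ^ n ∈ commutator G := by
    rw [← hk, MonoidHom.mem_ker, map_pow, ht, ← ofAdd_nsmul, nsmul_one, ZMod.natCast_self,
      ofAdd_zero]
  have h0 : ψ ⟨t ^ n, hn⟩ = 0 := by
    have h := h2 ⟨t ^ n, hn⟩
    have e : MulAut.conjNormal t (⟨t ^ n, hn⟩ : commutator G) = ⟨t ^ n, hn⟩ :=
      Subtype.ext (by simp only [MulAut.conjNormal_apply]; group)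
    rw [e] at h
    have h' : (β - 1) * ψ ⟨t ^ n, hn⟩ = 0 := by linear_combination -h
    exact (mul_eq_zero.1 h').resolve_left (sub_ne_zero.2 hβ)
  refine ⟨F, iF, fF, cF, β, fun g => ψ ⟨_, aff_mem χ hk t ht g⟩, hβ, ?_, fun g h => ?_,
    fun y => ?_, h4⟩
  · have h := hp n d₁
    have e : MulAut.conjNormal (t ^ n) d₁ * ⟨t ^ n, hn⟩ = (⟨t ^ n, hn⟩ : commutator G) * d₁ :=
      Subtype.ext (by simp only [Subgroup.coe_mul, MulAut.conjNormal_apply]; group)
    have k := congrArg ψ e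
    rw [h1, h1, h, h0, hd₁] at k
    linear_combination k
  · have e : (⟨_, aff_mem χ hk t ht (g * h)⟩ : commutator G) = ⟨_, aff_mem χ hk t ht g⟩ *
        MulAut.conjNormal (t ^ (χ g).toAdd.val) ⟨_, aff_mem χ hk t ht h⟩ *
          (⟨t ^ n, hn⟩ : commutator G) ^ (((χ g).toAdd.val + (χ h).toAdd.val) / n) := by
      apply Subtype.ext
      simp only [Subgroup.coe_mul, MulAut.conjNormal_apply, SubgroupClass.coe_pow, map_mul,
        toAdd_mul, ZMod.val_add]
      generalize (χ g).toAdd.val = i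
      generalize (χ h).toAdd.val = j
      have k : t ^ (i + j) = (t ^ n) ^ ((i + j) / n) * t ^ ((i + j) % n) := by
        rw [← pow_mul, ← pow_add, Nat.div_add_mod]
      rw [← mul_inv_eq_iff_eq_mul] at k
      rw [← k]
      group
    have k : ∀ c : ℕ, ψ ((⟨t ^ n, hn⟩ : commutator G) ^ c) = 0 := fun c => by
      rw [← hφ, map_pow, toAdd_pow, hφ, h0, smul_zero]
    change ψ _ = ψ _ + _ * ψ _
    rw [e, h1, h1, hp, k, add_zero]
  · obtain ⟨d, rfl⟩ := h3 y
    have hd : χ d = 1 := MonoidHom.mem_ker.1 (hk.ge d.2)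
    exact ⟨d, hd, congrArg ψ (Subtype.ext (by simp [hd]))⟩

end Pool.Agent.SQ2

end MrgPart3

-- marker of a merged file
example : 731051 + 828506 = 731051 + 828506 := rfl
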