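import Pool.Agent.MP_f56020_al.s2.Merge
import Pool.Agent.MP_f56020_al.s2.Fibs
import Pool.Agent.MP_f56020_al.s2.Odd
import Pool.Agent.MP_f56020_al.cy.Cy
import Pool.Agent.MP_f56020_al.s2.Aff

namespace Pool.Agent.SQ2

open Pool.Agent.SQ Multiset

universe u

section aux
variable {G : Type*} [Group G] [Finite G] {O : Subgroup G} {D : Type*} {mul : D → D → D} {e : D}
  {φ : G → D} {X : Multiset G} {S L A0 : Multiset (G × G)}

/-- The closed sequence through seven given elements. -/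
def small_sq (t0 t1 t2 t3 t4 t5 t6 : G) (j : ℕ) : G := [t0, t1, t2, t3, t4, t5, t6].getD j t0

theorem small_lift [DecidableEq D] (h : Mod O mul e φ) {c : ℕ → O → O} (hc : FibC c 7)
    (t0 t1 t2 t3 t4 t5 t6 : G) {lab : List D}
    (hd : FrD mul (fun d => d = e) [φ t0, φ t1, φ t2, φ t3, φ t4, φ t5, φ t6] lab) :
    ∃ L, Two (ou O) (ou O) (sgm (small_sq t0 t1 t2 t3 t4 t5 t6) 0 7) L ∧
      ∀ j < 7, ∀ w : O, w ≠ 1 → ((w : G) * small_sq t0 t1 t2 t3 t4 t5 t6 j,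
        (c j w : G) * small_sq t0 t1 t2 t3 t4 t5 t6 (j + 1)) ∈ L := by
  obtain ⟨f, hf, hv⟩ := h.fr (H := O) (fun g => by simpa using h.ker g) hd (by simp)
  replace hv : ∀ j, φ (f j) = [φ t0, φ t1, φ t2, φ t3, φ t4, φ t5, φ t6].getD (j % 7) e := hv
  refine lift hc (by norm_num) (Fr.congr (f := f) hf (fun j hj => ?_) rfl)
  rw [h.mem_iff, hv]
  interval_cases j <;> rfl

theorem small_odd (ho : Odd (Nat.card O)) {z : G} (hz : z ∈ O) {k : ℕ} (h : z ^ 2 ^ k = 1) :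
    z = 1 := by
  have h1 := orderOf_dvd_of_pow_eq_one h
  have h2 := O.orderOf_dvd_natCard hz
  have h3 : Nat.Coprime (2 ^ k) (Nat.card O) := (Nat.coprime_two_left.2 ho).pow_left k
  exact orderOf_eq_one_iff.1 (Nat.eq_one_of_dvd_coprimes h3 h1 h2)

theorem small_comm (ho : Odd (Nat.card O)) {a b : G} (hz : a * b * (b * a)⁻¹ ∈ O) {k : ℕ}
    (hk : a ^ 2 ^ k ∈ O) (ha : ∀ y ∈ O, a * y = y * a) (hb : ∀ y ∈ O, b * y = y * b) :
    a * b = b * a := by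
  set z := a * b * (b * a)⁻¹ with hzd
  have e1 : a * b = z * (b * a) := by rw [hzd]; group
  have e2 : ∀ n : ℕ, a ^ n * b = z ^ n * (b * a ^ n) := by
    intro n
    induction n with
    | zero => simp
    | succ n ih =>
      rw [pow_succ', mul_assoc, ih, ← mul_assoc, ha _ (pow_mem hz n), mul_assoc, ← mul_assoc a,
        e1, pow_succ z]
      simp only [mul_assoc]
  have e3 := e2 (2 ^ k)
  rw [← hb _ hk, eq_comm, mul_eq_right] at e3
  rw [e1, small_odd ho hz e3, one_mul]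

omit [Finite G] in
theorem small_t42 {A B C η : G} (h : Two X X S L)
    (h1 : Cut4 S A⁻¹ C C (A⁻¹ * B⁻¹ * A * C) (A⁻¹ * B * A * C) (B * η) (B * η) (B * η * B * η))
    (h2 : (B * η * B, B * η * A * C) ∈ L) :
    ∃ W, Wk 1 (A⁻¹ * B⁻¹ * A * B * η) W ∧ hd W = X + {A⁻¹ * B⁻¹ * A * B * η} ∧
      lb W = X + {η} := by
  obtain ⟨-, hL, hh, hl⟩ := h
  obtain ⟨A1, A2, A3, A4, w1, w2, w3, w4, rfl⟩ := h1
  obtain ⟨A5, w5, rfl⟩ := hL.cut h2
  refine ⟨_, ((((((Wk.nil 1).step w3).step w5).step w4).step w2).step w1).step (Wk.nil _), ?_, ?_⟩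
  · rw [← hh]
    simp only [hd_add, hd_one, hd_zero]
    abel
  · rw [← hl]
    simp only [lb_add, lb_one, lb_zero, mul_inv_rev, inv_inv, mul_assoc, inv_mul_cancel_left,
      mul_inv_cancel_left, inv_one, one_mul]
    abel

omit [Finite G] in
theorem small_t222 {a b t u v η : G} (h : Two X X S L)
    (h1 : Cut3 S (u * b * a) (u * b * a * v) t (a * η) (u * b * a * b⁻¹ * a⁻¹ * t) (u * η))
    (h2 : (u * a⁻¹ * t, u * b * v) ∈ L) (h3 : (a, v) ∈ L) (hne : u * a⁻¹ * t ≠ a) :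
    ∃ W, Wk 1 (a * b * a⁻¹ * b⁻¹ * η) W ∧ hd W = X + {a * b * a⁻¹ * b⁻¹ * η} ∧
      lb W = X + {η} := by
  obtain ⟨-, hL, hh, hl⟩ := h
  obtain ⟨A1, A2, A3, w1, w2, w3, rfl⟩ := h1
  obtain ⟨A4, A5, w4, w5, rfl⟩ := hL.cut2 h2 h3 fun e => hne (Prod.mk.inj e).1
  refine ⟨_, ((((((Wk.nil 1).step w5).step w3).step w4).step w2).step w1).step (Wk.nil _), ?_, ?_⟩
  · rw [← hh]
    simp only [hd_add, hd_one, hd_zero]
    abel
  · rw [← hl]
    simp only [lb_add, lb_one, lb_zero, mul_inv_rev, inv_inv, mul_assoc, inv_mul_cancel_left,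
      mul_inv_cancel_left, inv_one, one_mul]
    abel

omit [Finite G] in
theorem small_td8 {Y Z F x η : G} (h : Two X X S L) (hF : F = Z⁻¹ * x * η * Y⁻¹ * Z * η⁻¹ * x⁻¹)
    (h1 : Cut4 S (Y * F * F) (Y * F * F * (Y * F) * Z⁻¹ * x) (x * η * Z⁻¹ * Y * η⁻¹)
      (Y * F * Z⁻¹ * x) (Y * F * Z⁻¹ * x) (Y * F) (Y * F) Y)
    (h2 : (Y * η⁻¹, Z) ∈ L) (h0 : Wk (x * η) x A0) :
    ∃ W, Wk 1 (Y * F) W ∧ hd W = hd A0 + {x * η} + X ∧ lb W = lb A0 + {η} + X := by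
  obtain ⟨-, hL, hh, hl⟩ := h
  obtain ⟨A1, A2, A3, A4, w1, w2, w3, w4, rfl⟩ := h1
  obtain ⟨A5, w5, rfl⟩ := hL.cut h2
  refine ⟨_, ((((((Wk.nil 1).step w2).step w1).step h0).step w5).step w4).step w3, ?_, ?_⟩
  · rw [← hh]
    simp only [hd_add, hd_one, hd_zero]
    abel
  · rw [← hl]
    subst hF
    simp only [lb_add, lb_one, lb_zero, mul_inv_rev, inv_inv, mul_assoc, inv_mul_cancel_left,
      mul_inv_cancel_left, inv_one, one_mul, mul_inv_cancel, inv_mul_cancel, mul_one]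
    abel

end aux

variable {G : Type u} [Group G] [Finite G] {O : Subgroup G}

theorem small_z42 {φ : G → ZMod 4 × ZMod 2} (h : Mod O (mc 4 2 1 0) 0 φ) (hR : RG O) {A B : G}
    (hA : φ A = (3, 1)) (hB : φ B = (3, 1)) (hc : A * B ≠ B * A) : SG G := by
  obtain ⟨c, hc7⟩ := fib_odd hR (m := 7) (by decide)
  obtain ⟨C, hC⟩ := h.surj (3, 0)
  have hA' : φ A⁻¹ = (1, 1) := h.inv (by rw [hA]; decide)
  have hB' : φ B⁻¹ = (1, 1) := h.inv (by rw [hB]; decide)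
  have hn := h.normal
  refine ex_RS hR (κ := A⁻¹ * B⁻¹ * A * B) ?_ (fun e => hc ?_) fun η hη h1 => ?_
  · rw [h.ker]
    simp only [h.map_mul, hA, hB, hA', hB']
    decide
  · calc A * B = B * A * (A⁻¹ * B⁻¹ * A * B) := by group
      _ = B * A := by rw [e, mul_one]
  have h0 := (h.ker η).1 hη
  let w : O := ⟨B * η * B * η⁻¹ * (B * η * B)⁻¹, hn.conj_mem _ (inv_mem hη) _⟩
  have hw : w ≠ 1 := fun e => h1 (inv_eq_one.1 (conj_eq_one_iff.1 (congrArg Subtype.val e)))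
  have hk := (h.ker _).1 (inv_mem (c 6 w).2)
  obtain ⟨L, hT, hL⟩ := small_lift h hc7 ((c 6 w : G)⁻¹ * (B * η * A * C)) A⁻¹ C
    (A⁻¹ * B⁻¹ * A * C) (A⁻¹ * B * A * C) (B * η) (B * η * B * η)
    (lab := [(0, 1), (2, 1), (1, 1), (2, 0), (1, 0), (3, 1), (3, 0)]) (by
      simp only [h.map_mul, hA, hB, hA', hB', hC, h0, hk]
      exact FrD.of (by decide))
  refine small_t42 hT (cut4_sgm (i := 1) (j := 2) (k := 4) (l := 5) rfl (by norm_num) (by norm_num)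
    (by norm_num) (by norm_num)) ?_
  have h6 := hL 6 (by norm_num) w hw
  have e1 : (w : G) * (B * η * B * η) = B * η * B := by simp only [w]; group
  simpa [small_sq, e1] using h6

theorem top_z42 {φ : G → ZMod 4 × ZMod 2} (h : Mod O (mc 4 2 1 0) 0 φ) (ho : Odd (Nat.card O))
    (hR : RG O) (hc : ¬ Cm G) : SG G := by
  by_contra hS
  have hn := h.normal
  have c1 : ∀ A B, φ A = (3, 1) → φ B = (3, 1) → A * B = B * A := fun A B hA hB => by
    by_contra e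
    exact hS (small_z42 h hR hA hB e)
  have c2 : ∀ A B, φ A = (3, 0) → φ B = (3, 0) → A * B = B * A := fun A B hA hB => by
    by_contra e
    exact hS (small_z42 (h.equiv (mul' := mc 4 2 1 0) (e' := 0)
      (fun d => (d.1, (d.1.val : ZMod 2) + d.2)) (by decide) (by decide) (by decide)) hR
      (by simp only [Function.comp, hA]; decide) (by simp only [Function.comp, hB]; decide) e)
  have c3 : ∀ d, (∀ A B, φ A = d → φ B = d → A * B = B * A) → ∀ A, φ A = d →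
      ∀ y ∈ O, A * y = y * A := fun d hd A hA y hy => by
    have := hd A (y * A) hA (by rw [h.map_mul, (h.ker y).1 hy, h.one_mul, hA])
    rwa [← mul_assoc, mul_left_inj] at this
  obtain ⟨r, hr⟩ := h.surj (3, 1)
  obtain ⟨s, hs⟩ := h.surj (3, 0)
  obtain ⟨k, hk, l, hl, hne⟩ := nc_lift (M := O) r s (fun g => by
    have : ∀ d, ∃ i < 2, ∃ j < 4, d = mc 4 2 1 0 ((mc 4 2 1 0 (3, 1))^[i] 0)
        ((mc 4 2 1 0 (3, 0))^[j] 0) := by decide
    obtain ⟨i, -, j, -, e⟩ := this (φ g)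
    exact ⟨i, j, by rw [h.mem_iff, h.map_mul, h.pow, h.pow, hr, hs, e]⟩) hc
  have hA : φ (k * r) = (3, 1) := by rw [h.map_mul, (h.ker k).1 hk, h.one_mul, hr]
  have hB : φ (l * s) = (3, 0) := by rw [h.map_mul, (h.ker l).1 hl, h.one_mul, hs]
  refine hne (small_comm ho (k := 2) ?_ ?_ (c3 _ c1 _ hA) (c3 _ c2 _ hB))
  · rw [h.mem_iff, h.map_mul, h.map_mul (l * s), hA, hB]
    decide
  · rw [h.ker, h.pow, hA]
    decide

theorem small_frd : ∀ α υ : (ZMod 2 × ZMod 2) × ZMod 2, α ≠ 0 → υ ≠ 0 → υ ≠ α → ∃ θ,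
    cF (· + ·) (fun d => d = 0) [υ + α, α + θ, υ + α + θ, θ, α, υ + θ, υ]
      [υ + θ, υ, υ + α, θ + α, α + υ + θ, θ, α] = true ∧ υ + θ ≠ 0 := by
  decide +kernel

theorem small_z222 {φ : G → (ZMod 2 × ZMod 2) × ZMod 2} (h : Mod O (· + ·) 0 φ) (hR : RG O)
    {a b u0 : G} (ha : φ a ≠ 0) (hb : b ∈ O) (hc : a * b ≠ b * a) (hu : φ u0 ≠ 0)
    (hua : φ u0 ≠ φ a) (hi : ∀ u, φ u = φ u0 → ∃ y ∈ O, y * u * y ≠ u) : SG G := by
  obtain ⟨c, hc7⟩ := fib_odd hR (m := 7) (by decide)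
  obtain ⟨θ, hθ, hθ'⟩ := small_frd _ _ ha hu hua
  obtain ⟨t, rfl⟩ := h.surj θ
  have two : ∀ d : (ZMod 2 × ZMod 2) × ZMod 2, d + d = 0 := by decide
  have hinv : ∀ g, φ g⁻¹ = φ g := fun g => h.inv (two _)
  have hm : ∀ x y, φ (x * y) = φ x + φ y := h.map_mul
  have hn := h.normal
  have hb0 := (h.ker b).1 hb
  refine ex_RS hR (κ := a * b * a⁻¹ * b⁻¹) (mul_mem (hn.conj_mem _ hb _) (inv_mem hb))
    (fun e => hc ?_) fun η hη h1 => ?_
  · calc a * b = a * b * a⁻¹ * b⁻¹ * (b * a) := by group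
      _ = b * a := by rw [e, one_mul]
  have h0 := (h.ker η).1 hη
  let w : O := ⟨a * η⁻¹ * a⁻¹, hn.conj_mem _ (inv_mem hη) _⟩
  have hw : w ≠ 1 := fun e => h1 (inv_eq_one.1 (conj_eq_one_iff.1 (congrArg Subtype.val e)))
  have hk := (h.ker _).1 (c 4 w).2
  obtain ⟨u, hu1, hu2⟩ : ∃ u, φ u = φ u0 ∧ u * b * c 4 w * u * b * a * b⁻¹ * a⁻¹ ≠ 1 := by
    by_contra hcon
    push Not at hcon
    obtain ⟨y, hy, hy'⟩ := hi (u0 * b * c 4 w) (by rw [hm, hm, hb0, hk, add_zero, add_zero])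
    have e1 := hcon u0 rfl
    have e2 := hcon (y * u0) (by rw [hm, (h.ker y).1 hy, zero_add])
    apply hy'
    calc y * (u0 * b * c 4 w) * y =
          (y * u0 * b * c 4 w * (y * u0) * b * a * b⁻¹ * a⁻¹) * (u0 * b * a * b⁻¹ * a⁻¹)⁻¹ := by
          group
      _ = (u0 * b * c 4 w * u0 * b * a * b⁻¹ * a⁻¹) * (u0 * b * a * b⁻¹ * a⁻¹)⁻¹ := by
          rw [e1, e2]
      _ = u0 * b * c 4 w := by group
  set v : G := c 4 w * (u * b * a * b⁻¹ * a⁻¹ * t) with hv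
  have hvφ : φ v = φ u0 + φ t := by
    simp only [hv, hm, hinv, hk, hb0, hu1]
    linear_combination two (φ a)
  let z : O := ⟨u * b * v * t⁻¹, by
    rw [h.mem_iff]
    simp only [hm, hb0, hu1, hvφ]
    linear_combination two (φ u0)⟩
  have hz : z ≠ 1 := fun e => hu2 (by
    have e' : u * b * v * t⁻¹ = 1 := congrArg Subtype.val e
    rw [← e', hv]
    group)
  obtain ⟨w', hw'⟩ := (hc7.orth 2).1.2 z
  have hw1 : w' ≠ 1 := fun e => hz (by rw [← hw', e, hc7.one])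
  have hk' := (h.ker _).1 w'.2
  obtain ⟨L, hT, hL⟩ := small_lift h hc7 (u * b * a) (u * b * a * v)
    ((w' : G)⁻¹ * (u * a⁻¹ * t)) t (a * η) (u * b * a * b⁻¹ * a⁻¹ * t) (u * η)
    (lab := [φ u0 + φ t, φ u0, φ u0 + φ a, φ t + φ a, φ a + φ u0 + φ t, φ t, φ a]) (by
      have e1 : φ (u * b * a * v) = φ a + φ t := by
        simp only [hm, hb0, hu1, hvφ]
        linear_combination two (φ u0)
      have e5 : φ (u * b * a * b⁻¹ * a⁻¹ * t) = φ u0 + φ t := by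
        simp only [hm, hinv, hb0, hu1]
        linear_combination two (φ a)
      rw [e1, e5]
      simp only [hm, hinv, hb0, hu1, h0, hk', add_zero, zero_add]
      exact FrD.of hθ)
  refine small_t222 (a := a) (b := b) (t := t) (u := u) (v := v) hT (cut3_sgm (i := 0) (j := 3) (k := 5) rfl
    (by norm_num) (by norm_num) (by norm_num)) ?_ ?_ fun e => hθ' ?_
  · have h2 := hL 2 (by norm_num) w' hw1
    rw [hw'] at h2
    simpa [small_sq, z] using h2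
  · have h4 := hL 4 (by norm_num) w hw
    have e1 : (w : G) * (a * η) = a := by simp only [w]; group
    simpa [small_sq, e1] using h4
  · have e1 := congrArg φ e
    simp only [hm, hinv, hu1] at e1
    linear_combination e1

theorem top_z222 {φ : G → (ZMod 2 × ZMod 2) × ZMod 2} (h : Mod O (· + ·) 0 φ)
    (ho : Odd (Nat.card O)) (hR : RG O) (hc : ¬ Cm G) : SG G := by
  have two : ∀ d : (ZMod 2 × ZMod 2) × ZMod 2, d + d = 0 := by decide
  have hinv : ∀ g, φ g⁻¹ = φ g := fun g => h.inv (two _)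
  have hm : ∀ x y, φ (x * y) = φ x + φ y := h.map_mul
  obtain ⟨a, ha, b, hb, hab⟩ : ∃ a, φ a ≠ 0 ∧ ∃ b ∈ O, a * b ≠ b * a := by
    by_contra hcon
    push Not at hcon
    have c1 : ∀ g, ∀ y ∈ O, g * y = y * g := fun g y hy => by
      by_cases hg : φ g = 0
      · obtain ⟨s, hs⟩ := h.surj ((1, 0), 0)
        have e1 := hcon s⁻¹ (by rw [hinv, hs]; decide) y hy
        have e2 := hcon (s * g) (by rw [hm, hs, hg]; decide) y hy
        calc g * y = s⁻¹ * (s * g * y) := by group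
          _ = s⁻¹ * y * (s * g) := by rw [e2, mul_assoc]
          _ = y * g := by rw [e1]; group
      · exact hcon g hg y hy
    refine hc fun x y => small_comm ho (k := 1) ?_ ?_ (c1 x) (c1 y)
    · rw [h.mem_iff, hm, hm, add_comm]
    · rw [h.ker, pow_one, sq, hm, two]
  by_contra hS
  have c2 : ∀ d, d ≠ 0 → d ≠ φ a → ∃ u, φ u = d ∧ ∀ y ∈ O, y * u * y = u := fun d h1 h2 => by
    by_contra hcon
    push Not at hcon
    obtain ⟨u0, rfl⟩ := h.surj d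
    exact hS (small_z222 h hR ha hb hab h1 h2 hcon)
  obtain ⟨p, q, k1, k2, k3, k4, k5, k6⟩ := (by decide : ∀ α : (ZMod 2 × ZMod 2) × ZMod 2,
    ∃ p q : (ZMod 2 × ZMod 2) × ZMod 2, p ≠ 0 ∧ p ≠ α ∧ q ≠ 0 ∧ q ≠ α ∧ p + q ≠ 0 ∧ p + q ≠ α)
    (φ a)
  obtain ⟨u1, e1, i1⟩ := c2 p k1 k2
  obtain ⟨u2, e2, i2⟩ := c2 q k3 k4
  obtain ⟨u3, e3, i3⟩ := c2 (p + q) k5 k6
  have cm : ∀ x ∈ O, ∀ y ∈ O, x * y = y * x := fun x hx y hy => by
    have f1 := i1 _ (mul_mem hx hy)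
    have f2 : x * (y * u1 * y) * x = u1 := by rw [i1 y hy, i1 x hx]
    have f3 : x * y * u1 * (x * y) = x * y * u1 * (y * x) := by
      rw [f1]
      exact f2.symm.trans (by group)
    exact mul_left_cancel f3
  have hk : u3 * (u1 * u2)⁻¹ ∈ O := by rw [h.mem_iff, hm, e1, e2, e3]
  have f1 : b * u3 = u3 * b := by
    have g1 : b * (u1 * u2) = u1 * u2 * b := by
      calc b * (u1 * u2) = b * u1 * (b * u2 * b) := by rw [i2 b hb, mul_assoc]
        _ = b * u1 * b * u2 * b := by group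
        _ = u1 * u2 * b := by rw [i1 b hb]
    calc b * u3 = b * (u3 * (u1 * u2)⁻¹) * (u1 * u2) := by group
      _ = u3 * (u1 * u2)⁻¹ * (b * (u1 * u2)) := by rw [cm b hb _ hk, mul_assoc]
      _ = u3 * b := by rw [g1]; group
  have f2 : b ^ 2 ^ 1 = 1 := by
    have := i3 b hb
    rw [f1, mul_assoc, mul_eq_left] at this
    rwa [pow_one, sq]
  exact hab (by rw [small_odd ho hb f2, mul_one, one_mul])

theorem top_d8 {φ : G → ZMod 4 × ZMod 2} (h : Mod O (mc 4 2 3 0) 0 φ) (hR : RG O) (hO : O ≠ ⊥) :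
    SG G := by
  obtain ⟨c, hc7⟩ := fib_odd hR (m := 7) (by decide)
  obtain ⟨⟨η, hη⟩, h1⟩ := Subgroup.ne_bot_iff_exists_ne_one.1 hO
  replace h1 : η ≠ 1 := fun e => h1 (Subtype.ext e)
  obtain ⟨x, hx, A0, w0, hh, hl⟩ := rg_arc hR hη h1
  obtain ⟨Y, hY⟩ := h.surj (1, 0)
  obtain ⟨Z, hZ⟩ := h.surj (0, 1)
  have hY' : φ Y⁻¹ = (3, 0) := h.inv (by rw [hY]; decide)
  have hZ' : φ Z⁻¹ = (0, 1) := h.inv (by rw [hZ]; decide)
  have hn := h.normal
  have h0 := (h.ker _).1 hη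
  have h0' := (h.ker _).1 (inv_mem hη)
  have hx0 := (h.ker _).1 hx
  have hx0' := (h.ker _).1 (inv_mem hx)
  let w : O := ⟨Y * η⁻¹ * Y⁻¹, hn.conj_mem _ (inv_mem hη) _⟩
  have hw : w ≠ 1 := fun e => h1 (inv_eq_one.1 (conj_eq_one_iff.1 (congrArg Subtype.val e)))
  have hk := (h.ker _).1 (inv_mem (c 0 w).2)
  obtain ⟨F, hF⟩ : ∃ F, F = Z⁻¹ * x * η * Y⁻¹ * Z * η⁻¹ * x⁻¹ := ⟨_, rfl⟩
  have hFφ : φ F = (1, 0) := by
    simp only [hF, h.map_mul, hY', hZ, hZ', h0, h0', hx0, hx0']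
    decide
  obtain ⟨L, hT, hL⟩ := small_lift h hc7 Y ((c 0 w : G)⁻¹ * Z) (Y * F * F)
    (Y * F * F * (Y * F) * Z⁻¹ * x) (x * η * Z⁻¹ * Y * η⁻¹) (Y * F * Z⁻¹ * x) (Y * F)
    (lab := [(3, 1), (1, 1), (2, 1), (2, 0), (1, 0), (0, 1), (3, 0)]) (by
      simp only [h.map_mul, hY, hZ, hZ', hFφ, h0, h0', hx0, hk]
      exact FrD.of (by decide))
  obtain ⟨W, k1, k2, k3⟩ := small_td8 hT hF (cut4_sgm (i := 2) (j := 4) (k := 5) (l := 6) rfl
    (by norm_num) (by norm_num) (by norm_num) (by norm_num)) (by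
      have h2 := hL 0 (by norm_num) w hw
      simpa [small_sq, w] using h2) w0
  exact sg_of_one (H := O) k1 (by rw [k2, hh]) (by rw [k3, hl])

end Pool.Agent.SQ2
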