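import Pool.Agent.MP_f56020_al.s2.Cyc
import Pool.Agent.MP_f56020_al.s2.Odd
import Pool.Agent.MP_f56020_al.s2.Small
import Pool.Agent.MP_f56020_al.s2.A4
import Pool.Agent.MP_f56020_al.s2.Df

namespace Pool.Agent.SQ2

open Pool.Agent.SQ Multiset

universe u

namespace NCase

variable {G : Type u} [Group G] [Finite G] {O : Subgroup G}

/-- The conclusion of the induction step. -/
def Go (G : Type u) [Group G] [Finite G] : Prop :=
  (¬ Q8x G → RG G) ∧ (¬ Cm G → Nat.card G ≠ 8 → SG G)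

theorem Go.of (h : RG G ∧ (¬ Cm G → SG G)) : Go G := ⟨fun _ => h.1, fun hc _ => h.2 hc⟩

theorem Go.of' (h : RG G ∧ SG G) : Go G := ⟨fun _ => h.1, fun _ _ => h.2⟩

omit [Finite G] in
theorem card_bot {D : Type*} {mul : D → D → D} {e : D} {φ : G → D} (h : Mod ⊥ mul e φ) :
    Nat.card G = Nat.card D := by
  rw [← h.index, Subgroup.index_bot]

omit [Finite G] in
theorem inj_bot {D : Type*} {mul : D → D → D} {e : D} {φ : G → D} (h : Mod ⊥ mul e φ) {a b : G}
    (hab : φ a = φ b) : a = b := by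
  have := h.mem_iff.2 hab
  rwa [Subgroup.mem_bot, mul_inv_eq_one] at this

omit [Finite G] in
theorem cm_bot {D : Type*} {mul : D → D → D} {e : D} {φ : G → D} (h : Mod ⊥ mul e φ)
    (hc : ∀ x y, mul x y = mul y x) : Cm G := fun a b =>
  inj_bot h (by rw [h.map_mul, h.map_mul, hc])

/-- An abelian top over a kernel of odd order. -/
theorem ab_top {D : Type*} [DecidableEq D] {mul : D → D → D} {e : D} {φ : G → D} {m N : ℕ}
    {u v : D} (h : Mod O mul e φ) (hR : RG O) (hm : Odd m) (h8 : D8 mul e (fun d => d = e) m)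
    (h3 : D3 mul e (fun d => d = e) m u v e) (hc : ∀ x y, mul x y = mul y x)
    (hg : Gen2 mul e u v N) : Go G := by
  refine Go.of ⟨topR h hR hm h8, fun hn => ?_⟩
  have hO : O ≠ ⊥ := by
    rintro rfl
    exact hn (cm_bot h hc)
  refine topA (H := O) (B := fun d => d = e) h (fun g => by simpa using h.ker g) (fib_odd hR hm) hO
    le_rfl hR (hc u v) hg (Or.inl fun x hx => ?_) hn
  obtain rfl : x = e := by simpa using hx
  exact h3

theorem case0 {r c : ZMod 2} {φ : G → ZMod 2 × ZMod 2} (h : Mod O (mc 2 2 r c) 0 φ)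
    (hT : McT 2 0 r c) (hR : RG O) : Go G := by
  obtain ⟨rfl, rfl⟩ : r = 1 ∧ c = 0 := by
    rcases hT with h | h | h | h
    · exact h
    · omega
    · omega
    · omega
  have e : mc 2 2 1 0 = (· + ·) := by
    funext x y
    revert x y
    decide
  rw [e] at h
  obtain ⟨ψ, h1, rfl, -⟩ := h.toHom
  exact Go.of (top_v4 ψ h1 hR)

variable [Group.IsSolvable G]

theorem case1 {r c : ZMod 4} {φ : G → ZMod 4 × ZMod 2} {σ : ZMod 4 × ZMod 2 → G}
    (h : Spl O (mc 4 2 r c) 0 φ σ) (hT : McT 4 1 r c) (ho : Odd (Nat.card O)) (hR : RG O) :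
    Go G := by
  have h8 : O = ⊥ → Nat.card G = 8 := by
    rintro rfl
    rw [card_bot h.mod]
    simp
  have : (r = 1 ∧ c = 0) ∨ (r = 3 ∧ c = 0) ∨ (r = 3 ∧ c = 2) := by
    rcases hT with h | h | ⟨-, rfl, rfl | rfl⟩ | h
    · exact Or.inl h
    · omega
    · decide
    · decide
    · omega
  rcases this with ⟨rfl, rfl⟩ | ⟨rfl, rfl⟩ | ⟨rfl, rfl⟩
  · exact Go.of ⟨topR h.mod hR (by decide) d8_z42, top_z42 h.mod ho hR⟩
  · exact ⟨fun _ => topR h.mod hR (by decide) d8_d8, fun _ hn => top_d8 h.mod hR fun e => hn (h8 e)⟩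
  · by_cases hO : O = ⊥
    · refine ⟨fun hn => absurd ⟨h8 hO, σ (2, 0), fun g hg => ?_⟩ hn, fun _ hn => absurd (h8 hO) hn⟩
      subst hO
      have h1 : mc 4 2 3 2 (φ g) (φ g) = 0 := by rw [← h.mod.map_mul, hg, h.mod.one]
      have h2 : ∀ d : ZMod 4 × ZMod 2, mc 4 2 3 2 d d = 0 → d = 0 ∨ d = (2, 0) := by decide
      rcases h2 _ h1 with h3 | h3
      · exact Or.inl (inj_bot h.mod (by rw [h3, h.mod.one]))
      · exact Or.inr (inj_bot h.mod (by rw [h3, h.sec]))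
    · exact Go.of' (top_q8 h ho hR hO)

theorem case2 {r c : ZMod 8} {φ : G → ZMod 8 × ZMod 2} (h : Mod O (mc 8 2 r c) 0 φ)
    (hT : McT 8 2 r c) (ho : Odd (Nat.card O)) (hR : RG O) : Go G := by
  have : (r = 1 ∧ c = 0) ∨ (r = 5 ∧ c = 0) ∨ (r = 7 ∧ c = 0) ∨ (r = 7 ∧ c = 4) ∨
      (r = 3 ∧ c = 0) := by
    rcases hT with h | ⟨-, rfl, rfl⟩ | ⟨-, rfl, rfl | rfl⟩ | ⟨-, rfl, rfl⟩
    · exact Or.inl h
    all_goals decide
  rcases this with ⟨rfl, rfl⟩ | ⟨rfl, rfl⟩ | ⟨rfl, rfl⟩ | ⟨rfl, rfl⟩ | ⟨rfl, rfl⟩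
  · exact ab_top (N := 8) h hR (by decide) d8_z82 d3_z82 (by decide +kernel)
      (by unfold Gen2; decide +kernel)
  · exact Go.of' (topO h ho hR do_m16)
  · exact Go.of' (topO h ho hR do_d16)
  · exact Go.of' (topO h ho hR do_q16)
  · exact Go.of' (topO h ho hR do_sd16)

theorem case3 {r c : ZMod 16} {φ : G → ZMod 16 × ZMod 2} (h : Mod O (mc 16 2 r c) 0 φ)
    (hT : McT 16 3 r c) (ho : Odd (Nat.card O)) (hR : RG O) : Go G := by
  have : (r = 1 ∧ c = 0) ∨ (r = 9 ∧ c = 0) ∨ (r = 15 ∧ c = 0) ∨ (r = 15 ∧ c = 8) ∨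
      (r = 7 ∧ c = 0) := by
    rcases hT with h | ⟨-, rfl, rfl⟩ | ⟨-, rfl, rfl | rfl⟩ | ⟨-, rfl, rfl⟩
    · exact Or.inl h
    all_goals decide
  rcases this with ⟨rfl, rfl⟩ | ⟨rfl, rfl⟩ | ⟨rfl, rfl⟩ | ⟨rfl, rfl⟩ | ⟨rfl, rfl⟩
  · exact ab_top (N := 16) h hR (by decide) d8_z162 d3_z162 (by decide +kernel)
      (by unfold Gen2; decide +kernel)
  · exact Go.of' (topO h ho hR do_m32)
  · exact Go.of' (topO h ho hR do_d32)
  · exact Go.of' (topO h ho hR do_q32)
  · exact Go.of' (topO h ho hR do_sd32)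

theorem case16 (ih : IH G) {n k : ℕ} [NeZero n] (hn : n = 2 ^ (k + 1)) (hk : 4 ≤ k) {r : ZMod n}
    (hr : r = 1 ∨ r = 1 + 2 ^ k) {φ : G → ZMod n × ZMod 2} {σ : ZMod n × ZMod 2 → G}
    (h : Spl O (mc n 2 r 0) 0 φ σ) : Go G := by
  have d16 : 16 ∣ 2 ^ k := (pow_dvd_pow 2 hk : 2 ^ 4 ∣ 2 ^ k)
  have hd : 16 ∣ n := hn ▸ d16.trans (pow_dvd_pow 2 (Nat.le_succ k))
  let f := ZMod.castHom hd (ZMod 16)
  have fk : f (2 ^ k) = 0 := by
    have : ((2 ^ k : ℕ) : ZMod 16) = 0 := (ZMod.natCast_eq_zero_iff _ _).2 d16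
    rw [map_pow, map_ofNat]
    exact_mod_cast this
  have fr : f r = 1 := by
    rcases hr with rfl | rfl
    · exact map_one f
    · rw [_root_.map_add, map_one, fk, add_zero]
  have fi : ∀ (j : ℕ) (y : ZMod n), f ((r * ·)^[j] y) = f y := fun j y => by
    induction j with
    | zero => rfl
    | succ j ih => rw [Function.iterate_succ_apply', map_mul, fr, one_mul, ih]
  obtain ⟨M, -, hM⟩ := h.mod.map (mul' := (· + ·)) (e' := (0 : ZMod 16)) (fun d => f d.1)
    (fun w => by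
      obtain ⟨y, hy⟩ := ZMod.castHom_surjective hd w
      exact ⟨(y, 0), hy⟩)
    (fun x y => by simp only [mc, xm, ite_self, add_zero, _root_.map_add, fi]) (map_zero f)
  have n0 : ((2 ^ (k + 1) : ℕ) : ZMod n) = 0 := by rw [← hn]; exact ZMod.natCast_self n
  have e1 : (2 ^ k : ZMod n) + 2 ^ k = 0 := by
    rw [← n0]; push_cast; ring
  have e2 : r * 2 ^ k = 2 ^ k := by
    rcases hr with rfl | rfl
    · exact one_mul _
    · obtain ⟨j, rfl⟩ : ∃ j, k = j + 1 := ⟨k - 1, by omega⟩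
      linear_combination (2 ^ j : ZMod n) * e1
  have e3 : (2 ^ k : ZMod n) ≠ 0 := by
    intro h0
    have h1 : ((2 ^ k : ℕ) : ZMod n) = 0 := by exact_mod_cast h0
    rw [ZMod.natCast_eq_zero_iff, hn] at h1
    have := (Nat.pow_dvd_pow_iff_le_right (by norm_num : 1 < 2)).1 h1
    omega
  have v1 : (1 : ZMod 2).val = 1 := rfl
  have inj : ∀ {x y}, σ x = σ y → x = y := fun {x y} e => by rw [← h.sec x, e, h.sec]
  have hK : NC M := by
    refine nc_of_pair (a := σ (2 ^ k, 0)) (b := σ (0, 1)) ?_ ?_ ?_ ?_ ?_ ?_ ?_ ?_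
    · rw [hM.ker, Function.comp_apply, h.sec]; exact fk
    · rw [hM.ker, Function.comp_apply, h.sec]; exact map_zero f
    · rw [← h.mul, ← h.one]
      congr 1
      simp [mc, xm, e1]
    · rw [← h.mul, ← h.one]
      congr 1
      refine Prod.ext (by simp [mc, xm, v1]) (by simp only [mc, xm]; rfl)
    · rw [← h.mul, ← h.mul]
      congr 1
      simp [mc, xm, v1, e2]
    · rw [← h.one]
      exact fun e => e3 (congrArg Prod.fst (inj e))
    · rw [← h.one]
      exact fun e => absurd (congrArg Prod.snd (inj e)) (by decide : (1 : ZMod 2) ≠ 0)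
    · exact fun e => e3 (congrArg Prod.fst (inj e))
  obtain ⟨ψ, h1, rfl, -⟩ := hM.toHom
  exact Go.of (top_z16 ih ψ h1 hK)

end NCase

open NCase in
theorem ncase {G : Type u} [Group G] [Finite G] [Group.IsSolvable G] (ih : IH G) (hn : NN G) :
    Good G := by
  intro hG
  change Go G
  obtain ⟨O, P, hO, ho, hP, hc, hcy⟩ := hn.split
  have hcy := hcy hG
  have hR : RG O := rg_odd O ho
  rcases two_group P hP hcy with ⟨φ, hφ, a, b, ha, hb, h1, h2, h3, h4, h5, h6⟩ | ⟨σ, hσ, hm⟩ |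
    ⟨a, ha⟩
  · obtain ⟨π, hπ⟩ := Spl.of (mul := (· * ·)) (e := (1 : P)) hc id Function.bijective_id
      (fun _ _ => rfl) rfl
    let ρ : G →* P := MonoidHom.mk' π hπ.mod.map_mul
    have hs : Function.Surjective (φ.comp ρ) := hφ.comp hπ.mod.surj
    have hk : ∀ x : P, φ x = 1 → (x : G) ∈ (φ.comp ρ).ker := fun x hx => by
      have : π x = x := hπ.sec x
      change φ (π x) = 1
      rw [this, hx]
    have hK : NC (φ.comp ρ).ker :=
      nc_of_pair (hk a ha) (hk b hb) (congrArg Subtype.val h1) (congrArg Subtype.val h2)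
        (congrArg Subtype.val h3) (fun e => h4 (Subtype.ext e)) (fun e => h5 (Subtype.ext e))
        fun e => h6 (Subtype.ext e)
    have ht : (φ.comp ρ).ker ≠ ⊤ := fun e => by
      obtain ⟨g, hg⟩ := hs (Multiplicative.ofAdd (1, 0))
      have : g ∈ (φ.comp ρ).ker := e ▸ Subgroup.mem_top g
      rw [MonoidHom.mem_ker, hg] at this
      exact absurd this (by decide)
    refine Go.of (top_v4 _ hs ((ih _ (card_lt ht) hK).1 ?_))
    rintro ⟨-, z, hz⟩
    have k0 : ∀ x : P, φ x = 1 → x * x = 1 → x ≠ 1 → (x : G) = z := fun x hx e ne => by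
      have e' : (x : G) * x = 1 := congrArg Subtype.val e
      rcases hz ⟨x, hk x hx⟩ (Subtype.ext e') with k1 | k1
      · have k2 : (x : G) = 1 := congrArg (fun y : (φ.comp ρ).ker => (y : G)) k1
        exact absurd (Subtype.ext k2) ne
      · exact congrArg (fun y : (φ.comp ρ).ker => (y : G)) k1
    exact h6 (Subtype.ext ((k0 a ha h1 h4).trans (k0 b hb h2 h5).symm))
  · have h0 : σ 0 = 1 := by
      have := hm 0 0
      rw [add_zero] at this
      exact left_eq_mul.1 this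
    obtain ⟨φ, h⟩ := Spl.of (mul := (· + ·)) (e := 0) hc σ hσ hm h0
    exact Go.of ⟨topR h.mod hR (by decide) d8_z222, top_z222 h.mod ho hR⟩
  · obtain ⟨n, k, _, r, c, σ, hn, hT, hσ, hm, h0⟩ := mc_form P hP hcy ha
    obtain ⟨φ, h⟩ := Spl.of hc σ hσ hm h0
    rcases (by omega : k = 0 ∨ k = 1 ∨ k = 2 ∨ k = 3 ∨ 4 ≤ k) with rfl | rfl | rfl | rfl | hk
    · obtain rfl : n = 2 := hn
      exact case0 h.mod hT hR
    · obtain rfl : n = 4 := hn
      exact case1 h hT ho hR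
    · obtain rfl : n = 8 := hn
      exact case2 h.mod hT ho hR
    · obtain rfl : n = 16 := hn
      exact case3 h.mod hT ho hR
    · rcases hT with ⟨hr, rfl⟩ | ⟨-, hr, rfl⟩ | ⟨-, hr⟩ | ⟨-, hr⟩
      · exact case16 ih hn hk (Or.inl hr) h
      · exact case16 ih hn hk (Or.inr hr) h
      · exact Go.of' (top_df ih hn hk (Or.inl hr) h ho)
      · exact Go.of' (top_df ih hn hk (Or.inr hr) h ho)

end Pool.Agent.SQ2
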