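import Mathlib.Tactic.Monotonicity.Lemmas
import Pool.Agent.MP_f56020_al.s2.A4
import Pool.Agent.MP_f56020_al.cy.Cy

namespace Pool.Agent.SQ2

open Pool.Agent.SQ Multiset

universe u

section general
variable {E : Type*} [Group E] {M : Subgroup E} {φ : E → ZMod 3 × ZMod 2} {t w : E}

theorem s4_snd (h : Mod M (mc 3 2 2 0) 0 φ) (a b : E) : (φ (a * b)).2 = (φ a).2 + (φ b).2 := by
  rw [h.map_mul]; rfl

theorem s4_ind' (h : Mod M (mc 3 2 2 0) 0 φ) (ht : φ t = (1, 0)) (P : E → Prop)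
    (hmul : ∀ a b, P a → P b → P (a * b)) (hM : ∀ m ∈ M, P m) (Pt : P t) (g : E)
    (hg : (φ g).2 = 0) : P g := by
  have key : ∀ u, P u → φ g = φ u → P g := fun u hu e => by
    simpa using hmul _ _ (hM _ (h.mem_iff.2 e)) hu
  have h3 : ∀ d : ZMod 3 × ZMod 2, d.2 = 0 →
      d = 0 ∨ d = (1, 0) ∨ d = mc 3 2 2 0 (1, 0) (1, 0) := by decide
  rcases h3 _ hg with e | e | e
  · exact hM _ ((h.ker g).2 e)
  · exact key t Pt (e.trans ht.symm)
  · exact key (t * t) (hmul _ _ Pt Pt) (by rw [h.map_mul, ht, e])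

theorem s4_split (h : Mod M (mc 3 2 2 0) 0 φ) (hw : (φ w).2 = 1) (g : E) :
    (φ g).2 = 0 ∨ (φ (g * w⁻¹)).2 = 0 := by
  have h1 := s4_snd h (g * w⁻¹) w
  rw [inv_mul_cancel_right, hw] at h1
  have h2 : ∀ a b : ZMod 2, a = b + 1 → a = 0 ∨ b = 0 := by decide
  exact h2 _ _ h1

theorem s4_ind (h : Mod M (mc 3 2 2 0) 0 φ) (ht : φ t = (1, 0)) (hw : (φ w).2 = 1) (P : E → Prop)
    (hmul : ∀ a b, P a → P b → P (a * b)) (hM : ∀ m ∈ M, P m) (Pt : P t) (Pw : P w) (g : E) :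
    P g := by
  rcases s4_split h hw g with e | e
  · exact s4_ind' h ht P hmul hM Pt g e
  · simpa using hmul _ _ (s4_ind' h ht P hmul hM Pt _ e) Pw

theorem s4_wt (h : Mod M (mc 3 2 2 0) 0 φ) (ht : φ t = (1, 0)) (hw : φ w = (0, 1)) :
    w * t * w⁻¹ * t ∈ M := by
  have h1 : φ w⁻¹ = (0, 1) := h.inv (by rw [hw]; decide)
  rw [h.ker, h.map_mul, h.map_mul, h.map_mul, h1, ht, hw]
  decide

theorem s4_ww (h : Mod M (mc 3 2 2 0) 0 φ) (hw : (φ w).2 = 1) : w * w ∈ M := by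
  have h1 : ∀ d : ZMod 3 × ZMod 2, d.2 = 1 → mc 3 2 2 0 d d = 0 := by decide
  rw [h.ker, h.map_mul]
  exact h1 _ hw

theorem s4_t3 (h : Mod M (mc 3 2 2 0) 0 φ) (ht : φ t = (1, 0)) : t ^ 3 ∈ M := by
  rw [h.ker, h.pow, ht]
  decide

theorem s4_desc {D Q : Type*} [Group Q] {mul : D → D → D} {e : D} {φ : E → D}
    (h : Mod M mul e φ) (π : E →* Q) (hπ : Function.Surjective π) (hk : π.ker ≤ M) :
    ∃ φ' : Q → D, Mod (M.map π) mul e φ' ∧ ∀ g, φ' (π g) = φ g := by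
  have h1 : ∀ g, φ (Function.surjInv hπ (π g)) = φ g := fun g =>
    h.mem_iff.1 (hk (by simp [MonoidHom.mem_ker, Function.surjInv_eq]))
  refine ⟨fun q => φ (Function.surjInv hπ q), ⟨fun a b => ?_, fun d => ?_, fun q => ?_⟩, h1⟩
  · obtain ⟨a, rfl⟩ := hπ a
    obtain ⟨b, rfl⟩ := hπ b
    rw [← map_mul, h1, h1, h1, h.map_mul]
  · obtain ⟨g, rfl⟩ := h.surj d
    exact ⟨π g, h1 g⟩
  · obtain ⟨g, rfl⟩ := hπ q
    rw [h1, ← h.ker, ← Subgroup.mem_comap, Subgroup.comap_map_eq_self hk]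

theorem s4_invol {a : E} (h1 : a ≠ 1) {j : ℕ} (hj : a ^ 2 ^ j = 1) :
    ∃ i : ℕ, a ^ i ≠ 1 ∧ a ^ i * a ^ i = 1 := by
  induction j with
  | zero => exact absurd (by simpa using hj) h1
  | succ j ih =>
    by_cases h : a ^ 2 ^ j = 1
    · exact ih h
    · exact ⟨_, h, by rw [← pow_add, ← two_mul, ← pow_succ', hj]⟩

/-- A minimal normal abelian `2`-subgroup under the top `S₃` is a four-group. -/
theorem s4_four (h : Mod M (mc 3 2 2 0) 0 φ) {D : Subgroup E} (hM : M ≤ ⁅D, D⁆)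
    (hD : ∀ g, g ∈ D ↔ (φ g).2 = 0) [D.Normal] (hab : ∀ a ∈ M, ∀ b ∈ M, a * b = b * a)
    (h2 : ∀ a ∈ M, ∃ j : ℕ, a ^ 2 ^ j = 1) (hne : M ≠ ⊥)
    (hmin : ∀ N : Subgroup E, N.Normal → N ≤ M → N = ⊥ ∨ N = M) (ht : φ t = (1, 0)) :
    ∃ x ∈ M, x ≠ 1 ∧ x * x = 1 ∧ t ^ 3 = 1 ∧
      x * (t * x * t⁻¹) * (t * (t * x * t⁻¹) * t⁻¹) = 1 ∧
      ∀ m ∈ M, m = 1 ∨ m = x ∨ m = t * x * t⁻¹ ∨ m = x * (t * x * t⁻¹) := by
  have hn := h.normal
  have htD : t ∈ D := (hD t).2 (by rw [ht])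
  have hfix : ∀ a ∈ M, t * a = a * t → a = 1 := by
    rcases hmin (M ⊓ Subgroup.centralizer D) inferInstance inf_le_left with e | e
    · intro a ha hc
      rw [← Subgroup.mem_bot, ← e]
      refine ⟨ha, fun g hg => ?_⟩
      exact s4_ind' h ht (fun g => g * a = a * g)
        (fun b c hb hc => by rw [mul_assoc, hc, ← mul_assoc, hb, mul_assoc])
        (fun m hm => hab m hm a ha) hc g ((hD g).1 hg)
    · exfalso
      have h1 : M ≤ Subgroup.centralizer D := e ▸ inf_le_right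
      have h3 : t ∈ Subgroup.centralizer (D : Set E) := fun g hg =>
        s4_ind' h ht (fun g => g * t = t * g)
          (fun b c hb hc => by rw [mul_assoc, hc, ← mul_assoc, hb, mul_assoc])
          (fun m hm => (h1 hm t htD).symm) rfl g ((hD g).1 hg)
      have h4 : D ≤ Subgroup.centralizer D := fun g hg =>
        s4_ind' h ht (· ∈ Subgroup.centralizer (D : Set E)) (fun _ _ => mul_mem) h1 h3 g
          ((hD g).1 hg)
      exact hne (le_bot_iff.1 (hM.trans (Subgroup.commutator_eq_bot_iff_le_centralizer.2 h4).le))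
  have t3 : t ^ 3 = 1 := hfix _ (s4_t3 h ht) (by group)
  have t3' : t * t * t = 1 := by rw [← t3, pow_three']
  obtain ⟨w, hw⟩ := h.surj (0, 1)
  obtain ⟨x, hx, x1, xx, wx⟩ : ∃ x ∈ M, x ≠ 1 ∧ x * x = 1 ∧ w * x * w⁻¹ = x := by
    obtain ⟨⟨a, ha⟩, a1⟩ := Subgroup.ne_bot_iff_exists_ne_one.1 hne
    obtain ⟨j, hj⟩ := h2 a ha
    obtain ⟨i, v1, vv⟩ := s4_invol (fun e => a1 (Subtype.ext e)) hj
    have hv : a ^ i ∈ M := pow_mem ha i
    generalize a ^ i = v at v1 vv hv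
    by_cases e : w * v * w⁻¹ = v
    · exact ⟨v, hv, v1, vv, e⟩
    · have hv' : w * v * w⁻¹ ∈ M := hn.conj_mem v hv w
      have c := hab _ hv _ hv'
      refine ⟨v * (w * v * w⁻¹), mul_mem hv hv', fun e' => e ?_, ?_, ?_⟩
      · exact mul_left_cancel (e'.trans vv.symm)
      · calc v * (w * v * w⁻¹) * (v * (w * v * w⁻¹))
            = v * (w * v * w⁻¹ * v) * (w * v * w⁻¹) := by group
          _ = (v * v) * (w * (v * v) * w⁻¹) := by rw [← c]; group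
          _ = 1 := by rw [vv]; group
      · calc w * (v * (w * v * w⁻¹)) * w⁻¹ = w * v * w⁻¹ * (w * w * v * (w * w)⁻¹) := by group
          _ = v * (w * v * w⁻¹) := by
            rw [hab _ (s4_ww h (by rw [hw])) _ hv, mul_inv_cancel_right, c]
  have hy : t * x * t⁻¹ ∈ M := hn.conj_mem x hx t
  have hu : t * (t * x * t⁻¹) * t⁻¹ ∈ M := hn.conj_mem _ hy t
  have tu : t * (t * (t * x * t⁻¹) * t⁻¹) * t⁻¹ = x := by
    calc _ = (t * t * t) * x * (t * t * t)⁻¹ := by group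
      _ = x := by rw [t3']; group
  have wy : w * (t * x * t⁻¹) * w⁻¹ = t * (t * x * t⁻¹) * t⁻¹ := by
    have h1 := hab _ (s4_wt h ht hw) _ hu
    have h3 : t⁻¹ * x * t = t * (t * x * t⁻¹) * t⁻¹ := by
      calc _ = t⁻¹ * (t * (t * (t * x * t⁻¹) * t⁻¹) * t⁻¹) * t := by rw [tu]
        _ = _ := by group
    calc _ = (w * t * w⁻¹ * t) * (t⁻¹ * (w * x * w⁻¹) * t) * (w * t * w⁻¹ * t)⁻¹ := by group
      _ = (w * t * w⁻¹ * t) * (t * (t * x * t⁻¹) * t⁻¹) * (w * t * w⁻¹ * t)⁻¹ := by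
        rw [wx, h3]
      _ = _ := by rw [h1]; group
  have yy : t * x * t⁻¹ * (t * x * t⁻¹) = 1 := by
    calc _ = t * (x * x) * t⁻¹ := by group
      _ = 1 := by rw [xx]; group
  generalize hy' : t * x * t⁻¹ = y at *
  generalize hu' : t * y * t⁻¹ = u at *
  have xyu : x * y * u = 1 := by
    refine hfix _ (mul_mem (mul_mem hx hy) hu) ?_
    calc t * (x * y * u) = (t * x * t⁻¹) * (t * y * t⁻¹) * (t * u * t⁻¹) * t := by group
      _ = x * y * u * t := by rw [hy', hu', tu, ← hab _ hx _ (mul_mem hy hu), ← mul_assoc]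
  have c := hab _ hx _ hy
  have e1 : x * (x * y) = y := by rw [← mul_assoc, xx, one_mul]
  have e2 : y * (x * y) = x := by rw [← mul_assoc, ← c, mul_assoc, yy, mul_one]
  have e3 : x * y * x = y := by rw [mul_assoc, ← c, e1]
  have e4 : x * y * y = x := by rw [mul_assoc, yy, mul_one]
  have e5 : x * y * (x * y) = 1 := by rw [← mul_assoc, e3, yy]
  have hu2 : u = x * y := mul_left_cancel (xyu.trans e5.symm)
  let V : Subgroup E :=
    { carrier := {m | m = 1 ∨ m = x ∨ m = y ∨ m = x * y}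
      mul_mem' := by
        rintro _ _ (rfl | rfl | rfl | rfl) (rfl | rfl | rfl | rfl) <;>
          simp [xx, yy, e1, e2, e3, e4, e5, ← c]
      one_mem' := Or.inl rfl
      inv_mem' := by
        rintro _ (rfl | rfl | rfl | rfl)
        · simp
        · simp [inv_eq_of_mul_eq_one_right xx]
        · simp [inv_eq_of_mul_eq_one_right yy]
        · rw [inv_eq_of_mul_eq_one_right e5]; simp }
  have hxV : x ∈ V := Or.inr (Or.inl rfl)
  have hyV : y ∈ V := Or.inr (Or.inr (Or.inl rfl))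
  have hVM : V ≤ M := by
    rintro _ (rfl | rfl | rfl | rfl)
    exacts [one_mem _, hx, hy, mul_mem hx hy]
  have hc : ∀ g : E, g * x * g⁻¹ ∈ V → g * y * g⁻¹ ∈ V → ∀ v ∈ V, g * v * g⁻¹ ∈ V := by
    rintro g h1 h3 _ (rfl | rfl | rfl | rfl)
    · simp
    · exact h1
    · exact h3
    · have := mul_mem h1 h3
      rwa [conj_mul] at this
  have hV : V.Normal := ⟨fun v hv g => s4_ind h ht (w := w) (by rw [hw])
    (fun g => ∀ v ∈ V, g * v * g⁻¹ ∈ V)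
    (fun a b ha hb v hv => by simpa [mul_assoc] using ha _ (hb v hv))
    (fun m hm v hv => by rw [hab _ hm _ (hVM hv), mul_inv_cancel_right]; exact hv)
    (hc t (hy' ▸ hyV) (by rw [hu', hu2]; exact mul_mem hxV hyV))
    (hc w (by rw [wx]; exact hxV) (by rw [wy, hu2]; exact mul_mem hxV hyV)) g v hv⟩
  refine ⟨x, hx, x1, xx, t3, by rw [hy', hu', xyu], fun m hm => ?_⟩
  rw [hy']
  rcases hmin V hV hVM with e | e
  · exact absurd (Subgroup.mem_bot.1 (e ▸ hxV)) x1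
  · exact (e ▸ hm : m ∈ V)

/-- The model of order `24 N` maps bijectively onto the group. -/
theorem s4_model (h : Mod M (mc 3 2 2 0) 0 φ) {C : Subgroup E} (hC : C ≤ M) {N : ℕ} [NeZero N]
    {c δ : ZMod N} {z x y : E} (hz : z ^ N = 1) (hc : c + c = 0) (h1 : t ^ 3 = 1)
    (h2 : x * x = z ^ c.val) (h3 : y * y = z ^ c.val) (h4 : y * x = x * y * z ^ c.val)
    (h5 : t * x * t⁻¹ = y) (h6 : t * y * t⁻¹ = x * y * z ^ c.val) (c1 : Commute z x)
    (c2 : Commute z y) (c3 : Commute z t) (c4 : Commute z w) (w1 : w * x * w⁻¹ = z ^ c.val * x)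
    (w2 : w * y * w⁻¹ = x * y) (w3 : w * t * w⁻¹ = t ^ 2) (w4 : w ^ 2 = z ^ δ.val)
    (hzC : z ∈ C) (hx : x ∈ M) (hy : y ∈ M) (ht : φ t = (1, 0)) (hw : (φ w).2 = 1)
    (hi : ∀ i : ZMod N, z ^ i.val = 1 → i = 0)
    (hk : ∀ a b : ZMod 2, x ^ a.val * y ^ b.val ∈ C → a = 0 ∧ b = 0)
    (hs : ∀ g, (φ g).2 = 0 → ∃ (i : ZMod N) (a b : ZMod 2) (k : ZMod 3),
      z ^ i.val * x ^ a.val * y ^ b.val * t ^ k.val = g)
    (hinv : ∀ a, ∃ a', ca4 N c a' a = 0 ∧ ∀ b, ca4 N c a' b = 0 → b = a) :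
    ∃ σ : (((ZMod N × ZMod 2) × ZMod 2) × ZMod 3) × ZMod 2 → E, Function.Bijective σ ∧
      (∀ a b, σ (cs4 N c δ a b) = σ a * σ b) ∧ σ 0 = 1 := by
  let σ : ((ZMod N × ZMod 2) × ZMod 2) × ZMod 3 → E := fun d =>
    z ^ d.1.1.1.val * x ^ d.1.1.2.val * y ^ d.1.2.val * t ^ d.2.val
  have hm : ∀ a b, σ (ca4 N c a b) = σ a * σ b := ca4_hom hz hc h1 h2 h3 h4 h5 h6 c1 c2 c3
  have h0 : σ 0 = 1 := by simp [σ]
  have zadd : ∀ i j : ZMod N, z ^ (i + j).val = z ^ i.val * z ^ j.val := fun i j => by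
    rw [ZMod.val_add, ← pow_add, ← pow_eq_pow_mod _ hz]
  have two : ∀ a : ZMod 2, a = 0 ∨ a = 1 := by decide
  have three : ∀ a : ZMod 3, a = 0 ∨ a = 1 ∨ a = 2 := by decide
  have v1 : (1 : ZMod 2).val = 1 := rfl
  have cz : ∀ i : ℕ, w * z ^ i * w⁻¹ = z ^ i := fun i => by
    rw [← (c4.pow_left i).eq, mul_inv_cancel_right]
  have ct : ∀ k : ZMod 3, w * t ^ k.val * w⁻¹ = t ^ (-k).val := fun k => by
    rw [← conj_pow, w3, ← pow_mul]
    rcases three k with rfl | rfl | rfl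
    · rfl
    · rfl
    · change t ^ (3 + 1) = t ^ 1
      rw [pow_add, h1, one_mul]
  have hα : ∀ d, w * σ d * w⁻¹ = σ (((if d.1.1.2 = 1 ∧ d.1.2 = 0 then d.1.1.1 + c else d.1.1.1,
      d.1.1.2 + d.1.2), d.1.2), -d.2) := by
    rintro ⟨⟨⟨i, a⟩, b⟩, k⟩
    have e : w * σ (((i, a), b), k) * w⁻¹ = z ^ i.val * (z ^ c.val * x) ^ a.val *
        (x * y) ^ b.val * t ^ (-k).val := by
      rw [← cz i.val, ← ct, ← w1, ← w2, conj_pow, conj_pow, conj_mul, conj_mul, conj_mul]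
    rw [e]
    have e11 : (1 : ZMod 2) + 1 = 0 := rfl
    have e5 : z ^ c.val * x * (x * y) = y := by
      rw [mul_assoc, ← mul_assoc x, h2, ← mul_assoc, ← zadd, hc]
      simp
    rcases two a with rfl | rfl <;> rcases two b with rfl | rfl
    · simp [σ]
    · simp [σ, v1, mul_assoc]
    · simp [σ, v1, zadd, mul_assoc]
    · simp only [σ, v1, e11, pow_one, one_ne_zero, and_false, if_false, ZMod.val_zero, pow_zero,
        mul_one]
      rw [mul_assoc (z ^ i.val), e5]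
  have hw2 : w ^ 2 = σ (((δ, 0), 0), 0) := by simp [σ, w4]
  let τ : (((ZMod N × ZMod 2) × ZMod 2) × ZMod 3) × ZMod 2 → E := fun d => σ d.1 * w ^ d.2.val
  have hτ : ∀ a b, τ (cs4 N c δ a b) = τ a * τ b := xm_hom σ hm h0 w hα hw2
  have t0 : τ 0 = 1 := by simp [τ, h0]
  have hm' : ∀ (i : ZMod N) (a b : ZMod 2), z ^ i.val * x ^ a.val * y ^ b.val ∈ M := fun i a b =>
    mul_mem (mul_mem (pow_mem (hC hzC) _) (pow_mem hx _)) (pow_mem hy _)
  have hker : ∀ d, σ d = 1 → d = 0 := by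
    rintro ⟨⟨⟨i, a⟩, b⟩, k⟩ e
    have e1 : t ^ k.val ∈ M := by
      rw [← M.mul_mem_cancel_left (hm' i a b)]
      exact (e.symm ▸ one_mem M : σ (((i, a), b), k) ∈ M)
    have e2 : ∀ k : ZMod 3, (mc 3 2 2 0 (1, 0))^[k.val] 0 = 0 → k = 0 := by decide
    rw [h.ker, h.pow, ht] at e1
    obtain rfl := e2 k e1
    have e3 : z ^ i.val * (x ^ a.val * y ^ b.val) = 1 := by simpa [σ, mul_assoc] using e
    obtain ⟨rfl, rfl⟩ := hk a b (by
      rw [← C.mul_mem_cancel_left (pow_mem hzC i.val), e3]; exact one_mem C)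
    obtain rfl := hi i (by simpa using e3)
    rfl
  obtain ⟨L, hML, hL⟩ := h.map (mul' := (· + ·)) (e' := 0) Prod.snd Prod.snd_surjective
    (fun _ _ => rfl) rfl
  refine ⟨τ, ⟨xm_inj σ (fun a b e => ?_) L (fun d => ?_) w (fun i i0 i2 e => ?_), fun g => ?_⟩,
    hτ, t0⟩
  · obtain ⟨a', k1, k2⟩ := hinv a
    exact (k2 b (hker _ (by rw [hm, ← e, ← hm, k1, h0]))).symm
  · exact mul_mem (hML (hm' _ _ _)) (pow_mem ((hL.ker t).2 (congrArg Prod.snd ht)) _)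
  · obtain rfl : i = 1 := by omega
    exact absurd (hw.symm.trans ((hL.ker w).1 (by simpa using e))) (by decide)
  · rcases s4_split h hw g with e | e
    · obtain ⟨i, a, b, k, e'⟩ := hs _ e
      exact ⟨((((i, a), b), k), 0), by simpa [τ, σ] using e'⟩
    · obtain ⟨i, a, b, k, e'⟩ := hs _ e
      exact ⟨((((i, a), b), k), 1), by simp [τ, σ, v1, e']⟩

set_option synthInstance.maxSize 4096 in
theorem s4_fc : ∀ d1 d2 : ((ZMod 2 × ZMod 2) × ZMod 2) × ZMod 3, d1.2 = 0 → d2.2 = 0 →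
    d1.1.1.2 = 0 ∧ d1.1.2 = 0 ∨ ∃ d c1 c2, ca4 2 1 d d1 = ca4 2 1 (((c1, 1), 0), 0) d ∧
      ca4 2 1 d (ca4 2 1 d2 (((0, 0), 0), 2)) = ca4 2 1 (((c2, 0), 0), 2) d := by
  decide +kernel

set_option synthInstance.maxSize 4096 in
theorem s4_fc2 : ∀ d : ((ZMod 2 × ZMod 2) × ZMod 2) × ZMod 3, d.2 = 0 →
    d.1.1.2 = 0 ∧ d.1.2 = 0 ∨ ∃ e, e.2 = 0 ∧ ¬ (e.1.1.2 = 0 ∧ e.1.2 = 0) ∧
      ca4 2 1 (((0, 0), 0), 1) d = ca4 2 1 e (ca4 2 1 d (((0, 0), 0), 1)) := by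
  decide +kernel

set_option synthInstance.maxSize 4096 in
theorem s4_fc3 : ∀ a, ∃ a', ca4 1 0 a' a = 0 ∧ ∀ b, ca4 1 0 a' b = 0 → b = a := by
  decide +kernel

set_option synthInstance.maxSize 4096 in
theorem s4_fc4 : ∀ a, ∃ a', ca4 2 1 a' a = 0 ∧ ∀ b, ca4 2 1 a' b = 0 → b = a := by
  decide +kernel

/-- The structure of the group over a cyclic normal `2`-subgroup. -/
theorem s4_core [Finite E] (h : Mod M (mc 3 2 2 0) 0 φ) {D : Subgroup E} (hM : M ≤ ⁅D, D⁆)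
    (hD : ∀ g, g ∈ D ↔ (φ g).2 = 0) {z : E} [hn : (Subgroup.zpowers z).Normal] {k : ℕ}
    (hz : z ^ 2 ^ k = 1) (hzM : z ∈ M) {x0 t0 : E} (hx0 : x0 ∈ M)
    (hx0C : x0 ∉ Subgroup.zpowers z) (ht0 : φ t0 = (1, 0)) (h1 : x0 * x0 ∈ Subgroup.zpowers z)
    (h2 : t0 ^ 3 ∈ Subgroup.zpowers z)
    (h3 : x0 * (t0 * x0 * t0⁻¹) * x0⁻¹ * (t0 * x0 * t0⁻¹)⁻¹ ∈ Subgroup.zpowers z)
    (h4 : x0 * (t0 * x0 * t0⁻¹) * (t0 * (t0 * x0 * t0⁻¹) * t0⁻¹) ∈ Subgroup.zpowers z)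
    (hg : ∀ m ∈ M, m ∈ Subgroup.zpowers z ∨ m * x0⁻¹ ∈ Subgroup.zpowers z ∨
      m * (t0 * x0 * t0⁻¹)⁻¹ ∈ Subgroup.zpowers z ∨
        m * (x0 * (t0 * x0 * t0⁻¹))⁻¹ ∈ Subgroup.zpowers z) :
    (∃ σ : (((ZMod 1 × ZMod 2) × ZMod 2) × ZMod 3) × ZMod 2 → E, Function.Bijective σ ∧
      (∀ a b, σ (cs4 1 0 0 a b) = σ a * σ b) ∧ σ 0 = 1) ∨
    (z ≠ 1 ∧ ∃ δ : ZMod 2, ∃ σ : (((ZMod 2 × ZMod 2) × ZMod 2) × ZMod 3) × ZMod 2 → E,
      Function.Bijective σ ∧ (∀ a b, σ (cs4 2 1 δ a b) = σ a * σ b) ∧ σ 0 = 1) := by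
  obtain ⟨x, y, t, s, hx', ht', hs, ss, t3, xx, yy, yx, txt, tyt, zx, zy, zt⟩ :=
    norm_a4 hz h1 h2 h3 h4
  have hMn := h.normal
  have hz1 : z = 1 → s = 1 := fun e => by simpa [e] using hs
  have cC : ∀ c ∈ Subgroup.zpowers z, Commute c x ∧ Commute c y ∧ Commute c t ∧ Commute c s := by
    rintro _ ⟨n, rfl⟩
    exact ⟨zx.zpow_left n, zy.zpow_left n, zt.zpow_left n, xx ▸ (zx.mul_right zx).zpow_left n⟩
  have cc : ∀ c ∈ Subgroup.zpowers z, ∀ c' ∈ Subgroup.zpowers z, Commute c c' := by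
    rintro _ ⟨n, rfl⟩ _ ⟨m, rfl⟩
    exact Commute.zpow_zpow_self z n m
  have hC : Subgroup.zpowers z ≤ M := Subgroup.zpowers_le.2 hzM
  generalize Subgroup.zpowers z = C at *
  have hx : x ∈ M := by simpa using mul_mem (hC hx') hx0
  have ht : φ t = (1, 0) := (h.mem_iff.1 (hC ht')).trans ht0
  have hy : y ∈ M := txt ▸ hMn.conj_mem x hx t
  have xC : x ∉ C := fun e => hx0C (by simpa using mul_mem (inv_mem hx') e)
  have yC : y ∉ C := fun e => xC (by simpa [← txt, mul_assoc] using hn.conj_mem _ e t⁻¹)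
  have xyC : x * y ∉ C := fun e => yC (by
    have := hn.conj_mem _ (mul_mem e hs) t⁻¹
    rw [← tyt] at this
    simpa [mul_assoc] using this)
  have two : ∀ a : ZMod 2, a = 0 ∨ a = 1 := by decide
  have v1 : (1 : ZMod 2).val = 1 := rfl
  have hk : ∀ a b : ZMod 2, x ^ a.val * y ^ b.val ∈ C → a = 0 ∧ b = 0 := by
    intro a b
    rcases two a with rfl | rfl <;> rcases two b with rfl | rfl <;> simp [v1, xC, yC, xyC]
  obtain ⟨sx, sy, st', -⟩ := cC s hs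
  obtain ⟨σ, hσ⟩ : ∃ σ : ((ZMod 2 × ZMod 2) × ZMod 2) × ZMod 3 → E, ∀ d, σ d =
    s ^ d.1.1.1.val * x ^ d.1.1.2.val * y ^ d.1.2.val * t ^ d.2.val := ⟨_, fun _ => rfl⟩
  have hm : ∀ a b, σ (ca4 2 1 a b) = σ a * σ b := fun a b => by
    rw [hσ, hσ, hσ]
    exact ca4_hom (by rw [pow_two, ss]) rfl t3 (by rw [v1, pow_one, xx])
      (by rw [v1, pow_one, yy]) (by rw [v1, pow_one, yx]) txt (by rw [v1, pow_one, tyt]) sx sy st'
      a b
  have h0 : σ 0 = 1 := by simp [hσ]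
  have σx : σ (((0, 1), 0), 0) = x := by simp [hσ, v1]
  have σy : σ (((0, 0), 1), 0) = y := by simp [hσ, v1]
  have σs : σ (((1, 0), 0), 0) = s := by simp [hσ, v1]
  have σt : σ (((0, 0), 0), 1) = t := by
    have : (1 : ZMod 3).val = 1 := rfl
    simp [hσ, this]
  have hinv : ∀ a, ∃ a', ca4 2 1 a' a = 0 := fun a => (s4_fc4 a).imp fun _ => And.left
  have hk' : ∀ d, d.2 = 0 → σ d ∈ C → d.1.1.2 = 0 ∧ d.1.2 = 0 := by
    rintro ⟨⟨⟨i, a⟩, b⟩, _⟩ rfl e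
    refine hk a b ?_
    rw [← C.mul_mem_cancel_left (pow_mem hs i.val)]
    simpa [hσ, mul_assoc] using e
  have cσ : ∀ c ∈ C, ∀ d, Commute c (σ d) := fun c hc d => by
    obtain ⟨a1, a2, a3, a4⟩ := cC c hc
    rw [hσ]
    exact (((a4.pow_right _).mul_right (a1.pow_right _)).mul_right (a2.pow_right _)).mul_right
      (a3.pow_right _)
  have hDs : ∀ g, (φ g).2 = 0 → ∃ c ∈ C, ∃ d, g = c * σ d := by
    refine s4_ind' h ht _ ?_ (fun m hm' => ?_) ⟨1, one_mem _, _, by rw [one_mul, σt]⟩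
    · rintro _ _ ⟨c, hc, d, rfl⟩ ⟨c', hc', d', rfl⟩
      refine ⟨c * c', mul_mem hc hc', ca4 2 1 d d', ?_⟩
      rw [hm, mul_assoc, mul_assoc, ← mul_assoc (σ d), ← (cσ c' hc' d).eq, mul_assoc]
    · have q : ∀ a b : E, a * b⁻¹ ∈ C ↔ QuotientGroup.mk' C a = QuotientGroup.mk' C b :=
        fun a b => by rw [← div_eq_mul_inv]; exact QuotientGroup.eq_iff_div_mem.symm
      have qy : QuotientGroup.mk' C (t0 * x0 * t0⁻¹) = QuotientGroup.mk' C y := by
        rw [← txt, map_mul, map_mul, map_mul, map_mul, map_inv, map_inv, (q _ _).1 hx',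
          (q _ _).1 ht']
      rcases hg m hm' with e | e | e | e
      · exact ⟨m, e, 0, by rw [h0, mul_one]⟩
      · exact ⟨m * x⁻¹, (q _ _).2 (((q _ _).1 e).trans ((q _ _).1 hx').symm), _,
          by rw [σx, inv_mul_cancel_right]⟩
      · exact ⟨m * y⁻¹, (q _ _).2 (((q _ _).1 e).trans qy), _, by rw [σy, inv_mul_cancel_right]⟩
      · refine ⟨m * (x * y)⁻¹, (q _ _).2 (((q _ _).1 e).trans ?_),
          ca4 2 1 (((0, 1), 0), 0) (((0, 0), 1), 0), by rw [hm, σx, σy, inv_mul_cancel_right]⟩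
        rw [map_mul, qy, map_mul, (q _ _).1 hx']
  have snd : ∀ a b : ((ZMod 2 × ZMod 2) × ZMod 2) × ZMod 3, (ca4 2 1 a b).2 = a.2 + b.2 :=
    fun _ _ => rfl
  have σi : ∀ a, ∃ a', σ a' = (σ a)⁻¹ ∧ a'.2 + a.2 = 0 := fun a =>
    (hinv a).imp fun a' e => ⟨eq_inv_of_mul_eq_one_left (by rw [← hm, e, h0]),
      by rw [← snd, e]; rfl⟩
  let Y : Subgroup E :=
    { carrier := {g | ∃ d, d.2 = 0 ∧ σ d = g}
      mul_mem' := by
        rintro _ _ ⟨a, ha, rfl⟩ ⟨b, hb, rfl⟩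
        exact ⟨_, by rw [snd, ha, hb, add_zero], hm a b⟩
      one_mem' := ⟨0, rfl, h0⟩
      inv_mem' := by
        rintro _ ⟨a, ha, rfl⟩
        obtain ⟨a', e1, e2⟩ := σi a
        exact ⟨a', by simpa [ha] using e2, e1⟩ }
  have hY : ∀ m ∈ M, ∃ d, d.2 = 0 ∧ σ d = m := fun m hm' => by
    refine (hM.trans (Subgroup.commutator_le.2 fun a ha b hb => ?_) hm' : m ∈ Y)
    obtain ⟨c, hc, d, rfl⟩ := hDs a ((hD a).1 ha)
    obtain ⟨c', hc', d', rfl⟩ := hDs b ((hD b).1 hb)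
    obtain ⟨a', e1, e2⟩ := σi (ca4 2 1 d' d)
    refine ⟨ca4 2 1 (ca4 2 1 d d') a', ?_, ?_⟩
    · rw [snd] at e2
      rw [snd, snd]
      linear_combination e2
    · have k1 : Commute c c' := cc c hc c' hc'
      have k2 : c * σ d * (c' * σ d') = c * c' * (σ d * σ d') := by
        rw [mul_assoc, mul_assoc, ← mul_assoc (σ d), ← (cσ c' hc' d).eq, mul_assoc]
      have k3 : c' * σ d' * (c * σ d) = c * c' * (σ d' * σ d) := by
        rw [mul_assoc, ← mul_assoc (σ d'), ← (cσ c hc d').eq, k1.eq]; group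
      have k4 : Commute (c * c') (σ d * σ d' * (σ d' * σ d)⁻¹) := by
        rw [← hm, ← hm, ← e1, ← hm]; exact cσ _ (mul_mem hc hc') _
      calc _ = c * c' * (σ d * σ d' * (σ d' * σ d)⁻¹) * (c * c')⁻¹ := by
            rw [k4.eq, hm, hm, e1, hm]; group
        _ = c * σ d * (c' * σ d') * (c' * σ d' * (c * σ d))⁻¹ := by rw [k2, k3]; group
        _ = _ := by rw [commutatorElement_def]; group
  have hDs' : ∀ g, (φ g).2 = 0 → ∃ d, σ d = g := fun g hg' => by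
    obtain ⟨c, hc, d, rfl⟩ := hDs g hg'
    obtain ⟨d', -, rfl⟩ := hY c (hC hc)
    exact ⟨_, hm d' d⟩
  obtain ⟨w0, hw0⟩ := h.surj (0, 1)
  obtain ⟨d1, a1, b1⟩ := hY _ (hMn.conj_mem x hx w0)
  obtain ⟨d2, a2, b2⟩ := hY _ (s4_wt h ht hw0)
  have σtt : σ (((0, 0), 0), 2) = t⁻¹ := by
    have : (2 : ZMod 3).val = 2 := rfl
    simp only [hσ, this, ZMod.val_zero, pow_zero, one_mul]
    exact eq_inv_of_mul_eq_one_left (by rw [← pow_succ, t3])
  obtain ⟨d, c1, c2, f1, f2⟩ := (s4_fc d1 d2 a1 a2).resolve_left fun e => xC (by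
    have e1 : σ d1 ∈ C := by
      obtain ⟨⟨⟨i, a⟩, b⟩, k⟩ := d1
      obtain ⟨rfl, rfl⟩ := e
      obtain rfl := a1
      simpa [hσ] using pow_mem hs i.val
    rw [b1] at e1
    simpa only [mul_assoc, inv_inv, inv_mul_cancel, mul_one, inv_mul_cancel_left] using
      hn.conj_mem _ e1 w0⁻¹)
  have f1' := congrArg σ f1
  have f2' := congrArg σ f2
  rw [hm, hm, b1] at f1'
  rw [hm, hm, hm, b2, σtt, mul_inv_cancel_right] at f2'
  have hw : (φ (σ d * w0)).2 = 1 := by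
    have e1 : φ (σ d * (t ^ d.2.val)⁻¹) = 0 := by
      rw [← h.ker]
      simpa [hσ] using mul_mem (mul_mem (pow_mem (hC hs) _) (pow_mem hx _)) (pow_mem hy _)
    have e2 := s4_snd h (σ d * (t ^ d.2.val)⁻¹) (t ^ d.2.val)
    have e3 : ∀ k : ZMod 3, ((mc 3 2 2 0 (1, 0))^[k.val] 0).2 = 0 := by decide
    rw [inv_mul_cancel_right, e1, h.pow, ht, e3] at e2
    rw [s4_snd h, e2, hw0]
    rfl
  have w1 : σ d * w0 * x * (σ d * w0)⁻¹ = σ (((c1, 1), 0), 0) := by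
    rw [← mul_inv_eq_iff_eq_mul.2 f1']; group
  have w3 : σ d * w0 * t * (σ d * w0)⁻¹ = σ (((c2, 0), 0), 2) := by
    rw [← mul_inv_eq_iff_eq_mul.2 f2']; group
  generalize σ d * w0 = w at hw w1 w3
  have w3' : w * t * w⁻¹ = σ (((0, 0), 0), 2) := by
    rcases two c2 with rfl | rfl
    · exact w3
    · have e1 := congrArg (· ^ 3) w3
      simp only [conj_pow, t3, mul_one, mul_inv_cancel] at e1
      rw [pow_three', ← hm, ← hm] at e1
      have e2 : s = 1 := σs.symm.trans e1.symm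
      simpa [hσ, e2] using w3
  have wy : ∀ Y', ca4 2 1 (((0, 0), 0), 2) (((c1, 1), 0), 0) = ca4 2 1 Y' (((0, 0), 0), 2) →
      w * y * w⁻¹ = σ Y' := fun Y' e => by
    have e1 := congrArg σ e
    rw [hm, hm, ← w3', ← w1] at e1
    rw [← mul_inv_eq_iff_eq_mul.2 e1, ← txt]
    group
  have w12 : w * x * w⁻¹ = s * x ∧ w * y * w⁻¹ = x * y := by
    rcases two c1 with rfl | rfl
    · have e1 := wy (((1, 1), 1), 0) (by decide +kernel)
      have e2 : w * t * w⁻¹ * (w * y * w⁻¹) = w * x * w⁻¹ * (w * y * w⁻¹) *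
          (w * x * w⁻¹ * (w * x * w⁻¹)) * (w * t * w⁻¹) := by
        rw [conj_mul, conj_mul, conj_mul, conj_mul, conj_mul, xx, ← tyt]
        group
      rw [w3', e1, w1, ← hm, ← hm, ← hm, ← hm, ← hm] at e2
      have e3 : ca4 2 1 (((0, 0), 0), 2) (((1, 1), 1), 0) = ca4 2 1 (((1, 0), 0), 0)
          (ca4 2 1 (ca4 2 1 (ca4 2 1 (((0, 1), 0), 0) (((1, 1), 1), 0))
            (ca4 2 1 (((0, 1), 0), 0) (((0, 1), 0), 0))) (((0, 0), 0), 2)) := by decide +kernel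
      rw [e3, hm, σs] at e2
      have e4 : s = 1 := mul_eq_right.1 e2
      exact ⟨by simpa [hσ, v1, e4] using w1, by simpa [hσ, v1, e4] using e1⟩
    · exact ⟨by simpa [hσ, v1] using w1,
        by simpa [hσ, v1] using wy (((0, 1), 1), 0) (by decide +kernel)⟩
  have w3t : w * t * w⁻¹ = t ^ 2 := by
    have : (2 : ZMod 3).val = 2 := rfl
    simpa [hσ, this] using w3'
  have sw : Commute s w := by
    have e1 : w * s * w⁻¹ = s := by
      rw [← xx, ← conj_mul, w12.1, mul_assoc, ← mul_assoc x, ← sx.eq, mul_assoc, xx, ss, mul_one]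
    exact (mul_inv_eq_iff_eq_mul.1 e1).symm
  obtain ⟨δ, w4⟩ : ∃ δ : ZMod 2, w ^ 2 = s ^ δ.val := by
    obtain ⟨d4, a4, b4⟩ := hY _ (s4_ww h hw)
    rcases s4_fc2 d4 a4 with e | ⟨e, e1, e2, e3⟩
    · obtain ⟨⟨⟨i, a⟩, b⟩, k⟩ := d4
      obtain ⟨rfl, rfl⟩ := e
      obtain rfl := a4
      exact ⟨i, by simpa [hσ, pow_two] using b4.symm⟩
    · have e4 := congrArg σ e3
      have e5 : w * w * t = t * (w * w) := by
        rw [σtt] at w3'
        calc _ = w * (w * t * w⁻¹) * w⁻¹ * (w * w) := by group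
          _ = (w * t * w⁻¹)⁻¹ * (w * w) := by
            conv_lhs => rw [w3']
            group
          _ = _ := by rw [w3', inv_inv]
      rw [hm, hm, hm, σt, b4, e5] at e4
      exact absurd (hk' e e1 (by rw [mul_eq_right.1 e4.symm]; exact one_mem C)) e2
  by_cases s1 : s = 1
  · refine Or.inl (s4_model (w := w) h hC (z := 1) (x := x) (y := y) (by simp) rfl t3
      (by simp [xx, s1]) (by simp [yy, s1]) (by simp [yx, s1]) txt (by simp [tyt, s1])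
      (Commute.one_left _) (Commute.one_left _) (Commute.one_left _) (Commute.one_left _)
      (by simp [w12.1, s1]) w12.2 w3t (by simp [w4, s1]) (one_mem C) hx hy ht hw
      (fun i _ => Subsingleton.elim _ _) hk (fun g hg' => ?_) s4_fc3)
    obtain ⟨⟨⟨⟨i, a⟩, b⟩, k⟩, e⟩ := hDs' g hg'
    exact ⟨0, a, b, k, by simpa [hσ, s1] using e⟩
  · refine Or.inr ⟨fun e => s1 (hz1 e), δ, s4_model (w := w) h hC (z := s) (x := x) (y := y)
      (by rw [pow_two, ss]) rfl t3 (by rw [v1, pow_one, xx]) (by rw [v1, pow_one, yy])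
      (by rw [v1, pow_one, yx]) txt (by rw [v1, pow_one, tyt]) sx sy st' sw
      (by rw [v1, pow_one, w12.1]) w12.2 w3t w4 hs hx hy ht hw (fun i e => ?_) hk
      (fun g hg' => ?_) s4_fc4⟩
    · rcases two i with rfl | rfl
      · rfl
      · exact absurd (by simpa [v1] using e) s1
    · obtain ⟨⟨⟨⟨i, a⟩, b⟩, k⟩, e⟩ := hDs' g hg'
      exact ⟨i, a, b, k, (hσ _).symm.trans e⟩

end general

variable {G : Type u} [Group G] [Finite G] [Group.IsSolvable G] {M : Subgroup G}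
  {φ : G → ZMod 3 × ZMod 2}

theorem top_s3 (ih : IH G) (hn : ¬ NN G) (h : Mod M (mc 3 2 2 0) 0 φ) {p : ℕ} (hp : p.Prime)
    (h5 : 5 ≤ p) (ψ : M →* Multiplicative (ZMod p)) (hψ : Function.Surjective ψ) :
    RG G ∧ SG G := by
  have hMn := h.normal
  obtain ⟨L, hML, hL⟩ := h.map (mul' := (· + ·)) (e' := 0) Prod.snd Prod.snd_surjective
    (fun _ _ => rfl) rfl
  have hLn := hL.normal
  have hLi : L.index = 2 ^ 1 := by rw [hL.index]; simp
  have hMi : M.index = 2 ^ 1 * 3 := by rw [h.index]; simp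
  have hM : NC M := g3 hn hLi hML hMi (by decide)
  obtain ⟨H, hMH, hH⟩ := h.sub (fun d => decide (d.1 = 0)) (by decide) (by decide)
  simp only [decide_eq_true_eq] at hH
  obtain ⟨t, ht⟩ := h.surj (1, 0)
  obtain ⟨w, hw⟩ := h.surj (0, 1)
  have hwH : w ∈ H := (hH w).2 (by rw [hw])
  have hHt : H ≠ ⊤ := fun e => by
    have := (hH t).1 (e ▸ Subgroup.mem_top t)
    rw [ht] at this
    exact absurd this (by decide)
  have hlt : M < H := lt_of_le_of_ne hMH fun e => by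
    have := (h.ker w).1 (e ▸ hwH)
    rw [hw] at this
    exact absurd this (by decide)
  obtain ⟨ψ', q, -⟩ := Quo.ofHom ψ hψ
  have hcp : Nat.card (Multiplicative (ZMod p)) = p := Nat.card_zmod p
  have hri : (ψ.ker.map M.subtype).relIndex M = p := by
    rw [Subgroup.relIndex, Subgroup.subgroupOf,
      Subgroup.comap_map_eq_self_of_injective M.subtype_injective, Subgroup.index_ker,
      MonoidHom.range_eq_top.2 hψ, Subgroup.card_top, hcp]
  have hK : NC (ψ.ker.map M.subtype) :=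
    nc_of_odd_relIndex hM q.le (by rw [hri]; exact hp.odd_of_ne_two (by omega))
  have hKt : ψ.ker.map M.subtype ≠ ⊤ := ne_top_of_le_ne_top hHt (q.le.trans hMH)
  have hF := Or.inr (a := Odd (Nat.card (ψ.ker.map M.subtype))) (And.intro hK.ne_bot
    (And.intro (fib_ih ih hKt hK (m := 4) (by decide) (by decide))
      (fib_ih ih hKt hK (m := 4 * (p - 1)) (Even.mul_right (by decide) _) (by omega))))
  constructor
  · have := (Subgroup.nontrivial_iff_ne_bot H).2 (hM.mono hMH).ne_bot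
    obtain ⟨x, hx, A, hA, h1, h2⟩ := rg_walk (rg_ih ih hlt hHt hM)
    obtain ⟨A', k1, k2, k3⟩ := t6e h hH hp h5 q hF hA hx (by
      rw [h1]
      exact (le_iff_subset (nodup_st _)).2 fun a ha => mem_st.2 (mem_st.1 ha).1) h2
    exact rg_of k1 (by rw [k2, h1]) (by rw [k3, h2])
  · have hc : ¬ Cm H := fun hc => hn (nn_central' hLi hML hMi (by decide) fun m hm g _ => by
      have h1 : H ≤ Subgroup.centralizer M := fun a ha b hb =>
        congrArg Subtype.val (hc ⟨b, hMH hb⟩ ⟨a, ha⟩)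
      have hn' : (Subgroup.centralizer (M : Set G)).Normal := inferInstance
      have h2 : t * w * t⁻¹ * w ∈ Subgroup.centralizer (M : Set G) :=
        mul_mem (hn'.conj_mem _ (h1 hwH) t) (h1 hwH)
      have h3 : φ (t * w * t⁻¹ * w * (t * w * t⁻¹ * w)) = (1, 0) := by
        have h4 : φ t⁻¹ = (2, 0) := h.inv (by rw [ht]; decide)
        simp only [h.map_mul, h4, ht, hw]
        decide
      exact s4_ind h h3 (w := w) (by rw [hw]) (· ∈ Subgroup.centralizer (M : Set G))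
        (fun _ _ => mul_mem) (fun a ha => h1 (hMH ha)) (mul_mem h2 h2) (h1 hwH) g m hm)
    have h8 : Nat.card H ≠ 8 := fun e => by
      have h1 : p ∣ Nat.card M := hcp ▸ Subgroup.card_dvd_of_surjective ψ hψ
      have h2 : p ∣ 2 ^ 3 := by
        have := h1.trans (Subgroup.card_dvd_of_le hMH)
        rwa [e] at this
      have := Nat.le_of_dvd two_pos (hp.dvd_of_dvd_pow h2)
      omega
    obtain ⟨x, hx, y, A, hA, h1, h2⟩ := sg_walk (sg_ih ih hHt (hM.mono hMH) hc h8)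
    obtain ⟨A', k1, k2, k3⟩ := t6e h hH hp h5 q hF hA hx (h1 ▸ le_add_left _ _) h2
    exact sg_of k1 (by rw [k2, ← add_assoc, h1]) (by rw [k3, h2])

theorem s4_case (ih : IH G) (h : Mod M (mc 3 2 2 0) 0 φ)
    (hM : M = ⁅commutator G, commutator G⁆) (hD : ∀ g, g ∈ commutator G ↔ (φ g).2 = 0)
    (h1 : M ≠ ⊥) (h2 : IsPGroup 2 (Abelianization M)) : RG G ∧ SG G := by
  have hMn := h.normal
  have desc : ∀ (K : Subgroup G) [K.Normal], K ≤ M → ∃ φ' : G ⧸ K → ZMod 3 × ZMod 2,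
      Mod (M.map (QuotientGroup.mk' K)) (mc 3 2 2 0) 0 φ' ∧
      (∀ g, φ' (QuotientGroup.mk' K g) = φ g) ∧
      M.map (QuotientGroup.mk' K) ≤ ⁅(commutator G).map (QuotientGroup.mk' K),
        (commutator G).map (QuotientGroup.mk' K)⁆ ∧
      ∀ g, g ∈ (commutator G).map (QuotientGroup.mk' K) ↔ (φ' g).2 = 0 := by
    intro K _ hK
    have hk : (QuotientGroup.mk' K).ker ≤ M := by rwa [QuotientGroup.ker_mk']
    obtain ⟨φ', k1, k2⟩ := s4_desc h _ (QuotientGroup.mk'_surjective K) hk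
    refine ⟨φ', k1, k2, by rw [← Subgroup.map_commutator, ← hM], fun g => ?_⟩
    obtain ⟨g, rfl⟩ := QuotientGroup.mk'_surjective K g
    rw [k2, ← hD, ← Subgroup.mem_comap, Subgroup.comap_map_eq_self
      (hk.trans fun m hm => (hD m).2 (by rw [(h.ker m).1 hm]; rfl))]
  obtain ⟨K1, ⟨hn1, hc1, hl1⟩, hmax⟩ := Set.Finite.exists_maximal
    (Set.toFinite {K : Subgroup G | K.Normal ∧ ⁅M, M⁆ ≤ K ∧ K < M})
    ⟨⁅M, M⁆, inferInstance, le_rfl, Group.IsSolvable.commutator_lt_of_ne_bot h1⟩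
  obtain ⟨t, ht⟩ := h.surj (1, 0)
  have q : ∀ (K : Subgroup G) [K.Normal] (a : G), QuotientGroup.mk' K a = 1 ↔ a ∈ K :=
    fun K _ a => QuotientGroup.eq_one_iff a
  obtain ⟨x, hx, x1, xx, t3, xc, xyu, hg⟩ : ∃ x ∈ M, x ∉ K1 ∧ x * x ∈ K1 ∧ t ^ 3 ∈ K1 ∧
      x * (t * x * t⁻¹) * x⁻¹ * (t * x * t⁻¹)⁻¹ ∈ K1 ∧
      x * (t * x * t⁻¹) * (t * (t * x * t⁻¹) * t⁻¹) ∈ K1 ∧ ∀ m ∈ M, m ∈ K1 ∨ m * x⁻¹ ∈ K1 ∨
        m * (t * x * t⁻¹)⁻¹ ∈ K1 ∨ m * (x * (t * x * t⁻¹))⁻¹ ∈ K1 := by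
    obtain ⟨φ', k1, k2, k3, k4⟩ := desc K1 hl1.le
    have hs := QuotientGroup.mk'_surjective K1
    have := Subgroup.Normal.map (inferInstance : (commutator G).Normal) _ hs
    obtain ⟨_, ⟨x, hx, rfl⟩, a1, a2, a3, a4, a5⟩ := s4_four k1 k3 k4 (t := QuotientGroup.mk' K1 t)
      (by
        rintro _ ⟨a, ha, rfl⟩ _ ⟨b, hb, rfl⟩
        rw [← commutatorElement_eq_one_iff_mul_comm, ← map_commutatorElement, q]
        exact hc1 (Subgroup.commutator_mem_commutator ha hb))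
      (by
        rintro _ ⟨a, ha, rfl⟩
        obtain ⟨j, hj⟩ := h2 (Abelianization.of ⟨a, ha⟩)
        refine ⟨j, ?_⟩
        rw [← map_pow, ← MonoidHom.mem_ker, Abelianization.ker_of] at hj
        rw [← map_pow, q]
        exact hc1 (Subgroup.map_subtype_commutator M ▸ Subgroup.mem_map_of_mem M.subtype hj))
      (fun e => hl1.not_ge (by rwa [Subgroup.map_eq_bot_iff, QuotientGroup.ker_mk'] at e))
      (fun N hN hle => by
        have b1 : K1 ≤ N.comap (QuotientGroup.mk' K1) := fun a ha => by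
          rw [Subgroup.mem_comap, (q K1 a).2 ha]; exact one_mem N
        have b2 : N.comap (QuotientGroup.mk' K1) ≤ M := by
          refine (Subgroup.comap_mono hle).trans (Subgroup.comap_map_eq_self ?_).le
          rw [QuotientGroup.ker_mk']; exact hl1.le
        rcases b2.lt_or_eq with e | e
        · refine Or.inl (eq_bot_iff.2 fun a ha => ?_)
          obtain ⟨a, rfl⟩ := hs a
          exact (q K1 a).2 (hmax ⟨hN.comap _, hc1.trans b1, e⟩ b1 ha)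
        · exact Or.inr (by rw [← e, Subgroup.map_comap_eq_self_of_surjective hs]))
      ((k2 t).trans ht)
    refine ⟨x, hx, fun e => a1 ((q K1 x).2 e), (q K1 _).1 (by rw [map_mul, a2]),
      (q K1 _).1 (by rw [map_pow, a3]),
      hc1 (Subgroup.commutator_mem_commutator hx (hMn.conj_mem x hx t)),
      (q K1 _).1 (by simpa only [map_mul, map_inv] using a4), fun m hm => ?_⟩
    simpa only [← q K1, map_mul, map_inv, mul_inv_eq_one] using a5 _ ⟨m, hm, rfl⟩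
  obtain ⟨K, hn, hK, z, hz, k, hzk, hzg, hc⟩ : ∃ K : Subgroup G, K.Normal ∧ K ≤ K1 ∧ ∃ z ∈ K1,
      ∃ k : ℕ, z ^ 2 ^ k ∈ K ∧ (∀ m ∈ K1, ∃ i : ℕ, m * (z ^ i)⁻¹ ∈ K) ∧
        (Odd (Nat.card K) ∨ NC K ∧ z = 1) := by
    rcases tri K1 with e | e | e
    · exact ⟨K1, hn1, le_rfl, 1, one_mem _, 0, by simp, fun m hm => ⟨0, by simpa⟩, Or.inl e⟩
    · obtain ⟨O, o1, o2, o3, z, hz, k, o4, o5⟩ := cy_normal e
      exact ⟨O, o1, o2, z, hz, k, o4, o5, Or.inl o3⟩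
    · exact ⟨K1, hn1, le_rfl, 1, one_mem _, 0, by simp, fun m hm => ⟨0, by simpa⟩,
        Or.inr ⟨e, rfl⟩⟩
  obtain ⟨φ', k1, k2, k3, k4⟩ := desc K (hK.trans hl1.le)
  have hs := QuotientGroup.mk'_surjective K
  have hC : Subgroup.zpowers (QuotientGroup.mk' K z) = K1.map (QuotientGroup.mk' K) := by
    refine le_antisymm (Subgroup.zpowers_le.2 ⟨z, hz, rfl⟩) ?_
    rintro _ ⟨m, hm, rfl⟩
    obtain ⟨i, hi⟩ := hzg m hm
    rw [← q K, map_mul, map_inv, mul_inv_eq_one, map_pow] at hi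
    exact hi ▸ Subgroup.npow_mem_zpowers _ i
  have hC' : ∀ g, QuotientGroup.mk' K g ∈ Subgroup.zpowers (QuotientGroup.mk' K z) ↔ g ∈ K1 :=
    fun g => by
      rw [hC, ← Subgroup.mem_comap, Subgroup.comap_map_eq_self (by rwa [QuotientGroup.ker_mk'])]
  have : (Subgroup.zpowers (QuotientGroup.mk' K z)).Normal := hC ▸ hn1.map _ hs
  have key := s4_core k1 k3 k4 (z := QuotientGroup.mk' K z) (k := k)
    (by rw [← map_pow, q]; exact hzk) ⟨z, hl1.le hz, rfl⟩ (x0 := QuotientGroup.mk' K x)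
    (t0 := QuotientGroup.mk' K t) ⟨x, hx, rfl⟩ (fun e => x1 ((hC' x).1 e)) ((k2 t).trans ht)
    (by simpa only [map_mul] using (hC' _).2 xx) (by simpa only [map_pow] using (hC' _).2 t3)
    (by simpa only [map_mul, map_inv] using (hC' _).2 xc)
    (by simpa only [map_mul, map_inv] using (hC' _).2 xyu)
    (by
      rintro _ ⟨m, hm, rfl⟩
      simpa only [← hC', map_mul, map_inv] using hg m hm)
  rcases key with ⟨σ, s1, s2, s3⟩ | ⟨z1, δ, σ, s1, s2, s3⟩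
  · obtain ⟨ψ, hψ, -⟩ := Mod.ofSec _ hs σ s1 s2 s3
    rw [QuotientGroup.ker_mk'] at hψ
    rcases hc with e | ⟨e, -⟩
    · exact topO hψ e (rg_odd K e) do_s4
    · exact topZ ih hψ e dz_s4
  · obtain ⟨ψ, hψ, -⟩ := Mod.ofSec _ hs σ s1 s2 s3
    rw [QuotientGroup.ker_mk'] at hψ
    have e := hc.resolve_right fun e => z1 (by rw [e.2, map_one])
    have two : ∀ a : ZMod 2, a = 0 ∨ a = 1 := by decide
    rcases two δ with rfl | rfl
    · exact topO hψ e (rg_odd K e) do_gl23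
    · exact topO hψ e (rg_odd K e) do_csu

end Pool.Agent.SQ2
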