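import Mathlib.GroupTheory.IndexNormal
import Pool.Agent.MP_f56020_al.cy.Cy
import Pool.Agent.MP_f56020_al.s2.Aff
import Pool.Agent.MP_f56020_al.s2.Merge
import Pool.Agent.MP_f56020_al.s2.Fibs
import Pool.Agent.MP_f56020_al.s2.Odd

-- ======== part 0: formerly Pool.Agent.MP_f56020_al.s2.TwoG
section MrgPart0

namespace Pool.Agent.SQ2

open Pool.Agent.SQ Multiset

universe u

variable (P : Type*) [Group P] [Finite P]

theorem two_group (hP : IsPGroup 2 P) (hn : ¬ IsCyclic P) :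
    (∃ φ : P →* Multiplicative (ZMod 2 × ZMod 2), Function.Surjective φ ∧ ∃ a b, φ a = 1 ∧
      φ b = 1 ∧ a * a = 1 ∧ b * b = 1 ∧ a * b = b * a ∧ a ≠ 1 ∧ b ≠ 1 ∧ a ≠ b) ∨
    (∃ σ : (ZMod 2 × ZMod 2) × ZMod 2 → P, Function.Bijective σ ∧ ∀ x y, σ (x + y) = σ x * σ y) ∨
    ∃ a : P, (Subgroup.zpowers a).index = 2 :=
  TwoG.main hP hn

end Pool.Agent.SQ2

end MrgPart0

-- ======== part 1: formerly Pool.Agent.MP_f56020_al.s2.McF
section MrgPart1

namespace Pool.Agent.SQ2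

open Pool.Agent.SQ Multiset

universe u

theorem mcF_half {k : ℕ} {c : ℤ} (h : (2 : ℤ) ^ k ∣ c) :
    (2 : ℤ) ^ (k + 1) ∣ c ∨ (2 : ℤ) ^ (k + 1) ∣ c - 2 ^ k := by
  obtain ⟨d, rfl⟩ := h
  rcases Int.even_or_odd' d with ⟨e, rfl | rfl⟩
  · exact Or.inl ⟨e, by ring⟩
  · exact Or.inr ⟨e, by ring⟩

theorem mcF_root {k : ℕ} {r : ℤ} (h : (2 : ℤ) ^ (k + 1) ∣ r * r - 1) :
    (2 : ℤ) ^ k ∣ r - 1 ∨ (2 : ℤ) ^ k ∣ r + 1 := by
  have h2 : (2 : ℤ) ∣ r * r - 1 := (dvd_pow_self 2 (Nat.succ_ne_zero k)).trans h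
  obtain ⟨s, rfl⟩ : Odd r := by
    rcases Int.even_or_odd' r with ⟨e, rfl | rfl⟩
    · exfalso
      obtain ⟨x, hx⟩ := h2
      have : 2 * (2 * e * e - x) = 1 := by linarith
      omega
    · exact ⟨e, rfl⟩
  have h3 : (2 : ℤ) ^ k ∣ (2 * s) * (s + 1) := by
    have : (2 * s + 1) * (2 * s + 1) - 1 = 2 * ((2 * s) * (s + 1)) := by ring
    rw [this, pow_succ'] at h
    exact (mul_dvd_mul_iff_left two_ne_zero).1 h
  rcases Int.even_or_odd' s with ⟨e, rfl | rfl⟩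
  · left
    have hc : IsCoprime ((2 : ℤ) ^ k) (2 * e + 1) :=
      IsCoprime.pow_left ⟨-e, 1, by ring⟩
    simpa using hc.dvd_of_dvd_mul_right h3
  · right
    have hc : IsCoprime ((2 : ℤ) ^ k) (2 * e + 1) :=
      IsCoprime.pow_left ⟨-e, 1, by ring⟩
    have : 2 * (2 * e + 1) * (2 * e + 1 + 1) = (2 * (2 * e + 1) + 1 + 1) * (2 * e + 1) := by ring
    rw [this] at h3
    exact hc.dvd_of_dvd_mul_right h3

/-- The arithmetic of the classification. -/
theorem mcF_arith {n k : ℕ} (hn : n = 2 ^ (k + 1)) {r d : ℤ} (h1 : (n : ℤ) ∣ r * r - 1)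
    (h2 : (n : ℤ) ∣ r * (2 * d) - 2 * d) :
    ∃ t : ℤ, McT n k (r : ZMod n) ((t * (1 + r) + 2 * d : ℤ) : ZMod n) := by
  have hN : (n : ℤ) = 2 ^ (k + 1) := by rw [hn]; push_cast; rfl
  have cast : ∀ x y : ℤ, (2 : ℤ) ^ (k + 1) ∣ x - y → (x : ZMod n) = (y : ZMod n) :=
    fun x y h => ((ZMod.intCast_eq_intCast_iff_dvd_sub y x n).2 (hN ▸ h)).symm
  rw [hN] at h1 h2
  have c1 : (2 : ℤ) ^ (k + 1) ∣ r - 1 →
      ∃ t : ℤ, McT n k (r : ZMod n) ((t * (1 + r) + 2 * d : ℤ) : ZMod n) := fun h =>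
    ⟨-d, Or.inl ⟨by simpa using cast r 1 h, by
      have := cast (-d * (1 + r) + 2 * d) 0
        (by rw [show -d * (1 + r) + 2 * d - 0 = -d * (r - 1) by ring]; exact h.mul_left _)
      simpa using this⟩⟩
  have half : (2 : ℤ) ^ k ∣ r + 1 → (2 : ℤ) ^ k ∣ 2 * d := fun h => by
    have h3 : (2 : ℤ) ^ (k + 1) ∣ (r + 1) * (2 * d) := by
      rw [pow_succ, show (r + 1) * (2 * d) = (r + 1) * 2 * d by ring]
      exact (mul_dvd_mul_right h 2).mul_right d
    have h4 := h3.sub h2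
    rw [show (r + 1) * (2 * d) - (r * (2 * d) - 2 * d) = 2 * (2 * d) by ring, pow_succ'] at h4
    exact (mul_dvd_mul_iff_left two_ne_zero).1 h4
  have c2 : 1 ≤ k → (2 : ℤ) ^ (k + 1) ∣ r + 1 →
      ∃ t : ℤ, McT n k (r : ZMod n) ((t * (1 + r) + 2 * d : ℤ) : ZMod n) := fun hk h => by
    refine ⟨0, Or.inr (Or.inr (Or.inl ⟨hk, by simpa using cast r (-1) (by simpa using h), ?_⟩))⟩
    rcases mcF_half (half ((pow_dvd_pow 2 k.le_succ).trans h)) with h5 | h5
    · left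
      simpa using cast (2 * d) 0 (by simpa using h5)
    · right
      simpa using cast (2 * d) (2 ^ k) h5
  have hodd : (2 : ℤ) ∣ r - 1 := by
    have h3 : (2 : ℤ) ∣ r * r - 1 := (dvd_pow_self 2 (Nat.succ_ne_zero k)).trans h1
    rcases Int.even_or_odd' r with ⟨e, rfl | rfl⟩
    · exfalso
      obtain ⟨x, hx⟩ := h3
      have : 2 * (2 * e * e - x) = 1 := by linarith
      omega
    · exact ⟨e, by ring⟩
  rcases k with _ | _ | k
  · exact c1 (by simpa using hodd)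
  · obtain ⟨e, he⟩ := hodd
    rcases Int.even_or_odd' e with ⟨f, rfl | rfl⟩
    · exact c1 ⟨f, by rw [he]; ring⟩
    · exact c2 le_rfl ⟨f + 1, by linear_combination he⟩
  rcases mcF_root h1 with h | h
  · rcases mcF_half h with h | h
    · exact c1 h
    · refine ⟨-d * (1 + 2 ^ (k + 1)), Or.inr (Or.inl ⟨by omega, ?_, ?_⟩)⟩
      · simpa using cast r (1 + 2 ^ (k + 1 + 1)) (by rwa [← sub_sub])
      · obtain ⟨x, hx⟩ := h
        have hr : r = 1 + 2 ^ (k + 1 + 1) + 2 ^ (k + 1 + 1 + 1) * x := by linarith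
        have := cast (-d * (1 + 2 ^ (k + 1)) * (1 + r) + 2 * d) 0
          ⟨-d * (1 + 2 ^ k + (1 + 2 ^ (k + 1)) * x), by rw [hr]; ring⟩
        simpa using this
  · rcases mcF_half h with h' | h'
    · exact c2 (by omega) h'
    · have hr : (r : ZMod n) = -1 + 2 ^ (k + 1 + 1) := by
        simpa using cast r (-1 + 2 ^ (k + 1 + 1))
          (by rwa [show r - (-1 + 2 ^ (k + 1 + 1)) = r + 1 - 2 ^ (k + 1 + 1) by ring])
      rcases mcF_half (half h) with h5 | h5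
      · refine ⟨0, Or.inr (Or.inr (Or.inr ⟨by omega, hr, ?_⟩))⟩
        simpa using cast (2 * d) 0 (by simpa using h5)
      · refine ⟨1, Or.inr (Or.inr (Or.inr ⟨by omega, hr, ?_⟩))⟩
        have h6 := (h'.add h5).add (dvd_refl _)
        have := cast (1 * (1 + r) + 2 * d) 0 (by
          rwa [show 1 * (1 + r) + 2 * d - 0 = r + 1 - 2 ^ (k + 1 + 1) +
            (2 * d - 2 ^ (k + 1 + 1)) + 2 ^ (k + 1 + 1 + 1) by ring])
        simpa using this

variable (P : Type*) [Group P] [Finite P]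

theorem mc_form (hP : IsPGroup 2 P) (hn : ¬ IsCyclic P) {a : P}
    (ha : (Subgroup.zpowers a).index = 2) :
    ∃ (n k : ℕ) (_ : NeZero n) (r c : ZMod n) (σ : ZMod n × ZMod 2 → P), n = 2 ^ (k + 1) ∧
      McT n k r c ∧ Function.Bijective σ ∧ (∀ x y, σ (mc n 2 r c x y) = σ x * σ y) ∧ σ 0 = 1 := by
  have hcard : Nat.card P = 2 * orderOf a := by
    rw [← Subgroup.index_mul_card (Subgroup.zpowers a), ha, Nat.card_zpowers]
  obtain ⟨m, hm⟩ := (IsPGroup.iff_orderOf.1 hP) a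
  obtain ⟨k, rfl⟩ : ∃ k, m = k + 1 := by
    rcases m with _ | k
    · exact absurd (isCyclic_of_prime_card (p := 2) (by rw [hcard, hm]; rfl)) hn
    · exact ⟨k, rfl⟩
  set n := orderOf a with hndef
  have hn0 : NeZero n := ⟨by rw [hm]; positivity⟩
  obtain ⟨b, hb⟩ : ∃ b, b ∉ Subgroup.zpowers a := by
    by_contra h
    push Not at h
    exact hn ⟨⟨a, h⟩⟩
  have hnorm := Subgroup.normal_of_index_eq_two ha
  obtain ⟨r, hr⟩ := Subgroup.mem_zpowers_iff.1 (hnorm.conj_mem a (Subgroup.mem_zpowers a) b)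
  obtain ⟨c, hc⟩ := Subgroup.mem_zpowers_iff.1 (Subgroup.sq_mem_of_index_two ha b)
  have hconj : ∀ x : ℤ, b * a ^ x * b⁻¹ = a ^ (r * x) := fun x => by
    rw [zpow_mul, hr, conj_zpow]
  have hdvd : ∀ x y : ℤ, a ^ x = a ^ y → (n : ℤ) ∣ x - y := fun x y h =>
    (zpow_eq_zpow_iff_modEq.1 h).symm.dvd
  have h1 : (n : ℤ) ∣ r * r - 1 := by
    refine hdvd _ _ ?_
    rw [← hconj, hr, zpow_one,
      show b * (b * a * b⁻¹) * b⁻¹ = b ^ 2 * a * (b ^ 2)⁻¹ by rw [sq]; group, ← hc]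
    group
  have h2 : (n : ℤ) ∣ r * c - c := by
    refine hdvd _ _ ?_
    rw [← hconj, hc]
    group
  obtain ⟨d, rfl⟩ : ∃ d, c = 2 * d := by
    rcases Int.even_or_odd' c with ⟨d, h | h⟩
    · exact ⟨d, h⟩
    · exfalso
      have hcop : IsCoprime ((2 : ℤ) ^ (k + 1)) c := IsCoprime.pow_left ⟨-d, 1, by rw [h]; ring⟩
      obtain ⟨u, v, huv⟩ := hcop
      have hab : a ∈ Subgroup.zpowers b := by
        have h3 : a ^ ((2 : ℤ) ^ (k + 1)) = 1 := by
          have := pow_orderOf_eq_one a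
          rw [← hndef, hm, ← zpow_natCast] at this
          simpa using this
        have h4 : a = (b ^ 2) ^ v := by
          rw [← hc, ← zpow_mul]
          conv_lhs => rw [← zpow_one a, ← huv, zpow_add, mul_comm u, zpow_mul, h3, one_zpow,
            one_mul, mul_comm v]
        rw [h4]
        exact Subgroup.zpow_mem _ (Subgroup.pow_mem _ (Subgroup.mem_zpowers b) 2) v
      have hle : Subgroup.zpowers a ≤ Subgroup.zpowers b := (Subgroup.zpowers_le).2 hab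
      refine hn ⟨⟨b, fun g => ?_⟩⟩
      by_cases hg : g ∈ Subgroup.zpowers a
      · exact hle hg
      · have h5 : g * b ∈ Subgroup.zpowers a :=
          (Subgroup.mul_mem_iff_of_index_two ha).2 (by simp only [hg, hb])
        exact (Subgroup.mul_mem_cancel_right _ (Subgroup.mem_zpowers b)).1 (hle h5)
  obtain ⟨t, hT⟩ := mcF_arith hm h1 h2
  have hval : ∀ x : ℤ, a ^ (x : ZMod n).val = a ^ x := fun x => by
    rw [← zpow_natCast, ZMod.val_intCast, hndef, zpow_mod_orderOf]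
  have hb' : a ^ t * b ∉ Subgroup.zpowers a := fun h =>
    hb ((Subgroup.mul_mem_cancel_left _ (Subgroup.zpow_mem _ (Subgroup.mem_zpowers a) t)).1 h)
  refine ⟨n, k, hn0, _, _, fun x => a ^ x.1.val * (a ^ t * b) ^ x.2.val, hm, hT,
    mc_bij a _ rfl hb' hcard, mc_hom a _ (pow_orderOf_eq_one a) ?_ ?_, by simp⟩
  · rw [hval, show a ^ t * b * a * (a ^ t * b)⁻¹ = a ^ t * (b * a * b⁻¹) * (a ^ t)⁻¹ by group,
      ← hr]
    group
  · rw [hval, show (a ^ t * b) ^ 2 = a ^ t * (b * a ^ t * b⁻¹) * b ^ 2 by rw [sq, sq]; group,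
      hconj, ← hc]
    group

theorem q8_mod (h : NC P) (h8 : Q8x P) : ∃ φ : P → ZMod 4 × ZMod 2, Mod ⊥ (mc 4 2 3 2) 0 φ := by
  obtain ⟨hc, z, hz⟩ := h8
  have hP : IsPGroup 2 P := IsPGroup.of_card (n := 3) hc
  have hn : ¬ IsCyclic P := fun hcy => by
    obtain ⟨Q, _, hQ⟩ := h
    exact hQ inferInstance
  obtain ⟨a, ha⟩ : ∃ a : P, a * a ≠ 1 := by
    by_contra h1
    push Not at h1
    have h2 : (Set.univ : Set P) ⊆ {1, z} := fun g _ => hz g (h1 g)
    have h3 := (Set.ncard_le_ncard h2).trans (Set.ncard_insert_le _ _)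
    rw [Set.ncard_univ, hc, Set.ncard_singleton] at h3
    omega
  have ho : orderOf a = 4 := by
    have h1 : orderOf a ∣ 8 := hc ▸ orderOf_dvd_natCard a
    have h2 : orderOf a ≠ 8 := fun h => hn (isCyclic_of_orderOf_eq_card a (h.trans hc.symm))
    have h3 : ¬ orderOf a ∣ 2 := fun h => ha (by rw [← sq]; exact orderOf_dvd_iff_pow_eq_one.1 h)
    have h4 := Nat.le_of_dvd (by norm_num) h1
    interval_cases orderOf a <;> simp_all
  have hi : (Subgroup.zpowers a).index = 2 := by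
    have := Subgroup.index_mul_card (Subgroup.zpowers a)
    rw [Nat.card_zpowers, ho, hc] at this
    omega
  obtain ⟨n, k, _, r, c, σ, hnk, hT, hσ, hm, h0⟩ := mc_form P hP hn hi
  obtain rfl : n = 4 := by
    have := Nat.card_eq_of_bijective σ hσ
    rw [Nat.card_prod, Nat.card_zmod, Nat.card_zmod, hc] at this
    omega
  obtain rfl : k = 1 := by
    have : 2 ^ 2 = 2 ^ (k + 1) := hnk
    have := Nat.pow_right_injective le_rfl this
    omega
  have bad : mc 4 2 r c (0, 1) (0, 1) = 0 → mc 4 2 r c (2, 0) (2, 0) = 0 → False := by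
    intro e1 e2
    have f1 := hz (σ (0, 1)) (by rw [← hm, e1, h0])
    have f2 := hz (σ (2, 0)) (by rw [← hm, e2, h0])
    rw [← h0] at f1 f2
    rcases f1 with f1 | f1
    · exact absurd (hσ.1 f1) (by decide)
    · rcases f2 with f2 | f2
      · exact absurd (hσ.1 f2) (by decide)
      · exact absurd (hσ.1 (f1.trans f2.symm)) (by decide)
  obtain ⟨rfl, rfl⟩ : r = 3 ∧ c = 2 := by
    rcases hT with ⟨rfl, rfl⟩ | ⟨h, -⟩ | ⟨-, rfl, rfl | rfl⟩ | ⟨h, -⟩
    · exact (bad (by decide) (by decide)).elim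
    · omega
    · exact (bad (by decide) (by decide)).elim
    · exact ⟨by decide, by decide⟩
    · omega
  obtain ⟨φ, hφ, -⟩ := Mod.ofSec (MonoidHom.id P) Function.surjective_id σ hσ hm h0
  rw [MonoidHom.ker_id] at hφ
  exact ⟨φ, hφ⟩

end Pool.Agent.SQ2

end MrgPart1

-- ======== part 2: formerly Pool.Agent.MP_f56020_al.s2.CyI
section MrgPart2

namespace Pool.Agent.SQ2

open Pool.Agent.SQ Multiset

universe u

theorem layer_sq {G Q : Type u} [Group G] [Finite G] [Group.IsSolvable G] [Group Q] [Finite Q]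
    (π : G →* Q) (hπ : Function.Surjective π) (ho : Odd (Nat.card π.ker)) {z : G}
    (hz : z * z = 1) (hs : z ∈ Subgroup.closure (Set.range fun g : G => g * g))
    (h4 : 4 ≤ Nat.card Q) (h : SC Q (π z)) : SC G z := by
  refine SQC.layer_sq π hπ ho hz hs (fun e => ?_) (by omega) h
  obtain ⟨V, h1, h2⟩ := h
  have hV : V ≠ 0 := by
    rintro rfl
    have := congrArg card h2
    rw [card_al, add_zero, card_singleton] at this
    omega
  obtain ⟨b, V', M', -, rfl, -⟩ := h1.last hV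
  have hn : ({1} + (V' + {π z}) : Multiset Q).Nodup := h2 ▸ nodup_st _
  exact disjoint_left.1 (nodup_add.1 hn).2.2 (mem_singleton_self 1) (by simp [e])

end Pool.Agent.SQ2

end MrgPart2

-- ======== part 3: formerly Pool.Agent.MP_f56020_al.s2.Top
section MrgPart3

namespace Pool.Agent.SQ2

open Pool.Agent.SQ Multiset

universe u

variable {G : Type u} [Group G] [Finite G] {D : Type*} {M H : Subgroup G} {mul : D → D → D}
  {e : D} {φ : G → D} {B : D → Bool} {m : ℕ}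

theorem fib_ih [Group.IsSolvable G] (ih : IH G) (hM : M ≠ ⊤) (h : NC M) (hm : Even m)
    (h0 : 0 < m) : Fib M m := by
  by_cases h8 : Q8x M
  · obtain ⟨ψ, hψ⟩ := q8_mod M h h8
    exact fib_q8_mod hψ hm h0
  · exact fib_even ((ih M (card_lt hM) h).1 h8)
      (even_iff_two_dvd.2 (Dvd.dvd.trans (by norm_num) h.four_dvd)) h0

theorem rg_ih [Group.IsSolvable G] (ih : IH G) (h : M < H) (hH : H ≠ ⊤) (hM : NC M) : RG H :=
  (ih H (card_lt hH) (NC.mono h.le hM)).1 (not_q8_of_lt h hM)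

theorem sg_ih [Group.IsSolvable G] (ih : IH G) (hH : H ≠ ⊤) (h : NC H) (hc : ¬ Cm H)
    (h8 : Nat.card H ≠ 8) : SG H := (ih H (card_lt hH) h).2 hc h8

omit [Finite G] in
theorem top_eta (hM : M ≠ ⊥) : ∃ η ∈ M, η ≠ 1 := by
  by_contra hc
  push Not at hc
  exact hM ((Subgroup.eq_bot_iff_forall M).2 hc)

theorem top_ne_nil {l : List D} (h : 0 < l.length) : l ≠ [] := List.ne_nil_of_length_pos h

theorem top8 (h : Mod M mul e φ) (hH : ∀ g, g ∈ H ↔ B (φ g) = true) (hF : Fib M m) (hM : M ≠ ⊥)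
    (hd : D8 mul e B m) : ∃ η ∈ M, η ≠ 1 ∧ Ex H η η := by
  obtain ⟨l, lab, k, s, q, r, hfr, rfl, h4, h2, hk, e0, e1, e2, e3, e4⟩ := hd
  obtain ⟨τ, hτ, hv⟩ := h.fr hH hfr (top_ne_nil (by omega))
  obtain ⟨s, rfl⟩ := h.surj s
  obtain ⟨q, rfl⟩ := h.surj q
  obtain ⟨r, rfl⟩ := h.surj r
  obtain ⟨η, hη, h1⟩ := top_eta hM
  have hη' := (h.ker η).1 hη
  refine ⟨η, hη, h1, f8 (s := s) (q := q) (r := r) hτ hF h4 h2 hk ?_ ?_ ?_ ?_ ?_ ?_ h1⟩
  · rw [h.mem_iff, hv, Nat.zero_mod, e0, h.map_mul]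
  · rw [h.mem_iff, hv, Nat.mod_eq_of_lt (by omega), e1, h.map_mul, hη', h.mul_one]
  · rw [h.mem_iff, hv, Nat.mod_eq_of_lt (by omega), e1]
  · rw [h.mem_iff, hv, Nat.mod_eq_of_lt (by omega), e2, h.map_mul]
  · rw [h.mem_iff, hv, Nat.mod_eq_of_lt hk, e3]
  · rw [h.mem_iff, hv, e4]

theorem top_three (h : Mod M mul e φ) (hH : ∀ g, g ∈ H ↔ B (φ g) = true) {l lab : List D}
    (hF : Fib M l.length) (hM : M ≠ ⊥) {U V η : G} {j : ℕ} (hfr : FrD mul B l lab)
    (h2 : 2 < l.length) (h0 : 0 < j) (hj : j < l.length) (e0 : l.getD 0 e = φ U)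
    (e1 : l.getD 1 e = mul (φ V) (φ η)) (e2 : l.getD j e = φ V)
    (e3 : mul (φ U) (l.getD ((j + 1) % l.length) e) = mul (φ V) (φ η)) (hη : η ≠ 1)
    (hl : j + 1 = l.length → V * η ≠ U * U) : Ex H η (U * V⁻¹ * U⁻¹ * V * η) := by
  obtain ⟨τ, hτ, hv⟩ := h.fr hH hfr (top_ne_nil (by omega))
  refine f3 hτ hF hM h2 h0 hj ?_ ?_ ?_ ?_ hη hl
  · rw [h.mem_iff, hv, Nat.zero_mod, e0]
  · rw [h.mem_iff, hv, Nat.mod_eq_of_lt (by omega), e1, h.map_mul]
  · rw [h.mem_iff, hv, Nat.mod_eq_of_lt hj, e2]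
  · rw [h.mem_iff, hv]
    refine h.cancel (x := φ U) ?_
    rw [e3, ← h.map_mul, ← h.map_mul, mul_inv_cancel_left]

theorem top3 (h : Mod M mul e φ) (hH : ∀ g, g ∈ H ↔ B (φ g) = true) (hF : Fib M m) (hM : M ≠ ⊥)
    {U V η : G} (hd : D3 mul e B m (φ U) (φ V) (φ η)) (hη : η ≠ 1) :
    Ex H η (U * V⁻¹ * U⁻¹ * V * η) := by
  obtain ⟨l, lab, j, hfr, rfl, h0, hj, e0, e1, e2, e3⟩ := hd
  exact top_three h hH hF hM hfr (by omega) h0 (by omega) e0 e1 e2
    (by rwa [Nat.mod_eq_of_lt hj]) hη (fun e => absurd e hj.ne)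

theorem top3w (h : Mod M mul e φ) (hH : ∀ g, g ∈ H ↔ B (φ g) = true) (hF : Fib M m) (hM : M ≠ ⊥)
    {U V η : G} (hd : D3w mul e B m (φ U) (φ V) (φ η)) (hη : η ≠ 1) (hl : V * η ≠ U * U) :
    Ex H η (U * V⁻¹ * U⁻¹ * V * η) := by
  obtain ⟨l, lab, j, hfr, rfl, h2, h0, hj, e0, e1, e2, e3⟩ := hd
  exact top_three h hH hF hM hfr h2 h0 hj e0 e1 e2 e3 hη fun _ => hl

/-- Commuting lifts. -/
theorem top3c (h : Mod M mul e φ) (hH : ∀ g, g ∈ H ↔ B (φ g) = true) (hF : Fib M m) (hM : M ≠ ⊥)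
    {U V : G} (hd : D3 mul e B m (φ U) (φ V) e) (hc : U * V = V * U) :
    ∃ η ∈ M, η ≠ 1 ∧ Ex H η η := by
  obtain ⟨η, hη, h1⟩ := top_eta hM
  have k := top3 h hH hF hM (U := U) (V := V) (η := η) (by rwa [(h.ker η).1 hη]) h1
  have e : U * V⁻¹ * U⁻¹ * V * η = η := by
    have : U * V⁻¹ * U⁻¹ * V = U * (U * V)⁻¹ * V := by group
    rw [this, hc]
    group
  rw [e] at k
  exact ⟨η, hη, h1, k⟩

theorem top4 (h : Mod M mul e φ) (hH : ∀ g, g ∈ H ↔ B (φ g) = true) (hF : Fib M m) (hM : M ≠ ⊥)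
    (hle : M ≤ H) (hd : ∀ x, B x = true → D4 mul e B m x) (hR : RG H) : SG G := by
  obtain ⟨η, hη, h1⟩ := top_eta hM
  obtain ⟨x, hx, A0, w0, a1, a2⟩ := rg_arc hR (hle hη) h1
  obtain ⟨l, lab, k, s, s', r, r', hfr, rfl, h4, h2, hk, hs, hr, e0, e1, e2, e3, e4⟩ :=
    hd _ ((hH x).1 hx)
  obtain ⟨τ, hτ, hv⟩ := h.fr hH hfr (top_ne_nil (by omega))
  obtain ⟨s, rfl⟩ := h.surj s
  obtain ⟨r, rfl⟩ := h.surj r
  have hη' := (h.ker η).1 hη
  have hη2 := (h.ker η⁻¹).1 (M.inv_mem hη)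
  have hs' := h.inv hs
  have hr' := h.inv hr
  obtain ⟨y, A, w, b1, b2⟩ := f4v (s := s) (r := r) (x := x) (η := η) hτ hF h4 h2 hk
    (by
      rw [h.mem_iff, hv, Nat.zero_mod, e0]
      simp only [h.map_mul, hη', hη2, hs', hr', h.mul_one])
    (by rw [h.mem_iff, hv, Nat.mod_eq_of_lt (by omega), e1, h.map_mul, hη', h.mul_one])
    (by rw [h.mem_iff, hv, Nat.mod_eq_of_lt (by omega), e1])
    (by rw [h.mem_iff, hv, Nat.mod_eq_of_lt (by omega), e2, h.map_mul])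
    (by
      rw [h.mem_iff, hv, Nat.mod_eq_of_lt hk, e3]
      simp only [h.map_mul, hη', hr', h.mul_one])
    (by
      rw [h.mem_iff, hv, e4]
      simp only [h.map_mul, hη', hr', h.mul_one]) h1 w0
  exact sg_of_one (H := H) w (by rw [b1, a1]) (by rw [b2, a2])

/-- An abelian top creates a sequencing. -/
theorem topA (h : Mod M mul e φ) (hH : ∀ g, g ∈ H ↔ B (φ g) = true) (hF : Fib M m) (hM : M ≠ ⊥)
    (hle : M ≤ H) (hR : RG H) {u v : D} (huv : mul u v = mul v u) {N : ℕ} (hg : Gen2 mul e u v N)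
    (hd : (∀ x, B x = true → D3 mul e B m u v x) ∨
      (3 < Nat.card H ∧ ∀ x, B x = true → D3w mul e B m u v x)) (hc : ¬ Cm G) : SG G := by
  obtain ⟨r, rfl⟩ := h.surj u
  obtain ⟨c, rfl⟩ := h.surj v
  have hn := h.normal
  obtain ⟨k, hk, l, hl, hne⟩ := nc_lift (M := M) r c (fun g => by
    obtain ⟨i, -, j, -, hij⟩ := hg (φ g)
    exact ⟨i, j, by rw [h.mem_iff, hij, h.map_mul, h.pow, h.pow]⟩) hc
  have eU : φ (k * r) = φ r := by rw [h.map_mul, (h.ker k).1 hk, h.one_mul]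
  have eV : φ (l * c) = φ c := by rw [h.map_mul, (h.ker l).1 hl, h.one_mul]
  rw [← eU, ← eV] at hd huv
  generalize k * r = U at *
  generalize l * c = V at *
  have hκ : U * V⁻¹ * U⁻¹ * V ∈ H := by
    have h1 : V * U * (U * V)⁻¹ ∈ M := by rw [h.mem_iff, h.map_mul, h.map_mul, huv]
    have h2 := hn.conj_mem _ h1 V⁻¹
    refine hle ?_
    convert h2 using 1
    group
  have h1 : U * V⁻¹ * U⁻¹ * V ≠ 1 := fun e => hne (by
    have : V * U = V * (U * V⁻¹ * U⁻¹ * V) * (V⁻¹ * U * V) := by group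
    rw [this, e]
    group)
  rcases hd with hd | ⟨h3, hd⟩
  · exact ex_RS hR hκ h1 fun η hη hη1 => top3 h hH hF hM (hd _ ((hH η).1 hη)) hη1
  · exact ex_RS' hR h3 hκ h1 (V⁻¹ * (U * U)) fun η hη hη1 hη2 =>
      top3w h hH hF hM (hd _ ((hH η).1 hη)) hη1 fun e => hη2 (by rw [← e]; group)

theorem topR [DecidableEq D] (h : Mod M mul e φ) (hR : RG M) (hm : Odd m)
    (hd : D8 mul e (fun d => d = e) m) : RG G := by
  have hH : ∀ g, g ∈ M ↔ (fun d => decide (d = e)) (φ g) = true := fun g => by simpa using h.ker g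
  by_cases hM : M = ⊥
  · subst hM
    obtain ⟨l, lab, k, s, q, r, hfr, rfl, h4, -⟩ := hd
    obtain ⟨τ, hτ, -⟩ := h.fr hH hfr (top_ne_nil (by omega))
    exact rg_of_fr hτ
  · obtain ⟨η, hη, h1, k⟩ := top8 h hH (fib_odd hR hm) hM hd
    exact ex_RR hR hη h1 k

theorem top_even [DecidableEq D] (h : Mod M mul e φ) {z : D} (hz : z ≠ e) (hzz : mul z z = e)
    {l : List D} (hn : l.Nodup) (hl : ∀ d, d ∈ l ↔ ¬ (d = e ∨ d = z)) : Even l.length := by
  have := Finite.of_surjective φ h.surj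
  have := Fintype.ofFinite D
  have hn' := h.normal
  obtain ⟨Z, rfl⟩ := h.surj z
  have h2 : 2 ∣ Nat.card D := by
    rw [← h.index, Subgroup.index_eq_card]
    have ho : orderOf (Z : G ⧸ M) = 2 := by
      refine orderOf_eq_prime ?_ ?_
      · rw [← QuotientGroup.mk_pow, QuotientGroup.eq_one_iff, h.ker, sq, h.map_mul, hzz]
      · rw [Ne, QuotientGroup.eq_one_iff, h.ker]
        exact hz
    exact ho ▸ orderOf_dvd_natCard _
  have h3 : l.toFinset = Finset.univ \ {e, φ Z} := by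
    ext d
    simp [hl]
  have h4 : l.length + 2 = Nat.card D := by
    rw [← List.toFinset_card_of_nodup hn, h3, Nat.card_eq_fintype_card, ← Finset.card_univ,
      ← Finset.card_pair hz.symm]
    exact Finset.card_sdiff_add_card_eq_card (Finset.subset_univ _)
  rw [even_iff_two_dvd]
  omega

theorem topZ [DecidableEq D] [Group.IsSolvable G] (ih : IH G) (h : Mod M mul e φ) (hM : NC M)
    {z : D} (hd : DZ mul e z m) : RG G ∧ SG G := by
  obtain ⟨hz, hzz, d8, d4, d4'⟩ := hd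
  obtain ⟨H, hle, hH⟩ := h.sub (fun d => decide (d = e ∨ d = z)) (by simp) (by
    intro x y hx hy
    simp only [decide_eq_true_eq] at hx hy ⊢
    rcases hx with rfl | rfl
    · rwa [h.one_mul]
    · rcases hy with rfl | rfl
      · exact Or.inr (h.mul_one _)
      · exact Or.inl hzz)
  have hlt : M < H := by
    obtain ⟨Z, rfl⟩ := h.surj z
    exact lt_of_le_of_ne hle fun e' => hz ((h.ker Z).1 (e' ▸ (hH Z).2 (by simp)))
  have key : H ≠ ⊤ ∧ Even m ∧ 0 < m := by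
    obtain ⟨l, lab, k, s, q, r, hfr, rfl, h4, -⟩ := d8
    refine ⟨?_, top_even h hz hzz hfr.1.1 fun d => by simpa using (hfr.2 d).1, by omega⟩
    rintro rfl
    obtain ⟨d, hd⟩ := List.exists_mem_of_ne_nil l (top_ne_nil (by omega))
    obtain ⟨g, rfl⟩ := h.surj d
    have k1 := (hfr.2 _).1.1 hd
    exact absurd (((hH g).1 (Subgroup.mem_top g)).symm.trans k1) (by simp)
  obtain ⟨hT, hm, h0⟩ := key
  have hF : Fib M m := fib_ih ih (ne_top_of_lt hlt) hM hm h0
  have hR : RG H := rg_ih ih hlt hT hM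
  obtain ⟨η, hη, h1, k⟩ := top8 (B := fun d => decide (d = e ∨ d = z)) h hH hF hM.ne_bot d8
  refine ⟨ex_RR hR (hle hη) h1 k,
    top4 (B := fun d => decide (d = e ∨ d = z)) h hH hF hM.ne_bot hle (fun x hx => ?_) hR⟩
  simp only [decide_eq_true_eq] at hx
  rcases hx with rfl | rfl
  · exact d4
  · exact d4'

theorem topO [DecidableEq D] [Group.IsSolvable G] (h : Mod M mul e φ) (ho : Odd (Nat.card M))
    (hR : RG M) (hd : DO mul e m) : RG G ∧ SG G := by
  obtain ⟨hm, d8, ds⟩ := hd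
  refine ⟨topR h hR hm d8, ?_⟩
  have hn := h.normal
  obtain ⟨φ', h', -⟩ := h.quot
  obtain ⟨z, a, b, hsc, hzz, hab⟩ := h'.sc ds
  obtain ⟨a, rfl⟩ := QuotientGroup.mk_surjective a
  obtain ⟨b, rfl⟩ := QuotientGroup.mk_surjective b
  have sq_mem : ∀ g : G, g * g ∈ Subgroup.closure (Set.range fun g : G => g * g) :=
    fun g => Subgroup.subset_closure ⟨g, rfl⟩
  obtain ⟨z0, hz0, rfl⟩ : ∃ z0 ∈ Subgroup.closure (Set.range fun g : G => g * g),
      (z0 : G ⧸ M) = z := by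
    rcases hab with rfl | rfl
    · exact ⟨a * a, sq_mem a, rfl⟩
    · refine ⟨a * b * a⁻¹ * b⁻¹, ?_, rfl⟩
      have : a * b * a⁻¹ * b⁻¹ = a * a * (a⁻¹ * b * (a⁻¹ * b)) * (b⁻¹ * b⁻¹) := by group
      rw [this]
      exact mul_mem (mul_mem (sq_mem _) (sq_mem _)) (sq_mem _)
  have h2 : z0 * z0 ∈ M := by
    rwa [← QuotientGroup.eq_one_iff, QuotientGroup.mk_mul]
  have h3 : z0 ^ Nat.card M * z0 ^ Nat.card M = 1 := by
    rw [← (Commute.refl z0).mul_pow]
    exact congrArg Subtype.val (pow_card_eq_one' (G := M) (x := ⟨_, h2⟩))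
  have h4 : 4 ≤ Nat.card (G ⧸ M) := by
    obtain ⟨l, lab, k, s, q, r, hfr, rfl, h4, -⟩ := d8
    have := Finite.of_surjective φ h.surj
    have := Fintype.ofFinite D
    rw [← Subgroup.index_eq_card, h.index, Nat.card_eq_fintype_card]
    exact h4.trans hfr.1.1.length_le_card
  have h5 : QuotientGroup.mk' M (z0 ^ Nat.card M) = (z0 : G ⧸ M) := by
    obtain ⟨k, hk⟩ := ho
    rw [map_pow, hk, pow_succ, pow_mul, sq, QuotientGroup.mk'_apply, hzz, one_pow, one_mul]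
  exact (layer_sq (QuotientGroup.mk' M) (QuotientGroup.mk'_surjective M)
    (by rwa [QuotientGroup.ker_mk']) h3 (pow_mem hz0 _) h4 (h5 ▸ hsc)).sg

end Pool.Agent.SQ2

end MrgPart3

-- ======== part 4: formerly Pool.Agent.MP_f56020_al.s2.Z3T
section MrgPart4

namespace Pool.Agent.SQ2

open Pool.Agent.SQ Multiset

universe u

section aux
variable {G : Type*} [Group G] [Finite G] {H K : Subgroup G} {p : ℕ}
  {ψ : G → Multiplicative (ZMod p)} {s : Multiplicative (ZMod p) → G}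

open Multiplicative

omit [Finite G] in
/-- Membership in `K` of a sandwich between two values of the section. -/
theorem z3t_mem (q : Quo H K ψ) (hs : ∀ w, s w ∈ H ∧ ψ (s w) = w) (x y : ZMod p) (h : G) :
    s (ofAdd x) * h * (s (ofAdd y))⁻¹ ∈ K ↔ h ∈ H ∧ toAdd (ψ h) = y - x := by
  have hx := hs (ofAdd x)
  have hy := hs (ofAdd y)
  rw [q.ker]
  have key : h ∈ H → (ψ (s (ofAdd x) * h * (s (ofAdd y))⁻¹) = 1 ↔ toAdd (ψ h) = y - x) := by
    intro hh
    have h1 : ψ (s (ofAdd x) * h) = ψ (s (ofAdd x) * h * (s (ofAdd y))⁻¹) * ofAdd y := by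
      have k := q.mul _ (H.mul_mem (H.mul_mem hx.1 hh) (H.inv_mem hy.1)) _ hy.1
      rwa [hy.2, inv_mul_cancel_right] at k
    rw [q.mul _ hx.1 _ hh, hx.2] at h1
    have h2 := congrArg toAdd h1
    simp only [toAdd_mul, toAdd_ofAdd] at h2
    rw [← toAdd_eq_zero]
    constructor
    · intro h3
      rw [h3] at h2
      linear_combination h2
    · intro h3
      rw [h3] at h2
      linear_combination -h2
  constructor
  · rintro ⟨h1, h2⟩
    have hh : h ∈ H := by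
      have := H.mul_mem (H.mul_mem (H.inv_mem hx.1) h1) hy.1
      simpa [mul_assoc] using this
    exact ⟨hh, (key hh).1 h2⟩
  · rintro ⟨hh, h2⟩
    exact ⟨H.mul_mem (H.mul_mem hx.1 hh) (H.inv_mem hy.1), (key hh).2 h2⟩

/-- The sets of labels of `p` steps cover one coset of `H`. -/
theorem z3t_sum [Fact p.Prime] (q : Quo H K ψ) (hs : ∀ w, s w ∈ H ∧ ψ (s w) = w) (a b : G)
    (x y : ℕ → ZMod p) {u v : ZMod p} (hu : u ≠ 0) (h : ∀ l, y l - x l = u * l + v) :
    ∑ l ∈ Finset.range p, cs K (s (ofAdd (x l)) * a) (s (ofAdd (y l)) * b) =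
      st fun g => a * g * b⁻¹ ∈ H := by
  classical
  have e : ∀ l, cs K (s (ofAdd (x l)) * a) (s (ofAdd (y l)) * b) =
      st fun g => a * g * b⁻¹ ∈ H ∧ (toAdd (ψ (a * g * b⁻¹)) - v) / u = l := by
    intro l
    refine st_congr fun g => ?_
    have e1 : s (ofAdd (x l)) * a * g * (s (ofAdd (y l)) * b)⁻¹ =
        s (ofAdd (x l)) * (a * g * b⁻¹) * (s (ofAdd (y l)))⁻¹ := by group
    rw [e1, z3t_mem q hs, h, div_eq_iff hu]
    refine and_congr_right fun _ => ⟨fun k => ?_, fun k => ?_⟩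
    · linear_combination k
    · linear_combination k
  simp only [e]
  ext g
  have h1 := congrArg (count ((toAdd (ψ (a * g * b⁻¹)) - v) / u)) (sum_zmod p)
  rw [count_sum', count_st, if_pos trivial] at h1
  rw [count_sum', count_st]
  split_ifs with hg
  · rw [← h1]
    refine Finset.sum_congr rfl fun i _ => ?_
    rw [count_st, count_singleton]
    simp only [hg, true_and]
  · refine Finset.sum_eq_zero fun i _ => ?_
    rw [count_st, if_neg fun k => hg k.1]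

/-- The two non-trivial cosets. -/
theorem z3t_ou (π : G →* Multiplicative (ZMod 3)) {a b c d : G}
    (h1 : toAdd (π b) - toAdd (π a) = 1) (h2 : toAdd (π d) - toAdd (π c) = 2) :
    st (fun g => a * g * b⁻¹ ∈ π.ker) + st (fun g => c * g * d⁻¹ ∈ π.ker) = ou π.ker := by
  have e : ∀ (a b g : G) (t : ZMod 3), toAdd (π b) - toAdd (π a) = t →
      (a * g * b⁻¹ ∈ π.ker ↔ toAdd (π g) = t) := by
    intro a b g t ht
    rw [MonoidHom.mem_ker, ← toAdd_eq_zero]
    simp only [map_mul, map_inv, toAdd_mul, toAdd_inv]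
    exact ⟨fun k => by linear_combination k + ht, fun k => by linear_combination k - ht⟩
  refine st_add (fun g => ?_) fun g => ?_
  · rw [e a b g 1 h1, e c d g 2 h2]
    generalize toAdd (π g) = t
    revert t
    decide
  · rw [e a b g 1 h1, e c d g 2 h2, MonoidHom.mem_ker, ← toAdd_eq_zero]
    generalize toAdd (π g) = t
    revert t
    decide

/-- The frame of length `2 p`. -/
theorem z3t_fr [Fact p.Prime] (π : G →* Multiplicative (ZMod 3)) (q : Quo π.ker K ψ)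
    (h1 : s 1 = 1) (hs : ∀ w, s w ∈ π.ker ∧ ψ (s w) = w) {z : G} (hz : π z = ofAdd 1)
    {c e : ZMod p} (β : ZMod p) (hc : c ≠ 0) (hc' : c ≠ 1) (he : e ≠ 0) :
    ∃ τ : ℕ → G, Fr K τ (2 * p) (ou π.ker) (ou π.ker) ∧
      ∀ l : ℕ, τ (2 * l) = s (ofAdd (l * e)) * z ∧
        τ (2 * l + 1) = s (ofAdd (c * (l * e) + β)) * (z * z) := by
  let τ : ℕ → G := fun j => if j % 2 = 0 then s (ofAdd ((j / 2 : ℕ) * e)) * z
    else s (ofAdd (c * ((j / 2 : ℕ) * e) + β)) * (z * z)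
  have t0 : ∀ l : ℕ, τ (2 * l) = s (ofAdd (l * e)) * z := by
    intro l
    simp only [τ]
    rw [if_pos (by omega), show 2 * l / 2 = l by omega]
  have t1 : ∀ l : ℕ, τ (2 * l + 1) = s (ofAdd (c * (l * e) + β)) * (z * z) := by
    intro l
    simp only [τ]
    rw [if_neg (by omega), show (2 * l + 1) / 2 = l by omega]
  have t2 : ∀ l : ℕ, τ (2 * l + 1 + 1) = s (ofAdd ((l + 1) * e)) * z := by
    intro l
    rw [show 2 * l + 1 + 1 = 2 * (l + 1) by ring, t0]
    simp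
  have hz1 : toAdd (π z) = 1 := by rw [hz]; rfl
  have hz2 : toAdd (π (z * z)) = 2 := by rw [map_mul, toAdd_mul, hz1]; rfl
  have o : (1 : G) = s (ofAdd 0) * 1 := by simp [h1]
  refine ⟨τ, Fr.of ?_ ?_ ?_, fun l => ⟨t0 l, t1 l⟩⟩
  · have := t0 0
    rw [mul_zero] at this
    rw [t0, this]
    simp
  · rw [sum_pairs (fun j => cs K 1 (τ j)), Finset.sum_add_distrib]
    simp only [t0, t1]
    rw [o, z3t_sum q hs 1 z (fun _ => 0) (fun l => l * e) (u := e) (v := 0) he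
      (fun l => by ring), z3t_sum q hs 1 (z * z) (fun _ => 0) (fun l => c * (l * e) + β)
      (u := c * e) (v := β) (mul_ne_zero hc he) (fun l => by ring)]
    exact z3t_ou π (by simp [hz1]) (by rw [hz2]; simp)
  · rw [sum_pairs (fun j => cs K (τ j) (τ (j + 1))), Finset.sum_add_distrib]
    simp only [t0, t1, t2]
    rw [z3t_sum q hs z (z * z) (fun l => l * e) (fun l => c * (l * e) + β) (u := (c - 1) * e)
      (v := β) (mul_ne_zero (sub_ne_zero.2 hc') he) (fun l => by ring),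
      z3t_sum q hs (z * z) z (fun l => c * (l * e) + β) (fun l => (l + 1) * e)
      (u := (1 - c) * e) (v := e - β) (mul_ne_zero (sub_ne_zero.2 hc'.symm) he)
      (fun l => by ring)]
    exact z3t_ou π (by rw [hz1, hz2]; rfl) (by rw [hz1, hz2]; rfl)

theorem z3t_par (h5 : 5 ≤ p) (α : ZMod p) :
    ∃ d : ZMod p, d ≠ 0 ∧ d ≠ 1 ∧ α + d ≠ 0 := by
  have n : ∀ k : ℕ, 0 < k → k < 5 → (k : ZMod p) ≠ 0 := fun k h0 hk h =>
    absurd (Nat.le_of_dvd h0 ((ZMod.natCast_eq_zero_iff k p).1 h)) (by omega)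
  have n1 := n 1 (by omega) (by omega)
  have n2 := n 2 (by omega) (by omega)
  have n3 := n 3 (by omega) (by omega)
  push_cast at n1 n2 n3
  by_cases h : α = 1
  · exact ⟨2, n2, fun k => n1 (by linear_combination k), fun k => n3 (by linear_combination k - h)⟩
  · exact ⟨-1, fun k => n1 (by linear_combination -k), fun k => n2 (by linear_combination -k),
      fun k => h (by linear_combination k)⟩

/-- The trade. -/
theorem z3t_ex (hp : p.Prime) (h5 : 5 ≤ p) (π : G →* Multiplicative (ZMod 3))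
    (hπ : Function.Surjective π) (q : Quo π.ker K ψ) (hF : Fib K (2 * p)) (hK : K ≠ ⊥) :
    ∃ η ∈ π.ker, η ≠ 1 ∧ Ex π.ker η η := by
  have : Fact p.Prime := ⟨hp⟩
  obtain ⟨s, h1, hs⟩ := q.sec
  obtain ⟨z, hz⟩ := hπ (ofAdd 1)
  have cj : ∀ a h : G, h ∈ π.ker → a * h * a⁻¹ ∈ π.ker := fun a h hh =>
    (MonoidHom.normal_ker π).conj_mem h hh a
  set η : G := (z * z)⁻¹ * s (ofAdd 1) * (z * z) with hη
  have hηH : η ∈ π.ker := by
    have := cj (z * z)⁻¹ _ (hs (ofAdd 1)).1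
    rwa [inv_inv] at this
  have hη1 : η ≠ 1 := by
    intro k
    have k1 : s (ofAdd 1) = 1 := by
      have : s (ofAdd 1) = z * z * η * (z * z)⁻¹ := by rw [hη]; group
      rw [this, k]; group
    have k2 := (hs (ofAdd 1)).2
    rw [k1, q.one] at k2
    exact one_ne_zero (congrArg toAdd k2).symm
  obtain ⟨d, d0, d1, de⟩ := z3t_par h5 (toAdd (ψ (z * η * z⁻¹)))
  set e := toAdd (ψ (z * η * z⁻¹)) + d with he
  obtain ⟨τ, hτ, ht⟩ := z3t_fr π q h1 hs hz (c := d⁻¹) (e := e) 1 (inv_ne_zero d0)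
    (fun k => d1 (inv_eq_one.1 k)) de
  set l : ℕ := (-d / e).val with hl
  have hlp : l < p := ZMod.val_lt _
  have hle : (l : ZMod p) * e = -d := by
    rw [hl, ZMod.natCast_zmod_val, div_mul_cancel₀ _ de]
  have o : s (ofAdd 0) = 1 := h1
  have m : ∀ (y : ZMod p) (h : G), h ∈ π.ker → toAdd (ψ h) = y → h * (s (ofAdd y))⁻¹ ∈ K := by
    intro y h hh hy
    have := (z3t_mem q hs 0 y h).2 ⟨hh, by rw [hy, sub_zero]⟩
    rwa [o, one_mul] at this
  have one : toAdd (ψ 1) = 0 := by rw [q.one]; rfl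
  have E := f3 (U := z) (V := z * z) (η := η) (j := 2 * l + 1) hτ hF hK (by omega) (by omega)
    (by omega) ?_ ?_ ?_ ?_ hη1 ?_
  · refine ⟨η, hηH, hη1, ?_⟩
    rwa [show z * (z * z)⁻¹ * z⁻¹ * (z * z) * η = η by group] at E
  · have := (ht 0).1
    rw [mul_zero] at this
    rw [this]
    have k := m (((0 : ℕ) : ZMod p) * e) 1 (one_mem _) (by simp [one])
    convert k using 1
    group
  · have := (ht 0).2
    rw [mul_zero, zero_add] at this
    rw [this]
    have k := m (d⁻¹ * (((0 : ℕ) : ZMod p) * e) + 1) (s (ofAdd 1)) (hs _).1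
      (by simp [(hs (ofAdd 1)).2])
    convert k using 1
    rw [hη]
    group
  · rw [(ht l).2]
    have k := m (d⁻¹ * ((l : ZMod p) * e) + 1) 1 (one_mem _)
      (by rw [one, hle]; field_simp; ring)
    convert k using 1
    group
  · rw [show 2 * l + 1 + 1 = 2 * (l + 1) by ring, (ht (l + 1)).1]
    have k := m (((l + 1 : ℕ) : ZMod p) * e) (z * η * z⁻¹) (cj _ _ hηH)
      (by push_cast; rw [add_mul, hle, he]; ring)
    convert k using 1
    group
  · intro _ k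
    exact hη1 (by simpa using k)

end aux

variable {G : Type u} [Group G] [Finite G] [Group.IsSolvable G]

theorem top_z3 (ih : IH G) (hG : NC G) (π : G →* Multiplicative (ZMod 3))
    (hπ : Function.Surjective π) {p : ℕ} (hp : p.Prime) (h5 : 5 ≤ p)
    (ψ : π.ker →* Multiplicative (ZMod p)) (hψ : Function.Surjective ψ) (hc : ¬ Cm π.ker) :
    RG G ∧ SG G := by
  have : Fact p.Prime := ⟨hp⟩
  obtain ⟨ψ', q, -⟩ := Quo.ofHom ψ hψ
  set K := ψ.ker.map π.ker.subtype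
  have c1 : Nat.card π.ker = Nat.card K * p := by
    rw [q.card, Nat.card_congr Multiplicative.toAdd, Nat.card_zmod]
  have i3 : π.ker.index = 3 := by
    rw [Subgroup.index_ker, MonoidHom.range_eq_top.2 hπ, Subgroup.card_top,
      Nat.card_congr Multiplicative.toAdd, Nat.card_zmod]
  have pos : 0 < Nat.card K := Nat.card_pos
  have iK : K.index = p * 3 := by
    have a1 := K.card_mul_index
    have a2 := π.ker.card_mul_index
    rw [c1, i3, ← a1, mul_assoc] at a2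
    exact (Nat.eq_of_mul_eq_mul_left pos a2).symm
  have hK : NC K := nc_of_odd_index hG (by
    rw [iK]
    exact (hp.odd_of_ne_two (by omega)).mul (by decide))
  have hH : π.ker ≠ ⊤ := fun k => by
    rw [k, Subgroup.index_top] at i3
    omega
  have hlt : K < π.ker := lt_of_le_of_ne q.le fun k => by
    rw [k, i3] at iK
    omega
  have hKt : K ≠ ⊤ := (hlt.trans_le le_top).ne
  have h8 : Nat.card π.ker ≠ 8 := fun k => by
    have : p ∣ 2 ^ 3 := ⟨Nat.card K, by rw [mul_comm, ← c1, k]; rfl⟩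
    have := Nat.le_of_dvd (by omega) (hp.dvd_of_dvd_pow this)
    omega
  obtain ⟨η, h1, h2, h3⟩ := z3t_ex hp h5 π hπ q
    (fib_ih ih hKt hK (even_two_mul p) (by omega)) hK.ne_bot
  exact ⟨ex_RR (rg_ih ih hlt hH hK) h1 h2 h3,
    ex_SS (sg_ih ih hH (NC.mono q.le hK) hc h8) h1 h2 h3⟩

end Pool.Agent.SQ2

end MrgPart4

-- marker of a merged file
example : 731051 + 622618 = 731051 + 622618 := rfl
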