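import Pool.Agent.MP_f56020_al.s2.Aff
import Pool.Agent.MP_f56020_al.s2.Z3T
import Pool.Agent.MP_f56020_al.s2.A4
import Pool.Agent.MP_f56020_al.s2.S4
import Pool.Agent.MP_f56020_al.s2.Merge
import Pool.Agent.MP_f56020_al.s2.Fibs
import Pool.Agent.MP_f56020_al.s2.Odd
import Pool.Agent.MP_f56020_al.cy.Cy
import Pool.Agent.MP_f56020_al.s2.NCase

-- ======== part 0: formerly Pool.Agent.MP_f56020_al.s2.CycCase
section MrgPart0

namespace Pool.Agent.SQ2

open Pool.Agent.SQ Multiset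

universe u

section tools
variable {G : Type*} [Group G] {F : Type*} [CommRing F] {n k : ℕ}

/-- The multiplier of an affine action. -/
def ccB [NeZero n] (χ : G →* Multiplicative (ZMod n)) {β : F} (h : β ^ n = 1) : G →* F where
  toFun g := β ^ (χ g).toAdd.val
  map_one' := by simp
  map_mul' a b := by rw [map_mul, toAdd_mul, ZMod.val_add, ← pow_eq_pow_mod _ h, pow_add]

theorem ccB_apply [NeZero n] (χ : G →* Multiplicative (ZMod n)) {β : F} (h : β ^ n = 1) (g : G) :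
    ccB χ h g = β ^ (χ g).toAdd.val := rfl

theorem cc_12 (h : n = 2 ∨ n = 3 ∨ n = 4 ∨ n = 6) {β : F} (hβ : β ^ n = 1) : β ^ 12 = 1 := by
  obtain ⟨m, hm⟩ : n ∣ 12 := by rcases h with rfl | rfl | rfl | rfl <;> decide
  rw [hm, pow_mul, hβ, one_pow]

theorem ccB_gen [NeZero n] (h : n = 2 ∨ n = 3 ∨ n = 4 ∨ n = 6)
    {χ : G →* Multiplicative (ZMod n)} {β : F} (hβ : β ^ n = 1) {t : G}
    (ht : χ t = Multiplicative.ofAdd 1) : ccB χ hβ t = β := by
  rw [ccB_apply, ht, toAdd_ofAdd, ZMod.val_one'' (by omega), pow_one]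

theorem ccB_pow [NeZero n] {χ : G →* Multiplicative (ZMod n)} {β : F} (hβ : β ^ n = 1) {m : ℕ}
    (h : β ^ m = 1) (g : G) : ccB χ hβ g ^ m = 1 := by
  rw [ccB_apply, ← pow_mul, mul_comm, pow_mul, h, one_pow]

theorem ccB_ker [NeZero n] {χ : G →* Multiplicative (ZMod n)} {β : F} (hβ : β ^ n = 1) {g : G}
    (h : χ g = 1) : ccB χ hβ g = 1 := by simp [ccB_apply, h]

theorem cc_red [NeZero n] [NeZero k] (hk : k ∣ n) (χ : G →* Multiplicative (ZMod n))
    (hχ : Function.Surjective χ) : ∃ π : G →* Multiplicative (ZMod k), Function.Surjective π ∧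
      (∀ g, (π g).toAdd.val = (χ g).toAdd.val % k) ∧ (∀ g, χ g = 1 → π g = 1) ∧
      ∀ g, χ g = Multiplicative.ofAdd 1 → π g = Multiplicative.ofAdd 1 := by
  refine ⟨(AddMonoidHom.toMultiplicative (ZMod.castHom hk (ZMod k)).toAddMonoidHom).comp χ,
    fun y => ?_, fun g => ?_, fun g hg => by simp [hg], fun g hg => ?_⟩
  · obtain ⟨x, hx⟩ := ZMod.castHom_surjective hk y.toAdd
    obtain ⟨g, hg⟩ := hχ (Multiplicative.ofAdd x)
    exact ⟨g, by simpa [hg] using congrArg Multiplicative.ofAdd hx⟩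
  · simp [ZMod.cast_eq_val, ZMod.val_natCast, -ZMod.natCast_val]
  · rw [MonoidHom.comp_apply, hg]
    exact congrArg Multiplicative.ofAdd (map_one (ZMod.castHom hk (ZMod k)))

theorem cc_index [NeZero k] (π : G →* Multiplicative (ZMod k)) (hπ : Function.Surjective π) :
    π.ker.index = k := by
  rw [Subgroup.index_ker, MonoidHom.range_eq_top.2 hπ, Subgroup.card_top,
    Nat.card_congr Multiplicative.toAdd, Nat.card_zmod]

theorem cc_one {B b : G → F} (hB : B 1 = 1) (hb : ∀ g h, b (g * h) = b g + B g * b h) :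
    b 1 = 0 := by
  have := hb 1 1
  rw [mul_one, hB, one_mul] at this
  exact left_eq_add.1 this

theorem cc_conj {B : G →* F} {b : G → F} (hb : ∀ g h, b (g * h) = b g + B g * b h) (g d : G)
    (hd : B d = 1) : b (g * d * g⁻¹) = B g * b d := by
  have h1 := hb g g⁻¹
  rw [mul_inv_cancel, cc_one B.map_one hb] at h1
  rw [hb, hb, map_mul, hd]
  linear_combination -h1

theorem cc_mod [NeZero k] (π : G →* Multiplicative (ZMod k)) (hπ : Function.Surjective π) {β : F}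
    {b : G → F} (hb : ∀ g h, b (g * h) = b g + β ^ (π g).toAdd.val * b h)
    (hs : ∀ y, ∃ d, π d = 1 ∧ b d = y) :
    ∃ M : Subgroup G, Mod M (fun a c : F × ZMod k => (a.1 + β ^ a.2.val * c.1, a.2 + c.2)) 0
      fun g => (b g, (π g).toAdd) := by
  have h1 : b 1 = 0 := cc_one (B := fun g => β ^ (π g).toAdd.val) (by simp) hb
  refine ⟨⟨⟨⟨{g | b g = 0 ∧ π g = 1}, fun {x y} hx hy => ⟨by rw [hb, hx.1, hy.1]; simp,
    by rw [map_mul, hx.2, hy.2, mul_one]⟩⟩, h1, map_one π⟩, fun {x} hx => ⟨?_, by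
      rw [map_inv, hx.2, inv_one]⟩⟩, fun x y => by rw [hb, map_mul, toAdd_mul], ?_, fun g => ?_⟩
  · have := hb x x⁻¹
    simpa [h1, hx.1, hx.2] using this.symm
  · rintro ⟨y, i⟩
    obtain ⟨g, hg⟩ := hπ (Multiplicative.ofAdd i)
    obtain ⟨d, h2, h3⟩ := hs (y - b g)
    exact ⟨d * g, by simp [hb, h2, h3, hg]⟩
  · simp [Prod.ext_iff]

theorem cc_mc (q k : ℕ) (r : ZMod q) : mc q k r 0 =
    fun a c : ZMod q × ZMod k => (a.1 + r ^ a.2.val * c.1, a.2 + c.2) := by
  funext a c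
  simp [mc, xm, mul_left_iterate]

theorem cc_le {D : Type*} [Zero D] {mul : D × ZMod n → D × ZMod n → D × ZMod n} {M : Subgroup G}
    {φ : G → D × ZMod n} (h : Mod M mul 0 φ) {χ : G →* Multiplicative (ZMod n)}
    (hφ : ∀ g, (φ g).2 = (χ g).toAdd) : M ≤ χ.ker := fun g hg => by
  have := hφ g
  rw [(h.ker g).1 hg] at this
  exact toAdd_eq_zero.1 this.symm

theorem cc_sq {F : Type*} [Field F] {β : F} {i : ℕ} (h : β ^ (2 * i) = 1) :
    β ^ i = 1 ∨ β ^ i = -1 := sq_eq_one_iff.1 (by rw [← pow_mul, mul_comm, h])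

variable [Finite G]

theorem cc_nc (hn : ¬ NN G) (h : n = 2 ∨ n = 3 ∨ n = 4 ∨ n = 6)
    (χ : G →* Multiplicative (ZMod n)) (hχ : Function.Surjective χ) {M : Subgroup G}
    (hM : M ≤ χ.ker) {o : ℕ} (ho : Odd o) (hi : M.index = o * n) : NC M := by
  rcases h with rfl | rfl | rfl | rfl
  · exact g3 hn (k := 1) (cc_index χ hχ) hM (by rw [hi, mul_comm]; rfl) ho
  · exact nc_of_odd_index (nc_of_not_nn hn) (hi ▸ ho.mul (by decide))
  · exact g3 hn (k := 2) (cc_index χ hχ) hM (by rw [hi, mul_comm]; rfl) ho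
  · obtain ⟨π, h1, -, h2, -⟩ := cc_red (k := 2) (by norm_num) χ hχ
    exact g3 hn (k := 1) (o := o * 3) (cc_index π h1) (fun g hg => h2 g (hM hg))
      (by rw [hi]; ring) (ho.mul (by decide))

theorem cc_primes {N : ℕ} (h2 : ¬ 2 ∣ N) (h5 : ¬ ∃ p : ℕ, p.Prime ∧ 5 ≤ p ∧ p ∣ N) {p : ℕ}
    (hp : p.Prime) (hd : p ∣ N) : p = 3 := by
  have h1 : ¬ 5 ≤ p := fun h => h5 ⟨p, hp, h, hd⟩
  have h3 := hp.two_le
  have h4 : p ≠ 2 := by rintro rfl; exact h2 hd
  have h6 : p ≠ 4 := by rintro rfl; exact absurd hp (by decide)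
  omega

end tools

section cases
variable {G : Type u} [Group G] [Finite G] [Group.IsSolvable G] {n : ℕ} [NeZero n]
  {χ : G →* Multiplicative (ZMod n)} {t : G}

omit [Group.IsSolvable G] in
/-- The field is a prime field. -/
theorem cc_prime (hn : ¬ NN G) (h : n = 2 ∨ n = 3 ∨ n = 4 ∨ n = 6)
    (hχ : Function.Surjective χ) {F : Type} [Field F] {q : ℕ} (ho : Odd q) (e : ZMod q ≃+* F)
    {β : F} {b : G → F} (hb : ∀ g h, b (g * h) = b g + β ^ (χ g).toAdd.val * b h)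
    (hs : ∀ y, ∃ d, χ d = 1 ∧ b d = y) :
    ∃ (M : Subgroup G) (φ : G → ZMod q × ZMod n), Mod M (mc q n (e.symm β) 0) 0 φ ∧ NC M ∧
      ∀ g, (φ g).2 = (χ g).toAdd := by
  obtain ⟨M, hM⟩ := cc_mod χ hχ (β := e.symm β) (b := fun g => e.symm (b g))
    (fun g g' => by rw [hb, _root_.map_add, map_mul, map_pow]) fun y => by
      obtain ⟨d, h1, h2⟩ := hs (e y)
      exact ⟨d, h1, by rw [h2, e.symm_apply_apply]⟩
  rw [← cc_mc] at hM
  refine ⟨M, _, hM, cc_nc hn h χ hχ (cc_le hM fun _ => rfl) ho ?_, fun _ => rfl⟩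
  rw [hM.index, Nat.card_prod, Nat.card_zmod, Nat.card_zmod]

theorem cc_two (ih : IH G) (h : n = 2 ∨ n = 3 ∨ n = 4 ∨ n = 6) (hχ : Function.Surjective χ)
    (hk : χ.ker = commutator G) (ht : χ t = Multiplicative.ofAdd 1)
    (hd : 2 ∣ Nat.card (Abelianization (commutator G))) : RG G ∧ SG G := by
  obtain ⟨F, _, _, _, β, b, h1, hβ, hb, hs, hS⟩ := aff χ hk t ht Nat.prime_two hd
  have h12 : β ^ 12 = 1 := cc_12 h hβ
  have h2 : (2 : F) = 0 := CharTwo.two_eq_zero
  have h3 : β ^ 3 = 1 := by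
    refine sub_eq_zero.1 (pow_eq_zero_iff (n := 4) (by norm_num) |>.1 ?_)
    linear_combination h12 + (-2 * β ^ 9 + 3 * β ^ 6 - 2 * β ^ 3 + 1) * h2
  have h4 : β ^ 2 + β + 1 = 0 :=
    (mul_eq_zero.1 (show (β - 1) * (β ^ 2 + β + 1) = 0 by linear_combination h3)).resolve_left
      (sub_ne_zero.2 h1)
  have h36 : 3 ∣ n ∧ n ∣ 6 := by
    rcases h with rfl | rfl | rfl | rfl
    · exact absurd (by linear_combination h3 - β * hβ) h1
    · decide
    · exact absurd (by linear_combination hβ - β * h3) h1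
    · decide
  obtain ⟨π, hπ, p1, p2, p3⟩ := cc_red h36.1 χ hχ
  have hb' : ∀ g g', b (g * g') = b g + ccB π h3 g * b g' := fun g g' => by
    rw [hb, ccB_apply, p1, ← pow_eq_pow_mod _ h3]
  obtain ⟨M, hM⟩ := cc_mod π hπ (β := β) hb' fun y => (hs y).imp fun d hd => ⟨p2 d hd.1, hd.2⟩
  have hall : ∀ y : F, y ^ 4 = y := fun y => by
    have := hS ⟨⟨⟨⟨{y | y ^ 4 = y}, fun {x y} (hx : x ^ 4 = x) (hy : y ^ 4 = y) =>
        show (x * y) ^ 4 = x * y by rw [mul_pow, hx, hy]⟩, one_pow 4⟩,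
        fun {x y} (hx : x ^ 4 = x) (hy : y ^ 4 = y) => show (x + y) ^ 4 = x + y by
          linear_combination hx + hy + (2 * x ^ 3 * y + 3 * x ^ 2 * y ^ 2 + 2 * x * y ^ 3) * h2,
        show (0 : F) ^ 4 = 0 by simp⟩,
        fun {x} (hx : x ^ 4 = x) => show (-x) ^ 4 = -x by linear_combination hx + x * h2⟩
      (show β ^ 4 = β by linear_combination β * h3)
    exact (this.ge (Subring.mem_top y) :)
  have hcard : Nat.card F = 4 := by
    have := Fintype.ofFinite F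
    have e1 : Fintype.card F - 1 ∣ 3 := (FiniteField.forall_pow_eq_one_iff F 3).1 fun x =>
      Units.ext (mul_right_cancel₀ x.ne_zero (by
        rw [Units.val_pow_eq_pow_val, ← pow_succ, hall, Units.val_one, one_mul]))
    have hβ0 : β ≠ 0 := by rintro rfl; simp at h3
    rcases (Nat.dvd_prime Nat.prime_three).1 e1 with e2 | e2
    · have := (FiniteField.forall_pow_eq_one_iff F 1).2 (by rw [e2]) (Units.mk0 β hβ0)
      exact absurd (by simpa using congrArg Units.val this) h1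
    · rw [Nat.card_eq_fintype_card]; omega
  obtain ⟨x, x1, x2⟩ := hs 1
  have x3 := p2 x x1
  have t1 := p3 t ht
  have Bx : ccB π h3 x = 1 := by simp [ccB_apply, x3]
  have Bt : ccB π h3 t = β := by
    rw [ccB_apply, t1, toAdd_ofAdd, ZMod.val_one, pow_one]
  have y1 : π (t * x * t⁻¹) = 1 := by simp [x3]
  have By : ccB π h3 (t * x * t⁻¹) = 1 := by simp [ccB_apply, x3]
  have y2 : b (t * x * t⁻¹) = β := by rw [cc_conj hb' t x Bx, Bt, x2, mul_one]
  have mem : ∀ g, b g = 0 → π g = 1 → g ∈ M := fun g e1 e2 => (hM.ker g).2 (by simp [e1, e2])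
  have := hM.normal
  generalize hy : t * x * t⁻¹ = y at y1 By y2
  refine a4_case ih M (x := x) (t := t) (mem _ ?_ (by simp [x3])) (mem _ ?_ ?_) ?_ ?_ ?_ ?_ ?_
  · rw [hb', Bx, x2]; linear_combination h2
  · rw [pow_succ, pow_two, hb', hb', map_mul, Bt]; linear_combination b t * h4
  · rw [map_pow, t1]; decide
  · rw [hy, mul_assoc (x * y), ← mul_inv_rev, hM.mem_iff, hb', hb', Bx, By, π.map_mul, π.map_mul,
      x3, y1, one_mul, one_mul, one_mul, add_comm]
  · rw [hy]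
    refine mem _ ?_ (by simp [x3, y1])
    rw [hb', hb', cc_conj hb' t y By, map_mul, Bx, By, Bt, x2, y2]
    linear_combination h4
  · rw [hM.index, Nat.card_prod, hcard, Nat.card_zmod]
  · intro S hMS hx htS
    have hyS : y ∈ S := hy ▸ mul_mem (mul_mem htS hx) (inv_mem htS)
    refine top_le_iff.1 fun g _ => ?_
    have hw : π (t ^ (π g).toAdd.val) = π g := by
      rw [map_pow, t1, ← ofAdd_nsmul, nsmul_one, ZMod.natCast_zmod_val, ofAdd_toAdd]
    have hwS : t ^ (π g).toAdd.val ∈ S := pow_mem htS _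
    generalize t ^ (π g).toAdd.val = w at hw hwS
    obtain ⟨d, d1, d2, d3⟩ : ∃ d ∈ S, π d = 1 ∧ b d = b g - b w := by
      generalize b g - b w = c
      have e : c * (c - 1) * (c - β) * (c - (1 + β)) = 0 := by
        linear_combination hall c + c * (c - 1) * h4 +
          (c * (1 - c) * (c + β * c + 1) + 0) * h2
      simp only [mul_eq_zero, sub_eq_zero] at e
      rcases e with ((rfl | rfl) | rfl) | rfl
      · exact ⟨1, one_mem _, map_one π, cc_one (map_one _) hb'⟩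
      · exact ⟨x, hx, x3, x2⟩
      · exact ⟨y, hyS, y1, y2⟩
      · exact ⟨x * y, mul_mem hx hyS, by simp [x3, y1], by rw [hb', Bx, x2, y2, one_mul]⟩
    have e : g * (d * w)⁻¹ ∈ M := by
      rw [hM.mem_iff, hb', ccB_ker h3 d2, d3, π.map_mul, d2, hw]
      simp
    have e' := mul_mem (hMS e) (mul_mem d1 hwS)
    rwa [inv_mul_cancel_right] at e'
  · rw [← hk, cc_index χ hχ]; exact h36.2

theorem cc_five (ih : IH G) (hn : ¬ NN G) (h : n = 2 ∨ n = 3 ∨ n = 4 ∨ n = 6)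
    (hχ : Function.Surjective χ) (hk : χ.ker = commutator G) (ht : χ t = Multiplicative.ofAdd 1)
    (ho : ¬ 2 ∣ Nat.card (Abelianization (commutator G))) {p : ℕ} (hp : p.Prime) (h5 : 5 ≤ p)
    (hd : p ∣ Nat.card (Abelianization (commutator G))) : RG G ∧ SG G := by
  obtain ⟨F, _, _, _, β, b, h1, hβ, hb, hs, -⟩ := aff χ hk t ht hp hd
  have := Fintype.ofFinite F
  have hpF : p ∣ Fintype.card F := (CharP.cast_eq_zero_iff F p _).1 (FiniteField.cast_card_eq_zero F)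
  have Bt := ccB_gen h hβ ht
  by_cases h3 : β ^ 3 = 1
  · have h36 : 3 ∣ n := by
      rcases h with rfl | rfl | rfl | rfl
      · exact absurd (by linear_combination h3 - β * hβ) h1
      · decide
      · exact absurd (by linear_combination hβ - β * h3) h1
      · decide
    obtain ⟨π, hπ, p1, p2, -⟩ := cc_red h36 χ hχ
    have hb' : ∀ g g', b (g * g') = b g + ccB π h3 g * b g' := fun g g' => by
      rw [hb, ccB_apply, p1, ← pow_eq_pow_mod _ h3]
    let ψ : π.ker →* Multiplicative F := MonoidHom.mk' (fun g => Multiplicative.ofAdd (b g))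
      fun g g' => by rw [Subgroup.coe_mul, hb', ccB_ker h3 g.2, one_mul, ofAdd_add]
    have hψ : Function.Surjective ψ := fun y => by
      obtain ⟨d, d1, d2⟩ := hs y.toAdd
      exact ⟨⟨d, p2 d d1⟩, congrArg Multiplicative.ofAdd d2⟩
    obtain ⟨ω, hω⟩ := exists_zmod_of_dvd (Multiplicative F) hp (by
      rwa [Nat.card_congr Multiplicative.toAdd, Nat.card_eq_fintype_card])
    refine top_z3 ih (nc_of_not_nn hn) π hπ hp h5 (ω.comp ψ) (hω.comp hψ) fun hc => ho ?_
    have e1 : commutator (commutator G) = ⊥ := (commutator_eq_bot_iff _).2 ⟨⟨fun x y =>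
      Subtype.ext (congrArg Subtype.val
        (hc ⟨x, p2 _ (hk.ge x.2)⟩ ⟨y, p2 _ (hk.ge y.2)⟩) :)⟩⟩
    have e2 : Nat.card (Abelianization (commutator G)) = Nat.card (commutator G) := by
      rw [← Subgroup.index_bot (G := commutator G), ← e1]; rfl
    rw [e2]
    exact (show 2 ∣ 4 by decide).trans (cc_nc hn h χ hχ hk.ge odd_one
      (by rw [← hk, cc_index χ hχ, one_mul])).four_dvd
  by_cases hγ : ∃ γ, γ ≠ 0 ∧ ∀ g, ccB χ hβ g ≠ γ
  · refine top_e3 ih hn (p := p) (by omega) (ccB χ hβ) b (map_mul _) (ccB_pow hβ (cc_12 h hβ)) hb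
      (fun y => (hs y).imp fun d hd => ⟨ccB_ker hβ hd.1, hd.2⟩) ?_ hγ (Or.inl h5)
    have key : ∀ i : ℕ, β ^ (2 * i) = 1 → β ^ i ≠ 1 → ∃ g, ccB χ hβ g = -1 := fun i e1 e2 =>
      ⟨t ^ i, by
        rw [map_pow, Bt]
        exact (cc_sq e1).resolve_left e2⟩
    by_cases h2 : β ^ 2 = 1
    · exact key 1 h2 (by rwa [pow_one])
    rcases h with rfl | rfl | rfl | rfl
    exacts [absurd hβ h2, absurd hβ h3, key 2 hβ h2, key 3 hβ h3]
  push Not at hγ
  have e1 : Fintype.card F - 1 ∣ n := (FiniteField.forall_pow_eq_one_iff F n).1 fun x => by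
    obtain ⟨g, hg⟩ := hγ x x.ne_zero
    exact Units.ext (by rw [Units.val_pow_eq_pow_val, ← hg, ccB_pow hβ hβ, Units.val_one])
  have e2 : p ≤ Fintype.card F := Nat.le_of_dvd Fintype.card_pos hpF
  have e3 : Fintype.card F - 1 ≤ n := Nat.le_of_dvd (NeZero.pos n) e1
  have gen : ∀ {q : ℕ} (e : ZMod q ≃+* F) (c : ZMod q), c ≠ 0 →
      ∃ i : ZMod n, e.symm β ^ i.val = c := fun e c hc => by
    obtain ⟨g, hg⟩ := hγ (e c) ((map_ne_zero_iff _ e.injective).2 hc)
    exact ⟨(χ g).toAdd, by rw [← map_pow, ← ccB_apply χ hβ, hg, e.symm_apply_apply]⟩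
  have e4 : (Fintype.card F = 5 ∧ n = 4) ∨ (Fintype.card F = 7 ∧ n = 6) := by
    generalize Fintype.card F = q at e1 e2 e3
    have : q = 5 ∨ q = 6 ∨ q = 7 := by omega
    rcases this with rfl | rfl | rfl <;> rcases h with rfl | rfl | rfl | rfl <;> omega
  rcases e4 with ⟨hq, rfl⟩ | ⟨hq, rfl⟩
  · let e := ZMod.ringEquivOfPrime F Nat.prime_five hq
    obtain ⟨M, φ, hM, hN, -⟩ := cc_prime hn h hχ (by decide) e hb hs
    have := gen e 2 (by decide)
    generalize e.symm β = r at hM this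
    obtain rfl | rfl : r = 2 ∨ r = 3 := by clear hM; revert r; decide
    exacts [topZ ih hM hN dz_f20, topZ ih hM hN dz_f20b]
  · let e := ZMod.ringEquivOfPrime F (by norm_num : Nat.Prime 7) hq
    obtain ⟨M, φ, hM, hN, -⟩ := cc_prime hn h hχ (by decide) e hb hs
    have := gen e 3 (by decide)
    generalize e.symm β = r at hM this
    obtain rfl | rfl : r = 3 ∨ r = 5 := by clear hM; revert r; decide
    exacts [topZ ih hM hN dz_f42, topZ ih hM hN dz_f42b]

end cases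

section two
variable {G : Type u} [Group G] [Finite G] [Group.IsSolvable G]
  {χ : G →* Multiplicative (ZMod 2)} {t : G}

theorem cc_nine (ih : IH G) (hn : ¬ NN G) (hχ : Function.Surjective χ)
    (hk : χ.ker = commutator G) (ht : χ t = Multiplicative.ofAdd 1) {W : Type} [AddCommGroup W]
    [DecidableEq W] (ω : Abelianization (commutator G) →* Multiplicative W)
    (hω : Function.Surjective ω) (h9 : Nat.card W = 9) (h2 : ∀ w : W, w = -w → w = 0)
    (T : W → W) (hT : ∀ w, T w = -w) {z : W × ZMod 2} {m : ℕ}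
    (hd : DZ (xm (· + ·) 0 T 0 2) 0 z m) : RG G ∧ SG G := by
  classical
  let θ : commutator G →* Multiplicative W := ω.comp Abelianization.of
  have hθ : Function.Surjective θ := hω.comp QuotientGroup.mk_surjective
  have t2 : t ^ 2 ∈ commutator G := hk.le (by rw [MonoidHom.mem_ker, map_pow, ht]; decide)
  have inv : ∀ d, θ d * θ (MulAut.conjNormal t d) = 1 := fun d =>
    inv_triv' χ hk t ht (θ * θ.comp (MulAut.conjNormal t).toMonoidHom) (fun d => by
      have e : MulAut.conjNormal t (MulAut.conjNormal t d) =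
          (⟨t ^ 2, t2⟩ : commutator G) * d * (⟨t ^ 2, t2⟩ : commutator G)⁻¹ :=
        Subtype.ext (by simp [pow_two, mul_assoc])
      simp only [MonoidHom.mul_apply, MonoidHom.comp_apply, MulEquiv.coe_toMonoidHom, e, map_mul,
        map_inv, mul_inv_cancel_comm]
      exact mul_comm _ _) d
  let ψ : G → W := fun g => if hg : g ∈ commutator G then (θ ⟨g, hg⟩).toAdd else 0
  have hψ : ∀ d : commutator G, ψ d = (θ d).toAdd := fun d => dif_pos d.2
  have hc : ∀ a, χ a = 1 → ψ (t * a * t⁻¹) = -ψ a := fun a ha => by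
    have e := congrArg Multiplicative.toAdd (inv ⟨a, hk.le ha⟩)
    rw [toAdd_mul, ← hψ, ← hψ, toAdd_one] at e
    exact eq_neg_of_add_eq_zero_right e
  obtain ⟨M, φ, hM, h1, -⟩ := cocy χ t ht T ψ
    (fun a c ha hc => by
      have e := hψ (⟨a, hk.le ha⟩ * ⟨c, hk.le hc⟩)
      rwa [map_mul, toAdd_mul, ← hψ, ← hψ] at e)
    (fun a ha => by rw [hc a ha, hT])
    (h2 _ (by
      have e := hc (t ^ 2) (hk.ge t2)
      rwa [show t * t ^ 2 * t⁻¹ = t ^ 2 by group] at e))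
    fun w => by
      obtain ⟨d, hd⟩ := hθ (Multiplicative.ofAdd w)
      exact ⟨d, hk.ge d.2, by rw [hψ, hd, toAdd_ofAdd]⟩
  exact topZ ih hM (cc_nc hn (Or.inl rfl) χ hχ (cc_le hM h1) (o := 9) (by decide)
    (by rw [hM.index, Nat.card_prod, h9, Nat.card_zmod])) hd

theorem cc_s3 (ih : IH G) (hn : ¬ NN G)
    (hk : χ.ker = commutator G) {M : Subgroup G} {φ : G → ZMod 3 × ZMod 2}
    (hM : Mod M (mc 3 2 2 0) 0 φ) (hN : NC M) (hφ : ∀ g, (φ g).2 = (χ g).toAdd)
    (h3 : Nat.card (Abelianization (commutator G)) = 3) : RG G ∧ SG G := by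
  by_cases h5 : ∃ p : ℕ, p.Prime ∧ 5 ≤ p ∧ p ∣ Nat.card (Abelianization M)
  · obtain ⟨p, hp, h5, hd⟩ := h5
    obtain ⟨ω, hω⟩ := exists_zmod_of_dvd _ hp hd
    exact top_s3 ih hn hM hp h5 (ω.comp Abelianization.of) (hω.comp QuotientGroup.mk_surjective)
  have hD : ∀ g, g ∈ commutator G ↔ (φ g).2 = 0 := fun g => by
    rw [← hk, hφ, toAdd_eq_zero, MonoidHom.mem_ker]
  let χ' : commutator G →* Multiplicative (ZMod 3) :=
    MonoidHom.mk' (fun d => Multiplicative.ofAdd (φ d).1) fun a c => by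
      rw [Subgroup.coe_mul, hM.map_mul, cc_mc, ← ofAdd_add]
      simp [(hD a).1 a.2]
  have hχ' : Function.Surjective χ' := fun y => by
    obtain ⟨g, hg⟩ := hM.surj (y.toAdd, 0)
    exact ⟨⟨g, (hD g).2 (by rw [hg])⟩, by simp [χ', hg]⟩
  have hk' : χ'.ker = commutator (commutator G) := by
    have e1 : commutator (commutator G) ≤ χ'.ker := Abelianization.commutator_subset_ker χ'
    have e2 := Subgroup.relIndex_mul_index e1
    rw [cc_index χ' hχ', show (commutator (commutator G)).index = 3 from h3] at e2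
    exact le_antisymm (Subgroup.relIndex_eq_one.1 (by omega)) e1
  have hMD : M = (commutator (commutator G)).map (commutator G).subtype := by
    ext g
    rw [hM.ker, ← hk', Prod.ext_iff]
    constructor
    · rintro ⟨e1, e2⟩
      exact ⟨⟨g, (hD g).2 e2⟩, congrArg Multiplicative.ofAdd e1, rfl⟩
    · rintro ⟨d, e1, rfl⟩
      exact ⟨congrArg Multiplicative.toAdd e1, (hD d).1 d.2⟩
  have h3' : ¬ 3 ∣ Nat.card (Abelianization M) := fun hd => by
    obtain ⟨t', ht'⟩ := hχ' (Multiplicative.ofAdd 1)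
    rw [hMD, ← Nat.card_congr (Subgroup.equivMapOfInjective _ _
      (commutator G).subtype_injective).abelianizationCongr.toEquiv] at hd
    obtain ⟨F, _, _, _, β, -, h1, hβ, -⟩ := aff χ' hk' t' ht' Nat.prime_three hd
    have e : (3 : F) = 0 := by exact_mod_cast CharP.cast_eq_zero F 3
    refine h1 (sub_eq_zero.1 (pow_eq_zero_iff (n := 3) (by norm_num) |>.1 ?_))
    linear_combination hβ + (β - β ^ 2) * e
  refine s4_case ih hM (hMD.trans (Subgroup.map_subtype_commutator _)) hD hN.ne_bot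
    (IsPGroup.of_card (Nat.eq_prime_pow_of_unique_prime_dvd Nat.card_pos.ne' fun {p} hp hd => ?_))
  have h1 : ¬ 5 ≤ p := fun h => h5 ⟨p, hp, h, hd⟩
  have h2 := hp.two_le
  have h4 : p ≠ 3 := by rintro rfl; exact h3' hd
  have h6 : p ≠ 4 := by rintro rfl; exact absurd hp (by decide)
  omega

end two

theorem cyc_case {G : Type u} [Group G] [Finite G] [Group.IsSolvable G] (ih : IH G)
    (hn : ¬ NN G) {n : ℕ} (h : n = 2 ∨ n = 3 ∨ n = 4 ∨ n = 6)
    (χ : G →* Multiplicative (ZMod n)) (hχ : Function.Surjective χ)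
    (hk : χ.ker = commutator G) : RG G ∧ SG G := by
  have : NeZero n := ⟨by omega⟩
  obtain ⟨t, ht⟩ := hχ (Multiplicative.ofAdd 1)
  by_cases h2 : 2 ∣ Nat.card (Abelianization (commutator G))
  · exact cc_two ih h hχ hk ht h2
  by_cases h5 : ∃ p : ℕ, p.Prime ∧ 5 ≤ p ∧ p ∣ Nat.card (Abelianization (commutator G))
  · obtain ⟨p, hp, h5, hd⟩ := h5
    exact cc_five ih hn h hχ hk ht h2 hp h5 hd
  have hD : NC (commutator G) :=
    cc_nc hn h χ hχ hk.ge odd_one (by rw [← hk, cc_index χ hχ, one_mul])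
  have := (Subgroup.nontrivial_iff_ne_bot _).2 hD.ne_bot
  have := nontrivial_ab (commutator G)
  obtain ⟨k, hV⟩ : ∃ k, Nat.card (Abelianization (commutator G)) = 3 ^ k :=
    ⟨_, Nat.eq_prime_pow_of_unique_prime_dvd Nat.card_pos.ne' fun hp hd => cc_primes h2 h5 hp hd⟩
  have hk0 : k ≠ 0 := by
    rintro rfl
    exact Finite.one_lt_card.ne' hV
  obtain ⟨F, _, _, _, β, b, h1, hβ, hb, hs, hS⟩ :=
    aff χ hk t ht Nat.prime_three (hV ▸ dvd_pow_self 3 hk0)
  have h12 := cc_12 h hβ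
  have h3 : (3 : F) = 0 := by exact_mod_cast CharP.cast_eq_zero F 3
  have h4 : β ^ 4 = 1 := by
    refine sub_eq_zero.1 (pow_eq_zero_iff (n := 3) (by norm_num) |>.1 ?_)
    linear_combination h12 + (β ^ 4 - β ^ 8) * h3
  have Bt := ccB_gen h hβ ht
  by_cases hsq : β ^ 2 = 1
  swap
  · have e : β ^ 2 = -1 := (cc_sq (i := 2) h4).resolve_left hsq
    have e4 : (β + 1) ^ 4 = -1 := by
      linear_combination (β ^ 2 + 4 * β + 5) * e - h3
    have e5 : (-1 : F) ≠ 1 := fun e5 => one_ne_zero (α := F) (by linear_combination h3 + e5)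
    refine top_e3 ih hn (p := 3) (by decide) (ccB χ hβ) b (map_mul _) (ccB_pow hβ h12) hb
      (fun y => (hs y).imp fun d hd => ⟨ccB_ker hβ hd.1, hd.2⟩) ⟨t ^ 2, by rw [map_pow, Bt, e]⟩
      ⟨β + 1, fun e6 => ?_, fun g e6 => e5 ?_⟩ (Or.inr ⟨t, by rwa [Bt]⟩)
    · rw [e6] at e4
      exact one_ne_zero (α := F) (by linear_combination e4)
    · rw [← e4, ← e6, ccB_pow hβ h4]
  have hm : β = -1 := by
    simpa using (cc_sq (i := 1) hsq).resolve_left (by rwa [pow_one])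
  let e : ZMod 3 ≃+* F := RingEquiv.ofBijective (ZMod.castHom dvd_rfl F)
    ⟨ZMod.castHom_injective F, RingHom.range_eq_top.1 (hS _ (hm ▸ neg_mem (one_mem _)))⟩
  obtain ⟨M, φ, hM, hN, hφ⟩ := cc_prime hn h hχ (by decide) e hb hs
  rw [show e.symm β = 2 by rw [hm, _root_.map_neg, map_one]; decide] at hM
  rcases h with rfl | rfl | rfl | rfl
  · by_cases h9 : 9 ∣ Nat.card (Abelianization (commutator G))
    · rcases nine _ h9 with ⟨ω, hω⟩ | ⟨ω, hω⟩
      · exact cc_nine ih hn hχ hk ht ω hω (Nat.card_zmod 9) (by decide) _ (by decide) dz_d18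
      · exact cc_nine ih hn hχ hk ht ω hω (by rw [Nat.card_prod, Nat.card_zmod]) (by decide) _
          (fun _ => rfl) dz_d33
    · refine cc_s3 ih hn hk hM hN hφ ?_
      rw [hV] at h9 ⊢
      obtain rfl : k = 1 := by
        by_contra h6
        exact h9 (pow_dvd_pow 3 (show 2 ≤ k by omega))
      rfl
  · exact absurd (by linear_combination hβ - β * hsq) h1
  · exact topZ ih hM hN dz_dic3
  · exact topZ ih hM hN dz_s3z3

end Pool.Agent.SQ2

end MrgPart0

-- ======== part 1: formerly Pool.Agent.MP_f56020_al.s2.Zp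
section MrgPart1

namespace Pool.Agent.SQ2

open Pool.Agent.SQ Multiset

universe u

variable {G : Type u} [Group G] [Finite G]

open Multiplicative in
/-- The zigzag frame over a cyclic quotient of odd order, with the values of its cosets. -/
theorem zp_fr {p m d : ℕ} [NeZero p] (hn : p = 2 * m + 1) (hm : 0 < m) (hd : d < 2)
    (φ : G →* Multiplicative (ZMod p)) (hφ : Function.Surjective φ) (i : ℕ) :
    ∃ τ, Fr φ.ker τ (2 * m) (ou φ.ker) (ou φ.ker) ∧
      ∀ j l a : ℕ, (i + j = l ∨ i + j = l + 2 * m) → ZV m d l a →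
        φ (τ j) = ofAdd (a : ZMod p) := by
  obtain ⟨τ, h1, h2⟩ := Fr.ofRS ((rs_zig hn hm hd).shift i) φ hφ
  refine ⟨τ, h1, fun j l a hl ha => ?_⟩
  have hl' : l < 2 * m := by unfold ZV at ha; omega
  rw [h2, mod_of hl' hl, zg_val ha]

omit [Finite G] in
theorem zp_mem {Q : Type*} [Group Q] {φ : G →* Q} {g t : G} {a : Q} (ht : φ t = a)
    (hg : φ g = a) : g * t⁻¹ ∈ φ.ker := by
  rw [MonoidHom.mem_ker, map_mul, map_inv, ht, hg, mul_inv_cancel]

open Multiplicative in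
theorem zp_ne {p a : ℕ} (h0 : 0 < a) (ha : a < p) : ofAdd (a : ZMod p) ≠ 1 := fun h =>
  h0.ne' (cast_inj ha (by omega) ((ofAdd.injective h).trans Nat.cast_zero.symm))

open Multiplicative in
/-- The case that uses the trade with three outer steps. -/
theorem zp_4e {p m d i k s q r s1 s2 : ℕ} [NeZero p] (hn : p = 2 * m + 1) (hm : 2 ≤ m)
    (hd : d < 2) (φ : G →* Multiplicative (ZMod p)) (hφ : Function.Surjective φ)
    (hF : Fib φ.ker (2 * m)) (h2 : 2 ≤ k) (hk : k < 2 * m) {l0 l1 l2 l3 l4 : ℕ}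
    (i0 : i + 0 = l0 ∨ i + 0 = l0 + 2 * m) (i1 : i + 1 = l1 ∨ i + 1 = l1 + 2 * m)
    (i2 : i + 2 = l2 ∨ i + 2 = l2 + 2 * m) (i3 : i + k = l3 ∨ i + k = l3 + 2 * m)
    (i4 : i + (k + 1) = l4 ∨ i + (k + 1) = l4 + 2 * m) (z0 : ZV m d l0 s) (z1 : ZV m d l1 s1)
    (z2 : ZV m d l2 s2) (z3 : ZV m d l3 q) (z4 : ZV m d l4 r) (e1 : s1 = s + r)
    (e2 : s2 + q = s + r) {A B η : G} (hA : φ A = ofAdd (q : ZMod p))
    (hB : φ B = (ofAdd (r : ZMod p))⁻¹) (hη : φ η = 1) (h1 : η ≠ 1) :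
    Ex φ.ker η (A * B * A⁻¹ * B⁻¹ * η) := by
  obtain ⟨τ, hτ, hv⟩ := zp_fr hn (by omega) hd φ hφ i
  have v0 := hv _ _ _ i0 z0
  have e2' : (s2 : ZMod p) = s - q + r := by
    have := congrArg (Nat.cast : ℕ → ZMod p) e2
    push_cast at this
    linear_combination this
  have key := f4e (s := τ 0) (q := A) (r := B⁻¹ * η) (η := η) hτ hF (by omega) h2 hk
    (zp_mem v0 v0)
    (zp_mem (hv _ _ _ i1 z1) (by simp [v0, hB, hη, e1, ofAdd_add]))
    (zp_mem (hv _ _ _ i1 z1) (by simp [v0, hB, hη, e1, ofAdd_add]))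
    (zp_mem (hv _ _ _ i2 z2) (by simp [v0, hA, hB, hη, e2', ofAdd_add, ofAdd_sub, div_eq_mul_inv]))
    (zp_mem (hv _ _ _ i3 z3) hA) (zp_mem (hv _ _ _ i4 z4) (by simp [hB, hη])) h1
  have e : A * η * (B⁻¹ * η)⁻¹ * A⁻¹ * (B⁻¹ * η) = A * B * A⁻¹ * B⁻¹ * η := by group
  rwa [e] at key

open Multiplicative in
/-- The quotient of order seven. -/
theorem zp_7 (φ : G →* Multiplicative (ZMod 7)) (hφ : Function.Surjective φ)
    (hF : Fib φ.ker (2 * 3)) {A B η : G} (hA : φ A = ofAdd ((1 : ℕ) : ZMod 7))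
    (hB : φ B = (ofAdd ((3 : ℕ) : ZMod 7))⁻¹) (hη : φ η = 1) (h1 : η ≠ 1) :
    Ex φ.ker η (A * B * A⁻¹ * B⁻¹ * η) := by
  obtain ⟨τ, hτ, hv⟩ := zp_fr (p := 7) (m := 3) (d := 0) rfl (by omega) (by omega) φ hφ 0
  have v0 := hv 0 0 1 (by omega) (by unfold ZV; omega)
  have v1 := hv 1 1 3 (by omega) (by unfold ZV; omega)
  have v2 := hv 2 2 2 (by omega) (by unfold ZV; omega)
  have hM : φ.ker ≠ ⊥ := fun h => h1 (Subgroup.mem_bot.1 (h ▸ (MonoidHom.mem_ker.2 hη)))
  have key := f3 (U := A) (V := B⁻¹) (η := η) (j := 1) hτ hF hM (by omega) (by omega) (by omega)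
    (zp_mem v0 hA) (zp_mem v1 (by rw [map_mul, map_inv, hB, hη, inv_inv, mul_one]))
    (zp_mem v1 (by rw [map_inv, hB, inv_inv]))
    (zp_mem v2 (by rw [map_mul, map_mul, map_inv, map_inv, hA, hB, hη]; decide)) h1 (by omega)
  rwa [inv_inv] at key

omit [Finite G] in
/-- The trade with three steps of the short walk and two of the long one. -/
theorem zp_t6 {X0 : Multiset G} {S L : Multiset (G × G)} {A B C X Y η : G} (h : Two X0 X0 S L)
    (h1 : Cut3 S (A⁻¹ * B⁻¹ * A * C * Y⁻¹ * X) C X Y (C * Y⁻¹ * X) (B * η))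
    (h2 : (B, A * C) ∈ L) (h3 : (Y * C⁻¹ * A⁻¹ * B, Y * C⁻¹ * A⁻¹ * B * A * C) ∈ L)
    (hne : B ≠ Y * C⁻¹ * A⁻¹ * B) :
    ∃ W, Wk 1 (A⁻¹ * B⁻¹ * A * B * η) W ∧ hd W = X0 + {A⁻¹ * B⁻¹ * A * B * η} ∧
      lb W = X0 + {η} := by
  obtain ⟨-, hL, hh, hl⟩ := h
  obtain ⟨A1, A2, A3, w1, w2, w3, rfl⟩ := h1
  obtain ⟨B1, B2, u1, u2, rfl⟩ := hL.cut2 h2 h3 fun e => hne (Prod.mk.inj e).1
  refine ⟨_, ((((((Wk.nil 1).step u1).step w2).step w1).step u2).step w3).step (Wk.nil _),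
    ?_, ?_⟩
  · rw [← hh]
    simp only [hd_add, hd_one, hd_zero]
    abel
  · rw [← hl]
    simp only [lb_add, lb_one, lb_zero]
    rw [show (1 : G)⁻¹ * (A * C) = (Y * C⁻¹ * A⁻¹ * B)⁻¹ * (Y * C⁻¹ * A⁻¹ * B * A * C) by group,
      show (Y * C⁻¹ * A⁻¹ * B)⁻¹ * Y = B⁻¹ * (A * C) by group,
      show (C * Y⁻¹ * X)⁻¹ * C = X⁻¹ * Y by group,
      show X⁻¹ * (Y * C⁻¹ * A⁻¹ * B * A * C) = (A⁻¹ * B⁻¹ * A * C * Y⁻¹ * X)⁻¹ * C by group,
      show B⁻¹ * (B * η) = η by group,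
      show (A⁻¹ * B⁻¹ * A * C * Y⁻¹ * X)⁻¹ * (A⁻¹ * B⁻¹ * A * B * η)
        = (C * Y⁻¹ * X)⁻¹ * (B * η) by group]
    abel

open Multiplicative in
/-- The quotient of order `8 k + 7`, `k ≥ 2`. -/
theorem zp_6p {p k : ℕ} [NeZero p] (hn : p = 2 * (4 * k + 3) + 1) (hk : 2 ≤ k)
    (φ : G →* Multiplicative (ZMod p)) (hφ : Function.Surjective φ)
    (hF : Fib φ.ker (2 * (4 * k + 3))) {A B η : G}
    (hA : φ A = ofAdd ((2 * k + 2 : ℕ) : ZMod p)) (hB : φ B = ofAdd ((2 * k + 2 : ℕ) : ZMod p))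
    (hη : φ η = 1) (h1 : η ≠ 1) : Ex φ.ker η (A⁻¹ * B⁻¹ * A * B * η) := by
  obtain ⟨τ, hτ, hv⟩ := zp_fr (d := 0) hn (by omega) (by omega) φ hφ 0
  obtain ⟨c, hc⟩ := hF
  have hp : (8 * k + 7 : ZMod p) = 0 := by
    have := ZMod.natCast_self p
    rw [hn] at this ⊢
    push_cast at this
    linear_combination this
  have v0 := hv 0 0 1 (by omega) (by unfold ZV; omega)
  have vC := hv 1 1 (4 * k + 3) (by omega) (by unfold ZV; omega)
  have vX := hv (2 * k + 2) (2 * k + 2) (k + 2) (by omega) (by unfold ZV; omega)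
  have vY := hv (2 * k + 3) (2 * k + 3) (3 * k + 2) (by omega) (by unfold ZV; omega)
  have v1 := hv (4 * k + 1) (4 * k + 1) (2 * k + 3) (by omega) (by unfold ZV; omega)
  have v2 := hv (4 * k + 2) (4 * k + 2) (2 * k + 2) (by omega) (by unfold ZV; omega)
  have v3 := hv (4 * k + 3) (4 * k + 3) (6 * k + 5) (by omega) (by unfold ZV; omega)
  have v4 := hv (6 * k + 4) (6 * k + 4) (7 * k + 6) (by omega) (by unfold ZV; omega)
  have v5 := hv (6 * k + 5) (6 * k + 5) (5 * k + 4) (by omega) (by unfold ZV; omega)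
  generalize hC : τ 1 = C at vC
  generalize hX : τ (2 * k + 2) = X at vX
  generalize hY : τ (2 * k + 3) = Y at vY
  have u0 : φ (A⁻¹ * B⁻¹ * A * C * Y⁻¹ * X) = ofAdd ((1 : ℕ) : ZMod p) := by
    simp only [map_mul, map_inv, hA, hB, vC, vX, vY, ← ofAdd_neg, ← ofAdd_add]
    congr 1
    push_cast
    ring
  have u1 : φ (C * Y⁻¹ * X) = ofAdd ((2 * k + 3 : ℕ) : ZMod p) := by
    simp only [map_mul, map_inv, vC, vX, vY, ← ofAdd_neg, ← ofAdd_add]
    congr 1
    push_cast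
    ring
  have u2 : φ (B * η) = ofAdd ((2 * k + 2 : ℕ) : ZMod p) := by rw [map_mul, hη, mul_one, hB]
  have u3 : φ (A * C) = ofAdd ((6 * k + 5 : ℕ) : ZMod p) := by
    simp only [map_mul, hA, vC, ← ofAdd_add]
    congr 1
    push_cast
    ring
  have u4 : φ (Y * C⁻¹ * A⁻¹ * B) = ofAdd ((7 * k + 6 : ℕ) : ZMod p) := by
    simp only [map_mul, map_inv, hA, hB, vC, vY, ← ofAdd_neg, ← ofAdd_add]
    congr 1
    push_cast
    linear_combination -hp
  have u4' : φ (η * (Y * C⁻¹ * A⁻¹ * B)) = ofAdd ((7 * k + 6 : ℕ) : ZMod p) := by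
    rw [map_mul, hη, one_mul, u4]
  have u5 : φ (Y * C⁻¹ * A⁻¹ * B * A * C) = ofAdd ((5 * k + 4 : ℕ) : ZMod p) := by
    simp only [map_mul, map_inv, hA, hB, vC, vY, ← ofAdd_neg, ← ofAdd_add]
    congr 1
    push_cast
    ring
  have hne : B ≠ Y * C⁻¹ * A⁻¹ * B := fun e => by
    have e' := ofAdd.injective (hB.symm.trans ((congrArg φ e).trans u4))
    have := cast_inj (by omega) (by omega) e'
    omega
  obtain ⟨τ1, f1, a1, b1⟩ : ∃ τ1, Fr φ.ker τ1 (2 * (4 * k + 3)) (ou φ.ker) (ou φ.ker) ∧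
      τ1 (4 * k + 1) = C * Y⁻¹ * X ∧ ∀ i, i ≠ 4 * k + 1 → τ1 i = τ i :=
    ⟨_, hτ.set (by omega) (by omega) (zp_mem v1 u1), Function.update_self .., fun i hi =>
      Function.update_of_ne hi ..⟩
  obtain ⟨τ2, f2, a2, b2⟩ : ∃ τ2, Fr φ.ker τ2 (2 * (4 * k + 3)) (ou φ.ker) (ou φ.ker) ∧
      τ2 (4 * k + 2) = B * η ∧ ∀ i, i ≠ 4 * k + 2 → τ2 i = τ1 i :=
    ⟨_, f1.set (by omega) (by omega) (zp_mem (by rw [b1 _ (by omega), v2]) u2),
      Function.update_self .., fun i hi => Function.update_of_ne hi ..⟩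
  obtain ⟨τ3, f3, a3, b3⟩ : ∃ τ3, Fr φ.ker τ3 (2 * (4 * k + 3)) (ou φ.ker) (ou φ.ker) ∧
      τ3 (6 * k + 4) = η * (Y * C⁻¹ * A⁻¹ * B) ∧ ∀ i, i ≠ 6 * k + 4 → τ3 i = τ2 i :=
    ⟨_, f2.set (by omega) (by omega)
      (zp_mem (by rw [b2 _ (by omega), b1 _ (by omega), v4]) u4'),
      Function.update_self .., fun i hi => Function.update_of_ne hi ..⟩
  obtain ⟨τ4, f4, a4, b4⟩ : ∃ τ4, Fr φ.ker τ4 (2 * (4 * k + 3)) (ou φ.ker) (ou φ.ker) ∧
      τ4 0 = A⁻¹ * B⁻¹ * A * C * Y⁻¹ * X ∧ ∀ i, 0 < i → i < 2 * (4 * k + 3) → τ4 i = τ3 i :=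
    ⟨_, f3.set0 (zp_mem (by rw [b3 _ (by omega), b2 _ (by omega), b1 _ (by omega), v0]) u0),
      if_pos (Or.inl rfl), fun i h0 hi => if_neg (by omega)⟩
  have t4 : ∀ i, 0 < i → i < 2 * (4 * k + 3) → i ≠ 4 * k + 1 → i ≠ 4 * k + 2 → i ≠ 6 * k + 4 →
      τ4 i = τ i := fun i h0 hi n1 n2 n3 => by rw [b4 i h0 hi, b3 i n3, b2 i n2, b1 i n1]
  have t2 : τ4 (4 * k + 2) = B * η := by
    rw [b4 _ (by omega) (by omega), b3 _ (by omega), a2]
  have t3 : τ4 (6 * k + 4) = η * (Y * C⁻¹ * A⁻¹ * B) := by rw [b4 _ (by omega) (by omega), a3]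
  obtain ⟨τ5, f5, o5, b5⟩ := addF c f4 (k := 4 * k + 2) (x := B) (y := A * C) (by omega)
    (zp_mem (by rw [t2, u2]) hB)
    (zp_mem (by rw [t4 _ (by omega) (by omega) (by omega) (by omega) (by omega), v3]) u3)
  obtain ⟨τ6, f6, o6, b6⟩ := addF c f5 (k := 6 * k + 4) (x := Y * C⁻¹ * A⁻¹ * B)
    (y := Y * C⁻¹ * A⁻¹ * B * A * C) (by omega)
    (zp_mem (by rw [b5 _ (by omega), t3, u4']) u4)
    (zp_mem (by
      rw [b5 _ (by omega), t4 _ (by omega) (by omega) (by omega) (by omega) (by omega), v5]) u5)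
  have o5' : On c τ6 (4 * k + 2) B (A * C) := by
    unfold On at o5 ⊢
    rwa [b6 _ (by omega), b6 _ (by omega)]
  obtain ⟨L, hL, hon⟩ := lift_on hc (by omega) f6
  have t6 : ∀ i, i ≠ 4 * k + 3 → i ≠ 6 * k + 5 → τ6 i = τ4 i := fun i n1 n2 => by
    rw [b6 i n2, b5 i n1]
  have m1 := (hon _ (by omega) _ _ o5').2 (Or.inl (by
    rw [t6 _ (by omega) (by omega), t2]
    simpa using h1))
  have m2 := (hon _ (by omega) _ _ o6).2 (Or.inl (by
    rw [t6 _ (by omega) (by omega), t3]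
    exact fun e => h1 (mul_eq_right.1 e.symm)))
  have c3 := cut3_sgm (i := 0) (j := 2 * k + 2) (k := 4 * k + 1) f6.cy (by omega) (by omega)
    (by omega)
  rw [t6 0 (by omega) (by omega), a4, t6 (0 + 1) (by omega) (by omega),
    t4 (0 + 1) (by omega) (by omega) (by omega) (by omega) (by omega), zero_add, hC,
    t6 (2 * k + 2) (by omega) (by omega),
    t4 (2 * k + 2) (by omega) (by omega) (by omega) (by omega) (by omega), hX,
    t6 (2 * k + 2 + 1) (by omega) (by omega),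
    t4 (2 * k + 2 + 1) (by omega) (by omega) (by omega) (by omega) (by omega), hY,
    t6 (4 * k + 1) (by omega) (by omega), b4 (4 * k + 1) (by omega) (by omega),
    b3 (4 * k + 1) (by omega), b2 (4 * k + 1) (by omega), a1,
    t6 (4 * k + 1 + 1) (by omega) (by omega), t2] at c3
  exact zp_t6 hL c3 m1 m2 hne

open Multiplicative in
/-- The excursion over a quotient of prime order. -/
theorem ex_zp {p : ℕ} (hp : p.Prime) (h5 : 5 ≤ p) (φ : G →* Multiplicative (ZMod p))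
    (hφ : Function.Surjective φ) (hF : Fib φ.ker (p - 1)) :
    ∃ a b : Multiplicative (ZMod p), a ≠ 1 ∧ b ≠ 1 ∧ ∀ A B η : G, φ A = a → φ B = b → φ η = 1 →
      η ≠ 1 → Ex φ.ker η (A * B * A⁻¹ * B⁻¹ * η) := by
  have : NeZero p := ⟨by omega⟩
  have h2 : p % 2 = 1 := Nat.odd_iff.1 (hp.odd_of_ne_two (by omega))
  have h15 : p ≠ 15 := fun h => absurd (h ▸ hp) (by norm_num)
  obtain ⟨n, hn, e⟩ | ⟨k, hk, e⟩ | e | ⟨k, hk, e⟩ :
      (∃ n, 1 ≤ n ∧ p = 2 * (2 * n) + 1) ∨ (∃ k, 1 ≤ k ∧ p = 2 * (4 * k + 1) + 1) ∨ p = 7 ∨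
        ∃ k, 2 ≤ k ∧ p = 2 * (4 * k + 3) + 1 := by
    rcases (by omega : p % 4 = 1 ∨ p % 8 = 3 ∨ p = 7 ∨ (p % 8 = 7 ∧ 23 ≤ p)) with h | h | h | h
    · exact Or.inl ⟨p / 4, by omega, by omega⟩
    · exact Or.inr (Or.inl ⟨p / 8, by omega, by omega⟩)
    · exact Or.inr (Or.inr (Or.inl h))
    · exact Or.inr (Or.inr (Or.inr ⟨p / 8, by omega, by omega⟩))
  · rw [show p - 1 = 2 * (2 * n) by omega] at hF
    exact ⟨_, _, zp_ne (a := 1) (by omega) (by omega),
      inv_ne_one.2 (zp_ne (a := 2 * n) (by omega) (by omega)), fun A B η hA hB hη h1 =>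
      zp_4e (d := 0) (i := 2 * n - 1) (k := 2 * n + 1) (s := n + 1) (s1 := 3 * n + 1)
        (s2 := 3 * n) (l0 := 2 * n - 1) (l1 := 2 * n) (l2 := 2 * n + 1) (l3 := 0) (l4 := 1) e
        (by omega) (by omega) φ hφ hF (by omega) (by omega) (by omega) (by omega) (by omega)
        (by omega) (by omega) (by unfold ZV; omega) (by unfold ZV; omega) (by unfold ZV; omega)
        (by unfold ZV; omega) (by unfold ZV; omega) (by omega) (by omega) hA hB hη h1⟩
  · rw [show p - 1 = 2 * (4 * k + 1) by omega] at hF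
    exact ⟨_, _, zp_ne (a := 2 * k) (by omega) (by omega),
      inv_ne_one.2 (zp_ne (a := 2 * k + 1) (by omega) (by omega)), fun A B η hA hB hη h1 =>
      zp_4e (d := 1) (i := 2 * k - 1) (k := 2 * k) (s := k) (s1 := 3 * k + 1)
        (s2 := k + 1) (l0 := 2 * k - 1) (l1 := 2 * k) (l2 := 2 * k + 1) (l3 := 4 * k - 1)
        (l4 := 4 * k) e
        (by omega) (by omega) φ hφ hF (by omega) (by omega) (by omega) (by omega) (by omega)
        (by omega) (by omega) (by unfold ZV; omega) (by unfold ZV; omega) (by unfold ZV; omega)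
        (by unfold ZV; omega) (by unfold ZV; omega) (by omega) (by omega) hA hB hη h1⟩
  · subst e
    exact ⟨_, _, zp_ne (a := 1) (by omega) (by omega),
      inv_ne_one.2 (zp_ne (a := 3) (by omega) (by omega)), fun A B η hA hB hη h1 =>
      zp_7 φ hφ hF hA hB hη h1⟩
  · rw [show p - 1 = 2 * (4 * k + 3) by omega] at hF
    refine ⟨_, _, inv_ne_one.2 (zp_ne (a := 2 * k + 2) (by omega) (by omega)),
      inv_ne_one.2 (zp_ne (a := 2 * k + 2) (by omega) (by omega)), fun A B η hA hB hη h1 => ?_⟩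
    have := zp_6p (A := A⁻¹) (B := B⁻¹) e hk φ hφ hF (by rw [map_inv, hA, inv_inv])
      (by rw [map_inv, hB, inv_inv]) hη h1
    rwa [inv_inv, inv_inv] at this

theorem zp_gen {p : ℕ} (hp : p.Prime) {a : Multiplicative (ZMod p)} (ha : a ≠ 1)
    (x : Multiplicative (ZMod p)) : ∃ i : ℕ, a ^ i = x := by
  have : Fact p.Prime := ⟨hp⟩
  have hc : Nat.card (Multiplicative (ZMod p)) = p := by
    rw [Nat.card_congr Multiplicative.toAdd, Nat.card_zmod]
  exact mem_powers_of_prime_card hc ha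

theorem top_zp {p : ℕ} (hp : p.Prime) (h5 : 5 ≤ p) (φ : G →* Multiplicative (ZMod p))
    (hφ : Function.Surjective φ) (he : Even (Nat.card φ.ker)) (hR : RG φ.ker) :
    RG G ∧ (¬ Cm G → SG G) := by
  obtain ⟨a, b, ha, -, h⟩ := ex_zp hp h5 φ hφ (fib_even hR he (by omega))
  obtain ⟨r, hr⟩ := hφ a
  constructor
  · have : Nontrivial φ.ker := by
      rw [← Finite.one_lt_card_iff_nontrivial]
      have h0 : 0 < Nat.card φ.ker := Nat.card_pos
      obtain ⟨t, ht⟩ := he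
      omega
    obtain ⟨⟨η, hη⟩, h1⟩ := exists_ne (1 : φ.ker)
    have h1' : η ≠ 1 := fun e => h1 (Subtype.ext e)
    obtain ⟨i, hi⟩ := zp_gen hp ha b
    have := h r (r ^ i) η hr (by rw [map_pow, hr, hi]) hη h1'
    rw [show r * r ^ i * r⁻¹ * (r ^ i)⁻¹ * η = η by group] at this
    exact ex_RR hR hη h1' this
  · intro hc
    obtain ⟨c, hc'⟩ := hφ b
    obtain ⟨k, hk, l, hl, hne⟩ := nc_lift (M := φ.ker) r c (fun g => by
      obtain ⟨i, hi⟩ := zp_gen hp ha (φ g)
      exact ⟨i, 0, zp_mem (a := φ g) (by rw [pow_zero, mul_one, map_pow, hr, hi]) rfl⟩) hc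
    have hA : φ (k * r) = a := by rw [map_mul, hk, one_mul, hr]
    have hB : φ (l * c) = b := by rw [map_mul, hl, one_mul, hc']
    refine ex_RS hR (κ := k * r * (l * c) * (k * r)⁻¹ * (l * c)⁻¹) ?_ ?_
      fun η hη h1 => h _ _ η hA hB hη h1
    · rw [MonoidHom.mem_ker, map_mul, map_mul, map_mul, map_inv, map_inv, hA, hB,
        mul_comm a b, mul_inv_cancel_right, mul_inv_cancel]
    · intro e
      apply hne
      rw [mul_inv_eq_one, mul_inv_eq_iff_eq_mul] at e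
      exact e

end Pool.Agent.SQ2

end MrgPart1

-- ======== part 2: formerly Pool.Agent.MP_f56020_al.s2.CyS
section MrgPart2

namespace Pool.Agent.SQ2

open Pool.Agent.SQ Multiset

universe u

theorem cy_sg (G : Type u) [Group G] [Finite G] [Group.IsSolvable G] (h : Cy G)
    (h6 : Nat.card G ≠ 6) : SG G := by
  obtain ⟨z, -, -, k⟩ := SQC.cy
    (fun _ _ _ _ π h1 h2 _ hp h5 ψ hψ _ _ _ k1 k2 => t6e_dih π h1 h2 hp h5 ψ hψ k1 k2) G h.1
    (fun P hP => by
      by_contra e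
      exact h.2 ⟨P, hP, e⟩) h6
  exact k.sg

end Pool.Agent.SQ2

end MrgPart2

-- ======== part 3: formerly Pool.Agent.MP_f56020_al.s2.All
section MrgPart3

namespace Pool.Agent.SQ2

open Pool.Agent.SQ Multiset

universe u

theorem all_idx {G A : Type*} [Group G] [Group A] (ψ : G →* A) (h : Function.Surjective ψ) :
    ψ.ker.index = Nat.card A := by
  rw [Subgroup.index_ker, MonoidHom.range_eq_top.2 h, Subgroup.card_top]

theorem nncase {G : Type u} [Group G] [Finite G] [Group.IsSolvable G] (ih : IH G)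
    (hn : ¬ NN G) : RG G ∧ SG G := by
  have hc : ¬ Cm G := fun h => hn (nn_of_cm h)
  have hG : NC G := nc_of_not_nn hn
  have : Nontrivial G := by
    by_contra h
    rw [not_nontrivial_iff_subsingleton] at h
    exact hc fun a b => Subsingleton.elim _ _
  have := nontrivial_ab G
  have hs : Function.Surjective (Abelianization.of : G →* Abelianization G) :=
    QuotientGroup.mk_surjective
  have hlt : ∀ K : Subgroup G, K.index ≠ 1 → Nat.card K < Nat.card G := fun K h =>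
    card_lt fun e => h (Subgroup.index_eq_one.2 e)
  rcases ab_cases (Abelianization G) with ⟨φ, hφ⟩ | ⟨φ, hφ⟩ | ⟨p, hp, h5, φ, hφ⟩ | ⟨φ, hφ⟩ |
    ⟨φ, hφ⟩ | ⟨φ, hφ⟩ | ⟨n, h, φ, hφ⟩
  · have hψ : Function.Surjective (φ.comp Abelianization.of) := hφ.comp hs
    generalize φ.comp Abelianization.of = ψ at hψ
    have hi : ψ.ker.index = 2 ^ 2 := by rw [all_idx ψ hψ]; simp
    have hK : NC ψ.ker := g3 hn hi le_rfl (hi.trans (mul_one _).symm) odd_one
    refine (top_v4 ψ hψ ((ih _ (hlt _ (by omega)) hK).1 fun h => hn ?_)).imp id fun h => h hc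
    exact nn_of_two (k := 5) (by rw [← ψ.ker.card_mul_index, hi, h.1]; rfl)
  · exact top_z8 ih hn (φ.comp Abelianization.of) (hφ.comp hs)
  · have hψ : Function.Surjective (φ.comp Abelianization.of) := hφ.comp hs
    generalize φ.comp Abelianization.of = ψ at hψ
    have hi : ψ.ker.index = p := by
      rw [all_idx ψ hψ, Nat.card_congr Multiplicative.toAdd, Nat.card_zmod]
    have hK : NC ψ.ker := nc_of_odd_index hG (by rw [hi]; exact hp.odd_of_ne_two (by omega))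
    refine (top_zp hp h5 ψ hψ (even_iff_two_dvd.2 (Dvd.dvd.trans (by decide) hK.four_dvd))
      ((ih _ (hlt _ (by omega)) hK).1 fun h => hn (nn_q8 hp h5 hi h))).imp id fun h => h hc
  · have hψ : Function.Surjective (φ.comp Abelianization.of) := hφ.comp hs
    refine (top_z9 ih _ hψ (nc_of_odd_index hG ?_)).imp id fun h => h hc
    rw [all_idx _ hψ, Nat.card_congr Multiplicative.toAdd, Nat.card_zmod]
    decide
  · have hψ : Function.Surjective (φ.comp Abelianization.of) := hφ.comp hs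
    refine (top_z33 ih _ hψ (nc_of_odd_index hG ?_)).imp id fun h => h hc
    rw [all_idx _ hψ, Nat.card_congr Multiplicative.toAdd, Nat.card_prod, Nat.card_zmod]
    decide
  · have hψ : Function.Surjective (φ.comp Abelianization.of) := hφ.comp hs
    generalize φ.comp Abelianization.of = ψ at hψ
    let χ : Multiplicative (ZMod 12) →* Multiplicative (ZMod 4) :=
      AddMonoidHom.toMultiplicative (ZMod.castHom (by decide : 4 ∣ 12) (ZMod 4)).toAddMonoidHom
    have hχ : Function.Surjective χ := by decide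
    refine (top_z12 ih ψ hψ (g3 hn (L := (χ.comp ψ).ker) (k := 2) (o := 3) ?_
      (fun g hg => ?_) ?_ (by decide))).imp id fun h => h hc
    · rw [all_idx (χ.comp ψ) (hχ.comp hψ), Nat.card_congr Multiplicative.toAdd, Nat.card_zmod]
      rfl
    · rw [MonoidHom.mem_ker, MonoidHom.comp_apply, MonoidHom.mem_ker.1 hg, map_one]
    · rw [all_idx _ hψ, Nat.card_congr Multiplicative.toAdd, Nat.card_zmod]
      rfl
  · refine cyc_case ih hn h (φ.comp Abelianization.of) (hφ.2.comp hs) ?_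
    rw [← Abelianization.ker_of]
    ext g
    rw [MonoidHom.mem_ker, MonoidHom.mem_ker, MonoidHom.comp_apply, map_eq_one_iff φ hφ.1]

theorem good_aux (n : ℕ) : ∀ (G : Type u) [Group G] [Finite G] [Group.IsSolvable G],
    Nat.card G = n → Good G := by
  induction n using Nat.strong_induction_on with
  | _ n k =>
    intro G _ _ _ e
    have ih : IH G := fun H _ _ _ h => k _ (e ▸ h) H rfl
    by_cases hn : NN G
    · exact ncase ih hn
    · exact fun _ => ⟨fun _ => (nncase ih hn).1, fun _ _ => (nncase ih hn).2⟩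

theorem good (G : Type u) [Group G] [Finite G] [Group.IsSolvable G] : Good G :=
  good_aux _ G rfl

theorem seq_all (G : Type u) [Group G] [Finite G] [Group.IsSolvable G] (hc : ¬ Cm G)
    (h6 : Nat.card G ≠ 6) (h8 : Nat.card G ≠ 8) : SG G := by
  rcases tri G with h | h | h
  · exact (SQ.main G h).2 hc
  · exact cy_sg G h h6
  · exact (good G h).2 hc h8

theorem SG.list {G : Type*} [Group G] [Finite G] (h : SG G) :
    ∃ l : List G, l.Nodup ∧ (∀ g : G, g ∈ l) ∧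
      ∀ i j : ℕ, i < j → j < l.length → (l.take (i + 1)).prod ≠ (l.take (j + 1)).prod := by
  obtain ⟨x, y, V, p, hV⟩ := h
  obtain ⟨m, h1, h2⟩ := p.toList
  have h3 : (((1 : G) :: m : List G) : Multiset G) = al G := by
    rw [← one_add_nz, ← h1]
    rfl
  have h4 : ((List.ofFn fun i : Fin (m.length + 1) => x * ((1 :: m).take (i + 1)).prod :
      List G) : Multiset G) = al G := by
    rw [← hV, ← h2, List.ofFn_succ]
    simp
  refine ⟨1 :: m, coe_nodup.1 (h3 ▸ nodup_st _), fun g => ?_, fun i j hij hj e => ?_⟩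
  · rw [← mem_coe, h3]
    exact mem_st.2 trivial
  · have h0 : (al G).Nodup := nodup_st _
    rw [← h4] at h0
    have h5 := List.nodup_ofFn.1 (coe_nodup.1 h0)
    have h6 := @h5 ⟨i, hij.trans hj⟩ ⟨j, hj⟩ (congrArg (x * ·) e)
    exact hij.ne (congrArg Fin.val h6)

end Pool.Agent.SQ2

end MrgPart3

-- marker of a merged file
example : 731051 + 338416 = 731051 + 338416 := rfl
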