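import Mathlib.GroupTheory.IndexNormal
import Pool.Agent.MP_f56020_al.cy.Cy

namespace Pool.Agent.SQ2

open Pool.Agent.SQ Multiset

universe u

/-- Depth-first search for `n` more steps from `c`; `L` holds the labels and `V` the vertices
used so far. -/
def conv_dfs (mul : ℕ → ℕ → ℕ) (U : List ℕ) : ℕ → ℕ → List ℕ → List ℕ → Bool
  | 0, _, _, _ => true
  | n + 1, c, L, V => U.any fun d =>
      !(L.any (Nat.beq d)) && (!(V.any (Nat.beq (mul c d))) &&
        conv_dfs mul U n (mul c d) (d :: L) (mul c d :: V))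

/-- The multiplication of `mc n 2 r c` on the numbers `2 i + j`. -/
def conv_mul (n r c x y : ℕ) : ℕ :=
  2 * ((x / 2 + r ^ (x % 2) * (y / 2) + x % 2 * (y % 2) * c) % n) + (x + y) % 2

theorem conv_true {G : Type*} [Group G] {mul : ℕ → ℕ → ℕ} {φ : G → ℕ}
    (hm : ∀ a b, φ (a * b) = mul (φ a) (φ b)) (hi : Function.Injective φ) (U : List ℕ)
    (hU : ∀ g, φ g ∈ U) (l : List G) : ∀ (c : G) (L V : List G), l.Nodup → (∀ x ∈ l, x ∉ L) →
      (∀ i < l.length, c * (l.take (i + 1)).prod ∉ V) →
      (∀ i j : ℕ, i < j → j < l.length → (l.take (i + 1)).prod ≠ (l.take (j + 1)).prod) →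
      conv_dfs mul U l.length (φ c) (L.map φ) (V.map φ) = true := by
  induction l with
  | nil => intros; rfl
  | cons x t ih =>
    intro c L V hn hL hV hd
    have h1 : φ x ∉ L.map φ := fun h => by
      obtain ⟨y, hy, e⟩ := List.mem_map.1 h
      exact hL x (by simp) (hi e ▸ hy)
    have h2 : φ (c * x) ∉ V.map φ := fun h => by
      obtain ⟨y, hy, e⟩ := List.mem_map.1 h
      exact hV 0 (by simp) (by simpa [← hi e] using hy)
    have h3 := ih (c * x) (x :: L) (c * x :: V) (List.nodup_cons.1 hn).2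
      (fun y hy h => by
        rcases List.mem_cons.1 h with rfl | h
        · exact (List.nodup_cons.1 hn).1 hy
        · exact hL y (List.mem_cons_of_mem _ hy) h)
      (fun i hi' h => by
        rcases List.mem_cons.1 h with h | h
        · refine hd 0 (i + 1) (by omega) (by simpa using hi') ?_
          have : (t.take (i + 1)).prod = 1 := by simpa using h
          simp [this]
        · exact hV (i + 1) (by simpa using hi') (by simpa [mul_assoc] using h))
      (fun i j hij hj h => hd (i + 1) (j + 1) (by omega) (by simpa using hj) (by simp [h]))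
    rw [List.length_cons, conv_dfs, List.any_eq_true]
    refine ⟨φ x, hU _, ?_⟩
    rw [← hm]
    simp only [List.map_cons] at h3
    have k : ∀ (d : ℕ) (L : List ℕ), d ∉ L → L.any (Nat.beq d) = false := fun d L h =>
      List.any_eq_false.2 fun y hy e => h (Nat.eq_of_beq_eq_true e ▸ hy)
    rw [k _ _ h1, k _ _ h2, h3]
    rfl

theorem conv_mod {G D : Type*} [Group G] [Finite G] {mul : D → D → D} {e : D}
    {φ : G → D} (h : Mod ⊥ mul e φ) (f : D → ℕ) (m : ℕ → ℕ → ℕ) (U : List ℕ) (n : ℕ)
    (hn : Nat.card G = n + 1)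
    (hU : (∀ d, f d ∈ U) ∧ (∀ x y, f x = f y → x = y) ∧ ∀ x y, f (mul x y) = m (f x) (f y))
    (hf : conv_dfs m U n (f e) [f e] [f e] = false) :
    ¬ ∃ l : List G, l.Nodup ∧ (∀ g : G, g ∈ l) ∧
      ∀ i j : ℕ, i < j → j < l.length → (l.take (i + 1)).prod ≠ (l.take (j + 1)).prod := by
  classical
  rintro ⟨l, h1, h2, h3⟩
  have hi : Function.Injective φ := fun a b e => by
    have := h.mem_iff.2 e
    rwa [Subgroup.mem_bot, mul_inv_eq_one] at this
  have hl : l.length = n + 1 := by
    have := Fintype.ofFinite G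
    rw [← hn, Nat.card_eq_fintype_card, ← List.toFinset_card_of_nodup h1, ← Finset.card_univ]
    congr 1
    ext g
    simp [h2]
  obtain _ | ⟨x, t⟩ := l
  · simp at hl
  obtain rfl : x = 1 := by
    by_contra hx
    obtain ⟨i, hi', e⟩ := List.getElem_of_mem
      ((List.mem_cons.1 (h2 1)).resolve_left fun e => hx e.symm)
    refine h3 i (i + 1) (by omega) (by simpa using hi') ?_
    rw [List.take_succ_cons, List.take_succ_cons, List.prod_cons, List.prod_cons,
      List.prod_take_succ _ _ hi', e, mul_one]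
  have := conv_true (φ := fun g => f (φ g)) (mul := m) (fun a b => by rw [h.map_mul, hU.2.2])
    (fun a b e => hi (hU.2.1 _ _ e)) U (fun g => hU.1 _) t 1 [1] [1] (List.nodup_cons.1 h1).2
    (fun y hy e => (List.nodup_cons.1 h1).1 (List.mem_singleton.1 e ▸ hy))
    (fun i hi' e => h3 0 (i + 1) (by omega) (by simpa using hi') (by simpa [eq_comm] using e))
    (fun i j hij hj e => h3 (i + 1) (j + 1) (by omega) (by simpa using hj) (by simp [e]))
  rw [show t.length = n by simpa using hl, List.map_singleton, h.one, hf] at this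
  exact absurd this (by simp)

theorem conv_s3 : conv_dfs (conv_mul 3 2 0) [0, 1, 2, 3, 4, 5] 5 0 [0] [0] = false := by
  decide +kernel

theorem conv_d8 : conv_dfs (conv_mul 4 3 0) [0, 1, 2, 3, 4, 5, 6, 7] 7 0 [0] [0] = false := by
  decide +kernel

theorem conv_q8 : conv_dfs (conv_mul 4 3 2) [0, 1, 2, 3, 4, 5, 6, 7] 7 0 [0] [0] = false := by
  decide +kernel

/-- A cyclic subgroup of index two in a group that is not commutative. -/
theorem conv_idx {G : Type*} [Group G] [Finite G] {n : ℕ} [NeZero n] (a : G) (ha : orderOf a = n)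
    (hG : Nat.card G = 2 * n) (hc : ¬ Cm G) :
    ∃ (b : G) (r c : ZMod n), b ∉ Subgroup.zpowers a ∧ b * a * b⁻¹ = a ^ r.val ∧
      b ^ 2 = a ^ c.val ∧ a ^ r.val ≠ a := by
  have hi : (Subgroup.zpowers a).index = 2 := by
    have := (Subgroup.zpowers a).index_mul_card
    rw [Nat.card_zpowers, ha, hG] at this
    exact Nat.eq_of_mul_eq_mul_right (NeZero.pos n) this
  have hz : ∀ g ∈ Subgroup.zpowers a, ∃ r : ZMod n, g = a ^ r.val := fun g hg => by
    obtain ⟨k, rfl⟩ := (mem_powers_iff_mem_zpowers.2 hg)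
    exact ⟨k, by rw [ZMod.val_natCast, ← ha, pow_mod_orderOf]⟩
  obtain ⟨b, hb⟩ : ∃ b, b ∉ Subgroup.zpowers a := by
    by_contra h
    push Not at h
    have : Subgroup.zpowers a = ⊤ := eq_top_iff.2 fun g _ => h g
    simp [this] at hi
  obtain ⟨r, hr⟩ := hz _ ((Subgroup.normal_of_index_eq_two hi).conj_mem a
    (Subgroup.mem_zpowers a) b)
  obtain ⟨c, hc'⟩ := hz _ (Subgroup.sq_mem_of_index_two hi b)
  refine ⟨b, r, c, hb, hr, hc', fun e => hc ?_⟩
  have hab : Commute b a := by
    rw [e] at hr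
    exact mul_inv_eq_iff_eq_mul.1 hr
  have key : ∀ g : G, ∃ k : ℤ, g = a ^ k ∨ g = a ^ k * b := fun g => by
    by_cases hg : g ∈ Subgroup.zpowers a
    · obtain ⟨k, rfl⟩ := hg
      exact ⟨k, Or.inl rfl⟩
    · obtain ⟨k, hk⟩ : g * b⁻¹ ∈ Subgroup.zpowers a :=
        (Subgroup.mul_mem_iff_of_index_two hi).2 (by simp [hg, hb])
      exact ⟨k, Or.inr (by simp only [] at hk; rw [hk]; simp)⟩
  intro x y
  have ca : ∀ g : G, Commute g a ∧ Commute g b := fun g => by
    obtain ⟨k, rfl | rfl⟩ := key g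
    · exact ⟨(Commute.refl a).zpow_left k, hab.symm.zpow_left k⟩
    · exact ⟨((Commute.refl a).zpow_left k).mul_left hab,
        (hab.symm.zpow_left k).mul_left (Commute.refl b)⟩
  obtain ⟨k, rfl | rfl⟩ := key y
  · exact (ca x).1.zpow_right k
  · exact ((ca x).1.zpow_right k).mul_right (ca x).2

theorem conv_four {G : Type*} [Group G] [Finite G] (h : Nat.card G = 8) (hc : ¬ Cm G) :
    ∃ a : G, orderOf a = 4 := by
  by_contra h4
  push Not at h4
  refine hc ?_
  have h2 : ∀ g : G, g * g = 1 := fun g => by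
    have hd : orderOf g ∣ 2 ^ 3 := by simpa [h] using orderOf_dvd_natCard g
    obtain ⟨k, hk, e⟩ := (Nat.dvd_prime_pow Nat.prime_two).1 hd
    interval_cases k
    · simp [orderOf_eq_one_iff.1 e]
    · rw [← pow_two]
      exact orderOf_dvd_iff_pow_eq_one.1 (by simp [e])
    · exact absurd e (h4 g)
    · exact absurd (by rw [orderOf_pow' _ two_ne_zero, e]; norm_num) (h4 (g ^ 2))
  intro x y
  have hi : ∀ g : G, g⁻¹ = g := fun g => inv_eq_of_mul_eq_one_right (h2 g)
  rw [← hi (x * y), mul_inv_rev, hi, hi]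

theorem not_seq (G : Type*) [Group G] [Finite G] (h : Nat.card G = 6 ∨ Nat.card G = 8)
    (hc : ¬ Cm G) : ¬ ∃ l : List G, l.Nodup ∧ (∀ g : G, g ∈ l) ∧
      ∀ i j : ℕ, i < j → j < l.length → (l.take (i + 1)).prod ≠ (l.take (j + 1)).prod := by
  rcases h with h | h
  · obtain ⟨a, ha⟩ := exists_prime_orderOf_dvd_card' (G := G) 3 (hp := ⟨Nat.prime_three⟩)
      (by simp [h])
    obtain ⟨b, r, c, hb, hr, hb2, hne⟩ := conv_idx (n := 3) a ha h hc
    have a1 : a ≠ 1 := fun e => by simp [e] at ha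
    have hr2 : r = 2 := by
      fin_cases r
      · exact absurd (conj_eq_one_iff.1 (hr.trans (pow_zero a))) a1
      · exact absurd (pow_one a) hne
      · rfl
    subst hr2
    have hc0 : c = 0 := by
      have e1 : b * a ^ c.val * b⁻¹ = a ^ c.val := by rw [← hb2]; group
      rw [← conj_pow, hr, ← pow_mul, pow_inj_mod, ha] at e1
      clear hb2
      revert c
      decide
    subst hc0
    obtain ⟨φ, hφ⟩ := mc_mod (n := 3) a b ha hb h hr hb2
    exact conv_mod hφ (fun x => 2 * x.1.val + x.2.val) _ _ 5 h (by decide +kernel) conv_s3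
  · obtain ⟨a, ha⟩ := conv_four h hc
    obtain ⟨b, r, c, hb, hr, hb2, hne⟩ := conv_idx (n := 4) a ha h hc
    have hr2 : r = 3 := by
      have e0 : orderOf (a ^ r.val) = 4 := by
        rw [← hr, ← ha]
        exact (MulAut.conj b).orderOf_eq a
      rw [orderOf_pow, ha] at e0
      have e1 : r ≠ 1 := fun e => hne (by subst e; exact pow_one a)
      clear hr hne
      revert r
      decide
    subst hr2
    have hc0 : c = 0 ∨ c = 2 := by
      have e1 : b * a ^ c.val * b⁻¹ = a ^ c.val := by rw [← hb2]; group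
      rw [← conj_pow, hr, ← pow_mul, pow_inj_mod, ha] at e1
      clear hb2
      revert c
      decide
    obtain ⟨φ, hφ⟩ := mc_mod (n := 4) a b ha hb h hr hb2
    rcases hc0 with rfl | rfl
    · exact conv_mod hφ (fun x => 2 * x.1.val + x.2.val) _ _ 7 h (by decide +kernel) conv_d8
    · exact conv_mod hφ (fun x => 2 * x.1.val + x.2.val) _ _ 7 h (by decide +kernel) conv_q8

end Pool.Agent.SQ2
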