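import Pool.Agent.MP_f56020_al.s2.Aff

namespace Pool.Agent.SQ2

theorem do_m16 : DO (mc 8 2 5 0) 0 15 :=
  ⟨by decide,
  D8.of (dc Nat.cast 2)
    [5, 10, 12, 4, 9, 7, 8, 6, 13, 1, 3, 14, 15, 11, 2]
    [15, 2, 8, 5, 6, 11, 14, 7, 4, 10, 13, 1, 12, 9, 3]
    13 10 11 2 (by decide +kernel),
  DS.of (dc Nat.cast 2)
    [6, 13, 2, 10, 4, 5, 11, 15, 9, 12, 7, 3, 14, 1, 8]
    [6, 7, 15, 8, 10, 1, 14, 4, 2, 5, 11, 12, 13, 3, 9]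
    8 4 4 (by decide +kernel)⟩

theorem do_d16 : DO (mc 8 2 7 0) 0 15 :=
  ⟨by decide,
  D8.of (dc Nat.cast 2)
    [7, 1, 2, 10, 15, 6, 4, 8, 11, 14, 5, 3, 9, 13, 12]
    [6, 15, 8, 5, 9, 14, 4, 3, 13, 7, 2, 10, 12, 1, 11]
    3 1 10 15 (by decide +kernel),
  DS.of (dc Nat.cast 2)
    [6, 11, 9, 2, 12, 5, 13, 10, 14, 15, 4, 1, 3, 7, 8]
    [6, 5, 2, 7, 10, 9, 8, 3, 4, 1, 11, 13, 14, 12, 15]
    8 4 4 (by decide +kernel)⟩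

theorem do_sd16 : DO (mc 8 2 3 0) 0 15 :=
  ⟨by decide,
  D8.of (dc Nat.cast 2)
    [8, 5, 11, 4, 10, 3, 15, 13, 2, 14, 12, 1, 9, 6, 7]
    [13, 2, 15, 6, 9, 4, 10, 3, 12, 14, 5, 8, 11, 1, 7]
    7 5 13 2 (by decide +kernel),
  DS.of (dc Nat.cast 2)
    [6, 2, 11, 3, 4, 15, 14, 13, 9, 12, 1, 7, 5, 10, 8]
    [6, 12, 9, 8, 7, 11, 1, 15, 4, 13, 5, 2, 10, 3, 14]
    8 4 4 (by decide +kernel)⟩

theorem do_q16 : DO (mc 8 2 7 4) 0 15 :=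
  ⟨by decide,
  D8.of (dc Nat.cast 2)
    [10, 1, 12, 5, 14, 8, 11, 2, 6, 4, 9, 3, 7, 15, 13]
    [7, 13, 9, 15, 10, 3, 1, 4, 14, 5, 6, 12, 8, 2, 11]
    13 1 15 13 (by decide +kernel),
  DS.of (dc Nat.cast 2)
    [9, 10, 4, 5, 14, 1, 12, 7, 11, 3, 13, 15, 2, 6, 8]
    [9, 7, 10, 1, 15, 3, 13, 11, 12, 8, 6, 14, 5, 4, 2]
    8 1 1 (by decide +kernel)⟩

theorem do_m32 : DO (mc 16 2 9 0) 0 31 :=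
  ⟨by decide,
  D8.of (dc Nat.cast 2)
    [10, 7, 26, 13, 27, 31, 24, 29, 12, 22, 5, 21, 23, 19, 25, 14, 6, 15, 1, 11, 16, 17, 8, 28,
    9, 18, 30, 4, 3, 20, 2]
    [29, 21, 19, 30, 4, 11, 5, 17, 10, 15, 16, 18, 28, 22, 7, 24, 9, 2, 26, 23, 1, 25, 20, 13,
    27, 12, 6, 31, 3, 14, 8]
    10 7 5 21 (by decide +kernel),
  DS.of (dc Nat.cast 2)
    [26, 23, 17, 5, 7, 24, 22, 31, 15, 4, 19, 25, 30, 10, 29, 21, 14, 28, 9, 27, 8, 13, 12, 18,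
    3, 11, 2, 6, 1, 20, 16]
    [26, 29, 10, 20, 18, 3, 30, 9, 16, 7, 15, 22, 23, 12, 19, 24, 11, 14, 13, 2, 31, 5, 1, 6,
    17, 8, 25, 4, 27, 21, 28]
    16 8 8 (by decide +kernel)⟩

theorem do_d32 : DO (mc 16 2 15 0) 0 31 :=
  ⟨by decide,
  D8.of (dc Nat.cast 2)
    [1, 14, 7, 18, 2, 26, 30, 28, 8, 5, 19, 25, 10, 9, 13, 3, 27, 16, 11, 6, 29, 20, 22, 23, 17,
    4, 21, 31, 24, 12, 15]
    [19, 25, 21, 16, 24, 4, 30, 12, 29, 18, 26, 15, 31, 28, 10, 8, 11, 27, 5, 23, 9, 2, 1, 6,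
    13, 17, 22, 7, 20, 3, 14]
    10 14 19 25 (by decide +kernel),
  DS.of (dc Nat.cast 2)
    [13, 31, 19, 26, 27, 9, 15, 25, 2, 18, 22, 21, 4, 10, 29, 8, 5, 17, 12, 14, 24, 1, 6, 30,
    28, 7, 11, 3, 20, 23, 16]
    [13, 14, 12, 25, 1, 18, 26, 22, 23, 16, 4, 31, 17, 6, 19, 21, 29, 20, 5, 2, 10, 9, 27, 24,
    30, 11, 28, 8, 15, 3, 7]
    16 8 8 (by decide +kernel)⟩

theorem do_sd32 : DO (mc 16 2 7 0) 0 31 :=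
  ⟨by decide,
  D8.of (dc Nat.cast 2)
    [6, 21, 1, 23, 10, 31, 20, 26, 24, 8, 13, 7, 30, 15, 29, 28, 19, 4, 11, 17, 9, 22, 18, 5,
    12, 16, 2, 14, 25, 27, 3]
    [15, 20, 26, 13, 21, 27, 6, 30, 16, 5, 22, 9, 17, 2, 1, 23, 31, 7, 10, 8, 3, 28, 19, 25, 4,
    18, 12, 11, 14, 24, 29]
    5 21 31 20 (by decide +kernel),
  DS.of (dc Nat.cast 2)
    [1, 14, 4, 13, 22, 7, 17, 12, 11, 18, 28, 24, 15, 20, 6, 27, 29, 26, 30, 25, 5, 19, 3, 23,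
    9, 10, 2, 31, 21, 8, 16]
    [1, 3, 22, 9, 7, 17, 6, 5, 31, 25, 10, 28, 23, 11, 18, 21, 14, 19, 4, 27, 20, 2, 16, 12, 30,
    15, 24, 29, 26, 13, 8]
    16 3 3 (by decide +kernel)⟩

theorem do_q32 : DO (mc 16 2 15 8) 0 31 :=
  ⟨by decide,
  D8.of (dc Nat.cast 2)
    [12, 18, 29, 30, 5, 27, 23, 26, 11, 24, 20, 7, 25, 14, 2, 28, 1, 17, 10, 31, 22, 8, 9, 16,
    15, 3, 13, 21, 19, 6, 4]
    [6, 11, 15, 7, 10, 4, 13, 17, 3, 28, 19, 14, 27, 20, 26, 5, 16, 23, 21, 25, 18, 1, 9, 31,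
    12, 22, 24, 2, 29, 30, 8]
    7 18 26 11 (by decide +kernel),
  DS.of (dc Nat.cast 2)
    [14, 15, 22, 10, 4, 21, 31, 13, 6, 8, 1, 23, 24, 19, 28, 25, 20, 12, 17, 2, 30, 9, 29, 26,
    7, 3, 27, 11, 5, 18, 16]
    [14, 1, 9, 20, 26, 17, 22, 18, 23, 2, 25, 10, 15, 27, 7, 29, 21, 24, 5, 31, 28, 11, 12, 19,
    13, 4, 8, 16, 6, 3, 30]
    16 1 1 (by decide +kernel)⟩

theorem d8_z42 : D8 (mc 4 2 1 0) 0 (fun d => d = 0) 7 :=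
  D8.of (dc Nat.cast 2)
    [7, 2, 3, 4, 6, 5, 1]
    [5, 1, 3, 2, 7, 4, 6]
    5 2 5 1 (by decide +kernel)

theorem d8_d8 : D8 (mc 4 2 3 0) 0 (fun d => d = 0) 7 :=
  D8.of (dc Nat.cast 2)
    [6, 3, 7, 5, 4, 2, 1]
    [5, 4, 2, 1, 6, 7, 3]
    3 3 5 4 (by decide +kernel)

theorem d8_z82 : D8 (mc 8 2 1 0) 0 (fun d => d = 0) 15 :=
  D8.of (dc Nat.cast 2)
    [15, 6, 2, 13, 10, 7, 1, 9, 12, 14, 4, 5, 3, 8, 11]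
    [9, 12, 11, 15, 13, 10, 8, 5, 2, 6, 1, 14, 7, 3, 4]
    7 6 9 12 (by decide +kernel)

theorem d8_z162 : D8 (mc 16 2 1 0) 0 (fun d => d = 0) 31 :=
  D8.of (dc Nat.cast 2)
    [9, 11, 2, 17, 27, 30, 25, 12, 13, 14, 4, 10, 1, 15, 19, 26, 6, 23, 20, 31, 7, 3, 21, 5, 22,
    29, 24, 18, 16, 8, 28]
    [2, 25, 15, 10, 5, 27, 21, 1, 3, 22, 6, 23, 14, 4, 9, 12, 17, 31, 11, 8, 28, 18, 16, 19, 7,
    29, 26, 30, 24, 20, 13]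
    5 11 30 25 (by decide +kernel)

theorem d8_z222 : D8 (D := (ZMod 2 × ZMod 2) × ZMod 2) (· + ·) 0 (fun d => d = 0) 7 :=
  D8.of (dc (dc Nat.cast 2) 2)
    [3, 2, 7, 1, 5, 6, 4]
    [1, 5, 6, 4, 3, 2, 7]
    3 2 1 5 (by decide +kernel)

theorem d3_z82 : D3 (mc 8 2 1 0) 0 (fun d => d = 0) 15 (1, 0) (0, 1) 0 :=
  D3.of (dc Nat.cast 2)
    [2, 1, 15, 8, 4, 14, 6, 3, 9, 12, 5, 7, 11, 10, 13]
    [15, 14, 11, 12, 10, 8, 13, 6, 5, 9, 2, 4, 1, 3, 7]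
    1 (by decide +kernel)

theorem d3_z162 : D3 (mc 16 2 1 0) 0 (fun d => d = 0) 31 (1, 0) (0, 1) 0 :=
  D3.of (dc Nat.cast 2)
    [2, 1, 31, 13, 29, 3, 25, 28, 11, 21, 12, 6, 18, 9, 14, 22, 24, 10, 5, 20, 8, 17, 16, 19, 4,
    15, 7, 26, 30, 27, 23]
    [31, 30, 14, 16, 6, 22, 5, 15, 10, 25, 26, 12, 23, 7, 8, 2, 18, 27, 17, 20, 9, 1, 3, 19, 11,
    24, 21, 4, 29, 28, 13]
    1 (by decide +kernel)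

theorem d3_z8 : D3 (D := ZMod 8) (· + ·) 0 (fun d => d = 0 ∨ d = 4) 6 1 3 0 :=
  D3.of Nat.cast
    [1, 3, 2, 7, 5, 6]
    [2, 7, 5, 6, 1, 3]
    1 (by decide +kernel)

theorem d3w_z8_0 : D3w (D := ZMod 8) (· + ·) 0 (fun d => d = 0 ∨ d = 4) 6 1 3 0 :=
  D3w.of Nat.cast
    [1, 3, 2, 7, 5, 6]
    [2, 7, 5, 6, 1, 3]
    1 (by decide +kernel)

theorem d3_z9 : D3 (D := ZMod 9) (· + ·) 0 (fun d => d = 0 ∨ d = 3 ∨ d = 6) 6 1 5 0 :=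
  D3.of Nat.cast
    [1, 5, 4, 2, 7, 8]
    [4, 8, 7, 5, 1, 2]
    1 (by decide +kernel)

theorem d3w_z9_0 : D3w (D := ZMod 9) (· + ·) 0 (fun d => d = 0 ∨ d = 3 ∨ d = 6) 6 1 5 0 :=
  D3w.of Nat.cast
    [1, 5, 4, 2, 7, 8]
    [4, 8, 7, 5, 1, 2]
    1 (by decide +kernel)

theorem d3w_z9_3 : D3w (D := ZMod 9) (· + ·) 0 (fun d => d = 0 ∨ d = 3 ∨ d = 6) 6 1 5 3 :=
  D3w.of Nat.cast
    [1, 8, 4, 5, 7, 2]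
    [7, 5, 1, 2, 4, 8]
    3 (by decide +kernel)

theorem d3w_z9_6 : D3w (D := ZMod 9) (· + ·) 0 (fun d => d = 0 ∨ d = 3 ∨ d = 6) 6 1 5 6 :=
  D3w.of Nat.cast
    [1, 2, 4, 8, 7, 5]
    [1, 2, 4, 8, 7, 5]
    5 (by decide +kernel)

theorem d3_z12 : D3 (D := ZMod 12) (· + ·) 0 (fun d => d = 0 ∨ d = 6) 10 1 3 0 :=
  D3.of Nat.cast
    [1, 3, 2, 9, 7, 11, 8, 4, 5, 10]
    [2, 11, 7, 10, 4, 9, 8, 1, 5, 3]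
    1 (by decide +kernel)

theorem d3w_z12_0 : D3w (D := ZMod 12) (· + ·) 0 (fun d => d = 0 ∨ d = 6) 10 1 3 0 :=
  D3w.of Nat.cast
    [1, 3, 2, 10, 5, 9, 7, 8, 11, 4]
    [2, 11, 8, 7, 4, 10, 1, 3, 5, 9]
    1 (by decide +kernel)

theorem d3w_z12_6 : D3w (D := ZMod 12) (· + ·) 0 (fun d => d = 0 ∨ d = 6) 10 1 3 6 :=
  D3w.of Nat.cast
    [1, 9, 4, 5, 3, 8, 10, 7, 11, 2]
    [8, 7, 1, 10, 5, 2, 9, 4, 3, 11]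
    4 (by decide +kernel)

theorem d3_z16 : D3 (D := ZMod 16) (· + ·) 0 (fun d => d = 0 ∨ d = 8) 14 1 3 0 :=
  D3.of Nat.cast
    [1, 3, 2, 7, 4, 14, 5, 9, 15, 11, 12, 10, 13, 6]
    [2, 15, 5, 13, 10, 7, 4, 6, 12, 1, 14, 3, 9, 11]
    1 (by decide +kernel)

theorem d3w_z16_0 : D3w (D := ZMod 16) (· + ·) 0 (fun d => d = 0 ∨ d = 8) 14 1 3 0 :=
  D3w.of Nat.cast
    [1, 3, 2, 5, 11, 7, 4, 9, 13, 14, 12, 6, 15, 10]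
    [2, 15, 3, 6, 12, 13, 5, 4, 1, 14, 10, 9, 11, 7]
    1 (by decide +kernel)

theorem d3w_z16_8 : D3w (D := ZMod 16) (· + ·) 0 (fun d => d = 0 ∨ d = 8) 14 1 3 8 :=
  D3w.of Nat.cast
    [1, 11, 15, 2, 3, 10, 5, 14, 13, 9, 7, 4, 6, 12]
    [10, 4, 3, 1, 7, 11, 9, 15, 12, 14, 13, 2, 6, 5]
    4 (by decide +kernel)

theorem d3_z33 : D3 (D := ZMod 3 × ZMod 3) (· + ·) 0 (fun d => d.1 = 0) 6 (1, 0) (2, 1) 0 :=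
  D3.of (dc Nat.cast 3)
    [3, 7, 4, 6, 5, 8]
    [4, 6, 5, 8, 3, 7]
    1 (by decide +kernel)

theorem d3w_z33_0 : D3w (D := ZMod 3 × ZMod 3) (· + ·) 0 (fun d => d.1 = 0) 6 (1, 0) (2, 1) (0, 0) :=
  D3w.of (dc Nat.cast 3)
    [3, 7, 4, 6, 5, 8]
    [4, 6, 5, 8, 3, 7]
    1 (by decide +kernel)

theorem d3w_z33_1 : D3w (D := ZMod 3 × ZMod 3) (· + ·) 0 (fun d => d.1 = 0) 6 (1, 0) (2, 1) (0, 1) :=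
  D3w.of (dc Nat.cast 3)
    [3, 8, 4, 7, 5, 6]
    [5, 8, 3, 7, 4, 6]
    3 (by decide +kernel)

theorem d3w_z33_2 : D3w (D := ZMod 3 × ZMod 3) (· + ·) 0 (fun d => d.1 = 0) 6 (1, 0) (2, 1) (0, 2) :=
  D3w.of (dc Nat.cast 3)
    [3, 6, 4, 8, 5, 7]
    [3, 7, 4, 6, 5, 8]
    5 (by decide +kernel)

theorem d3_v4 : D3 (D := ZMod 2 × ZMod 2) (· + ·) 0 (fun d => d = 0) 3 (1, 0) (0, 1) 0 :=
  D3.of (dc Nat.cast 2)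
    [2, 1, 3]
    [3, 2, 1]
    1 (by decide +kernel)

end Pool.Agent.SQ2
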