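import Pool.Agent.MP_f56020_al.s2.Z3T
import Pool.Agent.MP_f56020_al.s2.Data3

namespace Pool.Agent.SQ2

open Pool.Agent.SQ Multiset

universe u

variable {G : Type u} [Group G] [Finite G]

theorem cyc_frV4 : FrD (D := ZMod 2 × ZMod 2) (· + ·) (fun d => d = 0)
    [(1, 0), (0, 1), (1, 1)] [(1, 1), (1, 0), (0, 1)] := FrD.of (by decide +kernel)

theorem cyc_fr33 : FrD (D := ZMod 3 × ZMod 3) (· + ·) (fun d => d = 0)
    [(1, 0), (0, 1), (1, 1), (1, 2), (2, 0), (0, 2), (2, 2), (2, 1)]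
    [(2, 1), (1, 0), (0, 1), (1, 1), (1, 2), (2, 0), (0, 2), (2, 2)] := FrD.of (by decide +kernel)

section
variable {A : Type*} [AddCommGroup A] {M : Subgroup G} {φ : G → A}

omit [Finite G] in
theorem cyc_inv (h : Mod M (· + ·) 0 φ) (a : G) : φ a⁻¹ = -φ a := h.inv (by simp)

omit [Finite G] in
theorem cyc_mul (h : Mod M (· + ·) 0 φ) (a b : G) : φ (a * b) = φ a + φ b := h.map_mul a b

omit [Finite G] in
theorem cyc_ker [DecidableEq A] (h : Mod M (· + ·) 0 φ) (g : G) :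
    g ∈ M ↔ (fun d : A => decide (d = 0)) (φ g) = true := by
  simpa using h.ker g

omit [Finite G] in
theorem cyc_lt {H : Subgroup G} {B : A → Bool} (h : Mod M (· + ·) 0 φ) (hle : M ≤ H)
    (hH : ∀ g, g ∈ H ↔ B (φ g) = true) {b : A} (hb : B b = true) (h0 : b ≠ 0) : M < H := by
  obtain ⟨g, rfl⟩ := h.surj b
  exact lt_of_le_of_ne hle fun e => h0 ((h.ker g).1 (e ▸ (hH g).2 hb))

omit [Finite G] [AddCommGroup A] in
theorem cyc_ne_top {H : Subgroup G} {B : A → Bool} (hs : Function.Surjective φ)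
    (hH : ∀ g, g ∈ H ↔ B (φ g) = true) {b : A} (hb : B b = false) : H ≠ ⊤ := by
  obtain ⟨g, rfl⟩ := hs b
  intro e
  have := (hH g).1 (e ▸ Subgroup.mem_top g)
  simp [hb] at this

theorem cyc_three {H : Subgroup G} (h : NC H) : 3 < Nat.card H :=
  Nat.lt_of_lt_of_le (by norm_num) (Nat.le_of_dvd Nat.card_pos h.four_dvd)

end

/-- The cycle over the four group. -/
theorem cyc_v4R {M : Subgroup G} {φ : G → ZMod 2 × ZMod 2} (h : Mod M (· + ·) 0 φ) (hM : M ≠ ⊥)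
    (hR : RG M) : RG G := by
  obtain ⟨c, hc⟩ := fib_odd hR (m := 3) (by decide)
  obtain ⟨f, hf, hφ⟩ := h.fr (cyc_ker h) cyc_frV4 (by simp)
  obtain ⟨q, hq⟩ := h.surj (1, 1)
  have key : ∃ s, φ s = (0, 1) ∧ ∃ w' : M, s * (c 2 w' : G) * s * w' ≠ 1 := by
    by_cases hs : ∃ s, φ s = (0, 1) ∧ s * s ≠ 1
    · obtain ⟨s, h1, h2⟩ := hs
      exact ⟨s, h1, 1, by simpa [hc.one] using h2⟩
    · push Not at hs
      obtain ⟨s, h1⟩ := h.surj (0, 1)
      have : Nontrivial M := (Subgroup.nontrivial_iff_ne_bot M).2 hM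
      obtain ⟨w, hw⟩ := exists_ne (1 : M)
      refine ⟨s, h1, w, fun e => (hc.ne 2 hw).2 (Subtype.ext ?_)⟩
      have h2 := hs (s * (c 2 w : G)) (by rw [cyc_mul h, h1, (h.ker _).1 (c 2 w).2, add_zero])
      have h3 : s * (c 2 w : G) * s * (c 2 w : G) = s * (c 2 w : G) * s * w := by
        rw [e, ← h2]; group
      exact mul_left_cancel h3
  obtain ⟨s, hs, w', hw'⟩ := key
  have hk : ∀ w : M, φ w = 0 := fun w => (h.ker _).1 w.2
  have hz : s * (c 2 w' : G) * s * w' ∈ M := by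
    rw [h.ker]
    simp only [cyc_mul h, hs, hk]
    decide
  obtain ⟨w, hw⟩ := (hc.orth 1).1.2 ⟨_, hz⟩
  have hw1 : w ≠ 1 := by
    rintro rfl
    rw [hc.one] at hw
    exact hw' (congrArg Subtype.val hw).symm
  have hwv : (c 1 w : G) = s * (c 2 w' : G) * s * w' := congrArg Subtype.val hw
  have hη : s⁻¹ * (w : G)⁻¹ * s ∈ M := by
    rw [h.ker]
    simp only [cyc_mul h, cyc_inv h, hk]
    abel
  have hη1 : s⁻¹ * (w : G)⁻¹ * s ≠ 1 := fun e => hw1 (Subtype.ext (by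
    have : (w : G) = s * (s⁻¹ * (w : G)⁻¹ * s)⁻¹ * s⁻¹ := by group
    rw [this, e]; simp))
  let τ : ℕ → G := fun j => if j = 1 then s * (s⁻¹ * (w : G)⁻¹ * s) else
    if j = 2 then (c 1 w : G)⁻¹ * (s * ((c 2 w' : G) * s * q)) else s * q
  have t0 : τ 0 = s * q := rfl
  have t1 : τ 1 = s * (s⁻¹ * (w : G)⁻¹ * s) := rfl
  have t2 : τ 2 = (c 1 w : G)⁻¹ * (s * ((c 2 w' : G) * s * q)) := rfl
  have t3 : τ 3 = s * q := rfl
  have hτ : Fr M τ 3 (ou M) (ou M) := by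
    refine Fr.congr hf (fun j hj => ?_) rfl
    rw [h.mem_iff, hφ]
    interval_cases j <;> simp only [t0, t1, t2, t3, cyc_mul h, cyc_inv h, hs, hq, hk] <;> decide
  obtain ⟨L, hT, hL⟩ := lift_on hc (by norm_num) hτ
  have k1 : (s * q, s * (s⁻¹ * (w : G)⁻¹ * s)) ∈ sgm τ 0 3 := mem_sgm τ (j := 0) (by norm_num)
  have k2 : (s, s * ((c 2 w' : G) * s * q)) ∈ L :=
    (hL 1 (by norm_num) _ _ ⟨w, by rw [t1]; group, by rw [t2]; group⟩).2
      (Or.inl fun e => hη1 (by rw [t1] at e; exact (left_eq_mul.1 e)))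
  have k3 : (q, (c 2 w' : G) * s * q) ∈ sgm τ 0 3 + L :=
    (hL 2 (by norm_num) _ _ ⟨w', by rw [t2, hwv]; group, by rw [t3]; group⟩).1
  have hs1 : s ≠ 1 := by
    rintro rfl
    rw [h.one] at hs
    exact absurd hs (by decide)
  exact ex_RR hR hη hη1 (t8 hT k1 k2 k3 hs1)

theorem top_v4 (φ : G →* Multiplicative (ZMod 2 × ZMod 2)) (hφ : Function.Surjective φ)
    (hR : RG φ.ker) : RG G ∧ (¬ Cm G → SG G) := by
  have h := Mod.ofHom φ hφ
  by_cases hM : φ.ker = ⊥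
  · refine ⟨?_, fun hc => absurd (fun a b => ?_) hc⟩
    · obtain ⟨f, hf, -⟩ := h.fr (cyc_ker h) cyc_frV4 (by simp)
      rw [hM] at hf
      exact rg_of_fr hf
    · apply (MonoidHom.ker_eq_bot_iff φ).1 hM
      rw [map_mul, map_mul, mul_comm]
  · refine ⟨cyc_v4R h hM hR, fun hc => ?_⟩
    refine topA (B := fun d => d = 0) h (cyc_ker h) (fib_odd hR (m := 3) (by decide)) hM le_rfl hR
      (u := (1, 0))
      (v := (0, 1)) (add_comm _ _) (N := 2) (by unfold Gen2; decide +kernel)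
      (Or.inl fun x hx => ?_) hc
    obtain rfl : x = 0 := by simpa using hx
    exact d3_v4

omit [Finite G] in
/-- The trade with five removed steps, four of them on the short cycle. -/
theorem cyc_t6s {X : Multiset G} {S L : Multiset (G × G)} {a b c e : G} (h : Two X X S L)
    (h1 : Cut4 S a b b (b * c⁻¹ * e) c (c * b⁻¹ * a) (b * c⁻¹ * a) a)
    (h2 : (b * c⁻¹, b * c⁻¹ * b) ∈ L) :
    ∃ A, Wk 1 e A ∧ hd A = X + {e} ∧ lb A = X + {e} := by
  obtain ⟨-, hL, hh, hl⟩ := h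
  obtain ⟨A1, A2, A3, A4, w1, w2, w3, w4, rfl⟩ := h1
  obtain ⟨L', w5, rfl⟩ := hL.cut h2
  refine ⟨_, (((((Wk.nil 1).step w1).step w4).step w3).step w5).step w2 |>.step (Wk.nil e),
    ?_, ?_⟩
  · rw [← hh]
    simp only [hd_add, hd_one, hd_zero]
    abel
  · rw [← hl]
    simp only [lb_add, lb_one, lb_zero]
    rw [show (1 : G)⁻¹ * b = (b * c⁻¹)⁻¹ * (b * c⁻¹ * b) by group,
      show b⁻¹ * a = c⁻¹ * (c * b⁻¹ * a) by group,
      show a⁻¹ * (c * b⁻¹ * a) = (b * c⁻¹ * a)⁻¹ * a by group,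
      show (b * c⁻¹ * a)⁻¹ * (b * c⁻¹ * b) = a⁻¹ * b by group,
      show (b * c⁻¹)⁻¹ * (b * c⁻¹ * e) = e by group,
      show c⁻¹ * e = b⁻¹ * (b * c⁻¹ * e) by group]
    abel

/-- The cycle over the elementary group of order nine. -/
theorem cyc_33R {M : Subgroup G} {φ : G → ZMod 3 × ZMod 3} (h : Mod M (· + ·) 0 φ) (hM : M ≠ ⊥)
    (hR : RG M) (hF : Fib M 8) : RG G := by
  obtain ⟨cc, hc⟩ := hF
  obtain ⟨f, hf, hφ⟩ := h.fr (cyc_ker h) cyc_fr33 (by simp)
  obtain ⟨a, ha⟩ := h.surj (1, 0)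
  obtain ⟨b, hb⟩ := h.surj (0, 1)
  obtain ⟨c, hc'⟩ := h.surj (2, 0)
  have : Nontrivial M := (Subgroup.nontrivial_iff_ne_bot M).2 hM
  obtain ⟨⟨e, he⟩, he1⟩ := exists_ne (1 : M)
  have he1' : e ≠ 1 := fun k => he1 (Subtype.ext k)
  have he0 : φ e = 0 := (h.ker e).1 he
  let τ : ℕ → G := fun j => if j = 0 ∨ j = 8 then a else if j = 1 then b else
    if j = 2 then b * c⁻¹ * e else if j = 4 then c else if j = 5 then c * b⁻¹ * a else
      if j = 7 then b * c⁻¹ * a else f j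
  have t0 : τ 0 = a := rfl
  have t1 : τ 1 = b := rfl
  have t2 : τ 2 = b * c⁻¹ * e := rfl
  have t3 : τ 3 = f 3 := rfl
  have t4 : τ 4 = c := rfl
  have t5 : τ 5 = c * b⁻¹ * a := rfl
  have t6 : τ 6 = f 6 := rfl
  have t7 : τ 7 = b * c⁻¹ * a := rfl
  have t8 : τ 8 = a := rfl
  have hτ : Fr M τ 8 (ou M) (ou M) := by
    refine Fr.congr hf (fun j hj => ?_) rfl
    rw [h.mem_iff]
    interval_cases j <;>
      simp only [t0, t1, t2, t3, t4, t5, t6, t7, t8, cyc_mul h, cyc_inv h, ha, hb, hc', he0,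
        hφ] <;> decide
  obtain ⟨τ', hτ', hon, hsame⟩ := addF cc hτ (k := 2) (by norm_num) (x := b * c⁻¹)
    (y := b * c⁻¹ * b)
    (by rw [h.mem_iff, t2]; simp only [cyc_mul h, he0, add_zero])
    (by rw [h.mem_iff, t3, hφ]; simp only [cyc_mul h, cyc_inv h, hb, hc']; decide)
  obtain ⟨L, hT, hL⟩ := lift_on hc (by norm_num) hτ'
  have k2 : (b * c⁻¹, b * c⁻¹ * b) ∈ L :=
    (hL 2 (by norm_num) _ _ hon).2 (Or.inl fun k => he1' (by
      rw [hsame 2 (by norm_num), t2] at k; exact left_eq_mul.1 k))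
  have k1 := cut4_sgm (τ := τ') (m := 8) (i := 0) (j := 1) (k := 4) (l := 7) hτ'.cy
    (by norm_num) (by norm_num) (by norm_num) (by norm_num)
  rw [hsame 0 (by norm_num), hsame (0 + 1) (by norm_num), hsame (1 + 1) (by norm_num),
    hsame 4 (by norm_num), hsame (4 + 1) (by norm_num), hsame 7 (by norm_num),
    hsame (7 + 1) (by norm_num)] at k1
  exact ex_RR hR he he1' (cyc_t6s hT k1 k2)

variable [Group.IsSolvable G]

/-- The common part of the cyclic tops. -/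
theorem cyc_gen (ih : IH G) {n : ℕ} {M H : Subgroup G} {φ : G → ZMod n} (h : Mod M (· + ·) 0 φ)
    (hK : NC M) {B : ZMod n → Bool} (hle : M ≤ H) (hH : ∀ g, g ∈ H ↔ B (φ g) = true)
    {b c : ZMod n} (hb : B b = true) (h0 : b ≠ 0) (hc : B c = false) {m v : ℕ} (hm : Even m)
    (hm0 : 0 < m) (hd : D3 (· + ·) 0 B m 1 (v : ZMod n) 0) :
    H ≠ ⊤ ∧ RG H ∧ Fib M m ∧ ∃ η ∈ H, η ≠ 1 ∧ Ex H η η := by
  have hlt := cyc_lt h hle hH hb h0
  have hT := cyc_ne_top h.surj hH hc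
  have hF := fib_ih ih (hlt.trans_le le_top).ne hK hm hm0
  obtain ⟨g, hg⟩ := h.surj 1
  have hv : ∀ k : ℕ, φ (g ^ k) = k := fun k => by
    induction k with
    | zero => simpa using h.one
    | succ k ik => rw [pow_succ, cyc_mul h, ik, hg, Nat.cast_succ]
  obtain ⟨η, h1, h2, h3⟩ := top3c h hH hF hK.ne_bot (U := g) (V := g ^ v)
    (by rw [hg, hv]; exact hd) ((Commute.refl g).pow_right v).eq
  exact ⟨hT, rg_ih ih hlt hT hK, hF, η, hle h1, h2, h3⟩

theorem cyc_top (ih : IH G) {n : ℕ} (φ : G →* Multiplicative (ZMod n))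
    (hφ : Function.Surjective φ) (hK : NC φ.ker) (B : ZMod n → Bool) (he : B 0 = true)
    (hB : ∀ x y, B x = true → B y = true → B (x + y) = true) (b c : ZMod n) (hb : B b = true)
    (h0 : b ≠ 0) (hc : B c = false) {m : ℕ} (v : ℕ) (hm : Even m) (hm0 : 0 < m)
    (hd : D3 (· + ·) 0 B m 1 (v : ZMod n) 0) (hg : Gen2 (· + ·) 0 1 (v : ZMod n) n)
    (hw : ∀ x, B x = true → D3w (· + ·) 0 B m 1 (v : ZMod n) x) :
    RG G ∧ (¬ Cm G → SG G) := by
  have h := Mod.ofHom φ hφ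
  obtain ⟨H, hle, hH⟩ := h.sub B he hB
  obtain ⟨-, hR, hF, η, h1, h2, h3⟩ := cyc_gen ih h hK hle hH hb h0 hc hm hm0 hd
  exact ⟨ex_RR hR h1 h2 h3, topA h hH hF hK.ne_bot hle hR (add_comm _ _) hg
    (Or.inr ⟨cyc_three (hK.mono hle), hw⟩)⟩

theorem top_z8 (ih : IH G) (hn : ¬ NN G) (φ : G →* Multiplicative (ZMod 8))
    (hφ : Function.Surjective φ) : RG G ∧ SG G := by
  have h := Mod.ofHom φ hφ
  have hK : NC φ.ker := g3 hn (L := φ.ker) (k := 3) (o := 1) (by rw [h.index]; simp) le_rfl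
    (by rw [h.index]; simp) odd_one
  obtain ⟨H, hle, h'⟩ := h.map (mul' := (· + ·)) (e' := 0) (fun d => (d.val : ZMod 4))
    (by decide) (by decide) (by decide)
  have hH : ∀ g, g ∈ H ↔ (fun d : ZMod 8 => decide (d = 0 ∨ d = 4)) (φ g).toAdd = true :=
    fun g => (h'.ker g).trans
      ((by decide : ∀ d : ZMod 8, (d.val : ZMod 4) = 0 ↔ decide (d = 0 ∨ d = 4) = true) _)
  obtain ⟨hT, hR, -, η, h1, h2, h3⟩ := cyc_gen ih h hK hle hH (b := 4) (c := 1) (by decide)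
    (by decide) (by decide) (m := 6) (v := 3) (by decide) (by decide) d3_z8
  have := h'.normal
  have hN : ¬ NN H := fun k => hn (nn_up (L := H) (k := 2) (by rw [h'.index]; simp) k)
  exact ⟨ex_RR hR h1 h2 h3, ex_SS (sg_ih ih hT (hK.mono hle) (fun k => hN (nn_of_cm k))
    fun k => hN (nn_of_two (k := 3) k)) h1 h2 h3⟩

theorem top_z9 (ih : IH G) (φ : G →* Multiplicative (ZMod 9)) (hφ : Function.Surjective φ)
    (hK : NC φ.ker) : RG G ∧ (¬ Cm G → SG G) :=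
  cyc_top ih φ hφ hK (fun d => d = 0 ∨ d = 3 ∨ d = 6) (by decide) (by decide) 3 1 (by decide)
    (by decide) (by decide) 5 (by decide) (by decide) d3_z9 (by unfold Gen2; decide +kernel)
    fun x hx => by
      rcases of_decide_eq_true hx with rfl | rfl | rfl
      exacts [d3w_z9_0, d3w_z9_3, d3w_z9_6]

theorem top_z12 (ih : IH G) (φ : G →* Multiplicative (ZMod 12)) (hφ : Function.Surjective φ)
    (hK : NC φ.ker) : RG G ∧ (¬ Cm G → SG G) :=
  cyc_top ih φ hφ hK (fun d => d = 0 ∨ d = 6) (by decide) (by decide) 6 1 (by decide)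
    (by decide) (by decide) 3 (by decide) (by decide) d3_z12 (by unfold Gen2; decide +kernel)
    fun x hx => by
      rcases of_decide_eq_true hx with rfl | rfl
      exacts [d3w_z12_0, d3w_z12_6]

theorem top_z16 (ih : IH G) (φ : G →* Multiplicative (ZMod 16)) (hφ : Function.Surjective φ)
    (hK : NC φ.ker) : RG G ∧ (¬ Cm G → SG G) :=
  cyc_top ih φ hφ hK (fun d => d = 0 ∨ d = 8) (by decide) (by decide) 8 1 (by decide)
    (by decide) (by decide) 3 (by decide) (by decide) d3_z16 (by unfold Gen2; decide +kernel)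
    fun x hx => by
      rcases of_decide_eq_true hx with rfl | rfl
      exacts [d3w_z16_0, d3w_z16_8]

theorem top_z33 (ih : IH G) (φ : G →* Multiplicative (ZMod 3 × ZMod 3))
    (hφ : Function.Surjective φ) (hK : NC φ.ker) : RG G ∧ (¬ Cm G → SG G) := by
  have h := Mod.ofHom φ hφ
  obtain ⟨H, hle, hH⟩ := h.sub (fun d => d.1 = 0) (by decide) (by decide)
  have hlt := cyc_lt (B := fun d => d.1 = 0) h hle hH (b := (0, 1)) (by decide) (by decide)
  have hT := cyc_ne_top (B := fun d => d.1 = 0) h.surj hH (b := (1, 0)) (by decide)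
  have hKT : φ.ker ≠ ⊤ := (hlt.trans_le le_top).ne
  have hF := fib_ih ih hKT hK (m := 6) (by decide) (by decide)
  have hR := rg_ih ih hlt hT hK
  refine ⟨?_, topA (B := fun d => d.1 = 0) h hH hF hK.ne_bot hle hR (u := (1, 0)) (v := (2, 1))
    (add_comm _ _) (N := 3) (by unfold Gen2; decide +kernel)
    (Or.inr ⟨cyc_three (hK.mono hle), fun x hx => ?_⟩)⟩
  · by_cases hq : Q8x φ.ker
    · obtain ⟨P, hP⟩ := Subgroup.exists_right_complement'_of_coprime (N := φ.ker)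
        (by rw [hq.1, h.index]; simp; norm_num)
      have hs : ∀ d, ∃ p ∈ P, (φ p).toAdd = d := fun d => by
        obtain ⟨g, hg⟩ := h.surj d
        obtain ⟨⟨k, p⟩, rfl⟩ := hP.2 g
        refine ⟨p, p.2, ?_⟩
        have hk : φ k = 1 := k.2
        simpa [hk] using hg
      obtain ⟨U, hU, hU'⟩ := hs (1, 0)
      obtain ⟨V, hV, hV'⟩ := hs (2, 1)
      have hc : U * V = V * U := by
        have h1 : U * V * (V * U)⁻¹ ∈ φ.ker := by
          rw [MonoidHom.mem_ker, map_mul, map_inv, map_mul, map_mul, mul_comm (φ U),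
            mul_inv_cancel]
        have h2 : U * V * (V * U)⁻¹ ∈ P := P.mul_mem (P.mul_mem hU hV) (P.inv_mem (P.mul_mem hV hU))
        exact mul_inv_eq_one.1 (Subgroup.disjoint_def.1 hP.disjoint h1 h2)
      obtain ⟨η, h1, h2, h3⟩ := top3c (B := fun d => d.1 = 0) h hH hF hK.ne_bot (U := U) (V := V)
        (by simp only [hU', hV']; exact d3_z33) hc
      exact ex_RR hR (hle h1) h2 h3
    · exact cyc_33R h hK.ne_bot ((ih φ.ker (card_lt hKT) hK).1 hq)
        (fib_ih ih hKT hK (by decide) (by decide))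
  · obtain ⟨x1, x2⟩ := x
    obtain rfl : x1 = 0 := of_decide_eq_true hx
    rcases (by decide : ∀ y : ZMod 3, y = 0 ∨ y = 1 ∨ y = 2) x2 with rfl | rfl | rfl
    exacts [d3w_z33_0, d3w_z33_1, d3w_z33_2]

end Pool.Agent.SQ2
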